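import Pool.Agent.H964.WN.Path

/-!
# Piecewise continuously differentiable paths and the distance
-/

set_option autoImplicit false

namespace Pool.Agent.H964.W

open MeasureTheory Real Filter Topology
open scoped ENNReal

variable {E : Type*} [NormedAddCommGroup E] [NormedSpace ℝ E]

/-- Piecewise continuously differentiable paths `[0, 1] → E`: continuous, and there is a finite set
such that the path is continuously differentiable on every closed interval whose interior does not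
meet the finite set. -/
structure PwC1 (γ : ℝ → E) : Prop where
  cont : ContinuousOn γ (Set.Icc 0 1)
  pw : ∃ s : Finset ℝ, ∀ a b : ℝ, 0 ≤ a → a < b → b ≤ 1 → Disjoint (Set.Ioo a b) (s : Set ℝ) →
    ContDiffOn ℝ 1 γ (Set.Icc a b)

theorem int_aux {γ : ℝ → E} {s : Finset ℝ} (hs : ∀ a b : ℝ, 0 ≤ a → a < b → b ≤ 1 →
    Disjoint (Set.Ioo a b) (s : Set ℝ) → ContDiffOn ℝ 1 γ (Set.Icc a b)) : ∀ (n : ℕ) (a b : ℝ), 0 ≤ a →
    a ≤ b → b ≤ 1 → (s.filter fun x => a < x ∧ x < b).card ≤ n → IntervalIntegrable (deriv γ) volume a b := by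
  intro n
  induction n with
  | zero =>
    intro a b ha hab hb hc
    rcases hab.eq_or_lt with h | h
    · rw [h]
    · have hdis : Disjoint (Set.Ioo a b) (s : Set ℝ) := by
        rw [Set.disjoint_left]
        intro x hx hxs
        have hc0 := Nat.le_zero.1 hc
        rw [Finset.card_eq_zero] at hc0
        have : x ∈ s.filter fun x => a < x ∧ x < b := by
          rw [Finset.mem_filter]; exact ⟨hxs, hx.1, hx.2⟩
        rw [hc0] at this
        exact absurd this (Finset.notMem_empty x)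
      have hcd := hs a b ha h hb hdis
      have h1 : ContinuousOn (derivWithin γ (Set.Icc a b)) (Set.Icc a b) :=
        hcd.continuousOn_derivWithin (uniqueDiffOn_Icc h) le_rfl
      have h2 : IntervalIntegrable (derivWithin γ (Set.Icc a b)) volume a b := by
        apply ContinuousOn.intervalIntegrable
        rw [Set.uIcc_of_le hab]
        exact h1
      apply h2.congr_ae
      rw [Set.uIoc_of_le hab]
      have : ∀ᵐ t ∂(volume.restrict (Set.Ioc a b)), t ∈ Set.Ioo a b := by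
        rw [← restrict_Ioo_eq_restrict_Ioc]
        exact ae_restrict_mem measurableSet_Ioo
      filter_upwards [this] with t ht
      exact derivWithin_of_mem_nhds (Icc_mem_nhds ht.1 ht.2)
  | succ n ih =>
    intro a b ha hab hb hc
    by_cases hex : ∃ c ∈ s, a < c ∧ c < b
    · obtain ⟨c, hcs, hac, hcb⟩ := hex
      have hmem : c ∈ s.filter fun x => a < x ∧ x < b := by
        rw [Finset.mem_filter]; exact ⟨hcs, hac, hcb⟩
      have h1 : (s.filter fun x => a < x ∧ x < c).card ≤ n := by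
        have : (s.filter fun x => a < x ∧ x < c) ⊆ (s.filter fun x => a < x ∧ x < b).erase c := by
          intro x hx
          rw [Finset.mem_filter] at hx
          rw [Finset.mem_erase, Finset.mem_filter]
          exact ⟨hx.2.2.ne, hx.1, hx.2.1, hx.2.2.trans hcb⟩
        have h3 := Finset.card_le_card this
        rw [Finset.card_erase_of_mem hmem] at h3
        omega
      have h2 : (s.filter fun x => c < x ∧ x < b).card ≤ n := by
        have : (s.filter fun x => c < x ∧ x < b) ⊆ (s.filter fun x => a < x ∧ x < b).erase c := by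
          intro x hx
          rw [Finset.mem_filter] at hx
          rw [Finset.mem_erase, Finset.mem_filter]
          exact ⟨hx.2.1.ne', hx.1, hac.trans hx.2.1, hx.2.2⟩
        have h3 := Finset.card_le_card this
        rw [Finset.card_erase_of_mem hmem] at h3
        omega
      exact (ih a c ha hac.le (hcb.le.trans hb) h1).trans (ih c b (ha.trans hac.le) hcb.le hb h2)
    · apply ih a b ha hab hb
      have : (s.filter fun x => a < x ∧ x < b) = ∅ := by
        rw [Finset.filter_eq_empty_iff]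
        intro x hx hx2
        exact hex ⟨x, hx, hx2⟩
      rw [this]; simp

theorem PwC1.isPath {γ : ℝ → E} (h : PwC1 γ) : IsPath γ := by
  obtain ⟨s, hs⟩ := h.pw
  refine ⟨h.cont, ⟨s, s.countable_toSet, ?_⟩, int_aux hs _ 0 1 le_rfl zero_le_one le_rfl le_rfl⟩
  rintro t ⟨ht, hts⟩
  have hopen : IsOpen (Set.Ioo (0 : ℝ) 1 ∩ (s : Set ℝ)ᶜ) :=
    isOpen_Ioo.inter s.finite_toSet.isClosed.isOpen_compl
  obtain ⟨e, he, hball⟩ := Metric.isOpen_iff.1 hopen t ⟨ht, hts⟩
  have hin : ∀ x, |x - t| < e → x ∈ Set.Ioo (0 : ℝ) 1 ∩ (s : Set ℝ)ᶜ := fun x hx =>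
    hball (by rw [Metric.mem_ball, Real.dist_eq]; exact hx)
  have ha := (hin (t - e / 2) (by rw [abs_lt]; constructor <;> linarith)).1
  have hb := (hin (t + e / 2) (by rw [abs_lt]; constructor <;> linarith)).1
  have hcd := hs (t - e / 2) (t + e / 2) ha.1.le (by linarith) hb.2.le (by
    rw [Set.disjoint_left]
    intro x hx hxs
    exact (hin x (by rw [abs_lt]; constructor <;> linarith [hx.1, hx.2])).2 hxs)
  exact (hcd.differentiableOn one_ne_zero).differentiableAt (Icc_mem_nhds (by linarith) (by linarith))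

/-- concatenation -/
noncomputable def cat (γ₁ γ₂ : ℝ → E) (t : ℝ) : E := if t ≤ 1 / 2 then γ₁ (2 * t) else γ₂ (2 * t - 1)

omit [NormedAddCommGroup E] [NormedSpace ℝ E] in
theorem cat_left (γ₁ γ₂ : ℝ → E) {t : ℝ} (ht : t ≤ 1 / 2) : cat γ₁ γ₂ t = γ₁ (2 * t) := by
  unfold cat; rw [if_pos ht]

omit [NormedAddCommGroup E] [NormedSpace ℝ E] in
theorem cat_right {γ₁ γ₂ : ℝ → E} (h : γ₁ 1 = γ₂ 0) {t : ℝ} (ht : 1 / 2 ≤ t) :
    cat γ₁ γ₂ t = γ₂ (2 * t - 1) := by
  rcases ht.eq_or_lt with h1 | h1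
  · rw [← h1, cat_left _ _ le_rfl]
    norm_num
    exact h
  · unfold cat; rw [if_neg (not_le.2 h1)]

theorem deriv_cat_left (γ₁ γ₂ : ℝ → E) {t : ℝ} (ht : t < 1 / 2) :
    deriv (cat γ₁ γ₂) t = (2 : ℝ) • deriv γ₁ (2 * t) := by
  have h1 : cat γ₁ γ₂ =ᶠ[𝓝 t] fun t => γ₁ (2 * t) := by
    filter_upwards [Iio_mem_nhds ht] with x hx
    exact cat_left _ _ (le_of_lt hx)
  rw [h1.deriv_eq, deriv_comp_mul_left]

theorem deriv_cat_right {γ₁ γ₂ : ℝ → E} (h : γ₁ 1 = γ₂ 0) {t : ℝ} (ht : 1 / 2 < t) :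
    deriv (cat γ₁ γ₂) t = (2 : ℝ) • deriv γ₂ (2 * t - 1) := by
  have h1 : cat γ₁ γ₂ =ᶠ[𝓝 t] fun t => (fun x => γ₂ (x - 1)) (2 * t) := by
    filter_upwards [Ioi_mem_nhds ht] with x hx
    exact cat_right h (le_of_lt hx)
  rw [h1.deriv_eq, deriv_comp_mul_left (2 : ℝ) (fun x => γ₂ (x - 1)) t, deriv_comp_sub_const]

theorem PwC1.cat {γ₁ γ₂ : ℝ → E} (h₁ : PwC1 γ₁) (h₂ : PwC1 γ₂) (h : γ₁ 1 = γ₂ 0) :
    PwC1 (cat γ₁ γ₂) := by
  constructor
  · have hu : Set.Icc (0 : ℝ) 1 = Set.Icc 0 (1 / 2) ∪ Set.Icc (1 / 2) 1 := by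
      rw [Set.Icc_union_Icc_eq_Icc] <;> norm_num
    rw [hu]
    apply ContinuousOn.union_of_isClosed _ _ isClosed_Icc isClosed_Icc
    · have h3 : ContinuousOn (fun t : ℝ => γ₁ (2 * t)) (Set.Icc 0 (1 / 2)) := by
        apply h₁.cont.comp (by fun_prop)
        intro t ht
        exact ⟨by linarith [ht.1], by linarith [ht.2]⟩
      exact h3.congr fun t ht => cat_left _ _ ht.2
    · have h3 : ContinuousOn (fun t : ℝ => γ₂ (2 * t - 1)) (Set.Icc (1 / 2) 1) := by
        apply h₂.cont.comp (by fun_prop)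
        intro t ht
        exact ⟨by linarith [ht.1], by linarith [ht.2]⟩
      exact h3.congr fun t ht => cat_right h ht.1
  · obtain ⟨s₁, d₁⟩ := h₁.pw
    obtain ⟨s₂, d₂⟩ := h₂.pw
    classical
    refine ⟨{1 / 2} ∪ (s₁.image (fun x => x / 2) ∪ s₂.image (fun x => (x + 1) / 2)), ?_⟩
    intro a b ha hab hb hdis
    rw [Set.disjoint_left] at hdis
    have n1 : ¬ (1 / 2 : ℝ) ∈ Set.Ioo a b := by
      intro hm
      apply hdis hm
      rw [Finset.mem_coe, Finset.mem_union, Finset.mem_singleton]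
      exact Or.inl rfl
    have n2 : ∀ x ∈ s₁, ¬ x / 2 ∈ Set.Ioo a b := by
      intro x hx hm
      apply hdis hm
      rw [Finset.mem_coe, Finset.mem_union, Finset.mem_union]
      exact Or.inr (Or.inl (Finset.mem_image.2 ⟨x, hx, rfl⟩))
    have n3 : ∀ x ∈ s₂, ¬ (x + 1) / 2 ∈ Set.Ioo a b := by
      intro x hx hm
      apply hdis hm
      rw [Finset.mem_coe, Finset.mem_union, Finset.mem_union]
      exact Or.inr (Or.inr (Finset.mem_image.2 ⟨x, hx, rfl⟩))
    rcases le_or_gt b (1 / 2) with hb2 | hb2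
    · have h3 : ContDiffOn ℝ 1 γ₁ (Set.Icc (2 * a) (2 * b)) := by
        apply d₁ (2 * a) (2 * b) (by linarith) (by linarith) (by linarith)
        rw [Set.disjoint_left]
        intro x hx hxs
        exact n2 x hxs ⟨by linarith [hx.1], by linarith [hx.2]⟩
      have h4 : ContDiffOn ℝ 1 (fun t : ℝ => γ₁ (2 * t)) (Set.Icc a b) := by
        apply h3.comp (by fun_prop : ContDiffOn ℝ 1 (fun t : ℝ => 2 * t) (Set.Icc a b))
        intro t ht
        exact ⟨by linarith [ht.1], by linarith [ht.2]⟩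
      exact h4.congr fun t ht => cat_left _ _ (ht.2.trans hb2)
    · have ha2 : 1 / 2 ≤ a := by
        by_contra hcon
        push Not at hcon
        exact n1 ⟨hcon, hb2⟩
      have h3 : ContDiffOn ℝ 1 γ₂ (Set.Icc (2 * a - 1) (2 * b - 1)) := by
        apply d₂ (2 * a - 1) (2 * b - 1) (by linarith) (by linarith) (by linarith)
        rw [Set.disjoint_left]
        intro x hx hxs
        exact n3 x hxs ⟨by linarith [hx.1], by linarith [hx.2]⟩
      have h4 : ContDiffOn ℝ 1 (fun t : ℝ => γ₂ (2 * t - 1)) (Set.Icc a b) := by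
        apply h3.comp (by fun_prop : ContDiffOn ℝ 1 (fun t : ℝ => 2 * t - 1) (Set.Icc a b))
        intro t ht
        exact ⟨by linarith [ht.1], by linarith [ht.2]⟩
      exact h4.congr fun t ht => cat_right h (ha2.trans ht.1)

theorem len_cat {γ₁ γ₂ : ℝ → E} (h₁ : PwC1 γ₁) (h₂ : PwC1 γ₂) (h : γ₁ 1 = γ₂ 0) (ξ : ℝ) {g : E → ℝ}
    (hg : Continuous g) : len ξ g (cat γ₁ γ₂) = len ξ g γ₁ + len ξ g γ₂ := by
  have hc := (h₁.cat h₂ h).isPath.int_len ξ hg
  have e1 : ∫ t in (0 : ℝ)..(1 / 2), exp (ξ * g (cat γ₁ γ₂ t)) * ‖deriv (cat γ₁ γ₂) t‖ = len ξ g γ₁ := by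
    have : ∫ t in (0 : ℝ)..(1 / 2), exp (ξ * g (cat γ₁ γ₂ t)) * ‖deriv (cat γ₁ γ₂) t‖ =
        ∫ t in (0 : ℝ)..(1 / 2), (fun t => 2 * (exp (ξ * g (γ₁ t)) * ‖deriv γ₁ t‖)) (2 * t) := by
      apply intervalIntegral.integral_congr_ae
      have h3 : ∀ᵐ t : ℝ, t ≠ 1 / 2 := by
        rw [ae_iff]
        simp
      filter_upwards [h3] with t h4 ht
      rw [Set.uIoc_of_le (by norm_num)] at ht
      rw [deriv_cat_left _ _ (lt_of_le_of_ne ht.2 h4), cat_left _ _ ht.2, norm_smul]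
      norm_num
      ring
    have h5 := intervalIntegral.integral_comp_mul_left (a := 0) (b := 1 / 2)
      (fun t => 2 * (exp (ξ * g (γ₁ t)) * ‖deriv γ₁ t‖)) (two_ne_zero (α := ℝ))
    rw [this]
    refine h5.trans ?_
    rw [mul_zero, show (2 : ℝ) * (1 / 2) = 1 by norm_num, intervalIntegral.integral_const_mul, len,
      smul_eq_mul]
    ring
  have e2 : ∫ t in (1 / 2 : ℝ)..1, exp (ξ * g (cat γ₁ γ₂ t)) * ‖deriv (cat γ₁ γ₂) t‖ = len ξ g γ₂ := by
    have : ∫ t in (1 / 2 : ℝ)..1, exp (ξ * g (cat γ₁ γ₂ t)) * ‖deriv (cat γ₁ γ₂) t‖ =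
        ∫ t in (1 / 2 : ℝ)..1, (fun t => 2 * (exp (ξ * g (γ₂ t)) * ‖deriv γ₂ t‖)) (2 * t - 1) := by
      apply intervalIntegral.integral_congr_ae
      apply Eventually.of_forall
      intro t ht
      rw [Set.uIoc_of_le (by norm_num)] at ht
      rw [deriv_cat_right h ht.1, cat_right h ht.1.le, norm_smul]
      norm_num
      ring
    have h5 := intervalIntegral.integral_comp_mul_sub (a := 1 / 2) (b := 1)
      (fun t => 2 * (exp (ξ * g (γ₂ t)) * ‖deriv γ₂ t‖)) (two_ne_zero (α := ℝ)) 1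
    rw [this]
    refine h5.trans ?_
    rw [show (2 : ℝ) * (1 / 2) - 1 = 0 by norm_num, show (2 : ℝ) * 1 - 1 = 1 by norm_num,
      intervalIntegral.integral_const_mul, len, smul_eq_mul]
    ring
  have i1 : IntervalIntegrable (fun t => exp (ξ * g (cat γ₁ γ₂ t)) * ‖deriv (cat γ₁ γ₂) t‖) volume 0 (1 / 2) := by
    apply hc.mono_set
    rw [Set.uIcc_of_le (by norm_num), Set.uIcc_of_le (by norm_num)]
    exact Set.Icc_subset_Icc le_rfl (by norm_num)
  have i2 : IntervalIntegrable (fun t => exp (ξ * g (cat γ₁ γ₂ t)) * ‖deriv (cat γ₁ γ₂) t‖) volume (1 / 2) 1 := by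
    apply hc.mono_set
    rw [Set.uIcc_of_le (by norm_num), Set.uIcc_of_le (by norm_num)]
    exact Set.Icc_subset_Icc (by norm_num) le_rfl
  rw [← e1, ← e2, len, intervalIntegral.integral_add_adjacent_intervals i1 i2]

/-- the distance in `U`: infimum of the lengths of the paths -/
noncomputable def DE (ξ : ℝ) (g : E → ℝ) (U : Set E) (u v : E) : ℝ≥0∞ :=
  ⨅ γ : {γ : ℝ → E // PwC1 γ ∧ γ 0 = u ∧ γ 1 = v ∧ ∀ t ∈ Set.Icc (0 : ℝ) 1, γ t ∈ U},
    ENNReal.ofReal (len ξ g γ.1)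

theorem len_nonneg (ξ : ℝ) (g : E → ℝ) (γ : ℝ → E) : 0 ≤ len ξ g γ := by
  unfold len
  apply intervalIntegral.integral_nonneg (by norm_num)
  intro t _
  positivity

theorem DE_triangle (ξ : ℝ) {g : E → ℝ} (hg : Continuous g) (U : Set E) (u v w : E) :
    DE ξ g U u w ≤ DE ξ g U u v + DE ξ g U v w := by
  unfold DE
  rw [ENNReal.iInf_add]
  apply le_iInf
  rintro ⟨γ₁, h₁, a₁, b₁, c₁⟩
  rw [ENNReal.add_iInf]
  apply le_iInf
  rintro ⟨γ₂, h₂, a₂, b₂, c₂⟩
  have hc : γ₁ 1 = γ₂ 0 := by rw [b₁, a₂]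
  have q1 : cat γ₁ γ₂ 0 = u := by rw [cat_left _ _ (by norm_num), mul_zero, a₁]
  have q2 : cat γ₁ γ₂ 1 = w := by rw [cat_right hc (by norm_num)]; norm_num; exact b₂
  have q3 : ∀ t ∈ Set.Icc (0 : ℝ) 1, cat γ₁ γ₂ t ∈ U := by
    intro t ht
    rcases le_total t (1 / 2) with h3 | h3
    · rw [cat_left _ _ h3]
      exact c₁ _ ⟨by linarith [ht.1], by linarith⟩
    · rw [cat_right hc h3]
      exact c₂ _ ⟨by linarith, by linarith [ht.2]⟩
  refine (iInf_le _ ⟨cat γ₁ γ₂, h₁.cat h₂ hc, q1, q2, q3⟩).trans ?_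
  simp only
  rw [len_cat h₁ h₂ hc ξ hg, ENNReal.ofReal_add (len_nonneg _ _ _) (len_nonneg _ _ _)]

theorem deriv_pt (a b : E) (t : ℝ) : deriv (pt a b) t = b - a := by
  have h1 : HasDerivAt (fun t : ℝ => t • (b - a)) ((1 : ℝ) • (b - a)) t :=
    (hasDerivAt_id t).smul_const (b - a)
  have := h1.const_add a
  rw [one_smul] at this
  exact this.deriv

/-- straight segments -/
theorem pt_pwC1 (a b : E) : PwC1 (pt a b) := by
  refine ⟨(pt_continuous a b).continuousOn, ⟨∅, fun a' b' _ _ _ _ => ?_⟩⟩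
  have : ContDiff ℝ 1 (pt a b) := by
    unfold pt
    fun_prop
  exact this.contDiffOn

/-- Riemann sums -/
theorem riem {f : ℝ → ℝ} (hf : Continuous f) {δ : ℝ} (hδ : 0 < δ) :
    ∀ᶠ N : ℕ in atTop, ∫ t in (0 : ℝ)..1, f t ≤
      (∑ i ∈ Finset.range (N + 1), f ((i : ℝ) / (N + 1 : ℕ)) / (N + 1 : ℕ)) + δ := by
  have hunif := isCompact_Icc.uniformContinuousOn_of_continuous (hf.continuousOn (s := Set.Icc (0 : ℝ) 1))
  rw [Metric.uniformContinuousOn_iff] at hunif
  obtain ⟨e, he, hu⟩ := hunif δ hδ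
  obtain ⟨N₀, hN₀⟩ := exists_nat_gt (1 / e)
  filter_upwards [eventually_ge_atTop N₀] with N hN
  obtain ⟨M, hM⟩ : ∃ M : ℕ, M = N + 1 := ⟨_, rfl⟩
  rw [← hM]
  have hM0 : (0 : ℝ) < M := by rw [hM]; positivity
  have hMe : 1 / (M : ℝ) < e := by
    rw [div_lt_iff₀ hM0]
    have h1 : (N₀ : ℝ) ≤ M := by rw [hM]; exact_mod_cast Nat.le_succ_of_le hN
    rw [div_lt_iff₀ he] at hN₀
    nlinarith
  have e1 : ∫ t in (0 : ℝ)..1, f t = ∑ i ∈ Finset.range M, ∫ t in ((i : ℝ) / M)..(((i + 1 : ℕ) : ℝ) / M), f t := by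
    rw [intervalIntegral.sum_integral_adjacent_intervals (a := fun i : ℕ => (i : ℝ) / M)
      (fun i _ => hf.intervalIntegrable _ _)]
    congr 1
    · simp
    · field_simp
  rw [e1]
  have h2 : ∀ i ∈ Finset.range M, ∫ t in ((i : ℝ) / M)..(((i + 1 : ℕ) : ℝ) / M), f t ≤ (f ((i : ℝ) / M) + δ) / M := by
    intro i hi
    rw [Finset.mem_range] at hi
    have hi' : ((i + 1 : ℕ) : ℝ) ≤ M := by exact_mod_cast hi
    have hle : (i : ℝ) / M ≤ ((i + 1 : ℕ) : ℝ) / M := by
      gcongr; exact_mod_cast Nat.le_succ i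
    have h01 : (i : ℝ) / M ∈ Set.Icc (0 : ℝ) 1 := ⟨by positivity, by
      rw [div_le_one hM0]; push_cast at hi'; linarith⟩
    calc ∫ t in ((i : ℝ) / M)..(((i + 1 : ℕ) : ℝ) / M), f t ≤
        ∫ _t in ((i : ℝ) / M)..(((i + 1 : ℕ) : ℝ) / M), (f ((i : ℝ) / M) + δ) := by
          apply intervalIntegral.integral_mono_on hle (hf.intervalIntegrable _ _) intervalIntegrable_const
          intro t ht
          have h5 : ((i + 1 : ℕ) : ℝ) / M ≤ 1 := by rw [div_le_one hM0]; exact hi'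
          have h6 : ((i + 1 : ℕ) : ℝ) / M = (i : ℝ) / M + 1 / M := by push_cast; ring
          have h3 := hu t ⟨h01.1.trans ht.1, ht.2.trans h5⟩ _ h01 (by
            rw [Real.dist_eq, abs_of_nonneg (by linarith [ht.1])]
            have := ht.2
            rw [h6] at this
            linarith)
          rw [Real.dist_eq, abs_lt] at h3
          linarith [h3.2]
      _ = _ := by
          rw [intervalIntegral.integral_const, smul_eq_mul]
          push_cast
          field_simp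
          ring
  calc _ ≤ ∑ i ∈ Finset.range M, (f ((i : ℝ) / M) + δ) / M := Finset.sum_le_sum h2
    _ = _ := by
        have h7 : ∀ i ∈ Finset.range M, (f ((i : ℝ) / M) + δ) / M = f ((i : ℝ) / M) / M + δ / M :=
          fun i _ => add_div _ _ _
        rw [Finset.sum_congr rfl h7, Finset.sum_add_distrib,
          Finset.sum_const, Finset.card_range, nsmul_eq_mul]
        congr 1
        field_simp

/-- Riemann sums for the length of a segment -/
noncomputable def RS (ξ : ℝ) (g : E → ℝ) (u v : E) (N : ℕ) : ℝ≥0∞ :=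
  ∑ i ∈ Finset.range (N + 1), ENNReal.ofReal (‖u - v‖ / (N + 1 : ℕ) *
    exp (ξ * g (pt u v ((i : ℝ) / (N + 1 : ℕ)))))

theorem DE_segment (ξ : ℝ) {g : E → ℝ} (hg : Continuous g) (U : Set E) (u v : E)
    (hU : ∀ t ∈ Set.Icc (0 : ℝ) 1, pt u v t ∈ U) :
    DE ξ g U u v ≤ liminf (fun N => RS ξ g u v N) atTop := by
  unfold DE
  refine (iInf_le _ ⟨pt u v, pt_pwC1 u v, pt_zero u v, pt_one u v, hU⟩).trans ?_
  simp only
  have hf : Continuous fun t => exp (ξ * g (pt u v t)) * ‖u - v‖ := by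
    have := pt_continuous u v
    fun_prop
  have e1 : len ξ g (pt u v) = ∫ t in (0 : ℝ)..1, exp (ξ * g (pt u v t)) * ‖u - v‖ := by
    unfold len
    apply intervalIntegral.integral_congr
    intro t _
    simp only
    rw [deriv_pt, norm_sub_rev]
  have key : ∀ δ : ℝ, 0 < δ → ENNReal.ofReal (len ξ g (pt u v)) ≤
      liminf (fun N => RS ξ g u v N) atTop + ENNReal.ofReal δ := by
    intro δ hδ
    have h1 : ∀ᶠ N : ℕ in atTop, ENNReal.ofReal (len ξ g (pt u v)) ≤ RS ξ g u v N + ENNReal.ofReal δ := by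
      filter_upwards [riem hf hδ] with N hN
      rw [e1]
      refine (ENNReal.ofReal_le_ofReal hN).trans ?_
      rw [ENNReal.ofReal_add (Finset.sum_nonneg fun i _ => by positivity) hδ.le]
      gcongr
      rw [ENNReal.ofReal_sum_of_nonneg (fun i _ => by positivity)]
      unfold RS
      apply le_of_eq
      apply Finset.sum_congr rfl
      intro i _
      congr 1
      ring
    have h2 : ENNReal.ofReal (len ξ g (pt u v)) ≤ liminf (fun N => RS ξ g u v N + ENNReal.ofReal δ) atTop :=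
      le_liminf_of_le (by isBoundedDefault) h1
    refine h2.trans ?_
    exact (liminf_add_const atTop _ _ (by isBoundedDefault) (by isBoundedDefault)).le
  apply ENNReal.le_of_forall_pos_le_add
  intro δ hδ _
  have := key δ (by exact_mod_cast hδ)
  rwa [ENNReal.ofReal_coe_nnreal] at this

end Pool.Agent.H964.W
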