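import Pool.Agent.H964.WN.Ker

/-!
# The covariance of the fields built from a smooth radial function
-/

set_option autoImplicit false

namespace Pool.Agent.H964.W

open MeasureTheory Real Filter Topology
open scoped ContDiff

variable {d : ℕ}

/-- the assumptions on the function `K` -/
structure Mol (K : EuclideanSpace ℝ (Fin d) → ℝ) : Prop where
  smooth : ContDiff ℝ ∞ K
  nonneg : ∀ x, 0 ≤ K x
  radial : ∀ x y, ‖x‖ = ‖y‖ → K x = K y
  supp : ∃ r₀ : ℝ, 0 < r₀ ∧ ∀ x, (¬ ∀ i, |x i| < r₀) → K x = 0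
  norm : ∫ x, K x ^ 2 = 1

variable {K : EuclideanSpace ℝ (Fin d) → ℝ} (hK : Mol K)

section basic

include hK

theorem Mol.bounded_supp : ∃ R : ℝ, 0 < R ∧ ∀ x, R ≤ ‖x‖ → K x = 0 := by
  obtain ⟨r₀, hr, hs⟩ := hK.supp
  refine ⟨(d + 1) * r₀, by positivity, fun x hx => hs x fun hall => ?_⟩
  have h1 : ‖x‖ ≤ d * r₀ := by
    rw [EuclideanSpace.norm_eq, Real.sqrt_le_left (by positivity)]
    have h2 : ∀ i ∈ Finset.univ, ‖x i‖ ^ 2 ≤ r₀ ^ 2 := by
      intro i _
      have := (hall i).le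
      rw [Real.norm_eq_abs]
      gcongr
    calc ∑ i, ‖x i‖ ^ 2 ≤ ∑ i : Fin d, r₀ ^ 2 := Finset.sum_le_sum h2
      _ = d * r₀ ^ 2 := by simp
      _ ≤ (d * r₀) ^ 2 := by
          rw [mul_pow]
          have : (d : ℝ) ≤ (d : ℝ) ^ 2 := by
            rcases Nat.eq_zero_or_pos d with h0 | h0
            · rw [h0]; simp
            · have : (1 : ℝ) ≤ d := by exact_mod_cast h0
              nlinarith
          gcongr
  linarith

theorem Mol.cs : HasCompactSupport K := by
  obtain ⟨R, _, hs⟩ := hK.bounded_supp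
  apply HasCompactSupport.of_support_subset_isCompact (isCompact_closedBall (0 : EuclideanSpace ℝ (Fin d)) R)
  intro x hx
  rw [mem_closedBall_zero_iff]
  by_contra hc
  push Not at hc
  exact hx (hs x hc.le)

theorem Mol.cont : Continuous K := hK.smooth.continuous

theorem Mol.integrable : Integrable K := hK.cont.integrable_of_hasCompactSupport hK.cs

theorem Mol.lipschitz : ∃ M : ℝ, 0 ≤ M ∧ ∀ x y, |K x - K y| ≤ M * ‖x - y‖ := by
  obtain ⟨M, hM⟩ := (hK.smooth.of_le (by simp) : ContDiff ℝ 1 K).lipschitzWith_of_hasCompactSupport hK.cs one_ne_zero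
  refine ⟨M, M.2, fun x y => ?_⟩
  have := hM.dist_le_mul x y
  rwa [Real.dist_eq, dist_eq_norm] at this

end basic

/-- the autocorrelation of `K` -/
noncomputable def kk (K : EuclideanSpace ℝ (Fin d) → ℝ) (a : EuclideanSpace ℝ (Fin d)) : ℝ :=
  ∫ w, K w * K (w - a)

section auto

include hK

theorem kk_int (a b : EuclideanSpace ℝ (Fin d)) : Integrable fun w => K (w - a) * K (w - b) := by
  apply Continuous.integrable_of_hasCompactSupport
  · have := hK.cont
    fun_prop
  · exact (hK.cs.comp_homeomorph (Homeomorph.subRight a)).mul_right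

theorem kk_int' (b : EuclideanSpace ℝ (Fin d)) : Integrable fun w => K w * K (w - b) := by
  have := kk_int hK 0 b
  simpa using this

theorem kk_nonneg (a : EuclideanSpace ℝ (Fin d)) : 0 ≤ kk K a :=
  integral_nonneg fun _ => mul_nonneg (hK.nonneg _) (hK.nonneg _)

theorem kk_zero : kk K 0 = 1 := by
  unfold kk
  rw [← hK.norm]
  congr 1
  ext w
  rw [sub_zero, sq]

theorem kk_le (a : EuclideanSpace ℝ (Fin d)) : kk K a ≤ 1 := by
  have h1 : ∫ w, K (w - a) * K (w - a) = 1 := by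
    rw [integral_sub_right_eq_self (fun w => K w * K w) a]
    have := kk_zero hK
    unfold kk at this
    simpa using this
  have h0 : ∫ w, K w * K w = 1 := by
    have := kk_zero hK
    unfold kk at this
    simpa using this
  have i0 : Integrable fun w => K w * K w := by simpa using kk_int' hK 0
  have i1 := kk_int hK a a
  have h2 : kk K a ≤ ∫ w, (K w * K w + K (w - a) * K (w - a)) / 2 := by
    apply integral_mono (kk_int' hK a) ((i0.add i1).div_const 2)
    intro w
    simp only [Pi.add_apply]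
    nlinarith [sq_nonneg (K w - K (w - a))]
  rw [integral_div, integral_add i0 i1, h0, h1] at h2
  linarith

theorem kk_lip : ∃ M : ℝ, 0 ≤ M ∧ ∀ a b, |kk K a - kk K b| ≤ M * ‖a - b‖ := by
  obtain ⟨M, hM0, hM⟩ := hK.lipschitz
  have hI : 0 ≤ ∫ w, K w := integral_nonneg hK.nonneg
  refine ⟨(∫ w, K w) * M, by positivity, fun a b => ?_⟩
  unfold kk
  rw [← integral_sub (kk_int' hK a) (kk_int' hK b)]
  have h1 : ‖∫ w, (K w * K (w - a) - K w * K (w - b))‖ ≤ ∫ w, K w * (M * ‖a - b‖) := by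
    apply norm_integral_le_of_norm_le (hK.integrable.mul_const _)
    apply Eventually.of_forall
    intro w
    rw [← mul_sub, norm_mul, Real.norm_eq_abs, Real.norm_eq_abs, abs_of_nonneg (hK.nonneg w)]
    apply mul_le_mul_of_nonneg_left _ (hK.nonneg w)
    refine (hM _ _).trans (le_of_eq ?_)
    congr 1
    rw [sub_sub_sub_cancel_left, norm_sub_rev]
  rw [Real.norm_eq_abs] at h1
  refine h1.trans (le_of_eq ?_)
  rw [integral_mul_const]
  ring

theorem kk_radial {a b : EuclideanSpace ℝ (Fin d)} (hab : ‖a‖ = ‖b‖) : kk K a = kk K b := by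
  obtain ⟨U, hU⟩ : ∃ U : EuclideanSpace ℝ (Fin d) ≃ₗᵢ[ℝ] EuclideanSpace ℝ (Fin d), U a = b :=
    ⟨_, Submodule.reflection_sub hab⟩
  unfold kk
  rw [← U.measurePreserving.integral_comp' (f := U.toMeasurableEquiv) (g := fun w => K w * K (w - b))]
  apply integral_congr_ae
  apply Eventually.of_forall
  intro w
  simp only
  change K w * K (w - a) = K (U w) * K (U w - b)
  rw [hK.radial (U w) w (U.norm_map w), ← hU, ← map_sub, hK.radial (U (w - a)) (w - a) (U.norm_map _)]

end auto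

/-- the radial kernel -/
noncomputable def kap0 (K : EuclideanSpace ℝ (Fin d) → ℝ) (i₀ : Fin d) (s : ℝ) : ℝ :=
  kk K (s • EuclideanSpace.single i₀ 1)

include hK in
theorem kk_eq (i₀ : Fin d) (a : EuclideanSpace ℝ (Fin d)) : kk K a = kap0 K i₀ ‖a‖ := by
  unfold kap0
  apply kk_radial hK
  rw [norm_smul]
  simp

include hK in
theorem ker_exists (i₀ : Fin d) : ∃ C ρ₀ : ℝ, Ker (kap0 K i₀) C ρ₀ := by
  obtain ⟨M, hM0, hM⟩ := kk_lip hK
  obtain ⟨R, hR0, hR⟩ := hK.bounded_supp
  refine ⟨max 1 M, max 1 (2 * R), ?_, ?_, ?_, ?_, ?_, le_max_left _ _, le_max_left _ _⟩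
  · intro s; exact kk_nonneg hK _
  · intro s; exact kk_le hK _
  · unfold kap0; rw [zero_smul]; exact kk_zero hK
  · intro s t
    refine (hM _ _).trans ?_
    rw [← sub_smul, norm_smul]
    simp only [PiLp.norm_single, norm_one, mul_one, Real.norm_eq_abs]
    gcongr
    exact le_max_right _ _
  · intro s hs
    have hs2 : 2 * R ≤ s := (le_max_right _ _).trans hs
    unfold kap0 kk
    have : ∀ w, K w * K (w - s • EuclideanSpace.single i₀ 1) = 0 := by
      intro w
      rcases le_or_gt R ‖w‖ with h | h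
      · rw [hR w h, zero_mul]
      · rw [hR (w - s • EuclideanSpace.single i₀ 1) _, mul_zero]
        have h1 : ‖s • (EuclideanSpace.single i₀ (1 : ℝ) : EuclideanSpace ℝ (Fin d))‖ = s := by
          rw [norm_smul]; simp only [PiLp.norm_single, norm_one, mul_one]
          rw [Real.norm_of_nonneg]; linarith
        have h2 := norm_sub_norm_le (s • (EuclideanSpace.single i₀ (1 : ℝ) : EuclideanSpace ℝ (Fin d))) w
        rw [h1, norm_sub_rev] at h2
        linarith
    simp [this]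

/-- the covariance of one scale -/
theorem scale_int (K : EuclideanSpace ℝ (Fin d) → ℝ) (x y : EuclideanSpace ℝ (Fin d)) {t : ℝ} (ht : 0 < t) :
    ∫ z, K (t⁻¹ • (z - x)) * K (t⁻¹ • (z - y)) = t ^ d * kk K (t⁻¹ • (y - x)) := by
  have e1 : ∫ z, K (t⁻¹ • (z - x)) * K (t⁻¹ • (z - y)) =
      ∫ z, (fun w => K w * K (w - t⁻¹ • (y - x))) (t⁻¹ • z) := by
    rw [← integral_sub_right_eq_self (fun z => (fun w => K w * K (w - t⁻¹ • (y - x))) (t⁻¹ • z)) x]
    congr 1
    ext z
    simp only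
    congr 2
    module
  have e2 := Measure.integral_comp_inv_smul_of_nonneg (volume : Measure (EuclideanSpace ℝ (Fin d)))
    (fun w => K w * K (w - t⁻¹ • (y - x))) ht.le
  rw [e1]
  refine e2.trans ?_
  simp [kk]

include hK in
/-- the covariance of the field -/
theorem cov_eq (i₀ : Fin d) {C ρ₀ : ℝ} (hκ : Ker (kap0 K i₀) C ρ₀) (N : ℕ) (x y : EuclideanSpace ℝ (Fin d)) :
    ∫ t in ((1 / 2 : ℝ) ^ N)..1, (∫ z, K (t⁻¹ • (z - x)) * K (t⁻¹ • (z - y))) / t ^ (d + 1) =
      Gk (kap0 K i₀) 0 (N * log 2) ‖x - y‖ := by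
  obtain ⟨ρ, hρ⟩ : ∃ ρ, ρ = ‖x - y‖ := ⟨_, rfl⟩
  obtain ⟨κ, hκd⟩ : ∃ κ, κ = kap0 K i₀ := ⟨_, rfl⟩
  have hN : (0 : ℝ) < (1 / 2) ^ N := by positivity
  have hN1 : ((1 : ℝ) / 2) ^ N ≤ 1 := pow_le_one₀ (by norm_num) (by norm_num)
  have hL : exp (-(N * log 2)) = (1 / 2) ^ N := by
    rw [Real.exp_neg, Real.exp_nat_mul, Real.exp_log (by norm_num), one_div, inv_pow]
  have e1 : ∫ t in ((1 / 2 : ℝ) ^ N)..1, (∫ z, K (t⁻¹ • (z - x)) * K (t⁻¹ • (z - y))) / t ^ (d + 1) =
      ∫ t in ((1 / 2 : ℝ) ^ N)..1, κ (ρ * t⁻¹) * t⁻¹ := by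
    apply intervalIntegral.integral_congr
    intro t ht
    rw [Set.uIcc_of_le hN1] at ht
    have ht0 : 0 < t := lt_of_lt_of_le hN ht.1
    simp only
    rw [scale_int K x y ht0, kk_eq hK i₀, norm_smul, norm_inv, Real.norm_of_nonneg ht0.le,
      norm_sub_rev y x, ← hρ, ← hκd, pow_succ, mul_comm t⁻¹ ρ]
    field_simp
  have hcont : Continuous κ := by rw [hκd]; exact hκ.continuous
  have e2 := intervalIntegral.integral_comp_mul_deriv' (a := 0) (b := N * log 2)
    (f := fun τ => exp (-τ)) (f' := fun τ => -exp (-τ)) (g := fun t => κ (ρ * t⁻¹) * t⁻¹) (by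
      intro τ _
      have h5 := (hasDerivAt_neg τ).exp
      have h6 : exp (-τ) * -1 = -exp (-τ) := by ring
      rw [h6] at h5
      exact h5) (by fun_prop) (by
      intro t ht
      obtain ⟨τ, _, hτ⟩ := ht
      have ht0 : t ≠ 0 := by rw [← hτ]; exact (exp_pos _).ne'
      apply ContinuousAt.continuousWithinAt
      apply ContinuousAt.mul
      · exact hcont.continuousAt.comp (continuousAt_const.mul (continuousAt_inv₀ ht0))
      · exact continuousAt_inv₀ ht0)
  simp only [neg_zero, exp_zero] at e2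
  rw [hL] at e2
  rw [e1, intervalIntegral.integral_symm, ← e2, ← intervalIntegral.integral_neg, Gk, ← hκd, ← hρ]
  apply intervalIntegral.integral_congr
  intro τ _
  simp only [Function.comp_apply]
  rw [← Real.exp_neg, neg_neg]
  have h3 : exp τ * exp (-τ) = 1 := by rw [← Real.exp_add]; simp
  calc -(κ (ρ * exp τ) * exp τ * -exp (-τ)) = κ (ρ * exp τ) * (exp τ * exp (-τ)) := by ring
    _ = _ := by rw [h3, mul_one]

end Pool.Agent.H964.W
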