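import Pool.Agent.H964.WN.Exp

/-!
# The modulus of continuity of the field
-/

set_option autoImplicit false

namespace Pool.Agent.H964.W

open MeasureTheory ProbabilityTheory Real Filter Topology

section tails

variable {E : Type*} [NormedAddCommGroup E] [InnerProductSpace ℝ E]
variable {Ω : Type*} [MeasurableSpace Ω] {P : Measure Ω}
variable {κ : ℝ → ℝ} {C ρ₀ : ℝ} {h : ℕ → E → Ω → ℝ}
variable (hκ : Ker κ C ρ₀) (hh : WNF P κ h)
include hκ hh

theorem tail_one {n : ℕ} (y x : E) {σ δ : ℝ} (hσ : 0 < σ) (hd : 2 * (C * ‖y - x‖ * exp (n * log 2)) ≤ σ)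
    (hδ : 0 ≤ δ) : P {ω | δ < h n y ω - h n x ω} ≤ ENNReal.ofReal (exp (-(δ ^ 2 / (2 * σ)))) := by
  set t := δ / σ with ht
  have ht0 : 0 ≤ t := by positivity
  set Y : Lp ℝ 2 P := t • (HH hh n y - HH hh n x) with hY
  have hYG : Y ∈ GG hh :=
    Submodule.smul_mem _ _ (Submodule.sub_mem _ (HH_mem hh n y) (HH_mem hh n x))
  have hcoe : ∀ᵐ ω ∂P, Y ω = t * (h n y ω - h n x ω) := by
    filter_upwards [Lp.coeFn_smul t (HH hh n y - HH hh n x), Lp.coeFn_sub (HH hh n y) (HH hh n x),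
      HH_coe hh n y, HH_coe hh n x] with ω a1 a2 a3 a4
    rw [hY, a1, Pi.smul_apply, a2, Pi.sub_apply, a3, a4, smul_eq_mul]
  have hnorm : ‖Y‖ ^ 2 / 2 ≤ δ ^ 2 / (2 * σ) := by
    rw [hY, norm_smul, mul_pow, Real.norm_eq_abs, sq_abs]
    have h1 := (HH_dist_sq_le hκ hh n y x).trans hd
    calc t ^ 2 * ‖HH hh n y - HH hh n x‖ ^ 2 / 2 ≤ t ^ 2 * σ / 2 := by gcongr
      _ = _ := by rw [ht]; field_simp
  have hexp : ∫⁻ ω, ENNReal.ofReal (exp (Y ω)) ∂P ≤ ENNReal.ofReal (exp (‖Y‖ ^ 2 / 2)) := by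
    have := lint_exp_AX hh.cgp hYG 1
    simp only [one_mul, one_pow] at this
    exact this.le
  have hm : AEMeasurable (fun ω => ENNReal.ofReal (exp (Y ω))) P :=
    (Real.measurable_exp.comp_aemeasurable (Lp.aestronglyMeasurable Y).aemeasurable).ennreal_ofReal
  have hmk := mul_meas_ge_le_lintegral₀ hm (ENNReal.ofReal (exp (t * δ)))
  have hsub : P {ω | δ < h n y ω - h n x ω} ≤
      P {ω | ENNReal.ofReal (exp (t * δ)) ≤ ENNReal.ofReal (exp (Y ω))} := by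
    apply measure_mono_ae
    filter_upwards [hcoe] with ω hω hmem
    change δ < h n y ω - h n x ω at hmem
    change ENNReal.ofReal (exp (t * δ)) ≤ ENNReal.ofReal (exp (Y ω))
    apply ENNReal.ofReal_le_ofReal
    apply Real.exp_le_exp.2
    rw [hω]
    gcongr
  refine hsub.trans ?_
  have hpos : ENNReal.ofReal (exp (t * δ)) ≠ 0 := by simpa using exp_pos _
  have h2 : P {ω | ENNReal.ofReal (exp (t * δ)) ≤ ENNReal.ofReal (exp (Y ω))} ≤
      ENNReal.ofReal (exp (‖Y‖ ^ 2 / 2)) / ENNReal.ofReal (exp (t * δ)) := by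
    rw [ENNReal.le_div_iff_mul_le (Or.inl hpos) (Or.inl ENNReal.ofReal_ne_top), mul_comm]
    exact hmk.trans hexp
  refine h2.trans ?_
  rw [← ENNReal.ofReal_div_of_pos (exp_pos _), ← Real.exp_sub]
  apply ENNReal.ofReal_le_ofReal
  apply Real.exp_le_exp.2
  have : t * δ = 2 * (δ ^ 2 / (2 * σ)) := by rw [ht]; field_simp
  linarith

theorem tail_two {n : ℕ} (y x : E) {σ δ : ℝ} (hσ : 0 < σ) (hd : 2 * (C * ‖y - x‖ * exp (n * log 2)) ≤ σ)
    (hδ : 0 ≤ δ) : P {ω | δ < |h n y ω - h n x ω|} ≤ ENNReal.ofReal (2 * exp (-(δ ^ 2 / (2 * σ)))) := by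
  have h1 := tail_one hκ hh y x hσ hd hδ
  have h2 := tail_one hκ hh x y hσ (by rw [norm_sub_rev]; exact hd) hδ
  have hsub : {ω | δ < |h n y ω - h n x ω|} ⊆
      {ω | δ < h n y ω - h n x ω} ∪ {ω | δ < h n x ω - h n y ω} := by
    intro ω hω
    change δ < |h n y ω - h n x ω| at hω
    rcases lt_abs.1 hω with h3 | h3
    · exact Or.inl h3
    · right
      change δ < h n x ω - h n y ω
      linarith
  calc P {ω | δ < |h n y ω - h n x ω|} ≤ _ := measure_mono hsub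
    _ ≤ _ := measure_union_le _ _
    _ ≤ ENNReal.ofReal (exp (-(δ ^ 2 / (2 * σ)))) + ENNReal.ofReal (exp (-(δ ^ 2 / (2 * σ)))) :=
      add_le_add h1 h2
    _ = _ := by rw [← ENNReal.ofReal_add (by positivity) (by positivity)]; congr 1; ring

end tails

variable {d : ℕ}

/-- dyadic lattices -/
noncomputable def Lk (ε : ℝ) (k : ℕ) (n : Fin d → ℤ) : EuclideanSpace ℝ (Fin d) :=
  WithLp.toLp 2 fun i => ε / 2 ^ k * (n i : ℝ)

/-- dyadic rounding -/
noncomputable def qk (ε : ℝ) (k : ℕ) (y : EuclideanSpace ℝ (Fin d)) : Fin d → ℤ :=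
  fun i => ⌊y i / (ε / 2 ^ k)⌋

/-- halving -/
def hv (n : Fin d → ℤ) : Fin d → ℤ := fun i => n i / 2

theorem floor_half (x : ℝ) : ⌊2 * x⌋ / 2 = ⌊x⌋ := by
  symm
  rw [Int.floor_eq_iff]
  have h1 := Int.floor_le (2 * x)
  have h2 := Int.lt_floor_add_one (2 * x)
  have h3 : 2 * (⌊2 * x⌋ / 2) ≤ ⌊2 * x⌋ := by omega
  have h4 : ⌊2 * x⌋ ≤ 2 * (⌊2 * x⌋ / 2) + 1 := by omega
  have h3' : 2 * ((⌊2 * x⌋ / 2 : ℤ) : ℝ) ≤ (⌊2 * x⌋ : ℝ) := by exact_mod_cast h3
  have h4' : (⌊2 * x⌋ : ℝ) ≤ 2 * ((⌊2 * x⌋ / 2 : ℤ) : ℝ) + 1 := by exact_mod_cast h4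
  constructor <;> linarith

theorem hv_qk {ε : ℝ} (hε : 0 < ε) (k : ℕ) (y : EuclideanSpace ℝ (Fin d)) :
    hv (qk ε (k + 1) y) = qk ε k y := by
  funext i
  unfold hv qk
  rw [← floor_half (y i / (ε / 2 ^ k))]
  congr 2
  rw [pow_succ]
  field_simp

theorem norm_le_mul {z : EuclideanSpace ℝ (Fin d)} {B : ℝ} (hz : ∀ i, |z i| ≤ B) : ‖z‖ ≤ d * B := by
  calc ‖z‖ ≤ ∑ i, |z i| := norm_le_sum z
    _ ≤ ∑ _i : Fin d, B := Finset.sum_le_sum fun i _ => hz i
    _ = _ := by rw [Finset.sum_const, Finset.card_univ, Fintype.card_fin, nsmul_eq_mul]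

theorem Lk_step {ε : ℝ} (hε : 0 < ε) (k : ℕ) (n : Fin d → ℤ) :
    ‖Lk ε (k + 1) n - Lk ε k (hv n)‖ ≤ d * (ε / 2 ^ (k + 1)) := by
  apply norm_le_mul
  intro i
  have h3 : 2 * (n i / 2) ≤ n i := by omega
  have h4 : n i ≤ 2 * (n i / 2) + 1 := by omega
  have h3' : 2 * ((n i / 2 : ℤ) : ℝ) ≤ (n i : ℝ) := by exact_mod_cast h3
  have h4' : (n i : ℝ) ≤ 2 * ((n i / 2 : ℤ) : ℝ) + 1 := by exact_mod_cast h4
  have e : (Lk ε (k + 1) n - Lk ε k (hv n)) i =
      ε / 2 ^ (k + 1) * ((n i : ℝ) - 2 * ((n i / 2 : ℤ) : ℝ)) := by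
    simp only [Lk, hv, PiLp.sub_apply, pow_succ]
    field_simp
  rw [e, abs_of_nonneg (mul_nonneg (by positivity) (by linarith))]
  calc ε / 2 ^ (k + 1) * ((n i : ℝ) - 2 * ((n i / 2 : ℤ) : ℝ)) ≤ ε / 2 ^ (k + 1) * 1 := by
        gcongr; linarith
    _ = _ := mul_one _

theorem Lk_near {ε : ℝ} (hε : 0 < ε) (k : ℕ) (y : EuclideanSpace ℝ (Fin d)) :
    ‖Lk ε k (qk ε k y) - y‖ ≤ d * (ε / 2 ^ k) := by
  apply norm_le_mul
  intro i
  have h1 := Int.floor_le (y i / (ε / 2 ^ k))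
  have h2 := Int.lt_floor_add_one (y i / (ε / 2 ^ k))
  have e : (Lk ε k (qk ε k y) - y) i = ε / 2 ^ k * ((⌊y i / (ε / 2 ^ k)⌋ : ℝ) - y i / (ε / 2 ^ k)) := by
    simp only [Lk, qk, PiLp.sub_apply]
    field_simp
  rw [e, abs_mul, abs_of_pos (by positivity : 0 < ε / 2 ^ k)]
  have : |(⌊y i / (ε / 2 ^ k)⌋ : ℝ) - y i / (ε / 2 ^ k)| ≤ 1 := by
    rw [abs_le]; constructor <;> linarith
  calc _ ≤ ε / 2 ^ k * 1 := by gcongr
    _ = _ := mul_one _

/-- the size of the boxes -/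
noncomputable def NN (R ε : ℝ) (k : ℕ) : ℕ := ⌈R * 2 ^ k / ε⌉₊ + 1

theorem qk_mem {R ε : ℝ} (hε : 0 < ε) (k : ℕ) {y : EuclideanSpace ℝ (Fin d)} (hy : ‖y‖ ≤ R) :
    qk ε k y ∈ Bx d (NN R ε k) := by
  unfold Bx
  rw [Fintype.mem_piFinset]
  intro i
  have h0 : |y i| ≤ R := by
    have := PiLp.norm_apply_le y i
    rw [Real.norm_eq_abs] at this
    exact this.trans hy
  have h1 := Int.floor_le (y i / (ε / 2 ^ k))
  have h2 := Int.lt_floor_add_one (y i / (ε / 2 ^ k))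
  have h3 : |y i / (ε / 2 ^ k)| ≤ ⌈R * 2 ^ k / ε⌉₊ := by
    refine le_trans ?_ (Nat.le_ceil _)
    rw [abs_div, abs_of_pos (by positivity : 0 < ε / 2 ^ k), div_div_eq_mul_div]
    gcongr
  rw [abs_le] at h3
  rw [Finset.mem_Icc]
  unfold NN qk
  generalize y i / (ε / 2 ^ k) = a at *
  generalize ⌈R * 2 ^ k / ε⌉₊ = b at *
  push_cast
  constructor
  · have : (-((b : ℝ) + 1)) ≤ (⌊a⌋ : ℝ) := by linarith [h3.1]
    exact_mod_cast this
  · have : (⌊a⌋ : ℝ) ≤ (b : ℝ) + 1 := by linarith [h3.2]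
    exact_mod_cast this

theorem card_NN {R ε : ℝ} (hε : 0 < ε) (hε1 : ε ≤ 1) (hR : 0 ≤ R) (k : ℕ) :
    ((Bx d (NN R ε k)).card : ℝ) ≤ ((2 * R + 5) / ε) ^ d * ((2 : ℝ) ^ d) ^ k := by
  rw [card_Bx]
  push_cast
  have h1 : (⌈R * 2 ^ k / ε⌉₊ : ℝ) < R * 2 ^ k / ε + 1 := Nat.ceil_lt_add_one (by positivity)
  have h2 : (1 : ℝ) ≤ 2 ^ k / ε := by
    rw [le_div_iff₀ hε]
    have : (1 : ℝ) ≤ 2 ^ k := one_le_pow₀ (by norm_num)
    linarith
  have h3 : 2 * (NN R ε k : ℝ) + 1 ≤ (2 * R + 5) / ε * 2 ^ k := by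
    unfold NN
    push_cast
    have e : (2 * R + 5) / ε * 2 ^ k = 2 * (R * 2 ^ k / ε) + 5 * (2 ^ k / ε) := by ring
    rw [e]
    linarith
  calc (2 * (NN R ε k : ℝ) + 1) ^ d ≤ ((2 * R + 5) / ε * 2 ^ k) ^ d := by gcongr
    _ = _ := by rw [mul_pow, ← pow_mul, ← pow_mul, mul_comm k d]

variable {Ω : Type*} [MeasurableSpace Ω] {P : Measure Ω}
variable {κ : ℝ → ℝ} {C ρ₀ : ℝ} {h : ℕ → EuclideanSpace ℝ (Fin d) → Ω → ℝ}

/-- the exceptional event for one level -/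
def BadL (h : ℕ → EuclideanSpace ℝ (Fin d) → Ω → ℝ) (N : ℕ) (ε lam R : ℝ) (k : ℕ) : Set Ω :=
  ⋃ n ∈ Bx d (NN R ε (k + 1)), {ω | lam * (4 / 5) ^ k < |h N (Lk ε (k + 1) n) ω - h N (Lk ε k (hv n)) ω|}

/-- the exceptional event for the modulus of continuity -/
def BadM (h : ℕ → EuclideanSpace ℝ (Fin d) → Ω → ℝ) (N : ℕ) (ε lam R : ℝ) : Set Ω :=
  (⋃ k : ℕ, BadL h N ε lam R k) ∪
  (⋃ n ∈ Bx d (NN R ε 0), ⋃ m ∈ Bx d 2, {ω | lam < |h N (Lk ε 0 (n + m)) ω - h N (Lk ε 0 n) ω|})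

theorem two_pow_exp {d : ℕ} {t : ℝ} (ht : (d : ℝ) + 1 ≤ t) : (2 : ℝ) ^ d * exp (-t) ≤ 1 / 2 := by
  have h1 : (2 : ℝ) ^ (d + 1) ≤ exp t := by
    calc (2 : ℝ) ^ (d + 1) ≤ (exp 1) ^ (d + 1) := by
          gcongr
          have := Real.add_one_le_exp (1 : ℝ)
          linarith
      _ = exp (d + 1) := by rw [← Real.exp_nat_mul]; push_cast; ring_nf
      _ ≤ exp t := Real.exp_le_exp.2 ht
  rw [Real.exp_neg, ← div_eq_mul_inv, div_le_iff₀ (exp_pos t)]
  rw [pow_succ] at h1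
  linarith

theorem prob_BadM (hκ : Ker κ C ρ₀) (hh : WNF P κ h) (hd : 0 < d) {N : ℕ} {ε : ℝ} (hε : 0 < ε) (hε1 : ε ≤ 1)
    (hεN : ε * exp (N * log 2) = 1) {lam R : ℝ} (hl0 : 0 ≤ lam) (hl : 8 * (C * d) * (d + 1) ≤ lam ^ 2)
    (hR : 0 ≤ R) :
    P (BadM h N ε lam R) ≤
      ENNReal.ofReal (((2 * R + 5) / ε) ^ d * (6 * 10 ^ d) * exp (-(lam ^ 2 / (8 * (C * d))))) := by
  have hC := hκ.C1
  have hd1 : (1 : ℝ) ≤ d := by exact_mod_cast hd
  have hCd : 0 < C * d := by positivity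
  have hexpN : exp (N * log 2) = 1 / ε := by field_simp; linarith
  obtain ⟨A, hA⟩ : ∃ A, A = ((2 * R + 5) / ε) ^ d := ⟨_, rfl⟩
  have hA0 : 0 ≤ A := by rw [hA]; positivity
  have hlev : ∀ k : ℕ, P (BadL h N ε lam R k) ≤
      ENNReal.ofReal (2 * 2 ^ d * A * exp (-(lam ^ 2 / (2 * (C * d)))) * (1 / 2) ^ k) := by
    intro k
    unfold BadL
    have hone : ∀ n ∈ Bx d (NN R ε (k + 1)),
        P {ω | lam * (4 / 5) ^ k < |h N (Lk ε (k + 1) n) ω - h N (Lk ε k (hv n)) ω|} ≤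
        ENNReal.ofReal (2 * exp (-(lam ^ 2 / (2 * (C * d)) * (1 + k * (7 / 25))))) := by
      intro n _
      have hdd : 2 * (C * ‖Lk ε (k + 1) n - Lk ε k (hv n)‖ * exp (N * log 2)) ≤ C * d / 2 ^ k := by
        have := Lk_step hε k n
        rw [hexpN]
        calc 2 * (C * ‖Lk ε (k + 1) n - Lk ε k (hv n)‖ * (1 / ε)) ≤
            2 * (C * (d * (ε / 2 ^ (k + 1))) * (1 / ε)) := by gcongr
          _ = _ := by rw [pow_succ]; field_simp
      refine (tail_two hκ hh _ _ (by positivity) hdd (by positivity)).trans ?_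
      apply ENNReal.ofReal_le_ofReal
      apply mul_le_mul_of_nonneg_left _ (by norm_num)
      apply Real.exp_le_exp.2
      apply neg_le_neg
      have e : (lam * (4 / 5) ^ k) ^ 2 / (2 * (C * d / 2 ^ k)) = lam ^ 2 / (2 * (C * d)) * (32 / 25) ^ k := by
        have : ((32 : ℝ) / 25) ^ k = ((4 / 5) ^ k) ^ 2 * 2 ^ k := by
          rw [← pow_mul, mul_comm k 2, pow_mul, ← mul_pow]; norm_num
        rw [this]; field_simp
      rw [e]
      apply mul_le_mul_of_nonneg_left _ (by positivity)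
      have := one_add_mul_le_pow (a := (7 / 25 : ℝ)) (by norm_num) k
      calc (1 : ℝ) + k * (7 / 25) ≤ (1 + 7 / 25) ^ k := this
        _ = _ := by norm_num
    calc _ ≤ _ := measure_biUnion_finset_le _ _
      _ ≤ ∑ n ∈ Bx d (NN R ε (k + 1)),
          ENNReal.ofReal (2 * exp (-(lam ^ 2 / (2 * (C * d)) * (1 + k * (7 / 25))))) := Finset.sum_le_sum hone
      _ = ENNReal.ofReal (((Bx d (NN R ε (k + 1))).card : ℝ) *
          (2 * exp (-(lam ^ 2 / (2 * (C * d)) * (1 + k * (7 / 25)))))) := by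
          rw [Finset.sum_const, nsmul_eq_mul, ENNReal.ofReal_mul
            (p := ((Bx d (NN R ε (k + 1))).card : ℝ)) (by positivity), ENNReal.ofReal_natCast]
      _ ≤ _ := by
          apply ENNReal.ofReal_le_ofReal
          have e : exp (-(lam ^ 2 / (2 * (C * d)) * (1 + k * (7 / 25)))) =
              exp (-(lam ^ 2 / (2 * (C * d)))) * exp (-(lam ^ 2 / (2 * (C * d)) * (7 / 25))) ^ k := by
            rw [← Real.exp_nat_mul, ← Real.exp_add]; congr 1; ring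
          have hsmall : (2 : ℝ) ^ d * exp (-(lam ^ 2 / (2 * (C * d)) * (7 / 25))) ≤ 1 / 2 := by
            apply two_pow_exp
            have h3 : 4 * ((d : ℝ) + 1) ≤ lam ^ 2 / (2 * (C * d)) := by
              rw [le_div_iff₀ (by positivity)]
              linarith
            linarith
          have hcard := card_NN (d := d) hε hε1 hR (k + 1)
          rw [← hA] at hcard
          rw [e]
          calc ((Bx d (NN R ε (k + 1))).card : ℝ) *
                (2 * (exp (-(lam ^ 2 / (2 * (C * d)))) * exp (-(lam ^ 2 / (2 * (C * d)) * (7 / 25))) ^ k)) ≤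
              (A * ((2 : ℝ) ^ d) ^ (k + 1)) *
                (2 * (exp (-(lam ^ 2 / (2 * (C * d)))) * exp (-(lam ^ 2 / (2 * (C * d)) * (7 / 25))) ^ k)) := by
                gcongr
            _ = 2 * 2 ^ d * A * exp (-(lam ^ 2 / (2 * (C * d)))) *
                ((2 : ℝ) ^ d * exp (-(lam ^ 2 / (2 * (C * d)) * (7 / 25)))) ^ k := by
                rw [pow_succ, mul_pow]; ring
            _ ≤ _ := by gcongr
  have h1 : P (⋃ k : ℕ, BadL h N ε lam R k) ≤
      ENNReal.ofReal (4 * 10 ^ d * A * exp (-(lam ^ 2 / (8 * (C * d))))) := by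
    calc _ ≤ _ := measure_iUnion_le _
      _ ≤ ∑' k : ℕ, ENNReal.ofReal (2 * 2 ^ d * A * exp (-(lam ^ 2 / (2 * (C * d)))) * (1 / 2) ^ k) :=
        ENNReal.tsum_le_tsum hlev
      _ = ENNReal.ofReal (4 * 2 ^ d * A * exp (-(lam ^ 2 / (2 * (C * d))))) := by
        rw [← ENNReal.ofReal_tsum_of_nonneg (fun k => by positivity)
          (Summable.mul_left _ summable_geometric_two), tsum_mul_left, tsum_geometric_two]
        congr 1; ring
      _ ≤ _ := by
        apply ENNReal.ofReal_le_ofReal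
        have h3 : exp (-(lam ^ 2 / (2 * (C * d)))) ≤ exp (-(lam ^ 2 / (8 * (C * d)))) := by
          apply Real.exp_le_exp.2
          apply neg_le_neg
          apply div_le_div_of_nonneg_left (by positivity) (by positivity)
          linarith
        have h4 : (2 : ℝ) ^ d ≤ 10 ^ d := by gcongr; norm_num
        gcongr
  have h2 : P (⋃ n ∈ Bx d (NN R ε 0), ⋃ m ∈ Bx d 2,
      {ω | lam < |h N (Lk ε 0 (n + m)) ω - h N (Lk ε 0 n) ω|}) ≤
      ENNReal.ofReal (2 * 10 ^ d * A * exp (-(lam ^ 2 / (8 * (C * d))))) := by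
    have hin : ∀ n : Fin d → ℤ, P (⋃ m ∈ Bx d 2,
        {ω | lam < |h N (Lk ε 0 (n + m)) ω - h N (Lk ε 0 n) ω|}) ≤
        ENNReal.ofReal (10 ^ d * (2 * exp (-(lam ^ 2 / (8 * (C * d)))))) := by
      intro n
      have hone : ∀ m ∈ Bx d 2, P {ω | lam < |h N (Lk ε 0 (n + m)) ω - h N (Lk ε 0 n) ω|} ≤
          ENNReal.ofReal (2 * exp (-(lam ^ 2 / (8 * (C * d))))) := by
        intro m hm
        have hn : ‖Lk ε 0 (n + m) - Lk ε 0 n‖ ≤ d * (2 * ε) := by
          apply norm_le_mul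
          intro i
          unfold Bx at hm
          rw [Fintype.mem_piFinset] at hm
          have hmi := Finset.mem_Icc.1 (hm i)
          have e : (Lk ε 0 (n + m) - Lk ε 0 n) i = ε * (m i : ℝ) := by
            simp only [Lk, PiLp.sub_apply, Pi.add_apply]
            push_cast
            ring
          rw [e, abs_mul, abs_of_pos hε]
          have h4 : |(m i : ℝ)| ≤ 2 := by
            rw [abs_le]
            constructor
            · have := hmi.1; exact_mod_cast this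
            · have := hmi.2; exact_mod_cast this
          calc ε * |(m i : ℝ)| ≤ ε * 2 := by gcongr
            _ = _ := by ring
        have hdd : 2 * (C * ‖Lk ε 0 (n + m) - Lk ε 0 n‖ * exp (N * log 2)) ≤ 4 * (C * d) := by
          rw [hexpN]
          calc 2 * (C * ‖Lk ε 0 (n + m) - Lk ε 0 n‖ * (1 / ε)) ≤ 2 * (C * (d * (2 * ε)) * (1 / ε)) := by
                gcongr
            _ = _ := by field_simp; ring
        have := tail_two hκ hh _ _ (by positivity) hdd hl0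
        rw [show 2 * (4 * (C * d)) = 8 * (C * d) by ring] at this
        exact this
      calc _ ≤ _ := measure_biUnion_finset_le _ _
        _ ≤ ∑ m ∈ Bx d 2, ENNReal.ofReal (2 * exp (-(lam ^ 2 / (8 * (C * d))))) := Finset.sum_le_sum hone
        _ = ENNReal.ofReal (((Bx d 2).card : ℝ) * (2 * exp (-(lam ^ 2 / (8 * (C * d)))))) := by
            rw [Finset.sum_const, nsmul_eq_mul, ENNReal.ofReal_mul (p := ((Bx d 2).card : ℝ)) (by positivity),
              ENNReal.ofReal_natCast]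
        _ ≤ _ := by
            apply ENNReal.ofReal_le_ofReal
            rw [card_Bx]
            push_cast
            have : (5 : ℝ) ^ d ≤ 10 ^ d := by gcongr; norm_num
            exact mul_le_mul_of_nonneg_right this (by positivity)
    calc _ ≤ _ := measure_biUnion_finset_le _ _
      _ ≤ ∑ n ∈ Bx d (NN R ε 0), ENNReal.ofReal (10 ^ d * (2 * exp (-(lam ^ 2 / (8 * (C * d)))))) :=
        Finset.sum_le_sum fun n _ => hin n
      _ = ENNReal.ofReal (((Bx d (NN R ε 0)).card : ℝ) * (10 ^ d * (2 * exp (-(lam ^ 2 / (8 * (C * d))))))) := by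
        rw [Finset.sum_const, nsmul_eq_mul, ENNReal.ofReal_mul
          (p := ((Bx d (NN R ε 0)).card : ℝ)) (by positivity), ENNReal.ofReal_natCast]
      _ ≤ _ := by
        apply ENNReal.ofReal_le_ofReal
        have hcard := card_NN (d := d) hε hε1 hR 0
        rw [← hA, pow_zero, mul_one] at hcard
        calc _ ≤ A * (10 ^ d * (2 * exp (-(lam ^ 2 / (8 * (C * d)))))) := by gcongr
          _ = _ := by ring
  calc P (BadM h N ε lam R) ≤ _ := measure_union_le _ _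
    _ ≤ _ := add_le_add h1 h2
    _ = _ := by
        rw [← ENNReal.ofReal_add (by positivity) (by positivity), hA]; congr 1; ring

/-- the deterministic chaining argument -/
theorem chain {g : EuclideanSpace ℝ (Fin d) → ℝ} (hg : Continuous g) {ε lam : ℝ} (hε : 0 < ε)
    (hl : 0 ≤ lam) {y : EuclideanSpace ℝ (Fin d)}
    (hc : ∀ k : ℕ, |g (Lk ε (k + 1) (qk ε (k + 1) y)) - g (Lk ε k (qk ε k y))| ≤ lam * (4 / 5) ^ k) :
    |g y - g (Lk ε 0 (qk ε 0 y))| ≤ 5 * lam := by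
  set z : ℕ → EuclideanSpace ℝ (Fin d) := fun k => Lk ε k (qk ε k y) with hz
  have hsum : ∀ k, |g (z k) - g (z 0)| ≤ lam * ∑ l ∈ Finset.range k, (4 / 5 : ℝ) ^ l := by
    intro k
    induction k with
    | zero => simp
    | succ k ih =>
      rw [Finset.sum_range_succ, mul_add]
      calc |g (z (k + 1)) - g (z 0)| = |(g (z (k + 1)) - g (z k)) + (g (z k) - g (z 0))| := by ring_nf
        _ ≤ |g (z (k + 1)) - g (z k)| + |g (z k) - g (z 0)| := abs_add_le _ _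
        _ ≤ _ := by linarith [hc k]
  have hgeo : ∀ k, ∑ l ∈ Finset.range k, (4 / 5 : ℝ) ^ l ≤ 5 := by
    intro k
    have := (summable_geometric_of_lt_one (by norm_num : (0 : ℝ) ≤ 4 / 5) (by norm_num)).sum_le_tsum
      (Finset.range k) (fun i _ => by positivity)
    rw [tsum_geometric_of_lt_one (by norm_num) (by norm_num)] at this
    norm_num at this
    exact this
  have hlim : Tendsto z atTop (𝓝 y) := by
    rw [tendsto_iff_norm_sub_tendsto_zero]
    have hbound : ∀ k, ‖z k - y‖ ≤ (d * ε) * (1 / 2) ^ k := by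
      intro k
      refine (Lk_near hε k y).trans (le_of_eq ?_)
      rw [one_div, inv_pow]; field_simp
    have h0 : Tendsto (fun k : ℕ => (d * ε) * (1 / 2 : ℝ) ^ k) atTop (𝓝 0) := by
      have := (tendsto_pow_atTop_nhds_zero_of_lt_one (by norm_num : (0 : ℝ) ≤ 1 / 2)
        (by norm_num)).const_mul (d * ε)
      simpa using this
    exact squeeze_zero (fun k => norm_nonneg _) hbound h0
  have hlim2 : Tendsto (fun k => |g (z k) - g (z 0)|) atTop (𝓝 |g y - g (z 0)|) :=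
    (((hg.tendsto _).comp hlim).sub_const _).abs
  apply le_of_tendsto' hlim2
  intro k
  calc |g (z k) - g (z 0)| ≤ _ := hsum k
    _ ≤ lam * 5 := by gcongr; exact hgeo k
    _ = _ := by ring

omit [MeasurableSpace Ω] in
/-- outside of the exceptional event the field is regular -/
theorem good_mod {N : ℕ} {ε lam R : ℝ} (hε : 0 < ε) (hl : 0 ≤ lam) {ω : Ω} (hω : ω ∉ BadM h N ε lam R)
    (hc : Continuous fun z => h N z ω) {x y : EuclideanSpace ℝ (Fin d)} (hx : ‖x‖ ≤ R) (hy : ‖y‖ ≤ R)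
    (hxy : ‖y - x‖ ≤ ε) : |h N y ω - h N x ω| ≤ 11 * lam := by
  unfold BadM at hω
  rw [Set.mem_union, not_or] at hω
  obtain ⟨w1, w2⟩ := hω
  have hch : ∀ y : EuclideanSpace ℝ (Fin d), ‖y‖ ≤ R → |h N y ω - h N (Lk ε 0 (qk ε 0 y)) ω| ≤ 5 * lam := by
    intro y hy
    apply chain hc hε hl
    intro k
    by_contra hcon
    push Not at hcon
    apply w1
    simp only [Set.mem_iUnion]
    refine ⟨k, ?_⟩
    unfold BadL
    simp only [Set.mem_iUnion]
    refine ⟨qk ε (k + 1) y, qk_mem hε (k + 1) hy, ?_⟩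
    rw [Set.mem_ofPred_eq, hv_qk hε]
    exact hcon
  have c1 := hch x hx
  have c2 := hch y hy
  have c3 : |h N (Lk ε 0 (qk ε 0 y)) ω - h N (Lk ε 0 (qk ε 0 x)) ω| ≤ lam := by
    by_contra hcon
    push Not at hcon
    apply w2
    simp only [Set.mem_iUnion]
    refine ⟨qk ε 0 x, qk_mem hε 0 hx, qk ε 0 y - qk ε 0 x, ?_, ?_⟩
    · unfold Bx
      rw [Fintype.mem_piFinset]
      intro i
      have h0 : |y i - x i| ≤ ε := by
        have := PiLp.norm_apply_le (y - x) i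
        rw [Real.norm_eq_abs] at this
        exact this.trans hxy
      simp only [qk, pow_zero, div_one, Pi.sub_apply]
      have h1 := Int.floor_le (y i / ε)
      have h2 := Int.lt_floor_add_one (y i / ε)
      have h3 := Int.floor_le (x i / ε)
      have h4 := Int.lt_floor_add_one (x i / ε)
      have h5 : |y i / ε - x i / ε| ≤ 1 := by
        rw [← sub_div, abs_div, abs_of_pos hε, div_le_one hε]; exact h0
      rw [abs_le] at h5
      rw [Finset.mem_Icc]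
      constructor
      · have : (-(2 : ℝ)) ≤ (⌊y i / ε⌋ : ℝ) - ⌊x i / ε⌋ := by linarith [h5.1]
        exact_mod_cast this
      · have : (⌊y i / ε⌋ : ℝ) - ⌊x i / ε⌋ ≤ 2 := by linarith [h5.2]
        exact_mod_cast this
    · rw [Set.mem_ofPred_eq, show qk ε 0 x + (qk ε 0 y - qk ε 0 x) = qk ε 0 y by abel]
      exact hcon
  rw [abs_le] at c1 c2 c3 ⊢
  constructor <;> linarith [c1.1, c1.2, c2.1, c2.2, c3.1, c3.2]

end Pool.Agent.H964.W
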