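import Pool.Agent.H964.WN.Pw

/-!
# From continuous paths to discrete paths
-/

set_option autoImplicit false

namespace Pool.Agent.H964.W

open MeasureTheory Real Filter Topology

section gen

variable {E : Type*} [NormedAddCommGroup E] [NormedSpace ℝ E]

/-- Paths `γ : [0, 1] → E`: continuous, differentiable off a countable set, with integrable
derivative. -/
structure IsPath (γ : ℝ → E) : Prop where
  cont : ContinuousOn γ (Set.Icc 0 1)
  diff : ∃ s : Set ℝ, s.Countable ∧ ∀ t ∈ Set.Ioo (0 : ℝ) 1 \ s, DifferentiableAt ℝ γ t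
  int : IntervalIntegrable (deriv γ) volume 0 1

/-- the length of a path for the metric `exp (ξ g) |dz|` -/
noncomputable def len (ξ : ℝ) (g : E → ℝ) (γ : ℝ → E) : ℝ :=
  ∫ t in (0 : ℝ)..1, exp (ξ * g (γ t)) * ‖deriv γ t‖

theorem IsPath.norm_sub_le [CompleteSpace E] {γ : ℝ → E} (hγ : IsPath γ) {a b : ℝ} (ha : 0 ≤ a)
    (hab : a ≤ b) (hb : b ≤ 1) : ‖γ b - γ a‖ ≤ ∫ t in a..b, ‖deriv γ t‖ := by
  obtain ⟨s, hs, hd⟩ := hγ.diff
  have hint : IntervalIntegrable (deriv γ) volume a b := by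
    apply hγ.int.mono_set
    rw [Set.uIcc_of_le hab, Set.uIcc_of_le (by norm_num)]
    exact Set.Icc_subset_Icc ha hb
  have h1 : ∫ t in a..b, deriv γ t = γ b - γ a := by
    apply MeasureTheory.integral_eq_of_hasDerivAt_off_countable γ (deriv γ) hs
    · rw [Set.uIcc_of_le hab]
      exact hγ.cont.mono (Set.Icc_subset_Icc ha hb)
    · intro t ht
      rw [min_eq_left hab, max_eq_right hab] at ht
      exact (hd t ⟨⟨by linarith [ht.1.1], by linarith [ht.1.2]⟩, ht.2⟩).hasDerivAt
    · exact hint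
  rw [← h1]
  exact intervalIntegral.norm_integral_le_integral_norm hab

theorem IsPath.int_len {γ : ℝ → E} (hγ : IsPath γ) (ξ : ℝ) {g : E → ℝ} (hg : Continuous g) :
    IntervalIntegrable (fun t => exp (ξ * g (γ t)) * ‖deriv γ t‖) volume 0 1 := by
  apply hγ.int.norm.continuousOn_mul
  rw [Set.uIcc_of_le (by norm_num)]
  exact (Real.continuous_exp.comp_continuousOn ((hg.comp_continuousOn hγ.cont).const_mul ξ))

end gen

variable {d : ℕ}

/-- rounding to the lattice -/
noncomputable def rd (ε : ℝ) (y : EuclideanSpace ℝ (Fin d)) : Fin d → ℤ :=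
  fun i => round (y i / (ε / (4 * d)))

theorem rd_near (hd : 0 < d) {ε : ℝ} (hε : 0 < ε) (y : EuclideanSpace ℝ (Fin d)) :
    ‖y - lp ε (rd ε y)‖ ≤ ε / 8 := by
  have hd' : (0 : ℝ) < d := by exact_mod_cast hd
  have hs : 0 < ε / (4 * d) := by positivity
  have key : ∀ y : ℝ, |y - ε / (4 * d) * round (y / (ε / (4 * d)))| ≤ ε / (4 * d) / 2 := by
    intro y
    have h1 : |y / (ε / (4 * d)) - round (y / (ε / (4 * d)))| ≤ 1 / 2 := abs_sub_round _
    have e : y - ε / (4 * d) * round (y / (ε / (4 * d))) =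
        ε / (4 * d) * (y / (ε / (4 * d)) - round (y / (ε / (4 * d)))) := by field_simp
    rw [e, abs_mul, abs_of_pos hs]
    calc ε / (4 * d) * |y / (ε / (4 * d)) - round (y / (ε / (4 * d)))| ≤ ε / (4 * d) * (1 / 2) := by gcongr
      _ = _ := by ring
  calc ‖y - lp ε (rd ε y)‖ ≤ ∑ i, |(y - lp ε (rd ε y)) i| := norm_le_sum _
    _ ≤ ∑ _i : Fin d, ε / (4 * d) / 2 := Finset.sum_le_sum fun i _ => key _
    _ = _ := by
        rw [Finset.sum_const, Finset.card_univ, Fintype.card_fin, nsmul_eq_mul]; field_simp; norm_num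

theorem discretize (hd : 0 < d) {γ : ℝ → EuclideanSpace ℝ (Fin d)} (hγ : IsPath γ)
    {g : EuclideanSpace ℝ (Fin d) → ℝ} (hg : Continuous g) {ε ξ M R : ℝ}
    (hε : 0 < ε) (hε1 : ε ≤ 1) (hξ : 0 ≤ ξ) (hR : ∀ t ∈ Set.Icc (0 : ℝ) 1, ‖γ t‖ ≤ R)
    (hM : ∀ x y : EuclideanSpace ℝ (Fin d), ‖x‖ ≤ R + 1 → ‖y‖ ≤ R + 1 → ‖y - x‖ ≤ ε → |g y - g x| ≤ M) :
    ∃ (m : ℕ → Fin d → ℤ) (J : ℕ), (∀ k < J, ‖lp ε (m (k + 1)) - lp ε (m k)‖ ≤ ε) ∧
      ‖lp ε (m 0) - γ 0‖ ≤ ε ∧ ‖lp ε (m J) - γ 1‖ ≤ ε ∧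
      ∑ k ∈ Finset.range J, ε * exp (ξ * g (lp ε (m k))) ≤ 16 * exp (ξ * M) * len ξ g γ := by
  have hunif := isCompact_Icc.uniformContinuousOn_of_continuous hγ.cont
  rw [Metric.uniformContinuousOn_iff] at hunif
  obtain ⟨δ, hδ, hu⟩ := hunif (ε / 16) (by positivity)
  obtain ⟨N, hN⟩ := exists_nat_gt (1 / δ)
  have hN0 : (0 : ℝ) < N := lt_trans (by positivity) hN
  set t : ℕ → ℝ := fun i => i / N with ht
  have ht0 : ∀ i, 0 ≤ t i := fun i => by simp only [ht]; positivity
  have htmono : ∀ i, t i ≤ t (i + 1) := by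
    intro i
    simp only [ht]
    push_cast
    gcongr
    linarith
  have htT : ∀ i, i ≤ N → t i ≤ 1 := by
    intro i hi
    simp only [ht]
    rw [div_le_one hN0]; exact_mod_cast hi
  have htN : t N = 1 := by simp only [ht]; field_simp
  have hgap : ∀ i, t (i + 1) - t i < δ := by
    intro i
    simp only [ht]
    push_cast
    have e : ((i : ℝ) + 1) / N - i / N = 1 / N := by ring
    rw [e, div_lt_iff₀ hN0]
    rw [div_lt_iff₀ hδ] at hN; linarith
  set w : ℝ → ℝ := fun t => exp (ξ * g (γ t)) * ‖deriv γ t‖ with hw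
  have hwint : ∀ a b : ℝ, 0 ≤ a → a ≤ b → b ≤ 1 → IntervalIntegrable w volume a b := by
    intro a b ha hab hb
    apply (hγ.int_len ξ hg).mono_set
    rw [Set.uIcc_of_le hab, Set.uIcc_of_le (by norm_num)]
    exact Set.Icc_subset_Icc ha hb
  have main : ∀ i, i ≤ N → ∃ (m : ℕ → Fin d → ℤ) (J : ℕ) (σ : ℝ), 0 ≤ σ ∧ σ ≤ t i ∧
      (∀ k < J, ‖lp ε (m (k + 1)) - lp ε (m k)‖ ≤ ε) ∧ m 0 = rd ε (γ 0) ∧ m J = rd ε (γ σ) ∧
      ∑ k ∈ Finset.range J, ε * exp (ξ * g (lp ε (m k))) ≤ 16 * exp (ξ * M) * ∫ s in (0 : ℝ)..σ, w s ∧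
      ∀ s ∈ Set.Icc σ (t i), ‖γ s - γ σ‖ ≤ 3 / 16 * ε := by
    intro i
    induction i with
    | zero =>
      intro _
      refine ⟨fun _ => rd ε (γ 0), 0, 0, le_rfl, ht0 0, by intro k hk; omega, rfl, rfl, by simp, ?_⟩
      intro s hs
      have : t 0 = 0 := by simp [ht]
      rw [this] at hs
      have hs0 : s = 0 := le_antisymm hs.2 hs.1
      rw [hs0, sub_self, norm_zero]; positivity
    | succ i ih =>
      intro hi
      obtain ⟨m, J, σ, s0, s1, s2, s3, s4, s5, s6⟩ := ih (by omega)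
      have hti1 : t (i + 1) ≤ 1 := htT _ hi
      have hclose : ∀ s ∈ Set.Icc (t i) (t (i + 1)), ∀ s' ∈ Set.Icc (t i) (t (i + 1)),
          ‖γ s - γ s'‖ ≤ ε / 16 := by
        intro s hs s' hs'
        have := hu s ⟨(ht0 i).trans hs.1, hs.2.trans hti1⟩ s' ⟨(ht0 i).trans hs'.1, hs'.2.trans hti1⟩ (by
          rw [Real.dist_eq, abs_lt]
          have := hgap i
          constructor <;> linarith [hs.1, hs.2, hs'.1, hs'.2])
        rw [dist_eq_norm] at this
        exact this.le
      by_cases hall : ∀ s ∈ Set.Icc σ (t (i + 1)), ‖γ s - γ σ‖ ≤ 3 / 16 * ε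
      · exact ⟨m, J, σ, s0, s1.trans (htmono i), s2, s3, s4, s5, hall⟩
      · push Not at hall
        obtain ⟨s, hs, hs2⟩ := hall
        have hsi : t i < s := by
          by_contra hcon
          push Not at hcon
          have := s6 s ⟨hs.1, hcon⟩
          linarith
        have hσ1 : σ ≤ t (i + 1) := s1.trans (htmono i)
        -- bound along the piece
        have hpiece : ∀ s' ∈ Set.Icc σ (t (i + 1)), ‖γ s' - γ σ‖ ≤ ε / 4 := by
          intro s' hs'
          rcases le_total s' (t i) with h2 | h2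
          · have := s6 s' ⟨hs'.1, h2⟩; linarith
          · have a1 := hclose s' ⟨h2, hs'.2⟩ (t i) ⟨le_rfl, htmono i⟩
            have a2 := s6 (t i) ⟨s1, le_rfl⟩
            calc ‖γ s' - γ σ‖ = ‖(γ s' - γ (t i)) + (γ (t i) - γ σ)‖ := by congr 1; abel
              _ ≤ ‖γ s' - γ (t i)‖ + ‖γ (t i) - γ σ‖ := norm_add_le _ _
              _ ≤ _ := by linarith
        have hfar : ε / 16 ≤ ‖γ (t (i + 1)) - γ σ‖ := by
          have a1 := hclose s ⟨hsi.le, hs.2⟩ (t (i + 1)) ⟨htmono i, le_rfl⟩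
          have : ‖γ s - γ σ‖ ≤ ‖γ s - γ (t (i + 1))‖ + ‖γ (t (i + 1)) - γ σ‖ := by
            calc ‖γ s - γ σ‖ = ‖(γ s - γ (t (i + 1))) + (γ (t (i + 1)) - γ σ)‖ := by congr 1; abel
              _ ≤ _ := norm_add_le _ _
          linarith
        set σ' := t (i + 1) with hσ'
        have hxσ : ‖γ σ‖ ≤ R := hR σ ⟨s0, hσ1.trans hti1⟩
        set x := lp ε (rd ε (γ σ)) with hx
        have hnear : ‖γ σ - x‖ ≤ ε / 8 := rd_near hd hε _
        have hxR : ‖x‖ ≤ R + 1 := by
          calc ‖x‖ = ‖γ σ - (γ σ - x)‖ := by congr 1; abel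
            _ ≤ ‖γ σ‖ + ‖γ σ - x‖ := norm_sub_le _ _
            _ ≤ _ := by linarith
        have hlow : ε / 16 * exp (ξ * (g x - M)) ≤ ∫ s in σ..σ', w s := by
          have b1 : ε / 16 ≤ ∫ s in σ..σ', ‖deriv γ s‖ := hfar.trans (hγ.norm_sub_le s0 hσ1 hti1)
          have hi2 : IntervalIntegrable (fun s => ‖deriv γ s‖) volume σ σ' := by
            apply hγ.int.norm.mono_set
            rw [Set.uIcc_of_le hσ1, Set.uIcc_of_le (by norm_num)]
            exact Set.Icc_subset_Icc s0 hti1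
          calc ε / 16 * exp (ξ * (g x - M)) ≤ (∫ s in σ..σ', ‖deriv γ s‖) * exp (ξ * (g x - M)) := by
                gcongr
            _ = ∫ s in σ..σ', exp (ξ * (g x - M)) * ‖deriv γ s‖ := by
                rw [intervalIntegral.integral_const_mul, mul_comm]
            _ ≤ ∫ s in σ..σ', w s := by
                apply intervalIntegral.integral_mono_on hσ1 (hi2.const_mul _) (hwint _ _ s0 hσ1 hti1)
                intro s' hs'
                simp only [hw]
                have a1 := hpiece s' hs'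
                have a2 : ‖γ s' - x‖ ≤ ε := by
                  calc ‖γ s' - x‖ = ‖(γ s' - γ σ) + (γ σ - x)‖ := by congr 1; abel
                    _ ≤ ‖γ s' - γ σ‖ + ‖γ σ - x‖ := norm_add_le _ _
                    _ ≤ _ := by linarith
                have a5 := hR s' ⟨s0.trans hs'.1, hs'.2.trans hti1⟩
                have a3 := hM x (γ s') hxR (by linarith) a2
                rw [abs_le] at a3
                have a4 : g x - M ≤ g (γ s') := by linarith [a3.1]
                gcongr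
        refine ⟨fun k => if k ≤ J then m k else rd ε (γ σ'), J + 1, σ', s0.trans hσ1, le_rfl, ?_, ?_, ?_, ?_, ?_⟩
        · intro k hk
          rcases Nat.lt_or_ge k J with h2 | h2
          · simp only [show k + 1 ≤ J by omega, show k ≤ J by omega, if_true]
            exact s2 k h2
          · have : k = J := by omega
            subst this
            simp only [show ¬ (k + 1 ≤ k) by omega, le_refl, if_true, if_false]
            rw [s4]
            have a1 := rd_near hd hε (γ σ')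
            have a2 := rd_near hd hε (γ σ)
            have a3 := hpiece σ' ⟨hσ1, le_rfl⟩
            calc ‖lp ε (rd ε (γ σ')) - lp ε (rd ε (γ σ))‖ =
                ‖((γ σ' - γ σ) - (γ σ' - lp ε (rd ε (γ σ')))) + (γ σ - lp ε (rd ε (γ σ)))‖ := by congr 1; abel
              _ ≤ ‖(γ σ' - γ σ) - (γ σ' - lp ε (rd ε (γ σ')))‖ + ‖γ σ - lp ε (rd ε (γ σ))‖ :=
                norm_add_le _ _
              _ ≤ ‖γ σ' - γ σ‖ + ‖γ σ' - lp ε (rd ε (γ σ'))‖ + ‖γ σ - lp ε (rd ε (γ σ))‖ := by
                gcongr; exact norm_sub_le _ _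
              _ ≤ _ := by linarith
        · simp only [Nat.zero_le, if_true]; exact s3
        · simp only [show ¬ (J + 1 ≤ J) by omega, if_false]
        · rw [Finset.sum_range_succ]
          have e1 : ∑ k ∈ Finset.range J, ε * exp (ξ * g (lp ε (if k ≤ J then m k else rd ε (γ σ')))) =
              ∑ k ∈ Finset.range J, ε * exp (ξ * g (lp ε (m k))) := by
            apply Finset.sum_congr rfl
            intro k hk
            rw [Finset.mem_range] at hk
            simp only [show k ≤ J by omega, if_true]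
          rw [e1]
          simp only [le_refl, if_true]
          rw [s4, ← hx]
          have e2 : ∫ s in (0 : ℝ)..σ', w s = (∫ s in (0 : ℝ)..σ, w s) + ∫ s in σ..σ', w s := by
            rw [intervalIntegral.integral_add_adjacent_intervals]
            · exact hwint _ _ le_rfl s0 (hσ1.trans hti1)
            · exact hwint _ _ s0 hσ1 hti1
          rw [e2, mul_add]
          have e3 : ε * exp (ξ * g x) ≤ 16 * exp (ξ * M) * ∫ s in σ..σ', w s := by
            have e4 : ε * exp (ξ * g x) = 16 * exp (ξ * M) * (ε / 16 * exp (ξ * (g x - M))) := by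
              rw [show ξ * g x = ξ * M + ξ * (g x - M) by ring, Real.exp_add]; ring
            rw [e4]
            gcongr
          linarith
        · intro s' hs'
          have : s' = σ' := le_antisymm hs'.2 hs'.1
          rw [this, sub_self, norm_zero]; positivity
  obtain ⟨m, J, σ, s0, s1, s2, s3, s4, s5, s6⟩ := main N le_rfl
  rw [htN] at s1 s6
  refine ⟨m, J, s2, ?_, ?_, ?_⟩
  · rw [s3, norm_sub_rev]
    have := rd_near hd hε (γ 0)
    linarith
  · rw [s4]
    have a2 := rd_near hd hε (γ σ)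
    have a3 := s6 1 ⟨s1, le_rfl⟩
    calc ‖lp ε (rd ε (γ σ)) - γ 1‖ = ‖-(γ σ - lp ε (rd ε (γ σ))) - (γ 1 - γ σ)‖ := by congr 1; abel
      _ ≤ ‖-(γ σ - lp ε (rd ε (γ σ)))‖ + ‖γ 1 - γ σ‖ := norm_sub_le _ _
      _ ≤ _ := by rw [norm_neg]; linarith
  · refine s5.trans ?_
    have e : ∫ s in (0 : ℝ)..σ, w s ≤ len ξ g γ := by
      have e1 : len ξ g γ = (∫ s in (0 : ℝ)..σ, w s) + ∫ s in σ..1, w s := by
        rw [len, intervalIntegral.integral_add_adjacent_intervals]
        · exact hwint _ _ le_rfl s0 s1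
        · exact hwint _ _ s0 s1 le_rfl
      have e2 : 0 ≤ ∫ s in σ..1, w s := by
        apply intervalIntegral.integral_nonneg s1
        intro s _
        simp only [hw]; positivity
      linarith
    gcongr

end Pool.Agent.H964.W
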