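import Pool.Agent.H964.WN.Root
import Pool.Agent.H964.WN.Mod
import Pool.Agent.H964.WN.Path

/-!
# The lower bound for the distances
-/

set_option autoImplicit false

namespace Pool.Agent.H964.W

open MeasureTheory ProbabilityTheory Real Filter Topology

theorem par_exists {d : ℕ} {ξ : ℝ} (hξ0 : 0 < ξ) (hξ1 : ξ ≤ 1 / 1000) (hξ2 : ξ ≤ 1 / (2 * bd d + 4)) :
    ∃ p η : ℝ, ∃ K Mx : ℕ, Par d ξ p η (bd d) K Mx ∧
      ((bd d + 2 * ξ ^ 2) / (p - 1) ≤ (2 * bd d + 4) * ξ ^ (4 / 3 : ℝ)) := by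
  obtain ⟨b, hb⟩ : ∃ b, b = bd d := ⟨_, rfl⟩
  have hb0 : 0 ≤ b := by rw [hb]; exact bd_nonneg d
  rw [← hb] at hξ2 ⊢
  obtain ⟨p, hp⟩ : ∃ p, p = ξ ^ (-(4 / 3) : ℝ) := ⟨_, rfl⟩
  obtain ⟨η, hη⟩ : ∃ η, η = ξ ^ (2 / 3 : ℝ) := ⟨_, rfl⟩
  have hp0 : 0 < p := by rw [hp]; positivity
  have hη0 : 0 < η := by rw [hη]; positivity
  have hη2 : η ^ 2 = ξ ^ (4 / 3 : ℝ) := by
    rw [hη, ← Real.rpow_natCast, ← Real.rpow_mul hξ0.le]; norm_num
  have hpη : p * η ^ 2 = 1 := by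
    rw [hη2, hp, ← Real.rpow_add hξ0]; norm_num
  have hpξ : p ^ 2 * ξ ^ 2 * η = 1 := by
    have e1 : p ^ 2 = ξ ^ (-(8 / 3) : ℝ) := by
      rw [hp, ← Real.rpow_natCast, ← Real.rpow_mul hξ0.le]; norm_num
    have e2 : ξ ^ 2 = ξ ^ (2 : ℝ) := by
      rw [← Real.rpow_natCast]; norm_num
    rw [e1, e2, hη, ← Real.rpow_add hξ0, ← Real.rpow_add hξ0]; norm_num
  have hξle1 : ξ ≤ 1 := by linarith
  have h43 : ξ ^ (4 / 3 : ℝ) ≤ ξ := by
    have := Real.rpow_le_rpow_of_exponent_ge hξ0 hξle1 (show (1 : ℝ) ≤ 4 / 3 by norm_num)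
    rwa [Real.rpow_one] at this
  have hη1 : η ≤ 1 / 100 := by
    have h1 : ξ ^ (2 / 3 : ℝ) ≤ (1 / 1000) ^ (2 / 3 : ℝ) := Real.rpow_le_rpow hξ0.le hξ1 (by norm_num)
    have h2 : ((1 : ℝ) / 1000) ^ (2 / 3 : ℝ) = 1 / 100 := by
      rw [show (1 : ℝ) / 1000 = (1 / 10) ^ (3 : ℝ) by norm_num, ← Real.rpow_mul (by norm_num)]
      norm_num
    rw [hη]; rw [h2] at h1; exact h1
  have hpb : 2 * b + 4 ≤ p := by
    have h1 : p * η ^ 2 ≤ p * (1 / (2 * b + 4)) := by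
      rw [hη2]
      gcongr
      exact h43.trans hξ2
    rw [hpη] at h1
    have h2 : p * (1 / (2 * b + 4)) = p / (2 * b + 4) := by ring
    rw [h2, le_div_iff₀ (by positivity)] at h1
    linarith
  refine ⟨p, η, ⌈2 / η⌉₊, ⌈1 / η⌉₊, ⟨hη0, hη1, by linarith, hpη, hpξ.le, hb, by linarith, ?_, ?_, ?_, ?_⟩, ?_⟩
  · have := Nat.le_ceil (1 / η)
    rwa [div_le_iff₀ hη0] at this
  · have h1 : (⌈1 / η⌉₊ : ℝ) < 1 / η + 1 := Nat.ceil_lt_add_one (by positivity)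
    have h2 : (⌈1 / η⌉₊ : ℝ) * η ≤ (1 / η + 1) * η := by gcongr
    have h3 : (1 / η + 1) * η = 1 + η := by field_simp
    linarith
  · rw [Nat.one_le_iff_ne_zero]
    intro h
    rw [Nat.ceil_eq_zero] at h
    have : 0 < 2 / η := by positivity
    linarith
  · exact Nat.le_ceil _
  · have hξp : ξ ^ (4 / 3 : ℝ) = 1 / p := by
      rw [← hη2, eq_div_iff hp0.ne', mul_comm]; exact hpη
    have hξ21 : ξ ^ 2 ≤ 1 := by nlinarith
    have h1 : (b + 2 * ξ ^ 2) / (p - 1) ≤ (b + 2) / (p / 2) := by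
      apply div_le_div₀ (by positivity) (by linarith) (by positivity) (by linarith)
    have h2 : (b + 2) / (p / 2) = (2 * b + 4) * (1 / p) := by field_simp; ring
    rw [h2, ← hξp] at h1
    exact h1

/-- decay -/
theorem decay (K : ℝ) (hK : 0 ≤ K) (d : ℕ) {c : ℝ} (hc : 0 < c) :
    Tendsto (fun n : ℕ => K * ((2 : ℝ) ^ n) ^ d * exp (-(c * (n : ℝ) ^ 2))) atTop (𝓝 0) := by
  have h0 : Tendsto (fun n : ℕ => K * exp (-(n : ℝ))) atTop (𝓝 0) := by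
    have := (Real.tendsto_exp_neg_atTop_nhds_zero.comp tendsto_natCast_atTop_atTop).const_mul K
    simpa using this
  apply squeeze_zero' _ _ h0
  · exact Eventually.of_forall fun n => by positivity
  · obtain ⟨N, hN⟩ := exists_nat_ge ((d + 1 : ℝ) / c)
    filter_upwards [eventually_ge_atTop N] with n hn
    have hn' : (N : ℝ) ≤ n := by exact_mod_cast hn
    have h1 : (d + 1 : ℝ) ≤ c * n := by
      rw [div_le_iff₀ hc] at hN
      nlinarith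
    have h2 : ((2 : ℝ) ^ n) ^ d ≤ exp (n * d) := by
      calc ((2 : ℝ) ^ n) ^ d ≤ ((exp 1) ^ n) ^ d := by
            gcongr
            have := Real.add_one_le_exp (1 : ℝ)
            linarith
        _ = _ := by rw [← Real.exp_nat_mul, ← Real.exp_nat_mul]; congr 1; ring
    calc K * ((2 : ℝ) ^ n) ^ d * exp (-(c * (n : ℝ) ^ 2)) ≤ K * exp (n * d) * exp (-(c * (n : ℝ) ^ 2)) := by
          gcongr
      _ = K * exp (n * d + -(c * (n : ℝ) ^ 2)) := by rw [Real.exp_add]; ring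
      _ ≤ K * exp (-(n : ℝ)) := by
          gcongr
          have hn0 : (0 : ℝ) ≤ n := Nat.cast_nonneg n
          nlinarith

variable {d : ℕ} {Ω : Type*} [MeasurableSpace Ω] {P : Measure Ω}
variable {κ : ℝ → ℝ} {C ρ₀ : ℝ} {h : ℕ → EuclideanSpace ℝ (Fin d) → Ω → ℝ}

theorem lower_bound (hκ : Ker κ C ρ₀) (hh : WNF P κ h) (i₀ : Fin d) {R : ℝ} (hR : 0 ≤ R) {ξ : ℝ}
    (hξ0 : 0 < ξ) (hξ1 : ξ ≤ 1 / 1000) (hξ2 : ξ ≤ 1 / (2 * bd d + 4))
    (hc : ∀ n, ∀ᵐ ω ∂P, Continuous fun z => h n z ω) :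
    ∀ᶠ n : ℕ in atTop, P {ω | ∃ γ : ℝ → EuclideanSpace ℝ (Fin d), IsPath γ ∧ γ 0 = 0 ∧ γ 1 = e₀ i₀ ∧
      (∀ t ∈ Set.Icc (0 : ℝ) 1, ‖γ t‖ ≤ R) ∧
      len ξ (fun z => h n z ω) γ < (2 : ℝ) ^ (-((2 * bd d + 6) * ξ ^ (4 / 3 : ℝ) * n))} ≤
      ENNReal.ofReal (1 / 4) := by
  have hd : 0 < d := Fin.pos i₀
  have hd1 : (1 : ℝ) ≤ d := by exact_mod_cast hd
  have hC := hκ.C1
  obtain ⟨p, η, K, Mx, hpar, hexpo⟩ := par_exists hξ0 hξ1 hξ2
  obtain ⟨b, hb⟩ : ∃ b, b = bd d := ⟨_, rfl⟩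
  have hb0 : 0 ≤ b := by rw [hb]; exact bd_nonneg d
  rw [← hb] at hpar hexpo ⊢
  have hη0 := hpar.η0
  have hp1 := hpar.p1
  have hlog2 : 0 < log 2 := Real.log_pos (by norm_num)
  -- eventual conditions
  have ev1 : ∀ᶠ n : ℕ in atTop, ((1 / 2 : ℝ)) ^ n ≤ η ^ 2 := by
    have := tendsto_pow_atTop_nhds_zero_of_lt_one (by norm_num : (0 : ℝ) ≤ 1 / 2) (by norm_num)
    exact (this.eventually (eventually_le_nhds (by positivity : (0 : ℝ) < η ^ 2)))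
  have hCR := CR_nonneg d C ρ₀ K ξ p η b
  have ev2 : ∀ᶠ n : ℕ in atTop, CR d C ρ₀ K ξ p η b * (1 / 2 : ℝ) ^ n ≤ 1 / 8 := by
    have := (tendsto_pow_atTop_nhds_zero_of_lt_one (by norm_num : (0 : ℝ) ≤ 1 / 2)
      (by norm_num)).const_mul (CR d C ρ₀ K ξ p η b)
    rw [mul_zero] at this
    exact this.eventually (eventually_le_nhds (by norm_num))
  obtain ⟨c, hcdef⟩ : ∃ c, c = (ξ * log 2 / 11) ^ 2 / (8 * (C * d)) := ⟨_, rfl⟩
  have hc0 : 0 < c := by rw [hcdef]; positivity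
  have ev3 : ∀ᶠ n : ℕ in atTop, ((2 * (R + 1) + 5) ^ d * (6 * 10 ^ d)) * ((2 : ℝ) ^ n) ^ d *
      exp (-(c * (n : ℝ) ^ 2)) ≤ 1 / 8 :=
    (decay _ (by positivity) d hc0).eventually (eventually_le_nhds (by norm_num))
  have ev4 : ∀ᶠ n : ℕ in atTop, 8 * (C * d) * (d + 1) ≤ (ξ * (n * log 2) / 11) ^ 2 := by
    obtain ⟨N, hN⟩ := exists_nat_ge (max 1 (8 * (C * d) * (d + 1) / (ξ * log 2 / 11) ^ 2))
    filter_upwards [eventually_ge_atTop N] with n hn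
    have hn' : (N : ℝ) ≤ n := by exact_mod_cast hn
    have h1 := (le_max_left _ _).trans (hN.trans hn')
    have h2 := (le_max_right _ _).trans (hN.trans hn')
    rw [div_le_iff₀ (by positivity)] at h2
    have h3 : (ξ * (n * log 2) / 11) ^ 2 = (n : ℝ) * n * (ξ * log 2 / 11) ^ 2 := by ring
    rw [h3]
    refine h2.trans ?_
    have : (n : ℝ) ≤ n * n := by nlinarith
    gcongr
  have ev5 : ∀ᶠ n : ℕ in atTop, (16 : ℝ) ≤ 2 ^ (ξ ^ (4 / 3 : ℝ) * n) := by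
    have hpos : 0 < ξ ^ (4 / 3 : ℝ) := by positivity
    obtain ⟨N, hN⟩ := exists_nat_ge (4 / ξ ^ (4 / 3 : ℝ))
    filter_upwards [eventually_ge_atTop N] with n hn
    have hn' : (N : ℝ) ≤ n := by exact_mod_cast hn
    have h1 : 4 ≤ ξ ^ (4 / 3 : ℝ) * n := by
      rw [div_le_iff₀ hpos] at hN
      nlinarith
    calc (16 : ℝ) = 2 ^ (4 : ℝ) := by norm_num
      _ ≤ _ := Real.rpow_le_rpow_of_exponent_le (by norm_num) h1
  filter_upwards [ev1, ev2, ev3, ev4, ev5] with n v1 v2 v3 v4 v5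
  obtain ⟨ε, hεdef⟩ : ∃ ε : ℝ, ε = (1 / 2) ^ n := ⟨_, rfl⟩
  have hε : 0 < ε := by rw [hεdef]; positivity
  have hε1 : ε ≤ 1 := by rw [hεdef]; exact pow_le_one₀ (by norm_num) (by norm_num)
  have hεexp : ε = exp (-(n * log 2)) := by
    rw [Real.exp_neg, Real.exp_nat_mul, Real.exp_log (by norm_num), hεdef, one_div, inv_pow]
  have hεN : ε * exp (n * log 2) = 1 := by
    rw [hεexp, ← Real.exp_add]; simp
  have hε2 : ε⁻¹ = 2 ^ n := by rw [hεdef, one_div, inv_pow, inv_inv]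
  rw [← hεdef] at v1 v2
  obtain ⟨lam, hlam⟩ : ∃ lam, lam = ξ * (n * log 2) / 11 := ⟨_, rfl⟩
  have hlam0 : 0 ≤ lam := by rw [hlam]; positivity
  rw [← hlam] at v4
  obtain ⟨f, hf⟩ : ∃ f : ℕ, η ^ 2 * (4 / 5 : ℝ) ^ f < ε := by
    obtain ⟨f, hf⟩ := exists_pow_lt_of_lt_one (show 0 < ε / η ^ 2 by positivity)
      (by norm_num : (4 / 5 : ℝ) < 1)
    refine ⟨f, ?_⟩
    rw [lt_div_iff₀ (by positivity)] at hf
    linarith
  have PR := prob_root hκ hh i₀ hε hεN hpar hf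
  have PM := prob_BadM hκ hh hd hε hε1 hεN hlam0 v4 (R := R + 1) (by positivity)
  have eM : ((2 * (R + 1) + 5) / ε) ^ d * (6 * 10 ^ d) * exp (-(lam ^ 2 / (8 * (C * d)))) ≤ 1 / 8 := by
    refine le_trans (le_of_eq ?_) v3
    rw [div_eq_mul_inv (2 * (R + 1) + 5) ε, hε2, mul_pow]
    have : lam ^ 2 / (8 * (C * d)) = c * (n : ℝ) ^ 2 := by rw [hlam, hcdef]; ring
    rw [this]
    ring
  set BR := {ω | ε ^ (-(b + 2 * ξ ^ 2)) ≤ FR hh i₀ n K ε ξ p η Mx f ω} with hBR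
  have hsub : {ω | ∃ γ : ℝ → EuclideanSpace ℝ (Fin d), IsPath γ ∧ γ 0 = 0 ∧ γ 1 = e₀ i₀ ∧
      (∀ t ∈ Set.Icc (0 : ℝ) 1, ‖γ t‖ ≤ R) ∧
      len ξ (fun z => h n z ω) γ < (2 : ℝ) ^ (-((2 * b + 6) * ξ ^ (4 / 3 : ℝ) * n))} ⊆
      (BR ∪ BadM h n ε lam (R + 1)) ∪ {ω | ¬ Continuous fun z => h n z ω} := by
    rintro ω ⟨γ, hγ, hγ0, hγ1, hγR, hγl⟩
    by_contra hcon
    rw [Set.mem_union, Set.mem_union, not_or, not_or] at hcon
    obtain ⟨⟨w1, w2⟩, w3⟩ := hcon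
    have w3' : Continuous fun z => h n z ω := by
      by_contra h3
      exact w3 h3
    obtain ⟨m, J, s1, s2, s3, s4⟩ := discretize hd hγ w3' (M := 11 * lam) (R := R) hε hε1 hξ0.le hγR (by
      intro x y hx hy hxy
      exact good_mod hε hlam0 w2 w3' hx hy hxy)
    rw [hγ0, sub_zero] at s2
    rw [hγ1] at s3
    have w1' : FR hh i₀ n K ε ξ p η Mx f ω < ε ^ (-(b + 2 * ξ ^ 2)) := by
      by_contra h3
      push Not at h3
      exact w1 h3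
    obtain ⟨hJ, hgood⟩ := good_root hh i₀ hε hpar hf v1 w1' s1 s2 s3
    set S := ∑ k ∈ Finset.range J, ε * exp (ξ * h n (lp ε (m k)) ω) with hS
    have hS0 : 0 < S := by
      rw [hS]
      apply Finset.sum_pos
      · intro k _; positivity
      · exact ⟨0, Finset.mem_range.2 hJ⟩
    obtain ⟨a, ha⟩ : ∃ a, a = (b + 2 * ξ ^ 2) / (p - 1) := ⟨_, rfl⟩
    have hp1' : 0 < p - 1 := by linarith
    have hSlow : ε ^ a < S := by
      by_contra hcon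
      push Not at hcon
      have h1 : (ε ^ a) ^ (1 - p) ≤ S ^ (1 - p) :=
        Real.rpow_le_rpow_of_nonpos hS0 hcon (by linarith)
      rw [← Real.rpow_mul hε.le, ha, show (b + 2 * ξ ^ 2) / (p - 1) * (1 - p) =
        -(b + 2 * ξ ^ 2) by field_simp; ring] at h1
      exact absurd hgood (not_lt.2 h1)
    have e1 : exp (ξ * (11 * lam)) = ε ^ (-(ξ ^ 2)) := by
      rw [hεexp, ← Real.exp_mul, hlam]; congr 1; ring
    rw [e1] at s4
    have e2 : (2 : ℝ) ^ (-((2 * b + 6) * ξ ^ (4 / 3 : ℝ) * n)) = ε ^ ((2 * b + 6) * ξ ^ (4 / 3 : ℝ)) := by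
      rw [hεexp, ← Real.exp_mul, Real.rpow_def_of_pos (by norm_num)]; congr 1; ring
    have e3 : (2 : ℝ) ^ (ξ ^ (4 / 3 : ℝ) * n) = ε ^ (-ξ ^ (4 / 3 : ℝ)) := by
      rw [hεexp, ← Real.exp_mul, Real.rpow_def_of_pos (by norm_num)]; congr 1; ring
    rw [e2] at hγl
    rw [e3] at v5
    have hεp : 0 < ε ^ (-(ξ ^ 2)) := by positivity
    have hεp2 : 0 < ε ^ ((2 * b + 6) * ξ ^ (4 / 3 : ℝ)) := by positivity
    have hup : ε ^ a < ε ^ ((2 * b + 5) * ξ ^ (4 / 3 : ℝ) - ξ ^ 2) := by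
      calc ε ^ a < S := hSlow
        _ ≤ 16 * ε ^ (-(ξ ^ 2)) * len ξ (fun z => h n z ω) γ := s4
        _ ≤ 16 * ε ^ (-(ξ ^ 2)) * ε ^ ((2 * b + 6) * ξ ^ (4 / 3 : ℝ)) := by
            gcongr
        _ ≤ ε ^ (-ξ ^ (4 / 3 : ℝ)) * ε ^ (-(ξ ^ 2)) * ε ^ ((2 * b + 6) * ξ ^ (4 / 3 : ℝ)) := by gcongr
        _ = _ := by rw [← Real.rpow_add hε, ← Real.rpow_add hε]; congr 1; ring
    have h3 : (2 * b + 5) * ξ ^ (4 / 3 : ℝ) - ξ ^ 2 < a := by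
      by_contra hcon
      push Not at hcon
      exact absurd hup (not_lt.2 (Real.rpow_le_rpow_of_exponent_ge hε hε1 hcon))
    have hξ2' : ξ ^ 2 ≤ ξ ^ (4 / 3 : ℝ) := by
      rw [← Real.rpow_natCast]
      apply Real.rpow_le_rpow_of_exponent_ge hξ0 (by linarith) (by norm_num)
    rw [← ha] at hexpo
    linarith
  calc _ ≤ _ := measure_mono hsub
    _ ≤ P (BR ∪ BadM h n ε lam (R + 1)) + P {ω | ¬ Continuous fun z => h n z ω} := measure_union_le _ _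
    _ = P (BR ∪ BadM h n ε lam (R + 1)) := by
        rw [show P {ω | ¬ Continuous fun z => h n z ω} = 0 from hc n, add_zero]
    _ ≤ P BR + P (BadM h n ε lam (R + 1)) := measure_union_le _ _
    _ ≤ ENNReal.ofReal (1 / 8) + ENNReal.ofReal (1 / 8) :=
        add_le_add (PR.trans (ENNReal.ofReal_le_ofReal v2)) (PM.trans (ENNReal.ofReal_le_ofReal eM))
    _ = _ := by rw [← ENNReal.ofReal_add (by positivity) (by positivity)]; congr 1; norm_num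

end Pool.Agent.H964.W
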