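import Pool.Agent.H964.WN.Up
import Pool.Agent.H964.WN.Low

/-!
# Restriction of the field to a plane
-/

set_option autoImplicit false

namespace Pool.Agent.H964.W

open MeasureTheory ProbabilityTheory Real Filter Topology

variable {d : ℕ}

/-- the linear map -/
noncomputable def plin (i₀ i₁ : Fin d) : ℂ →ₗ[ℝ] EuclideanSpace ℝ (Fin d) where
  toFun z := z.re • e₀ i₀ + z.im • e₀ i₁
  map_add' z w := by simp only [Complex.add_re, Complex.add_im]; module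
  map_smul' r z := by
    simp only [Complex.real_smul, Complex.mul_re, Complex.mul_im, Complex.ofReal_re, Complex.ofReal_im,
      zero_mul, sub_zero, add_zero, RingHom.id_apply]
    module

theorem inner_e₀_ne {i₀ i₁ : Fin d} (h : i₀ ≠ i₁) : inner ℝ (e₀ i₀) (e₀ i₁) = (0 : ℝ) := by
  rw [inner_e₀]
  unfold e₀
  simp [h.symm]

/-- the isometry of the complex plane onto a coordinate plane -/
noncomputable def piso {i₀ i₁ : Fin d} (h : i₀ ≠ i₁) : ℂ →ₗᵢ[ℝ] EuclideanSpace ℝ (Fin d) where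
  toLinearMap := plin i₀ i₁
  norm_map' := by
    intro z
    have h1 : ‖plin i₀ i₁ z‖ ^ 2 = ‖z‖ ^ 2 := by
      change ‖z.re • e₀ i₀ + z.im • e₀ i₁‖ ^ 2 = ‖z‖ ^ 2
      rw [norm_add_sq_real, norm_smul, norm_smul, norm_e₀, norm_e₀, real_inner_smul_left,
        real_inner_smul_right, inner_e₀_ne h, Complex.sq_norm, Complex.normSq_apply]
      simp only [Real.norm_eq_abs, mul_one, sq_abs, mul_zero]
      ring
    exact (sq_eq_sq₀ (norm_nonneg _) (norm_nonneg _)).1 h1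

theorem piso_one {i₀ i₁ : Fin d} (h : i₀ ≠ i₁) : piso h 1 = e₀ i₀ := by
  change (1 : ℂ).re • e₀ i₀ + (1 : ℂ).im • e₀ i₁ = _
  simp

section general

variable {E F : Type*} [NormedAddCommGroup E] [NormedSpace ℝ E] [NormedAddCommGroup F] [NormedSpace ℝ F]

theorem PwC1.comp_iso {γ : ℝ → E} (hγ : PwC1 γ) (ι : E →ₗᵢ[ℝ] F) : PwC1 fun t => ι (γ t) := by
  refine ⟨ι.continuous.comp_continuousOn hγ.cont, ?_⟩
  obtain ⟨s, hs⟩ := hγ.pw
  refine ⟨s, fun a b ha hab hb hd => ?_⟩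
  exact ι.contDiff.comp_contDiffOn (hs a b ha hab hb hd)

theorem len_comp_iso {γ : ℝ → E} (hγ : PwC1 γ) (ι : E →ₗᵢ[ℝ] F) (ξ : ℝ) (g : F → ℝ) :
    len ξ g (fun t => ι (γ t)) = len ξ (fun z => g (ι z)) γ := by
  unfold len
  rw [intervalIntegral.integral_of_le zero_le_one, intervalIntegral.integral_of_le zero_le_one,
    integral_Ioc_eq_integral_Ioo, integral_Ioc_eq_integral_Ioo]
  obtain ⟨s, hs, hd⟩ := hγ.isPath.diff
  apply integral_congr_ae
  have h1 : ∀ᵐ t ∂(volume.restrict (Set.Ioo (0 : ℝ) 1)), t ∉ s :=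
    ae_restrict_of_ae (by
      rw [ae_iff]
      simpa using hs.measure_zero volume)
  filter_upwards [h1, ae_restrict_mem measurableSet_Ioo] with t ht ht2
  have hdt := hd t ⟨ht2, ht⟩
  have h2 : HasDerivAt (fun t => ι (γ t)) (ι (deriv γ t)) t :=
    ι.toContinuousLinearMap.hasFDerivAt.comp_hasDerivAt t hdt.hasDerivAt
  rw [h2.deriv, ι.norm_map]

end general

variable {Ω : Type*} [MeasurableSpace Ω] {P : Measure Ω}
variable {κ : ℝ → ℝ} {C ρ₀ : ℝ}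

theorem WNF.comp_iso {E F : Type*} [NormedAddCommGroup E] [InnerProductSpace ℝ E]
    [NormedAddCommGroup F] [InnerProductSpace ℝ F] {h : ℕ → F → Ω → ℝ} (hh : WNF P κ h)
    (ι : E →ₗᵢ[ℝ] F) : WNF P κ (fun n z => h n (ι z)) := by
  refine ⟨⟨fun p => hh.cgp.meas (p.1, ι p.2), ?_, fun p => hh.cgp.mean (p.1, ι p.2)⟩, ?_⟩
  · exact hh.cgp.gauss.comp_right (fun p : ℕ × E => (p.1, ι p.2))
  · intro n x m y
    rw [hh.cov, ← map_sub, ι.norm_map]

variable {h : ℕ → EuclideanSpace ℝ (Fin d) → Ω → ℝ}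

theorem upper_bound (hκ : Ker κ C ρ₀) (hh : WNF P κ h) {i₀ i₁ : Fin d} (hi : i₀ ≠ i₁) {ξ : ℝ}
    (hξ : 0 < ξ) (hξ1 : ξ < xiU C ρ₀) (hc : ∀ n, ∀ᵐ ω ∂P, Continuous fun z => h n z ω) :
    ∀ᶠ n : ℕ in atTop, P {ω | ¬ ∃ γ : ℝ → EuclideanSpace ℝ (Fin d), PwC1 γ ∧ γ 0 = 0 ∧ γ 1 = e₀ i₀ ∧
      (∀ t ∈ Set.Icc (0 : ℝ) 1, ‖γ t‖ ≤ 3 / 2) ∧
      len ξ (fun z => h n z ω) γ < (2 : ℝ) ^ (-(cU C ρ₀ * ξ ^ (4 / 3 : ℝ) * n))} ≤
      ENNReal.ofReal (1 / 4) := by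
  have h1 := upper_plane hκ (hh.comp_iso (piso hi)) hξ hξ1 (by
    intro n
    filter_upwards [hc n] with ω hω
    exact hω.comp (piso hi).continuous)
  filter_upwards [h1] with n hn
  refine (measure_mono ?_).trans hn
  intro ω hω hcon
  apply hω
  obtain ⟨γ, g1, g2, g3, g4, g5⟩ := hcon
  refine ⟨fun t => piso hi (γ t), g1.comp_iso _, ?_, ?_, ?_, ?_⟩
  · simp only [g2, map_zero]
  · simp only [g3]
    exact piso_one hi
  · intro t ht
    rw [(piso hi).norm_map]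
    exact g4 t ht
  · rw [len_comp_iso g1]
    exact g5

end Pool.Agent.H964.W
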