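import Pool.Agent.H964.WN.Pot

/-!
# The averages over segments: increments
-/

set_option autoImplicit false

namespace Pool.Agent.H964.W

open MeasureTheory ProbabilityTheory Real Filter Topology

variable {E : Type*} [NormedAddCommGroup E] [InnerProductSpace ℝ E]
variable {Ω : Type*} [MeasurableSpace Ω] {P : Measure Ω}
variable {κ : ℝ → ℝ} {C ρ₀ : ℝ} {h : ℕ → E → Ω → ℝ}
variable (hκ : Ker κ C ρ₀) (hh : WNF P κ h)

include hκ in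
theorem Fs_pt_ii {Λ : ℝ} (hΛ : 0 ≤ Λ) (u v a b : E) :
    IntervalIntegrable (fun t : ℝ => Fs κ Λ u v (pt a b t)) volume 0 1 :=
  ((Fs_continuous hκ hΛ u v).comp (pt_continuous a b)).intervalIntegrable _ _

include hκ in
theorem inner_HH_XX (n : ℕ) (z u v : E) :
    inner ℝ (HH hh n z) (XX hh n u v) = Fs κ (n * log 2) u v z := by
  rw [inner_XX hκ]
  unfold Fs
  apply intervalIntegral.integral_congr
  intro t _
  simp only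
  rw [HH_inner]

include hκ in
theorem inner_XX_XX (n : ℕ) (u v a b : E) :
    inner ℝ (XX hh n u v) (XX hh n a b) = ∫ t in (0 : ℝ)..1, Fs κ (n * log 2) u v (pt a b t) := by
  rw [inner_XX hκ]
  apply intervalIntegral.integral_congr
  intro t _
  simp only
  rw [real_inner_comm, inner_HH_XX hκ]

include hκ in
theorem inner_XX_XX_sub {n : ℕ} {u v a b a' b' : E} {d ℓ r : ℝ} (hℓ : 0 < ℓ) (hr : 0 < r)
    (hru : r ≤ ‖u - v‖) (h1 : ‖a - a'‖ ≤ d) (h2 : ‖b - b'‖ ≤ d) (h3 : ℓ ≤ ‖a - b‖) :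
    |inner ℝ (XX hh n u v) (XX hh n a b - XX hh n a' b')| ≤
      d * (48 * (√r)⁻¹ * (√ℓ)⁻¹ + π / r) := by
  have hΛ := lam_nonneg n
  have hd0 : 0 ≤ d := (norm_nonneg _).trans h1
  have hL : 0 < ‖u - v‖ := by linarith
  have hab : a ≠ b := by
    intro he
    rw [he, sub_self, norm_zero] at h3
    linarith
  have hvu : 0 < ‖v - u‖ := by rw [norm_sub_rev]; exact hL
  obtain ⟨e, he⟩ : ∃ e : E, e = (‖v - u‖)⁻¹ • (v - u) := ⟨_, rfl⟩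
  have he1 : ‖e‖ = 1 := by
    rw [he, norm_smul, norm_inv, norm_norm, inv_mul_cancel₀ hvu.ne']
  have huv : v - u = ‖v - u‖ • e := by
    rw [he, smul_smul, mul_inv_cancel₀ hvu.ne', one_smul]
  have hF := Fs_seg hκ hΛ he1 hvu huv hab h1 h2
  rw [intervalIntegral.integral_sub (Fs_pt_ii hκ hΛ u v a b) (Fs_pt_ii hκ hΛ u v a' b')] at hF
  rw [inner_sub_right, inner_XX_XX hκ, inner_XX_XX hκ]
  refine hF.trans ?_
  rw [norm_sub_rev v u]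
  have s1 : (√‖u - v‖)⁻¹ ≤ (√r)⁻¹ := inv_anti₀ (Real.sqrt_pos.2 hr) (Real.sqrt_le_sqrt hru)
  have s2 : (√‖a - b‖)⁻¹ ≤ (√ℓ)⁻¹ := inv_anti₀ (Real.sqrt_pos.2 hℓ) (Real.sqrt_le_sqrt h3)
  have := Real.pi_pos
  gcongr

/-- the accumulated increments have a Lipschitz potential against segments -/
def Past2 (n : ℕ) (B : ℝ) (D : Lp ℝ 2 P) (r : ℝ) : Prop :=
  ∀ (a b a' b' : E) (d ℓ : ℝ), 0 < ℓ → ℓ ≤ r → ‖a - a'‖ ≤ d → ‖b - b'‖ ≤ d → ℓ ≤ ‖a - b‖ →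
    |inner ℝ D (XX hh n a b - XX hh n a' b')| ≤ B * d * (√r)⁻¹ * (√ℓ)⁻¹

theorem sqrt_quarter {r : ℝ} : √(r / 4) = √r / 2 := by
  rw [Real.sqrt_div' _ (by norm_num), show (4 : ℝ) = 2 ^ 2 by norm_num, Real.sqrt_sq (by norm_num)]

theorem XX_pot_scale {d ℓ r : ℝ} (hd : 0 ≤ d) (hℓ : 0 < ℓ) (hr : 0 < r) (hℓr : ℓ ≤ r) :
    d * (48 * (√(r / 4))⁻¹ * (√ℓ)⁻¹ + π / (r / 4)) ≤ 109 * d * (√r)⁻¹ * (√ℓ)⁻¹ := by
  have h1 : (√(r / 4))⁻¹ = 2 * (√r)⁻¹ := by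
    rw [sqrt_quarter]
    field_simp
  have hsr : 0 < √r := Real.sqrt_pos.2 hr
  have hsl : 0 < √ℓ := Real.sqrt_pos.2 hℓ
  have h2 : 1 / r ≤ (√r)⁻¹ * (√ℓ)⁻¹ := by
    have h3 : r⁻¹ = (√r)⁻¹ * (√r)⁻¹ := by rw [← mul_inv, Real.mul_self_sqrt hr.le]
    rw [one_div, h3]
    apply mul_le_mul_of_nonneg_left _ (by positivity)
    exact inv_anti₀ hsl (Real.sqrt_le_sqrt hℓr)
  have h3 : π / (r / 4) = 4 * π * (1 / r) := by field_simp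
  have hpi : π ≤ 3.1416 := Real.pi_lt_d4.le
  have h4 : 4 * π * (1 / r) ≤ 13 * ((√r)⁻¹ * (√ℓ)⁻¹) := by
    have : 4 * π ≤ 13 := by norm_num at hpi ⊢; linarith
    gcongr
  rw [h1, h3]
  calc d * (48 * (2 * (√r)⁻¹) * (√ℓ)⁻¹ + 4 * π * (1 / r)) ≤
      d * (48 * (2 * (√r)⁻¹) * (√ℓ)⁻¹ + 13 * ((√r)⁻¹ * (√ℓ)⁻¹)) := by gcongr
    _ = _ := by ring

include hκ in
theorem DD_pot2 {n : ℕ} {u v u' c c' v' : E} (hr : 0 < ‖u - v‖) (l1 : ‖u - v‖ / 4 ≤ ‖u' - c‖)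
    (l2 : ‖u - v‖ / 4 ≤ ‖c' - v'‖) : Past2 hh n 218 (DD hh n u v u' c c' v') ‖u - v‖ := by
  intro a b a' b' d ℓ hℓ hℓr h1 h2 h3
  have hd0 : 0 ≤ d := (norm_nonneg _).trans h1
  have hsc := XX_pot_scale hd0 hℓ hr hℓr
  have a0 := (inner_XX_XX_sub hκ hh (n := n) (u := u) (v := v) hℓ (by positivity : 0 < ‖u - v‖ / 4)
    (by linarith) h1 h2 h3).trans hsc
  have a1 := (inner_XX_XX_sub hκ hh (n := n) (u := u') (v := c) hℓ (by positivity : 0 < ‖u - v‖ / 4)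
    l1 h1 h2 h3).trans hsc
  have a2 := (inner_XX_XX_sub hκ hh (n := n) (u := c') (v := v') hℓ (by positivity : 0 < ‖u - v‖ / 4)
    l2 h1 h2 h3).trans hsc
  rw [DD, inner_sub_left, real_inner_smul_left, inner_add_left]
  have e : 218 * d * (√‖u - v‖)⁻¹ * (√ℓ)⁻¹ = 2 * (109 * d * (√‖u - v‖)⁻¹ * (√ℓ)⁻¹) := by ring
  rw [e]
  rw [abs_le] at a0 a1 a2 ⊢
  constructor <;> linarith [a0.1, a0.2, a1.1, a1.2, a2.1, a2.2]

include hκ in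
theorem Past2_add {n : ℕ} {u v u' c c' v' : E} (hr : 0 < ‖u - v‖) (l1 : ‖u - v‖ / 4 ≤ ‖u' - c‖)
    (l2 : ‖u - v‖ / 4 ≤ ‖c' - v'‖) {D : Lp ℝ 2 P} (hD : Past2 hh n 2000 D ‖u - v‖) {ρ : ℝ}
    (hρ : 0 < ρ) (hρ2 : ρ ≤ 4 / 5 * ‖u - v‖) :
    Past2 hh n 2000 (D + DD hh n u v u' c c' v') ρ := by
  intro a b a' b' d ℓ hℓ hℓr h1 h2 h3
  have hd0 : 0 ≤ d := (norm_nonneg _).trans h1
  have a1 := hD a b a' b' d ℓ hℓ (by linarith) h1 h2 h3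
  have a2 := DD_pot2 hκ hh (n := n) hr l1 l2 a b a' b' d ℓ hℓ (by linarith) h1 h2 h3
  rw [inner_add_left]
  refine (abs_add_le _ _).trans ?_
  have hs : (√‖u - v‖)⁻¹ ≤ 9 / 10 * (√ρ)⁻¹ := by
    have h4 : √ρ ≤ 9 / 10 * √‖u - v‖ := by
      rw [show (9 / 10 : ℝ) * √‖u - v‖ = √((9 / 10) ^ 2 * ‖u - v‖) by
        rw [Real.sqrt_mul (by positivity), Real.sqrt_sq (by norm_num)]]
      apply Real.sqrt_le_sqrt
      linarith
    have h5 : 0 < √ρ := Real.sqrt_pos.2 hρ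
    have h6 : 0 < √‖u - v‖ := Real.sqrt_pos.2 hr
    rw [← div_eq_mul_inv, le_div_iff₀ h5, inv_mul_le_iff₀ h6]
    linarith
  have h7 : 0 ≤ (√ℓ)⁻¹ := by positivity
  calc _ ≤ 2218 * d * (√‖u - v‖)⁻¹ * (√ℓ)⁻¹ := by linarith
    _ ≤ 2218 * d * (9 / 10 * (√ρ)⁻¹) * (√ℓ)⁻¹ := by gcongr
    _ = 1996.2 * (d * (√ρ)⁻¹ * (√ℓ)⁻¹) := by ring
    _ ≤ 2000 * (d * (√ρ)⁻¹ * (√ℓ)⁻¹) := by
        apply mul_le_mul_of_nonneg_right (by norm_num) (by positivity)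
    _ = _ := by ring

include hκ in
theorem inner_DD2 {n : ℕ} {B : ℝ} (_hB : 0 ≤ B) {u v u' c c' v' : E} (hr : 0 < ‖u - v‖) {D : Lp ℝ 2 P}
    (hD : Past2 hh n B D ‖u - v‖) {d : ℝ} (h1 : ‖u' - u‖ ≤ d) (h2 : ‖c - mid u v‖ ≤ d)
    (h3 : ‖c' - mid u v‖ ≤ d) (h4 : ‖v' - v‖ ≤ d) :
    |inner ℝ D (DD hh n u v u' c c' v')| ≤ 2 * B * (d / ‖u - v‖) := by
  have hd0 : 0 ≤ d := (norm_nonneg _).trans h1
  have e : DD hh n u v u' c c' v' = (1 / 2 : ℝ) • (-(XX hh n u (mid u v) - XX hh n u' c) +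
      -(XX hh n (mid u v) v - XX hh n c' v')) := by
    rw [DD, XX_split hκ hh n u v]
    module
  have m1 := norm_sub_mid u v
  have m2 := norm_mid_sub u v
  have a1 := hD u (mid u v) u' c d (‖u - v‖ / 4) (by positivity) (by linarith)
    (by rw [norm_sub_rev]; exact h1) (by rw [norm_sub_rev]; exact h2) (by rw [m1]; linarith)
  have a2 := hD (mid u v) v c' v' d (‖u - v‖ / 4) (by positivity) (by linarith)
    (by rw [norm_sub_rev]; exact h3) (by rw [norm_sub_rev]; exact h4) (by rw [m2]; linarith)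
  have e2 : B * d * (√‖u - v‖)⁻¹ * (√(‖u - v‖ / 4))⁻¹ = 2 * B * (d / ‖u - v‖) := by
    rw [sqrt_quarter]
    have h5 : (√‖u - v‖)⁻¹ * (√‖u - v‖)⁻¹ = (‖u - v‖)⁻¹ := by
      rw [← mul_inv, Real.mul_self_sqrt hr.le]
    calc B * d * (√‖u - v‖)⁻¹ * (√‖u - v‖ / 2)⁻¹ = 2 * B * d * ((√‖u - v‖)⁻¹ * (√‖u - v‖)⁻¹) := by
          rw [inv_div]; ring
      _ = _ := by rw [h5]; ring
  rw [e2] at a1 a2
  rw [e, inner_smul_right, inner_add_right, inner_neg_right, inner_neg_right, abs_mul,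
    abs_of_pos (by norm_num : (0 : ℝ) < 1 / 2)]
  rw [abs_le] at a1 a2
  have h6 : |-inner ℝ D (XX hh n u (mid u v) - XX hh n u' c) +
      -inner ℝ D (XX hh n (mid u v) v - XX hh n c' v')| ≤ 2 * (2 * B * (d / ‖u - v‖)) := by
    rw [abs_le]
    constructor <;> linarith [a1.1, a1.2, a2.1, a2.2]
  linarith

include hκ in
theorem norm_add_DD2 {n : ℕ} {u v u' c c' v' : E} (hr : 0 < ‖u - v‖) (l1 : ‖u - v‖ / 4 ≤ ‖u' - c‖)
    (l2 : ‖u - v‖ / 4 ≤ ‖c' - v'‖) {D : Lp ℝ 2 P} (hD : Past2 hh n 2000 D ‖u - v‖) {s : ℝ}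
    (h1 : ‖u' - u‖ ≤ s * ‖u - v‖) (h2 : ‖c - mid u v‖ ≤ s * ‖u - v‖)
    (h3 : ‖c' - mid u v‖ ≤ s * ‖u - v‖) (h4 : ‖v' - v‖ ≤ s * ‖u - v‖) :
    ‖D + DD hh n u v u' c c' v'‖ ^ 2 ≤ ‖D‖ ^ 2 + 8436 * s := by
  have b1 := inner_DD2 hκ hh (by norm_num) hr hD h1 h2 h3 h4
  have b2 := inner_DD2 hκ hh (by norm_num) hr (DD_pot2 hκ hh (n := n) hr l1 l2) h1 h2 h3 h4
  have e : s * ‖u - v‖ / ‖u - v‖ = s := by field_simp
  rw [e] at b1 b2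
  rw [norm_add_sq_real, ← real_inner_self_eq_norm_sq (DD hh n u v u' c c' v')]
  linarith [le_abs_self (inner ℝ D (DD hh n u v u' c c' v')),
    le_abs_self (inner ℝ (DD hh n u v u' c c' v') (DD hh n u v u' c c' v'))]

include hκ in
theorem root_past2 {n : ℕ} {u v : E} (h0 : 0 < ‖u - v‖) :
    Past2 hh n 2000 (XX hh n u v) ‖u - v‖ := by
  intro a b a' b' d ℓ hℓ hℓr g1 g2 g3
  have hd0 : 0 ≤ d := (norm_nonneg _).trans g1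
  have a0 := (inner_XX_XX_sub hκ hh (n := n) (u := u) (v := v) hℓ (by positivity : 0 < ‖u - v‖ / 4)
    (by linarith) g1 g2 g3).trans (XX_pot_scale hd0 hℓ h0 hℓr)
  refine a0.trans ?_
  have h5 : 0 ≤ d * (√‖u - v‖)⁻¹ * (√ℓ)⁻¹ := by positivity
  have h6 : 109 * d * (√‖u - v‖)⁻¹ * (√ℓ)⁻¹ = 109 * (d * (√‖u - v‖)⁻¹ * (√ℓ)⁻¹) := by ring
  have h7 : 2000 * d * (√‖u - v‖)⁻¹ * (√ℓ)⁻¹ = 2000 * (d * (√‖u - v‖)⁻¹ * (√ℓ)⁻¹) := by ring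
  rw [h6, h7]
  linarith

/-! ### the norm of the root -/

include hκ in
theorem Gk_up {Λ ρ ρ₁ : ℝ} (hρ : 0 < ρ) (h0 : ρ₀ ≤ ρ₁) (hρρ : ρ ≤ ρ₁) (hΛ : 0 ≤ Λ) :
    Gk κ 0 Λ ρ ≤ 2 * √ρ₁ * (√ρ)⁻¹ := by
  have hr1 := hκ.r1
  have h1 : 0 < ρ₁ := by linarith
  have h2 := Gk_hold hκ 0 Λ hρ h1
  rw [Gk_far hκ hΛ (by simpa using h0 : ρ₀ ≤ ρ₁ * exp 0), sub_zero] at h2
  refine (le_abs_self _).trans (h2.trans ?_)
  have h3 : √|ρ - ρ₁| ≤ √ρ₁ := by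
    apply Real.sqrt_le_sqrt
    rw [abs_sub_comm, abs_of_nonneg (by linarith)]
    linarith
  have h4 : (√ρ₁)⁻¹ ≤ (√ρ)⁻¹ := inv_anti₀ (Real.sqrt_pos.2 hρ) (Real.sqrt_le_sqrt hρρ)
  have h5 : 0 ≤ (√ρ)⁻¹ := by positivity
  calc √|ρ - ρ₁| * ((√ρ)⁻¹ + (√ρ₁)⁻¹) ≤ √ρ₁ * ((√ρ)⁻¹ + (√ρ)⁻¹) := by gcongr
    _ = _ := by ring

include hκ in
theorem root_norm {n : ℕ} {u v : E} (h0 : ‖u - v‖ = 1) :
    ‖XX hh n u v‖ ^ 2 ≤ 8 * √ρ₀ := by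
  have hΛ := lam_nonneg n
  have hr1 := hκ.r1
  have huv : u ≠ v := by
    intro he
    rw [he, sub_self, norm_zero] at h0
    norm_num at h0
  have hF : ∀ z : E, (∃ s ∈ Set.Icc (0 : ℝ) 1, z = pt u v s) → |Fs κ (n * log 2) u v z| ≤ 8 * √ρ₀ := by
    rintro z ⟨s, hs, rfl⟩
    obtain ⟨i1, i2⟩ := half_int s
    have hG0 : ∀ t : ℝ, 0 ≤ Gk κ 0 (n * log 2) ‖pt u v s - pt u v t‖ := fun t => Gk_nonneg hκ hΛ _
    have hnn : 0 ≤ Fs κ (n * log 2) u v (pt u v s) := by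
      unfold Fs
      exact intervalIntegral.integral_nonneg (by norm_num) fun t _ => hG0 t
    rw [abs_of_nonneg hnn]
    unfold Fs
    calc ∫ t in (0 : ℝ)..1, Gk κ 0 (n * log 2) ‖pt u v s - pt u v t‖ ≤
        ∫ t in (0 : ℝ)..1, 2 * √ρ₀ * |t - s| ^ (-(1 / 2 : ℝ)) := by
          apply intervalIntegral.integral_mono_ae_restrict (by norm_num)
            ((G_pt_continuous hκ hΛ u v _).intervalIntegrable _ _) (i1.const_mul _)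
          rw [EventuallyLE, ae_restrict_iff' measurableSet_Icc]
          have n1 : ∀ᵐ t : ℝ, t ≠ s := by rw [ae_iff]; simp
          filter_upwards [n1] with t ht htI
          have hpos : 0 < |s - t| := abs_pos.2 (sub_ne_zero.2 ht.symm)
          have e1 : ‖pt u v s - pt u v t‖ = |s - t| := by rw [norm_pt_sub, h0, mul_one]
          rw [e1]
          have h2 : |s - t| ≤ ρ₀ := by
            refine le_trans ?_ hr1
            rw [abs_le]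
            constructor <;> linarith [hs.1, hs.2, htI.1, htI.2]
          refine (Gk_up hκ hpos le_rfl h2 hΛ).trans (le_of_eq ?_)
          rw [abs_sub_comm t s, Real.rpow_neg hpos.le, ← Real.sqrt_eq_rpow]
      _ = 2 * √ρ₀ * ∫ t in (0 : ℝ)..1, |t - s| ^ (-(1 / 2 : ℝ)) := by
          rw [intervalIntegral.integral_const_mul]
      _ ≤ 2 * √ρ₀ * 4 := by gcongr
      _ = _ := by ring
  rw [← real_inner_self_eq_norm_sq, inner_XX_XX hκ]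
  have : ‖∫ t in (0 : ℝ)..1, Fs κ (n * log 2) u v (pt u v t)‖ ≤ 8 * √ρ₀ * |1 - 0| := by
    apply intervalIntegral.norm_integral_le_of_norm_le_const
    intro t ht
    rw [Set.uIoc_of_le (by norm_num)] at ht
    rw [Real.norm_eq_abs]
    exact hF _ ⟨t, ⟨ht.1.le, ht.2⟩, rfl⟩
  have h2 := (Real.le_norm_self _).trans this
  simpa using h2

end Pool.Agent.H964.W
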