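import Pool.Agent.H964.WN.Geo2

/-!
# Geometry of paths: subdivision with anisotropic cells
-/

set_option autoImplicit false

namespace Pool.Agent.H964.W

variable {d : ℕ}

/-- a portion of a path and an approximating segment (anisotropic closeness) -/
structure Node (x : ℕ → EuclideanSpace ℝ (Fin d)) (ε η : ℝ) (i j : ℕ) (u v : EuclideanSpace ℝ (Fin d)) :
    Prop where
  lt : i < j
  step : ∀ k, i ≤ k → k < j → ‖x (k + 1) - x k‖ ≤ ε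
  hu : |(inner ℝ (x i - u) (v - u) : ℝ)| ≤ η ^ 2 * ‖v - u‖ ^ 2 ∧ ‖x i - u‖ ≤ η * ‖v - u‖
  hv : |(inner ℝ (x j - v) (v - u) : ℝ)| ≤ η ^ 2 * ‖v - u‖ ^ 2 ∧ ‖x j - v‖ ≤ η * ‖v - u‖

/-- admissible refinements of the segment `[u, v]` -/
structure Valid (η : ℝ) (M : ℕ) (u v u' c c' v' : EuclideanSpace ℝ (Fin d)) : Prop where
  d1 : ‖u' - u‖ ≤ 2 * (M * η) * ‖u - v‖
  d2 : ‖c - mid u v‖ ≤ 2 * (M * η) * ‖u - v‖
  d3 : ‖c' - mid u v‖ ≤ 2 * (M * η) * ‖u - v‖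
  d4 : ‖v' - v‖ ≤ 2 * (M * η) * ‖u - v‖
  l1 : ‖u - v‖ / 4 ≤ ‖u' - c‖
  l2 : ‖u - v‖ / 4 ≤ ‖c' - v'‖
  L1 : ‖u' - c‖ ≤ 4 / 5 * ‖u - v‖
  L2 : ‖c' - v'‖ ≤ 4 / 5 * ‖u - v‖
  g1 : (1 + (M * η) ^ 2 / 2 - 58 * M * η ^ 2) * ‖u - v‖ ^ 2 ≤ 4 * ‖u' - c‖ ^ 2
  g2 : (1 + (M * η) ^ 2 / 2 - 58 * M * η ^ 2) * ‖u - v‖ ^ 2 ≤ 4 * ‖c' - v'‖ ^ 2
  b1 : ‖u' - u‖ ≤ ‖u - v‖
  b3 : ‖c' - u‖ ≤ 2 * ‖u - v‖

/-- an isometry carrying the first direction to the direction of `v - u` -/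
noncomputable def Rt (i₀ : Fin d) (u v : EuclideanSpace ℝ (Fin d)) :
    EuclideanSpace ℝ (Fin d) ≃ₗᵢ[ℝ] EuclideanSpace ℝ (Fin d) :=
  Submodule.reflection (Submodule.span ℝ {e₀ i₀ - (‖v - u‖)⁻¹ • (v - u)})ᗮ

theorem Rt_e₀ (i₀ : Fin d) {u v : EuclideanSpace ℝ (Fin d)} (huv : 0 < ‖v - u‖) :
    Rt i₀ u v (e₀ i₀) = (‖v - u‖)⁻¹ • (v - u) := by
  unfold Rt
  apply Submodule.reflection_sub
  rw [norm_e₀, norm_smul, norm_inv, norm_norm, inv_mul_cancel₀ huv.ne']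

/-- the parametrisation of the space by the segment `[u, v]` -/
noncomputable def fz (i₀ : Fin d) (u v z : EuclideanSpace ℝ (Fin d)) : EuclideanSpace ℝ (Fin d) :=
  u + ‖v - u‖ • Rt i₀ u v z

variable (i₀ : Fin d)

theorem fz_sub (u v a b : EuclideanSpace ℝ (Fin d)) :
    fz i₀ u v a - fz i₀ u v b = ‖v - u‖ • Rt i₀ u v (a - b) := by
  unfold fz; rw [map_sub]; module

theorem fz_zero (u v : EuclideanSpace ℝ (Fin d)) : fz i₀ u v 0 = u := by unfold fz; rw [map_zero]; simp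

theorem fz_one {u v : EuclideanSpace ℝ (Fin d)} (huv : 0 < ‖v - u‖) : fz i₀ u v (e₀ i₀) = v := by
  unfold fz; rw [Rt_e₀ i₀ huv, smul_smul, mul_inv_cancel₀ huv.ne', one_smul]; abel

theorem fz_half {u v : EuclideanSpace ℝ (Fin d)} (huv : 0 < ‖v - u‖) :
    fz i₀ u v ((1 / 2 : ℝ) • e₀ i₀) = mid u v := by
  unfold fz
  rw [map_smul, Rt_e₀ i₀ huv, smul_comm, smul_smul ‖v - u‖, mul_inv_cancel₀ huv.ne', one_smul]
  unfold mid; module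

theorem norm_fz_sub (u v a b : EuclideanSpace ℝ (Fin d)) :
    ‖fz i₀ u v a - fz i₀ u v b‖ = ‖a - b‖ * ‖u - v‖ := by
  rw [fz_sub, norm_smul, norm_norm, LinearIsometryEquiv.norm_map, norm_sub_rev v u, mul_comm]

theorem inner_fz_sub (u v a b a' b' : EuclideanSpace ℝ (Fin d)) :
    inner ℝ (fz i₀ u v a - fz i₀ u v b) (fz i₀ u v a' - fz i₀ u v b') =
      ‖u - v‖ ^ 2 * inner ℝ (a - b) (a' - b') := by
  rw [fz_sub, fz_sub, real_inner_smul_left, real_inner_smul_right, LinearIsometryEquiv.inner_map_map,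
    norm_sub_rev v u]
  ring

theorem fz_surj {u v : EuclideanSpace ℝ (Fin d)} (huv : 0 < ‖v - u‖) (z : EuclideanSpace ℝ (Fin d)) :
    z = fz i₀ u v ((Rt i₀ u v).symm ((‖v - u‖)⁻¹ • (z - u))) := by
  unfold fz
  rw [LinearIsometryEquiv.apply_symm_apply, smul_smul, mul_inv_cancel₀ huv.ne', one_smul]
  abel

theorem exists_children {x : ℕ → EuclideanSpace ℝ (Fin d)} {ε η : ℝ} (hε : 0 < ε) (hη : 0 < η)
    (hη1 : η ≤ 1 / 100) {i j : ℕ} {u v : EuclideanSpace ℝ (Fin d)} (hN : Node x ε η i j u v)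
    (hr : ε ≤ η ^ 2 * ‖u - v‖) {Mx : ℕ} (hMx : 1 ≤ Mx * η) (hMx2 : Mx * η ≤ 1 + η) :
    ∃ M : ℕ, 1 ≤ M ∧ M ≤ Mx ∧ ∃ n₁ ∈ Bx d (65 * d * M ^ 2), ∃ n₂ ∈ Bx d (65 * d * M ^ 2),
      ∃ n₃ ∈ Bx d (65 * d * M ^ 2), ∃ n₄ ∈ Bx d (65 * d * M ^ 2), ∃ k₁ k₂, i < k₁ ∧ k₁ ≤ k₂ ∧ k₂ < j ∧
      Valid η M u v (fz i₀ u v (gq i₀ η M 0 n₁)) (fz i₀ u v (gq i₀ η M ((1 / 2 : ℝ) • e₀ i₀) n₂))
        (fz i₀ u v (gq i₀ η M ((1 / 2 : ℝ) • e₀ i₀) n₃)) (fz i₀ u v (gq i₀ η M (e₀ i₀) n₄)) ∧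
      Node x ε η i k₁ (fz i₀ u v (gq i₀ η M 0 n₁)) (fz i₀ u v (gq i₀ η M ((1 / 2 : ℝ) • e₀ i₀) n₂)) ∧
      Node x ε η k₂ j (fz i₀ u v (gq i₀ η M ((1 / 2 : ℝ) • e₀ i₀) n₃)) (fz i₀ u v (gq i₀ η M (e₀ i₀) n₄)) := by
  obtain ⟨hij, hstep, hu, hv⟩ := hN
  have hr0 : 0 < ‖u - v‖ := by
    have h1 : 0 < η ^ 2 * ‖u - v‖ := lt_of_lt_of_le hε hr
    exact (pos_iff_pos_of_mul_pos h1).1 (by positivity)
  have hr0' : 0 < ‖v - u‖ := by rw [norm_sub_rev]; exact hr0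
  obtain ⟨y, hyx⟩ : ∃ y : ℕ → EuclideanSpace ℝ (Fin d), ∀ k, x k = fz i₀ u v (y k) :=
    ⟨fun k => (Rt i₀ u v).symm ((‖v - u‖)⁻¹ • (x k - u)), fun k => fz_surj i₀ hr0' _⟩
  have hsq0 : 0 < ‖u - v‖ ^ 2 := by positivity
  have hstep' : ∀ k, i ≤ k → k < j → ‖y (k + 1) - y k‖ ≤ η ^ 2 := by
    intro k h1 h2
    have h3 := hstep k h1 h2
    rw [hyx, hyx, norm_fz_sub] at h3
    exact le_of_mul_le_mul_right (h3.trans hr) hr0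
  have habs : ∀ a : ℝ, |‖u - v‖ ^ 2 * a| = ‖u - v‖ ^ 2 * |a| := fun a => by
    rw [abs_mul, abs_of_pos hsq0]
  have hi' : |(inner ℝ (y i) (e₀ i₀) : ℝ)| ≤ η ^ 2 ∧ ‖y i‖ ≤ η := by
    obtain ⟨h1, h2⟩ := hu
    have e1 : v - u = fz i₀ u v (e₀ i₀) - fz i₀ u v 0 := by rw [fz_one i₀ hr0', fz_zero]
    have e2 : x i - u = fz i₀ u v (y i) - fz i₀ u v 0 := by rw [fz_zero, ← hyx]
    rw [e2] at h1 h2
    rw [norm_fz_sub, norm_sub_rev v u, sub_zero] at h2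
    constructor
    · have h3 : (inner ℝ (fz i₀ u v (y i) - fz i₀ u v 0) (v - u) : ℝ) = ‖u - v‖ ^ 2 * inner ℝ (y i) (e₀ i₀) := by
        nth_rewrite 1 [e1]
        rw [inner_fz_sub, sub_zero, sub_zero]
      rw [h3, norm_sub_rev v u, habs, mul_comm (η ^ 2)] at h1
      exact le_of_mul_le_mul_left h1 hsq0
    · exact le_of_mul_le_mul_right h2 hr0
  have hj' : |(inner ℝ (y j - e₀ i₀) (e₀ i₀) : ℝ)| ≤ η ^ 2 ∧ ‖y j - e₀ i₀‖ ≤ η := by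
    obtain ⟨h1, h2⟩ := hv
    have e1 : v - u = fz i₀ u v (e₀ i₀) - fz i₀ u v 0 := by rw [fz_one i₀ hr0', fz_zero]
    have e2 : x j - v = fz i₀ u v (y j) - fz i₀ u v (e₀ i₀) := by rw [fz_one i₀ hr0', ← hyx]
    rw [e2] at h1 h2
    rw [norm_fz_sub, norm_sub_rev v u] at h2
    constructor
    · have h3 : (inner ℝ (fz i₀ u v (y j) - fz i₀ u v (e₀ i₀)) (v - u) : ℝ) =
          ‖u - v‖ ^ 2 * inner ℝ (y j - e₀ i₀) (e₀ i₀) := by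
        nth_rewrite 1 [e1]
        rw [inner_fz_sub, sub_zero]
      rw [h3, norm_sub_rev v u, habs, mul_comm (η ^ 2)] at h1
      exact le_of_mul_le_mul_left h1 hsq0
    · exact le_of_mul_le_mul_right h2 hr0
  obtain ⟨M, hM1, hM2, n₁, m1, n₂, m2, n₃, m3, n₄, m4, k₁, k₂, hok⟩ :=
    children_norm i₀ hη hη1 hij hstep' hi' hj' hMx hMx2
  obtain ⟨h1, h2, h3, c1, c2, c3, c4, e1, e2, d1, d2, d3, d4, b1, b3⟩ := hok
  have he := norm_e₀ i₀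
  refine ⟨M, hM1, hM2, n₁, m1, n₂, m2, n₃, m3, n₄, m4, k₁, k₂, h1, h2, h3, ?_, ?_, ?_⟩
  · have w1 : ∀ a, ‖fz i₀ u v a - u‖ = ‖a‖ * ‖u - v‖ := by
      intro a
      calc ‖fz i₀ u v a - u‖ = ‖fz i₀ u v a - fz i₀ u v 0‖ := by rw [fz_zero]
        _ = _ := by rw [norm_fz_sub, sub_zero]
    have w2 : ∀ a, ‖fz i₀ u v a - v‖ = ‖a - e₀ i₀‖ * ‖u - v‖ := by
      intro a
      calc ‖fz i₀ u v a - v‖ = ‖fz i₀ u v a - fz i₀ u v (e₀ i₀)‖ := by rw [fz_one i₀ hr0']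
        _ = _ := norm_fz_sub _ _ _ _ _
    have w3 : ∀ a, ‖fz i₀ u v a - mid u v‖ = ‖a - (1 / 2 : ℝ) • e₀ i₀‖ * ‖u - v‖ := by
      intro a
      rw [← fz_half i₀ hr0', norm_fz_sub]
    have w4 : ∀ a b, ‖fz i₀ u v a - fz i₀ u v b‖ = ‖b - a‖ * ‖u - v‖ := by
      intro a b
      rw [norm_fz_sub, norm_sub_rev a b]
    refine ⟨?_, ?_, ?_, ?_, ?_, ?_, ?_, ?_, ?_, ?_, ?_, ?_⟩
    · rw [w1]; gcongr
    · rw [w3]; gcongr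
    · rw [w3]; gcongr
    · rw [w2]; gcongr
    · rw [w4]
      have := e1.lo
      nlinarith
    · rw [w4]
      have := e2.lo
      nlinarith
    · rw [w4]
      have := e1.hi
      gcongr
    · rw [w4]
      have := e2.hi
      gcongr
    · have h5 : 4 * ‖fz i₀ u v (gq i₀ η M 0 n₁) - fz i₀ u v (gq i₀ η M ((1 / 2 : ℝ) • e₀ i₀) n₂)‖ ^ 2 =
          4 * ‖gq i₀ η M ((1 / 2 : ℝ) • e₀ i₀) n₂ - gq i₀ η M 0 n₁‖ ^ 2 * ‖u - v‖ ^ 2 := by rw [w4]; ring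
      rw [h5]
      exact mul_le_mul_of_nonneg_right e1.gain (by positivity)
    · have h5 : 4 * ‖fz i₀ u v (gq i₀ η M ((1 / 2 : ℝ) • e₀ i₀) n₃) - fz i₀ u v (gq i₀ η M (e₀ i₀) n₄)‖ ^ 2 =
          4 * ‖gq i₀ η M (e₀ i₀) n₄ - gq i₀ η M ((1 / 2 : ℝ) • e₀ i₀) n₃‖ ^ 2 * ‖u - v‖ ^ 2 := by rw [w4]; ring
      rw [h5]
      exact mul_le_mul_of_nonneg_right e2.gain (by positivity)
    · rw [w1]
      nlinarith
    · rw [w1]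
      gcongr
  · have key : ∀ a δ w w' : EuclideanSpace ℝ (Fin d), Cl (e₀ i₀) η M (δ - a) → 48 / 100 ≤ ‖w' - w‖ →
        ‖pp (e₀ i₀) (w' - w)‖ ≤ 3 * (M * η) →
        |(inner ℝ (fz i₀ u v δ - fz i₀ u v a) (fz i₀ u v w' - fz i₀ u v w) : ℝ)| ≤
          η ^ 2 * ‖fz i₀ u v w' - fz i₀ u v w‖ ^ 2 ∧
        ‖fz i₀ u v δ - fz i₀ u v a‖ ≤ η * ‖fz i₀ u v w' - fz i₀ u v w‖ := by
      intro a δ w w' hc hw hw2
      obtain ⟨q1, q2⟩ := close_child he hη hη1 hM1 hc hw hw2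
      constructor
      · rw [inner_fz_sub, norm_fz_sub, habs, mul_pow, mul_comm (‖w' - w‖ ^ 2), ← mul_assoc,
          mul_comm (η ^ 2) (‖u - v‖ ^ 2), mul_assoc]
        exact mul_le_mul_of_nonneg_left q1 hsq0.le
      · rw [norm_fz_sub, norm_fz_sub, ← mul_assoc]
        exact mul_le_mul_of_nonneg_right q2 hr0.le
    refine ⟨h1, fun k a b => hstep k a (by omega), ?_, ?_⟩
    · rw [hyx i]
      exact key _ _ _ _ c1 e1.lo e1.im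
    · rw [hyx k₁]
      exact key _ _ _ _ c2 e1.lo e1.im
  · have key : ∀ a δ w w' : EuclideanSpace ℝ (Fin d), Cl (e₀ i₀) η M (δ - a) → 48 / 100 ≤ ‖w' - w‖ →
        ‖pp (e₀ i₀) (w' - w)‖ ≤ 3 * (M * η) →
        |(inner ℝ (fz i₀ u v δ - fz i₀ u v a) (fz i₀ u v w' - fz i₀ u v w) : ℝ)| ≤
          η ^ 2 * ‖fz i₀ u v w' - fz i₀ u v w‖ ^ 2 ∧
        ‖fz i₀ u v δ - fz i₀ u v a‖ ≤ η * ‖fz i₀ u v w' - fz i₀ u v w‖ := by
      intro a δ w w' hc hw hw2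
      obtain ⟨q1, q2⟩ := close_child he hη hη1 hM1 hc hw hw2
      constructor
      · rw [inner_fz_sub, norm_fz_sub, habs, mul_pow, mul_comm (‖w' - w‖ ^ 2), ← mul_assoc,
          mul_comm (η ^ 2) (‖u - v‖ ^ 2), mul_assoc]
        exact mul_le_mul_of_nonneg_left q1 hsq0.le
      · rw [norm_fz_sub, norm_fz_sub, ← mul_assoc]
        exact mul_le_mul_of_nonneg_right q2 hr0.le
    refine ⟨h3, fun k a b => hstep k (by omega) b, ?_, ?_⟩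
    · rw [hyx k₂]
      exact key _ _ _ _ c3 e2.lo e2.im
    · rw [hyx j]
      exact key _ _ _ _ c4 e2.lo e2.im

/-- the first point of the portion of the path is near the first end point of the segment -/
theorem Node.near {x : ℕ → EuclideanSpace ℝ (Fin d)} {ε η : ℝ} (hη : 0 < η) {i j : ℕ}
    {u v : EuclideanSpace ℝ (Fin d)} (hN : Node x ε η i j u v) : ‖x i - u‖ ≤ 2 * η * ‖u - v‖ := by
  have h1 := hN.hu.2
  rw [norm_sub_rev v u] at h1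
  have := norm_nonneg (u - v)
  nlinarith

end Pool.Agent.H964.W
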