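import Pool.Agent.H964.LF.Disc
import Pool.Agent.H964.WN.Geo3

/-!
# The pointwise recursion with anisotropic cells
-/

set_option autoImplicit false

namespace Pool.Agent.H964.W

open Real

variable {d : ℕ}

/-- lattice points -/
noncomputable def lp (ε : ℝ) (n : Fin d → ℤ) : EuclideanSpace ℝ (Fin d) :=
  WithLp.toLp 2 fun i => ε / (4 * d) * (n i : ℝ)

theorem lp_apply (ε : ℝ) (n : Fin d → ℤ) (i : Fin d) : lp ε n i = ε / (4 * d) * (n i : ℝ) := rfl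

/-- the lattice points near `u` -/
noncomputable def LB (K : ℕ) (ε : ℝ) (u : EuclideanSpace ℝ (Fin d)) : Finset (Fin d → ℤ) :=
  Fintype.piFinset fun i => Finset.Icc (⌊u i / (ε / (4 * d))⌋ - 4 * d * K)
    (⌊u i / (ε / (4 * d))⌋ + (4 * d * K + 1))

theorem card_LB (K : ℕ) (ε : ℝ) (u : EuclideanSpace ℝ (Fin d)) : (LB K ε u).card = (8 * d * K + 2) ^ d := by
  unfold LB
  rw [Fintype.card_piFinset]
  have : ∀ a : ℤ, (Finset.Icc (a - 4 * d * K) (a + (4 * d * K + 1))).card = 8 * d * K + 2 := by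
    intro a
    rw [Int.card_Icc]
    have h : (a + (4 * (d : ℤ) * (K : ℤ) + 1) + 1 - (a - 4 * (d : ℤ) * (K : ℤ))) =
      ((8 * d * K + 2 : ℕ) : ℤ) := by push_cast; ring
    rw [h, Int.toNat_natCast]
  simp only [this, Finset.prod_const, Finset.card_univ, Fintype.card_fin]

theorem mem_LB (hd : 0 < d) {K : ℕ} {ε : ℝ} (hε : 0 < ε) {u : EuclideanSpace ℝ (Fin d)} {n : Fin d → ℤ}
    (h : ‖lp ε n - u‖ ≤ K * ε) : n ∈ LB K ε u := by
  have hd' : (0 : ℝ) < d := by exact_mod_cast hd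
  have hε4 : 0 < ε / (4 * d) := by positivity
  have key : ∀ (y : ℝ) (k : ℤ), |ε / (4 * d) * k - y| ≤ K * ε →
      k ∈ Finset.Icc (⌊y / (ε / (4 * d))⌋ - 4 * d * K) (⌊y / (ε / (4 * d))⌋ + (4 * d * K + 1)) := by
    intro y k hk
    have h1 : |(k : ℝ) - y / (ε / (4 * d))| ≤ 4 * d * K := by
      have e : (k : ℝ) - y / (ε / (4 * d)) = (ε / (4 * d) * k - y) / (ε / (4 * d)) := by field_simp
      rw [e, abs_div, abs_of_pos hε4, div_le_iff₀ hε4]
      refine hk.trans (le_of_eq ?_)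
      field_simp
    rw [abs_le] at h1
    have h2 := Int.floor_le (y / (ε / (4 * d)))
    have h3 := Int.lt_floor_add_one (y / (ε / (4 * d)))
    rw [Finset.mem_Icc]
    constructor
    · have : ((⌊y / (ε / (4 * d))⌋ : ℤ) : ℝ) - 4 * d * K ≤ k := by linarith [h1.1]
      exact_mod_cast this
    · have : (k : ℝ) ≤ ((⌊y / (ε / (4 * d))⌋ : ℤ) : ℝ) + (4 * d * K + 1) := by linarith [h1.2]
      exact_mod_cast this
  unfold LB
  rw [Fintype.mem_piFinset]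
  intro i
  apply key
  have h1 := PiLp.norm_apply_le (lp ε n - u) i
  rw [Real.norm_eq_abs] at h1
  exact h1.trans h

theorem LB_near (hd : 0 < d) {K : ℕ} (hK : 1 ≤ K) {ε : ℝ} (hε : 0 < ε) {u : EuclideanSpace ℝ (Fin d)}
    {n : Fin d → ℤ} (h : n ∈ LB K ε u) : ‖lp ε n - u‖ ≤ 2 * d * K * ε := by
  have hd' : (1 : ℝ) ≤ d := by exact_mod_cast hd
  have hε4 : 0 < ε / (4 * d) := by positivity
  have hK' : (1 : ℝ) ≤ K := by exact_mod_cast hK
  have key : ∀ (y : ℝ) (k : ℤ), k ∈ Finset.Icc (⌊y / (ε / (4 * d))⌋ - 4 * d * K)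
      (⌊y / (ε / (4 * d))⌋ + (4 * d * K + 1)) → |ε / (4 * d) * k - y| ≤ 2 * K * ε := by
    intro y k hk
    rw [Finset.mem_Icc] at hk
    have h2 := Int.floor_le (y / (ε / (4 * d)))
    have h3 := Int.lt_floor_add_one (y / (ε / (4 * d)))
    have h4 : ((⌊y / (ε / (4 * d))⌋ : ℤ) : ℝ) - 4 * d * K ≤ k := by exact_mod_cast hk.1
    have h5 : (k : ℝ) ≤ ((⌊y / (ε / (4 * d))⌋ : ℤ) : ℝ) + (4 * d * K + 1) := by exact_mod_cast hk.2
    have e : ε / (4 * d) * k - y = ε / (4 * d) * (k - y / (ε / (4 * d))) := by field_simp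
    rw [e, abs_mul, abs_of_pos hε4]
    have hdK : (1 : ℝ) ≤ d * K := by nlinarith
    have h6 : |(k : ℝ) - y / (ε / (4 * d))| ≤ 8 * d * K := by
      rw [abs_le]
      constructor <;> linarith
    calc ε / (4 * d) * |(k : ℝ) - y / (ε / (4 * d))| ≤ ε / (4 * d) * (8 * d * K) := by gcongr
      _ = 2 * K * ε := by field_simp; ring
  unfold LB at h
  rw [Fintype.mem_piFinset] at h
  calc ‖lp ε n - u‖ ≤ ∑ i, |(lp ε n - u) i| := norm_le_sum _
    _ ≤ ∑ _i : Fin d, 2 * K * ε := Finset.sum_le_sum fun i _ => key _ _ (h i)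
    _ = _ := by
        rw [Finset.sum_const, Finset.card_univ, Fintype.card_fin, nsmul_eq_mul]; ring

/-- the increment of a refinement -/
noncomputable def dd {E : Type*} (X : E → E → ℝ) (u v u' c c' v' : E) : ℝ := (X u' c + X c' v') / 2 - X u v

/-- the potential of short segments -/
noncomputable def leaf (K : ℕ) (ε ξ p : ℝ) (X : EuclideanSpace ℝ (Fin d) → EuclideanSpace ℝ (Fin d) → ℝ)
    (H : EuclideanSpace ℝ (Fin d) → ℝ) (u v : EuclideanSpace ℝ (Fin d)) : ℝ :=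
  ∑ n ∈ LB K ε u, exp (p * ξ * X u v) * (ε * exp (ξ * H (lp ε n))) ^ (1 - p)

open Classical in
/-- the contribution of one refinement -/
noncomputable def refT (ξ p η : ℝ) (M : ℕ) (X G : EuclideanSpace ℝ (Fin d) → EuclideanSpace ℝ (Fin d) → ℝ)
    (u v u' c c' v' : EuclideanSpace ℝ (Fin d)) : ℝ :=
  if Valid η M u v u' c c' v' then
    2 ^ (-p) * exp (-(p * ξ) * dd X u v u' c c' v') * (G u' c + G c' v')
  else 0

/-- quadruples of integer points -/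
abbrev I4 (d : ℕ) : Type := (Fin d → ℤ) × (Fin d → ℤ) × (Fin d → ℤ) × (Fin d → ℤ)

/-- index set of the refinements -/
noncomputable def II (d N : ℕ) : Finset (I4 d) := Bx d N ×ˢ Bx d N ×ˢ Bx d N ×ˢ Bx d N

theorem card_II (N : ℕ) : (II d N).card = (2 * N + 1) ^ (4 * d) := by
  unfold II
  rw [Finset.card_product, Finset.card_product, Finset.card_product, card_Bx, mul_comm 4 d, pow_mul]; ring

/-- the sum over one class of refinements -/
noncomputable def refS (i₀ : Fin d) (ξ p η : ℝ) (X G : EuclideanSpace ℝ (Fin d) → EuclideanSpace ℝ (Fin d) → ℝ)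
    (u v : EuclideanSpace ℝ (Fin d)) (M : ℕ) (ι : I4 d) : ℝ :=
  refT ξ p η M X G u v (fz i₀ u v (gq i₀ η M 0 ι.1)) (fz i₀ u v (gq i₀ η M ((1 / 2 : ℝ) • e₀ i₀) ι.2.1))
    (fz i₀ u v (gq i₀ η M ((1 / 2 : ℝ) • e₀ i₀) ι.2.2.1)) (fz i₀ u v (gq i₀ η M (e₀ i₀) ι.2.2.2))

open Classical in
/-- the potential of a segment -/
noncomputable def Psi (i₀ : Fin d) (K : ℕ) (ε ξ p η : ℝ) (Mx : ℕ)
    (X : EuclideanSpace ℝ (Fin d) → EuclideanSpace ℝ (Fin d) → ℝ) (H : EuclideanSpace ℝ (Fin d) → ℝ) :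
    ℕ → EuclideanSpace ℝ (Fin d) → EuclideanSpace ℝ (Fin d) → ℝ
  | 0 => leaf K ε ξ p X H
  | n + 1 => fun u v => if η ^ 2 * ‖u - v‖ < ε then leaf K ε ξ p X H u v else
      ∑ M ∈ Finset.Icc 1 Mx, ∑ ι ∈ II d (65 * d * M ^ 2), refS i₀ ξ p η X (Psi i₀ K ε ξ p η Mx X H n) u v M ι

variable {i₀ : Fin d} {ε ξ p η : ℝ} {K Mx : ℕ}
  {X : EuclideanSpace ℝ (Fin d) → EuclideanSpace ℝ (Fin d) → ℝ} {H : EuclideanSpace ℝ (Fin d) → ℝ}

open Classical in
theorem Psi_succ (n : ℕ) (u v : EuclideanSpace ℝ (Fin d)) : Psi i₀ K ε ξ p η Mx X H (n + 1) u v =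
    if η ^ 2 * ‖u - v‖ < ε then leaf K ε ξ p X H u v else
      ∑ M ∈ Finset.Icc 1 Mx, ∑ ι ∈ II d (65 * d * M ^ 2),
        refS i₀ ξ p η X (Psi i₀ K ε ξ p η Mx X H n) u v M ι := rfl

theorem leaf_nonneg (hε : 0 < ε) (u v : EuclideanSpace ℝ (Fin d)) : 0 ≤ leaf K ε ξ p X H u v := by
  unfold leaf
  apply Finset.sum_nonneg
  intro n _
  positivity

theorem refT_nonneg {M : ℕ} {G : EuclideanSpace ℝ (Fin d) → EuclideanSpace ℝ (Fin d) → ℝ}
    (hG : ∀ u v, 0 ≤ G u v) (u v u' c c' v' : EuclideanSpace ℝ (Fin d)) :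
    0 ≤ refT ξ p η M X G u v u' c c' v' := by
  unfold refT
  split_ifs
  · have := hG u' c
    have := hG c' v'
    positivity
  · exact le_rfl

theorem Psi_nonneg (hε : 0 < ε) : ∀ (n : ℕ) (u v : EuclideanSpace ℝ (Fin d)),
    0 ≤ Psi i₀ K ε ξ p η Mx X H n u v := by
  intro n
  induction n with
  | zero => intro u v; exact leaf_nonneg hε u v
  | succ n ih =>
    intro u v
    rw [Psi_succ]
    split_ifs
    · exact leaf_nonneg hε u v
    · apply Finset.sum_nonneg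
      intro M _
      apply Finset.sum_nonneg
      intro ι _
      exact refT_nonneg ih _ _ _ _ _ _

/-- sums along a discrete path -/
noncomputable def SS (ε ξ : ℝ) (H : EuclideanSpace ℝ (Fin d) → ℝ) (x : ℕ → EuclideanSpace ℝ (Fin d))
    (i j : ℕ) : ℝ := ∑ k ∈ Finset.Ico i j, ε * exp (ξ * H (x k))

theorem SS_nonneg (hε : 0 < ε) (x : ℕ → EuclideanSpace ℝ (Fin d)) (i j : ℕ) : 0 ≤ SS ε ξ H x i j := by
  unfold SS
  apply Finset.sum_nonneg
  intro k _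
  positivity

theorem SS_add_le (hε : 0 < ε) (x : ℕ → EuclideanSpace ℝ (Fin d)) {i k₁ k₂ j : ℕ} (h1 : i ≤ k₁)
    (h2 : k₁ ≤ k₂) (h3 : k₂ ≤ j) :
    SS ε ξ H x i k₁ + SS ε ξ H x k₂ j ≤ SS ε ξ H x i j := by
  have h4 : 0 ≤ SS ε ξ H x k₁ k₂ := SS_nonneg hε x _ _
  unfold SS at *
  rw [← Finset.sum_Ico_consecutive _ (h1.trans h2) h3, ← Finset.sum_Ico_consecutive _ h1 h2]
  linarith

theorem leaf_bound (hd : 0 < d) (hε : 0 < ε) (hp : 1 < p) {u v : EuclideanSpace ℝ (Fin d)} {m : Fin d → ℤ}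
    {S : ℝ} (hS : ε * exp (ξ * H (lp ε m)) ≤ S) (hm : ‖lp ε m - u‖ ≤ K * ε) :
    exp (ξ * X u v) ≤ S ^ (1 - 1 / p) * (leaf K ε ξ p X H u v) ^ (1 / p) := by
  have hp0 : 0 < p := by linarith
  have h1p : 0 ≤ 1 - 1 / p := by
    rw [sub_nonneg, div_le_one hp0]; exact hp.le
  set w := ε * exp (ξ * H (lp ε m)) with hw
  have hw0 : 0 < w := by positivity
  have h1 : exp (p * ξ * X u v) * w ^ (1 - p) ≤ leaf K ε ξ p X H u v := by
    unfold leaf
    exact Finset.single_le_sum (f := fun n => exp (p * ξ * X u v) * (ε * exp (ξ * H (lp ε n))) ^ (1 - p))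
      (fun n _ => by positivity) (mem_LB hd hε hm)
  calc exp (ξ * X u v) = w ^ (1 - 1 / p) * (exp (p * ξ * X u v) * w ^ (1 - p)) ^ (1 / p) := by
        rw [Real.mul_rpow (exp_pos _).le (by positivity), ← Real.exp_mul, ← Real.rpow_mul hw0.le]
        rw [show p * ξ * X u v * (1 / p) = ξ * X u v by field_simp]
        rw [show w ^ (1 - 1 / p) * (exp (ξ * X u v) * w ^ ((1 - p) * (1 / p))) =
          exp (ξ * X u v) * (w ^ (1 - 1 / p) * w ^ ((1 - p) * (1 / p))) by ring]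
        rw [← Real.rpow_add hw0, show 1 - 1 / p + (1 - p) * (1 / p) = 0 by field_simp; ring,
          Real.rpow_zero, mul_one]
    _ ≤ _ := by
        have : 0 ≤ S := hw0.le.trans hS
        gcongr

theorem claim1 (i₀ : Fin d) (hε : 0 < ε) (hη : 0 < η) (hη1 : η ≤ 1 / 100) (hp : 1 < p)
    (hMx : 1 ≤ Mx * η) (hMx2 : Mx * η ≤ 1 + η) (hK : 2 / η ≤ K) {m : ℕ → Fin d → ℤ} :
    ∀ (n : ℕ) {i j : ℕ} {u v : EuclideanSpace ℝ (Fin d)}, 0 < ‖u - v‖ →
    Node (fun k => lp ε (m k)) ε η i j u v → η ^ 2 * ‖u - v‖ * (4 / 5) ^ n < ε →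
    exp (ξ * X u v) ≤ (SS ε ξ H (fun k => lp ε (m k)) i j) ^ (1 - 1 / p) *
      (Psi i₀ K ε ξ p η Mx X H n u v) ^ (1 / p) := by
  have hd : 0 < d := Fin.pos i₀
  have hp0 : 0 < p := by linarith
  have h1p : 0 ≤ 1 - 1 / p := by
    rw [sub_nonneg, div_le_one hp0]; exact hp.le
  have hleaf : ∀ {i j : ℕ} {u v : EuclideanSpace ℝ (Fin d)}, 0 < ‖u - v‖ →
      Node (fun k => lp ε (m k)) ε η i j u v → η ^ 2 * ‖u - v‖ < ε →
      exp (ξ * X u v) ≤ (SS ε ξ H (fun k => lp ε (m k)) i j) ^ (1 - 1 / p) *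
        (leaf K ε ξ p X H u v) ^ (1 / p) := by
    intro i j u v hr hnode hlt
    apply leaf_bound hd hε hp (m := m i)
    · unfold SS
      exact Finset.single_le_sum (f := fun k => ε * exp (ξ * H (lp ε (m k))))
        (fun k _ => by positivity) (Finset.mem_Ico.2 ⟨le_rfl, hnode.lt⟩)
    · refine (hnode.near hη).trans ?_
      have h1 : 2 * η * ‖u - v‖ ≤ 2 / η * ε := by
        rw [div_mul_eq_mul_div, le_div_iff₀ hη]
        nlinarith
      calc _ ≤ 2 / η * ε := h1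
        _ ≤ _ := by gcongr
  intro n
  induction n with
  | zero =>
    intro i j u v hr hnode hf
    rw [pow_zero, mul_one] at hf
    exact hleaf hr hnode hf
  | succ n ih =>
    intro i j u v hr hnode hf
    rw [Psi_succ]
    split_ifs with hlt
    · exact hleaf hr hnode hlt
    · push Not at hlt
      obtain ⟨M, hM1, hM2, n₁, m1, n₂, m2, n₃, m3, n₄, m4, k₁, k₂, g1, g2, g3, hval, hn1, hn2⟩ :=
        exists_children i₀ hε hη hη1 hnode hlt hMx hMx2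
      obtain ⟨a₁, ha₁⟩ : ∃ a₁, a₁ = fz i₀ u v (gq i₀ η M 0 n₁) := ⟨_, rfl⟩
      obtain ⟨a₂, ha₂⟩ : ∃ a₂, a₂ = fz i₀ u v (gq i₀ η M ((1 / 2 : ℝ) • e₀ i₀) n₂) := ⟨_, rfl⟩
      obtain ⟨a₃, ha₃⟩ : ∃ a₃, a₃ = fz i₀ u v (gq i₀ η M ((1 / 2 : ℝ) • e₀ i₀) n₃) := ⟨_, rfl⟩
      obtain ⟨a₄, ha₄⟩ : ∃ a₄, a₄ = fz i₀ u v (gq i₀ η M (e₀ i₀) n₄) := ⟨_, rfl⟩
      rw [← ha₁, ← ha₂, ← ha₃, ← ha₄] at hval
      rw [← ha₁, ← ha₂] at hn1
      rw [← ha₃, ← ha₄] at hn2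
      have L1 := hval.L1
      have L2 := hval.L2
      have r1 : 0 < ‖a₁ - a₂‖ := by linarith [hval.l1]
      have r2 : 0 < ‖a₃ - a₄‖ := by linarith [hval.l2]
      have f1 : η ^ 2 * ‖a₁ - a₂‖ * (4 / 5) ^ n < ε := by
        refine lt_of_le_of_lt ?_ hf
        rw [pow_succ]
        have : 0 ≤ η ^ 2 * (4 / 5 : ℝ) ^ n := by positivity
        calc η ^ 2 * ‖a₁ - a₂‖ * (4 / 5) ^ n = (η ^ 2 * (4 / 5 : ℝ) ^ n) * ‖a₁ - a₂‖ := by ring
          _ ≤ (η ^ 2 * (4 / 5 : ℝ) ^ n) * (4 / 5 * ‖u - v‖) := by gcongr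
          _ = _ := by ring
      have f2 : η ^ 2 * ‖a₃ - a₄‖ * (4 / 5) ^ n < ε := by
        refine lt_of_le_of_lt ?_ hf
        rw [pow_succ]
        have : 0 ≤ η ^ 2 * (4 / 5 : ℝ) ^ n := by positivity
        calc η ^ 2 * ‖a₃ - a₄‖ * (4 / 5) ^ n = (η ^ 2 * (4 / 5 : ℝ) ^ n) * ‖a₃ - a₄‖ := by ring
          _ ≤ (η ^ 2 * (4 / 5 : ℝ) ^ n) * (4 / 5 * ‖u - v‖) := by gcongr
          _ = _ := by ring
      have I1 := ih r1 hn1 f1
      have I2 := ih r2 hn2 f2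
      set S₁ := SS ε ξ H (fun k => lp ε (m k)) i k₁
      set S₂ := SS ε ξ H (fun k => lp ε (m k)) k₂ j
      set S := SS ε ξ H (fun k => lp ε (m k)) i j
      set P₁ := Psi i₀ K ε ξ p η Mx X H n a₁ a₂ with hP₁
      set P₂ := Psi i₀ K ε ξ p η Mx X H n a₃ a₄ with hP₂
      have hS₁ : 0 ≤ S₁ := SS_nonneg hε _ _ _
      have hS₂ : 0 ≤ S₂ := SS_nonneg hε _ _ _
      have hP1 : 0 ≤ P₁ := Psi_nonneg hε _ _ _
      have hP2 : 0 ≤ P₂ := Psi_nonneg hε _ _ _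
      have hSS : S₁ + S₂ ≤ S := SS_add_le hε _ g1.le g2 g3.le
      set δ := dd X u v a₁ a₂ a₃ a₄ with hδ
      have hXX : ξ * X u v = -(ξ * δ) + (ξ * X a₁ a₂ + ξ * X a₃ a₄) / 2 := by
        rw [hδ, dd]; ring
      have hconv : exp ((ξ * X a₁ a₂ + ξ * X a₃ a₄) / 2) ≤
          (exp (ξ * X a₁ a₂) + exp (ξ * X a₃ a₄)) / 2 := by
        set y₁ := ξ * X a₁ a₂
        set y₂ := ξ * X a₃ a₄
        have e1 : exp y₁ = exp (y₁ / 2) ^ 2 := by rw [← Real.exp_nat_mul]; congr 1; push_cast; ring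
        have e2 : exp y₂ = exp (y₂ / 2) ^ 2 := by rw [← Real.exp_nat_mul]; congr 1; push_cast; ring
        have e3 : exp ((y₁ + y₂) / 2) = exp (y₁ / 2) * exp (y₂ / 2) := by
          rw [← Real.exp_add]; congr 1; ring
        rw [e1, e2, e3]
        nlinarith [sq_nonneg (exp (y₁ / 2) - exp (y₂ / 2))]
      have hterm : 2 ^ (-p) * exp (-(p * ξ) * δ) * (P₁ + P₂) ≤
          ∑ M ∈ Finset.Icc 1 Mx, ∑ ι ∈ II d (65 * d * M ^ 2),
            refS i₀ ξ p η X (Psi i₀ K ε ξ p η Mx X H n) u v M ι := by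
        have hmem : ((n₁, n₂, n₃, n₄) : I4 d) ∈ II d (65 * d * M ^ 2) := by
          unfold II
          rw [Finset.mem_product, Finset.mem_product, Finset.mem_product]
          exact ⟨m1, m2, m3, m4⟩
        have s1 : 2 ^ (-p) * exp (-(p * ξ) * δ) * (P₁ + P₂) ≤ ∑ ι ∈ II d (65 * d * M ^ 2),
            refS i₀ ξ p η X (Psi i₀ K ε ξ p η Mx X H n) u v M ι := by
          refine le_trans (le_of_eq ?_) (Finset.single_le_sum
            (f := fun ι : I4 d => refS i₀ ξ p η X (Psi i₀ K ε ξ p η Mx X H n) u v M ι)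
            (fun ι _ => refT_nonneg (Psi_nonneg hε n) _ _ _ _ _ _) hmem)
          have e5 : refS i₀ ξ p η X (Psi i₀ K ε ξ p η Mx X H n) u v M (n₁, n₂, n₃, n₄) =
              refT ξ p η M X (Psi i₀ K ε ξ p η Mx X H n) u v a₁ a₂ a₃ a₄ := by
            rw [refS, ha₁, ha₂, ha₃, ha₄]
          rw [e5, refT, if_pos hval]
        refine s1.trans ?_
        exact Finset.single_le_sum (f := fun M : ℕ => ∑ ι ∈ II d (65 * d * M ^ 2),
            refS i₀ ξ p η X (Psi i₀ K ε ξ p η Mx X H n) u v M ι)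
          (fun M _ => Finset.sum_nonneg fun ι _ => refT_nonneg (Psi_nonneg hε n) _ _ _ _ _ _)
          (Finset.mem_Icc.2 ⟨hM1, hM2⟩)
      calc exp (ξ * X u v) = exp (-(ξ * δ)) * exp ((ξ * X a₁ a₂ + ξ * X a₃ a₄) / 2) := by
            rw [← Real.exp_add, hXX]
        _ ≤ exp (-(ξ * δ)) * ((exp (ξ * X a₁ a₂) + exp (ξ * X a₃ a₄)) / 2) := by gcongr
        _ ≤ exp (-(ξ * δ)) * ((S₁ ^ (1 - 1 / p) * P₁ ^ (1 / p) + S₂ ^ (1 - 1 / p) * P₂ ^ (1 / p)) / 2) := by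
            gcongr
        _ ≤ exp (-(ξ * δ)) * (((S₁ + S₂) ^ (1 - 1 / p) * (P₁ + P₂) ^ (1 / p)) / 2) := by
            gcongr
            exact holder2 hS₁ hS₂ hP1 hP2 hp
        _ ≤ exp (-(ξ * δ)) * ((S ^ (1 - 1 / p) * (P₁ + P₂) ^ (1 / p)) / 2) := by
            gcongr
        _ = S ^ (1 - 1 / p) * (2 ^ (-p) * exp (-(p * ξ) * δ) * (P₁ + P₂)) ^ (1 / p) := by
            rw [Real.mul_rpow (by positivity) (by positivity), Real.mul_rpow (by positivity) (by positivity),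
              ← Real.exp_mul, ← Real.rpow_mul (by norm_num)]
            rw [show -p * (1 / p) = -1 by field_simp, Real.rpow_neg_one,
              show -(p * ξ) * δ * (1 / p) = -(ξ * δ) by field_simp]
            ring
        _ ≤ _ := by
            have : 0 ≤ S := SS_nonneg hε _ _ _
            gcongr

end Pool.Agent.H964.W
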