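import Pool.Agent.H964.SL.Exp2
import Pool.Agent.H964.WN.Pw
import Pool.Agent.H964.WN.Pot3

/-!
# The expectation of the potential
-/

set_option autoImplicit false

namespace Pool.Agent.H964.W

open MeasureTheory ProbabilityTheory Real Filter Topology

/-- the exponent in the induction -/
noncomputable def bd (d : ℕ) : ℝ := 2 * (4 * d * (131 * d) + 6 * (8 * d + 16989) ^ 2 + 1)

theorem bd_nonneg (d : ℕ) : 0 ≤ bd d := by unfold bd; positivity

/-- the sum over all the classes of refinements -/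
theorem sum_classes {d : ℕ} (hd : 0 < d) (Mx : ℕ) : ∑ M ∈ Finset.Icc 1 Mx, (130 * d * (M : ℝ) ^ 2 + 1) ^ (4 * d) *
    (2 * (2 ^ (-bd d) * exp (16988 * M - M ^ 2 / 24))) ≤ 1 := by
  have hd1 : (1 : ℝ) ≤ d := by exact_mod_cast hd
  have hterm : ∀ M ∈ Finset.Icc 1 Mx, (130 * d * (M : ℝ) ^ 2 + 1) ^ (4 * d) *
      (2 * (2 ^ (-bd d) * exp (16988 * M - M ^ 2 / 24))) ≤ (1 / 2) ^ M := by
    intro M hM
    rw [Finset.mem_Icc] at hM
    have hM1 : (1 : ℝ) ≤ M := by exact_mod_cast hM.1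
    have a1 : (M : ℝ) ^ 2 ≤ exp (2 * M) := by
      have := Real.add_one_le_exp (M : ℝ)
      calc (M : ℝ) ^ 2 ≤ (exp M) ^ 2 := by gcongr; linarith
        _ = exp (2 * M) := by rw [← Real.exp_nat_mul]; push_cast; ring_nf
    have a2 : (131 * d : ℝ) ≤ exp (131 * d) := by
      have := Real.add_one_le_exp (131 * d : ℝ)
      linarith
    have a3 : 130 * d * (M : ℝ) ^ 2 + 1 ≤ exp (131 * d + 2 * M) := by
      rw [Real.exp_add]
      calc 130 * d * (M : ℝ) ^ 2 + 1 ≤ 131 * d * (M : ℝ) ^ 2 := by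
            have : (1 : ℝ) ≤ d * M ^ 2 := by
              have : (1 : ℝ) ≤ M ^ 2 := one_le_pow₀ hM1
              nlinarith
            linarith
        _ ≤ _ := by gcongr
    have a4 : (130 * d * (M : ℝ) ^ 2 + 1) ^ (4 * d) ≤ exp (4 * d * (131 * d + 2 * M)) := by
      calc (130 * d * (M : ℝ) ^ 2 + 1) ^ (4 * d) ≤ (exp (131 * d + 2 * M)) ^ (4 * d) := by gcongr
        _ = _ := by rw [← Real.exp_nat_mul]; push_cast; ring_nf
    have hlog := Real.log_two_gt_d9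
    have a5 : (2 : ℝ) ^ (-bd d) = exp (-(bd d * log 2)) := by
      rw [Real.rpow_def_of_pos (by norm_num)]; ring_nf
    have a6 : (1 / 2 : ℝ) ^ M = exp (-(M * log 2)) := by
      rw [Real.exp_neg, Real.exp_nat_mul, Real.exp_log (by norm_num), one_div, inv_pow]
    have hlog2 : log 2 ≤ 1 := by
      have := Real.log_two_lt_d9
      linarith
    have a8 : 4 * d * (131 * d) + 6 * (8 * (d : ℝ) + 16989) ^ 2 + 1 ≤ bd d * log 2 := by
      have h1 : bd d * (1 / 2) ≤ bd d * log 2 := by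
        apply mul_le_mul_of_nonneg_left _ (bd_nonneg d)
        linarith
      refine le_trans (le_of_eq ?_) h1
      unfold bd; ring
    calc (130 * d * (M : ℝ) ^ 2 + 1) ^ (4 * d) * (2 * (2 ^ (-bd d) * exp (16988 * M - M ^ 2 / 24))) ≤
        exp (4 * d * (131 * d + 2 * M)) * (exp (log 2) * (exp (-(bd d * log 2)) *
          exp (16988 * M - M ^ 2 / 24))) := by
          rw [a5]
          rw [Real.exp_log (by norm_num : (0 : ℝ) < 2)]
          gcongr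
      _ = exp (4 * d * (131 * d + 2 * M) + (log 2 + (-(bd d * log 2) + (16988 * M - M ^ 2 / 24)))) := by
          rw [Real.exp_add, Real.exp_add, Real.exp_add]
      _ ≤ exp (-(M * log 2)) := by
          apply Real.exp_le_exp.2
          have b1 : (M : ℝ) * log 2 ≤ M * 1 := by gcongr
          have b2 : (8 * d + 16989 : ℝ) * M - M ^ 2 / 24 ≤ 6 * (8 * d + 16989) ^ 2 := by
            nlinarith [sq_nonneg ((M : ℝ) / 2 - 6 * (8 * d + 16989))]
          linarith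
      _ = _ := a6.symm
  calc _ ≤ ∑ M ∈ Finset.Icc 1 Mx, (1 / 2 : ℝ) ^ M := Finset.sum_le_sum hterm
    _ ≤ 1 := by
      have : ∀ n : ℕ, ∑ M ∈ Finset.Icc 1 n, (1 / 2 : ℝ) ^ M = 1 - (1 / 2) ^ n := by
        intro n
        induction n with
        | zero => simp
        | succ n ih =>
          rw [Finset.sum_Icc_succ_top (by omega), ih, pow_succ]
          ring
      rw [this]
      have : (0 : ℝ) ≤ (1 / 2) ^ Mx := by positivity
      linarith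

section term

variable {E : Type*} [NormedAddCommGroup E] [InnerProductSpace ℝ E]
variable {Ω : Type*} [MeasurableSpace Ω] {P : Measure Ω}
variable {κ : ℝ → ℝ} {C ρ₀ : ℝ} {h : ℕ → E → Ω → ℝ}
variable (hκ : Ker κ C ρ₀) (hh : WNF P κ h)

theorem exp_term {ε ξ p : ℝ} (hε : 0 < ε) {D X G : Lp ℝ 2 P} (hD : D ∈ GG hh) (hX : X ∈ GG hh)
    (hG : G ∈ GG hh) {V W : ℝ} (hV : ‖G‖ ^ 2 ≤ V) (hW : ‖X - G‖ ^ 2 ≤ W) :
    ∫⁻ ω, ENNReal.ofReal (exp (-(p * ξ) * D ω) * (exp (p * ξ * X ω) * (ε * exp (ξ * G ω)) ^ (1 - p))) ∂P ≤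
      ENNReal.ofReal (exp (p ^ 2 * ξ ^ 2 * ‖D‖ ^ 2) * (ε ^ (1 - p) * exp (2 * ξ ^ 2 * V + 2 * p ^ 2 * ξ ^ 2 * W))) := by
  set Y : Lp ℝ 2 P := (-(p * ξ)) • D + (ξ • G + (p * ξ) • (X - G)) with hY
  have hYG : Y ∈ GG hh := by
    apply Submodule.add_mem _ (Submodule.smul_mem _ _ hD)
    exact Submodule.add_mem _ (Submodule.smul_mem _ _ hG)
      (Submodule.smul_mem _ _ (Submodule.sub_mem _ hX hG))
  have hcoe : ∀ᵐ ω ∂P, Y ω = -(p * ξ) * D ω + (ξ * G ω + p * ξ * (X ω - G ω)) := by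
    filter_upwards [Lp.coeFn_add ((-(p * ξ)) • D) (ξ • G + (p * ξ) • (X - G)),
      Lp.coeFn_smul (-(p * ξ)) D, Lp.coeFn_add (ξ • G) ((p * ξ) • (X - G)), Lp.coeFn_smul ξ G,
      Lp.coeFn_smul (p * ξ) (X - G), Lp.coeFn_sub X G] with ω a1 a2 a3 a4 a5 a6
    rw [hY, a1, Pi.add_apply, a2, a3, Pi.add_apply, a4, a5, Pi.smul_apply, Pi.smul_apply,
      Pi.smul_apply, a6, Pi.sub_apply]
    simp [smul_eq_mul]
  have e1 : ∫⁻ ω, ENNReal.ofReal (exp (-(p * ξ) * D ω) * (exp (p * ξ * X ω) * (ε * exp (ξ * G ω)) ^ (1 - p))) ∂P =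
      ENNReal.ofReal (ε ^ (1 - p)) * ∫⁻ ω, ENNReal.ofReal (exp (1 * Y ω)) ∂P := by
    rw [← lintegral_const_mul' _ _ ENNReal.ofReal_ne_top]
    apply lintegral_congr_ae
    filter_upwards [hcoe] with ω hω
    rw [← ENNReal.ofReal_mul (by positivity), hω]
    congr 1
    rw [Real.mul_rpow hε.le (exp_pos _).le, ← Real.exp_mul]
    rw [show exp (-(p * ξ) * D ω) * (exp (p * ξ * X ω) * (ε ^ (1 - p) * exp (ξ * G ω * (1 - p)))) =
      ε ^ (1 - p) * (exp (-(p * ξ) * D ω) * exp (p * ξ * X ω) * exp (ξ * G ω * (1 - p))) by ring,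
      ← Real.exp_add, ← Real.exp_add]
    congr 2
    ring
  rw [e1]
  have hnorm : 1 ^ 2 * ‖Y‖ ^ 2 / 2 ≤ p ^ 2 * ξ ^ 2 * ‖D‖ ^ 2 + (2 * ξ ^ 2 * V + 2 * p ^ 2 * ξ ^ 2 * W) := by
    have par : ∀ a b : Lp ℝ 2 P, ‖a + b‖ ^ 2 ≤ 2 * ‖a‖ ^ 2 + 2 * ‖b‖ ^ 2 := by
      intro a b
      have h1 := norm_add_le a b
      have h2 : ‖a + b‖ ^ 2 ≤ (‖a‖ + ‖b‖) ^ 2 := by gcongr
      nlinarith [sq_nonneg (‖a‖ - ‖b‖)]
    have h1 := par ((-(p * ξ)) • D) (ξ • G + (p * ξ) • (X - G))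
    have h2 := par (ξ • G) ((p * ξ) • (X - G))
    rw [← hY] at h1
    rw [norm_smul, mul_pow] at h1 h2
    rw [norm_smul (p * ξ), mul_pow] at h2
    simp only [Real.norm_eq_abs, sq_abs, neg_sq] at h1 h2
    have h3 : ξ ^ 2 * ‖G‖ ^ 2 ≤ ξ ^ 2 * V := by gcongr
    have h4 : (p * ξ) ^ 2 * ‖X - G‖ ^ 2 ≤ (p * ξ) ^ 2 * W := by gcongr
    have h5 : (p * ξ) ^ 2 * W = p ^ 2 * ξ ^ 2 * W := by ring
    have h6 : (p * ξ) ^ 2 * ‖D‖ ^ 2 = p ^ 2 * ξ ^ 2 * ‖D‖ ^ 2 := by ring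
    linarith
  rw [lint_exp_AX hh.cgp hYG 1, ← ENNReal.ofReal_mul (by positivity)]
  apply ENNReal.ofReal_le_ofReal
  calc ε ^ (1 - p) * exp (1 ^ 2 * ‖Y‖ ^ 2 / 2)
      ≤ ε ^ (1 - p) * exp (p ^ 2 * ξ ^ 2 * ‖D‖ ^ 2 + (2 * ξ ^ 2 * V + 2 * p ^ 2 * ξ ^ 2 * W)) := by
        gcongr
    _ = _ := by rw [Real.exp_add]; ring

end term

variable {d : ℕ} {Ω : Type*} [MeasurableSpace Ω] {P : Measure Ω}
variable {κ : ℝ → ℝ} {C ρ₀ : ℝ} {h : ℕ → EuclideanSpace ℝ (Fin d) → Ω → ℝ}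
variable (hκ : Ker κ C ρ₀) (hh : WNF P κ h)

/-- the constant for short segments -/
noncomputable def B0 (d : ℕ) (C : ℝ) (n K : ℕ) (ε ξ p η : ℝ) : ℝ :=
  (8 * d * K + 2) ^ d * (ε ^ (1 - p) *
    exp (2 * ξ ^ 2 * (n * log 2) + 2 * p ^ 2 * ξ ^ 2 * (2 * (C * (1 / η ^ 2 + 2 * d * K)))))

include hκ in
theorem exp_leaf (hd : 0 < d) {n : ℕ} {ε : ℝ} (hε : 0 < ε) (hεn : ε * exp (n * log 2) = 1) {K : ℕ}
    (hK : 1 ≤ K) {ξ p η : ℝ} (hη : 0 < η)
    {D : Lp ℝ 2 P} (hD : D ∈ GG hh) {u v : EuclideanSpace ℝ (Fin d)} (huv : η ^ 2 * ‖u - v‖ < ε) :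
    ∫⁻ ω, ENNReal.ofReal (exp (-(p * ξ) * D ω) *
      leaf K ε ξ p (fun a b => XX hh n a b ω) (fun z => h n z ω) u v) ∂P ≤
      ENNReal.ofReal (exp (p ^ 2 * ξ ^ 2 * ‖D‖ ^ 2) * B0 d C n K ε ξ p η) := by
  have hX : XX hh n u v ∈ GG hh := XX_mem hκ hh n u v
  have hC := hκ.C1
  have hmeas : ∀ m : Fin d → ℤ, AEMeasurable (fun ω => ENNReal.ofReal (exp (-(p * ξ) * D ω) *
      (exp (p * ξ * XX hh n u v ω) * (ε * exp (ξ * h n (lp ε m) ω)) ^ (1 - p)))) P := by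
    intro m
    have m1 : AEMeasurable (D : Ω → ℝ) P := (Lp.aestronglyMeasurable D).aemeasurable
    have m2 : AEMeasurable (XX hh n u v : Ω → ℝ) P :=
      (Lp.aestronglyMeasurable (XX hh n u v)).aemeasurable
    have m3 : AEMeasurable (h n (lp ε m)) P := (hh.cgp.meas (n, lp ε m)).aemeasurable
    apply AEMeasurable.ennreal_ofReal
    apply AEMeasurable.mul
    · exact Real.measurable_exp.comp_aemeasurable (m1.const_mul _)
    · apply AEMeasurable.mul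
      · exact Real.measurable_exp.comp_aemeasurable (m2.const_mul _)
      · exact ((Real.measurable_exp.comp_aemeasurable (m3.const_mul _)).const_mul _).pow_const _
  have e1 : ∫⁻ ω, ENNReal.ofReal (exp (-(p * ξ) * D ω) *
      leaf K ε ξ p (fun a b => XX hh n a b ω) (fun z => h n z ω) u v) ∂P =
      ∑ m ∈ LB K ε u, ∫⁻ ω, ENNReal.ofReal (exp (-(p * ξ) * D ω) *
        (exp (p * ξ * XX hh n u v ω) * (ε * exp (ξ * h n (lp ε m) ω)) ^ (1 - p))) ∂P := by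
    rw [← lintegral_finsetSum' _ (fun m _ => hmeas m)]
    apply lintegral_congr
    intro ω
    rw [leaf, Finset.mul_sum, ENNReal.ofReal_sum_of_nonneg]
    intro m _
    positivity
  rw [e1]
  have hterm : ∀ m ∈ LB K ε u, ∫⁻ ω, ENNReal.ofReal (exp (-(p * ξ) * D ω) *
        (exp (p * ξ * XX hh n u v ω) * (ε * exp (ξ * h n (lp ε m) ω)) ^ (1 - p))) ∂P ≤
      ENNReal.ofReal (exp (p ^ 2 * ξ ^ 2 * ‖D‖ ^ 2) * (ε ^ (1 - p) *
        exp (2 * ξ ^ 2 * (n * log 2) + 2 * p ^ 2 * ξ ^ 2 * (2 * (C * (1 / η ^ 2 + 2 * d * K)))))) := by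
    intro m hm
    have hnear := LB_near hd hK hε hm
    have hV := (HH_norm_sq hκ hh n (lp ε m)).le
    have hdist : ‖u - v‖ ≤ ε / η ^ 2 := by
      rw [le_div_iff₀ (by positivity)]; linarith
    have hW : ‖XX hh n u v - HH hh n (lp ε m)‖ ^ 2 ≤ 2 * (C * (1 / η ^ 2 + 2 * d * K)) := by
      have := norm_XX_sub_HH_le hκ hh (n := n) (a := u) (b := v) (x := lp ε m)
        (B := ε / η ^ 2 + 2 * d * K * ε) (by
        intro t ht
        have e2 : pt u v t - lp ε m = t • (v - u) - (lp ε m - u) := by unfold pt; abel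
        calc ‖pt u v t - lp ε m‖ = ‖t • (v - u) - (lp ε m - u)‖ := by rw [e2]
          _ ≤ ‖t • (v - u)‖ + ‖lp ε m - u‖ := norm_sub_le _ _
          _ = t * ‖u - v‖ + ‖lp ε m - u‖ := by
              rw [norm_smul, norm_of_nonneg ht.1, norm_sub_rev v u]
          _ ≤ 1 * ‖u - v‖ + 2 * d * K * ε := by
              have := ht.2
              gcongr
          _ ≤ _ := by linarith)
      refine this.trans (le_of_eq ?_)
      have e3 : C * (ε / η ^ 2 + 2 * d * K * ε) * exp (n * log 2) =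
          C * (1 / η ^ 2 + 2 * d * K) * (ε * exp (n * log 2)) := by ring
      rw [e3, hεn]; ring
    have := exp_term hh (ξ := ξ) (p := p) hε hD hX (HH_mem hh n (lp ε m)) hV hW
    refine le_trans (le_of_eq ?_) this
    apply lintegral_congr_ae
    filter_upwards [HH_coe hh n (lp ε m)] with ω hω
    rw [hω]
  calc _ ≤ ∑ m ∈ LB K ε u, ENNReal.ofReal (exp (p ^ 2 * ξ ^ 2 * ‖D‖ ^ 2) * (ε ^ (1 - p) *
        exp (2 * ξ ^ 2 * (n * log 2) + 2 * p ^ 2 * ξ ^ 2 * (2 * (C * (1 / η ^ 2 + 2 * d * K)))))) :=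
        Finset.sum_le_sum hterm
    _ = _ := by
        rw [Finset.sum_const, card_LB, B0, nsmul_eq_mul]
        rw [show (((8 * d * K + 2) ^ d : ℕ) : ENNReal) = ENNReal.ofReal ((8 * d * K + 2) ^ d) by
          rw [← ENNReal.ofReal_natCast]; push_cast; rfl,
          ← ENNReal.ofReal_mul (by positivity)]
        congr 1
        ring

end Pool.Agent.H964.W
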