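import Mathlib

/-!
# Radial kernels of white noise fields
-/

set_option autoImplicit false

namespace Pool.Agent.H964.W

open MeasureTheory Real Filter Topology

/-- radial kernels -/
structure Ker (κ : ℝ → ℝ) (C ρ₀ : ℝ) : Prop where
  nonneg : ∀ s, 0 ≤ κ s
  le_one : ∀ s, κ s ≤ 1
  zero : κ 0 = 1
  lip : ∀ s t, |κ s - κ t| ≤ C * |s - t|
  far : ∀ s, ρ₀ ≤ s → κ s = 0
  C1 : 1 ≤ C
  r1 : 1 ≤ ρ₀

/-- the covariance of the scales between `exp (-b)` and `exp (-a)` -/
noncomputable def Gk (κ : ℝ → ℝ) (a b ρ : ℝ) : ℝ := ∫ τ in a..b, κ (ρ * exp τ)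

variable {κ : ℝ → ℝ} {C ρ₀ : ℝ} (hκ : Ker κ C ρ₀)
include hκ

theorem Ker.continuous : Continuous κ := by
  have hC := hκ.C1
  apply (LipschitzWith.of_dist_le_mul (K := ⟨C, by linarith⟩) _).continuous
  intro s t
  rw [Real.dist_eq, Real.dist_eq]
  exact hκ.lip s t

theorem Ker.cont_exp (ρ : ℝ) : Continuous fun τ : ℝ => κ (ρ * exp τ) :=
  hκ.continuous.comp (by fun_prop)

theorem Ker.ii (ρ a b : ℝ) : IntervalIntegrable (fun τ : ℝ => κ (ρ * exp τ)) volume a b :=
  (hκ.cont_exp ρ).intervalIntegrable _ _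

theorem Gk_nonneg {a b : ℝ} (hab : a ≤ b) (ρ : ℝ) : 0 ≤ Gk κ a b ρ :=
  intervalIntegral.integral_nonneg hab fun _ _ => hκ.nonneg _

theorem Gk_le {a b : ℝ} (hab : a ≤ b) (ρ : ℝ) : Gk κ a b ρ ≤ b - a := by
  have : Gk κ a b ρ ≤ ∫ τ in a..b, (1 : ℝ) := by
    apply intervalIntegral.integral_mono_on hab (hκ.ii _ _ _) intervalIntegrable_const
    intro τ _
    exact hκ.le_one _
  simpa using this

theorem Gk_zero (a b : ℝ) : Gk κ a b 0 = b - a := by
  unfold Gk
  simp [hκ.zero]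

theorem Gk_add (a b c ρ : ℝ) : Gk κ a b ρ + Gk κ b c ρ = Gk κ a c ρ :=
  intervalIntegral.integral_add_adjacent_intervals (hκ.ii _ _ _) (hκ.ii _ _ _)

theorem Gk_lip {a b : ℝ} (hab : a ≤ b) (ρ ρ' : ℝ) :
    |Gk κ a b ρ - Gk κ a b ρ'| ≤ C * |ρ - ρ'| * exp b := by
  have hC := hκ.C1
  unfold Gk
  rw [← intervalIntegral.integral_sub (hκ.ii _ _ _) (hκ.ii _ _ _)]
  calc |∫ τ in a..b, (κ (ρ * exp τ) - κ (ρ' * exp τ))| ≤
      ∫ τ in a..b, |κ (ρ * exp τ) - κ (ρ' * exp τ)| :=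
        intervalIntegral.abs_integral_le_integral_abs hab
    _ ≤ ∫ τ in a..b, C * |ρ - ρ'| * exp τ := by
        apply intervalIntegral.integral_mono_on hab
          (((hκ.cont_exp ρ).sub (hκ.cont_exp ρ')).abs.intervalIntegrable _ _)
          (Continuous.intervalIntegrable (by fun_prop) _ _)
        intro τ _
        refine (hκ.lip _ _).trans (le_of_eq ?_)
        rw [← sub_mul, abs_mul, abs_of_pos (exp_pos τ)]
        ring
    _ = C * |ρ - ρ'| * (exp b - exp a) := by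
        rw [intervalIntegral.integral_const_mul, integral_exp]
    _ ≤ _ := by
        apply mul_le_mul_of_nonneg_left _ (by positivity)
        linarith [exp_pos a]

theorem Gk_far {a b ρ : ℝ} (hab : a ≤ b) (hρ : ρ₀ ≤ ρ * exp a) : Gk κ a b ρ = 0 := by
  unfold Gk
  have hr := hκ.r1
  have hρ0 : 0 ≤ ρ := by
    by_contra hc
    push Not at hc
    have := mul_neg_of_neg_of_pos hc (exp_pos a)
    linarith
  have : ∫ τ in a..b, κ (ρ * exp τ) = ∫ τ in a..b, (0 : ℝ) := by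
    apply intervalIntegral.integral_congr
    intro τ hτ
    rw [Set.uIcc_of_le hab] at hτ
    apply hκ.far
    refine hρ.trans ?_
    have := Real.exp_le_exp.2 hτ.1
    gcongr
  rw [this]; simp

theorem Gk_near {a b ρ : ℝ} (hab : a ≤ b) (hρ0 : 0 ≤ ρ) (hρ : C * ρ * exp b ≤ 1 / 2) :
    (b - a) / 2 ≤ Gk κ a b ρ := by
  have hC := hκ.C1
  have : ∫ τ in a..b, (1 / 2 : ℝ) ≤ Gk κ a b ρ := by
    apply intervalIntegral.integral_mono_on hab intervalIntegrable_const (hκ.ii _ _ _)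
    intro τ hτ
    have h1 := hκ.lip (ρ * exp τ) 0
    rw [hκ.zero, sub_zero, abs_of_nonneg (by positivity : 0 ≤ ρ * exp τ)] at h1
    have h2 : C * (ρ * exp τ) ≤ 1 / 2 := by
      refine le_trans ?_ hρ
      have := Real.exp_le_exp.2 hτ.2
      rw [← mul_assoc]
      gcongr
    rw [abs_le] at h1
    linarith [h1.1]
  refine le_trans (le_of_eq ?_) this
  simp
  ring

omit hκ in
theorem Gk_shift {a b ρ : ℝ} (hρ : 0 < ρ) :
    Gk κ a b ρ = ∫ τ in (a + log ρ)..(b + log ρ), κ (exp τ) := by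
  unfold Gk
  rw [← intervalIntegral.integral_comp_add_right (fun τ => κ (exp τ)) (log ρ)]
  apply intervalIntegral.integral_congr
  intro τ _
  simp only
  rw [Real.exp_add, Real.exp_log hρ, mul_comm]

theorem Gk_log (a b : ℝ) {ρ ρ' : ℝ} (hρ : 0 < ρ) (hρ' : 0 < ρ') :
    |Gk κ a b ρ - Gk κ a b ρ'| ≤ |log ρ - log ρ'| := by
  have hc : Continuous fun τ : ℝ => κ (exp τ) := hκ.continuous.comp (by fun_prop)
  have key : ∀ x y : ℝ, x ≤ y → |(∫ τ in (a + x)..(b + x), κ (exp τ)) -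
      ∫ τ in (a + y)..(b + y), κ (exp τ)| ≤ y - x := by
    intro x y hxy
    have hii : ∀ s t : ℝ, IntervalIntegrable (fun τ : ℝ => κ (exp τ)) volume s t :=
      fun s t => hc.intervalIntegrable _ _
    have e1 : (∫ τ in (a + x)..(b + x), κ (exp τ)) - ∫ τ in (a + y)..(b + y), κ (exp τ) =
        (∫ τ in (a + x)..(a + y), κ (exp τ)) - ∫ τ in (b + x)..(b + y), κ (exp τ) := by
      have h1 := intervalIntegral.integral_add_adjacent_intervals (hii (a + x) (a + y)) (hii (a + y) (b + y))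
      have h2 := intervalIntegral.integral_add_adjacent_intervals (hii (a + x) (b + x)) (hii (b + x) (b + y))
      linarith
    have h0 : ∀ c : ℝ, 0 ≤ ∫ τ in (c + x)..(c + y), κ (exp τ) := fun c =>
      intervalIntegral.integral_nonneg (by linarith) fun _ _ => hκ.nonneg _
    have h1 : ∀ c : ℝ, ∫ τ in (c + x)..(c + y), κ (exp τ) ≤ y - x := by
      intro c
      have : ∫ τ in (c + x)..(c + y), κ (exp τ) ≤ ∫ τ in (c + x)..(c + y), (1 : ℝ) := by
        apply intervalIntegral.integral_mono_on (by linarith) (hii _ _) intervalIntegrable_const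
        intro τ _
        exact hκ.le_one _
      simpa using this
    rw [e1, abs_le]
    constructor
    · linarith [h0 a, h1 b]
    · linarith [h0 b, h1 a]
  rw [Gk_shift hρ, Gk_shift hρ']
  rcases le_total (log ρ) (log ρ') with h | h
  · rw [abs_of_nonpos (by linarith : log ρ - log ρ' ≤ 0), neg_sub]
    exact key _ _ h
  · rw [abs_of_nonneg (by linarith : 0 ≤ log ρ - log ρ'), abs_sub_comm]
    exact key _ _ h

/-- comparison of logarithms -/
theorem Gk_hold (a b : ℝ) {ρ ρ' : ℝ} (hρ : 0 < ρ) (hρ' : 0 < ρ') :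
    |Gk κ a b ρ - Gk κ a b ρ'| ≤ √|ρ - ρ'| * ((√ρ)⁻¹ + (√ρ')⁻¹) := by
  refine (Gk_log hκ a b hρ hρ').trans ?_
  have key : ∀ x y : ℝ, 0 < x → x ≤ y → log y - log x ≤ √(y - x) * (√x)⁻¹ := by
    intro x y hx hxy
    have hy : 0 < y := by linarith
    obtain ⟨t, ht⟩ : ∃ t, t = (y - x) / x := ⟨_, rfl⟩
    have ht0 : 0 ≤ t := by rw [ht]; apply div_nonneg <;> linarith
    have e1 : √(y - x) * (√x)⁻¹ = √t := by
      rw [ht, Real.sqrt_div (by linarith)]; rfl
    have e2 : log y - log x = log (1 + t) := by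
      rw [← log_div hy.ne' hx.ne']
      congr 1
      rw [ht]; field_simp; ring
    rw [e1, e2]
    have hs : √t * √t = t := Real.mul_self_sqrt ht0
    have hs0 : 0 ≤ √t := Real.sqrt_nonneg t
    have h3 : 1 + t ≤ exp (√t) := by
      have h4 := Real.quadratic_le_exp_of_nonneg hs0
      rcases le_or_gt (√t) 2 with h6 | h6
      · nlinarith
      · have h7 : exp (√t) = exp (√t / 2) * exp (√t / 2) := by rw [← Real.exp_add]; congr 1; ring
        have h8 := Real.quadratic_le_exp_of_nonneg (by positivity : 0 ≤ √t / 2)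
        rw [h7]
        nlinarith
    calc log (1 + t) ≤ log (exp (√t)) := Real.log_le_log (by linarith) h3
      _ = √t := Real.log_exp _
  have hp : 0 ≤ √|ρ - ρ'| * (√ρ)⁻¹ := by positivity
  have hp' : 0 ≤ √|ρ - ρ'| * (√ρ')⁻¹ := by positivity
  rcases le_total ρ ρ' with h | h
  · rw [abs_sub_comm (log ρ), abs_of_nonneg (by
      have := Real.log_le_log hρ h; linarith : 0 ≤ log ρ' - log ρ)]
    have := key ρ ρ' hρ h
    rw [abs_sub_comm, abs_of_nonneg (by linarith : 0 ≤ ρ' - ρ)] at hp' ⊢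
    rw [mul_add]
    linarith
  · rw [abs_of_nonneg (by
      have := Real.log_le_log hρ' h; linarith : 0 ≤ log ρ - log ρ')]
    have := key ρ' ρ hρ' h
    rw [abs_of_nonneg (by linarith : 0 ≤ ρ - ρ')] at hp ⊢
    rw [mul_add]
    linarith

end Pool.Agent.H964.W
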