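import Pool.Agent.H964.WN.GP
import Pool.Agent.H964.WN.Ker

/-!
# White noise fields: averages over segments
-/

set_option autoImplicit false

namespace Pool.Agent.H964.W

open MeasureTheory ProbabilityTheory Real Filter Topology
open scoped ENNReal NNReal

section pts

variable {E : Type*} [NormedAddCommGroup E] [NormedSpace ℝ E]

/-- points of a segment -/
noncomputable def pt (a b : E) (t : ℝ) : E := a + t • (b - a)

theorem pt_zero (a b : E) : pt a b 0 = a := by unfold pt; simp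

theorem pt_one (a b : E) : pt a b 1 = b := by unfold pt; simp

theorem pt_continuous (a b : E) : Continuous (pt a b) := by unfold pt; fun_prop

theorem pt_conv (a b : E) (t : ℝ) : pt a b t = (1 - t) • a + t • b := by unfold pt; module

theorem pt_sub_pt (a b a' b' : E) (t : ℝ) :
    pt a b t - pt a' b' t = (1 - t) • (a - a') + t • (b - b') := by
  rw [pt_conv, pt_conv]; module

theorem norm_pt_sub_pt_le {a b a' b' : E} {t d : ℝ} (ht : t ∈ Set.Icc (0 : ℝ) 1)
    (h1 : ‖a - a'‖ ≤ d) (h2 : ‖b - b'‖ ≤ d) : ‖pt a b t - pt a' b' t‖ ≤ d := by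
  rw [pt_sub_pt]
  calc ‖(1 - t) • (a - a') + t • (b - b')‖ ≤ ‖(1 - t) • (a - a')‖ + ‖t • (b - b')‖ := norm_add_le _ _
    _ = (1 - t) * ‖a - a'‖ + t * ‖b - b'‖ := by
        rw [norm_smul, norm_smul, norm_of_nonneg ht.1, norm_of_nonneg (by linarith [ht.2] : (0 : ℝ) ≤ 1 - t)]
    _ ≤ (1 - t) * d + t * d := by
        have := ht.1; have := ht.2
        gcongr
    _ = d := by ring

theorem norm_pt_le {a b : E} {R : ℝ} (ha : ‖a‖ ≤ R) (hb : ‖b‖ ≤ R) {t : ℝ} (ht : t ∈ Set.Icc (0 : ℝ) 1) :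
    ‖pt a b t‖ ≤ R := by
  rw [pt_conv]
  calc ‖(1 - t) • a + t • b‖ ≤ ‖(1 - t) • a‖ + ‖t • b‖ := norm_add_le _ _
    _ = (1 - t) * ‖a‖ + t * ‖b‖ := by
        rw [norm_smul, norm_smul, norm_of_nonneg ht.1, norm_of_nonneg (by linarith [ht.2] : (0 : ℝ) ≤ 1 - t)]
    _ ≤ (1 - t) * R + t * R := by
        have := ht.1; have := ht.2
        gcongr
    _ = R := by ring

theorem norm_pt_sub (a b : E) (s t : ℝ) : ‖pt a b s - pt a b t‖ = |s - t| * ‖a - b‖ := by
  have : pt a b s - pt a b t = (s - t) • (b - a) := by unfold pt; module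
  rw [this, norm_smul, Real.norm_eq_abs, norm_sub_rev b a]

/-- the midpoint -/
noncomputable def mid (u v : E) : E := (1 / 2 : ℝ) • (u + v)

theorem pt_half_left (u v : E) (t : ℝ) : pt u v (t / 2) = pt u (mid u v) t := by
  unfold pt mid; module

theorem pt_half_right (u v : E) (t : ℝ) : pt u v (t / 2 + 1 / 2) = pt (mid u v) v t := by
  unfold pt mid; module

theorem norm_sub_mid (u v : E) : ‖u - mid u v‖ = ‖u - v‖ / 2 := by
  have : u - mid u v = (1 / 2 : ℝ) • (u - v) := by unfold mid; module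
  rw [this, norm_smul, norm_of_nonneg (by norm_num)]; ring

theorem norm_mid_sub (u v : E) : ‖mid u v - v‖ = ‖u - v‖ / 2 := by
  have : mid u v - v = (1 / 2 : ℝ) • (u - v) := by unfold mid; module
  rw [this, norm_smul, norm_of_nonneg (by norm_num)]; ring

end pts

variable {E : Type*} [NormedAddCommGroup E] [InnerProductSpace ℝ E]
variable {Ω : Type*} [MeasurableSpace Ω] {P : Measure Ω}

/-- white noise fields -/
structure WNF (P : Measure Ω) (κ : ℝ → ℝ) (h : ℕ → E → Ω → ℝ) : Prop where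
  cgp : CGP P (fun p : ℕ × E => h p.1 p.2)
  cov : ∀ n x m y, covariance (h n x) (h m y) P = Gk κ 0 ((min n m : ℕ) * log 2) ‖x - y‖

variable {κ : ℝ → ℝ} {C ρ₀ : ℝ} {h : ℕ → E → Ω → ℝ}

/-- the field as an element of `L²` -/
noncomputable def HH (hh : WNF P κ h) (n : ℕ) (x : E) : Lp ℝ 2 P := HX hh.cgp (n, x)

variable (hκ : Ker κ C ρ₀) (hh : WNF P κ h)

theorem HH_coe (n : ℕ) (x : E) : (HH hh n x : Ω → ℝ) =ᵐ[P] h n x := HX_coe hh.cgp (n, x)

theorem HH_inner' (n m : ℕ) (x y : E) :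
    inner ℝ (HH hh n x) (HH hh m y) = Gk κ 0 ((min n m : ℕ) * log 2) ‖x - y‖ := by
  rw [HH, HH, HX_inner]; exact hh.cov n x m y

theorem HH_inner (n : ℕ) (x y : E) :
    inner ℝ (HH hh n x) (HH hh n y) = Gk κ 0 (n * log 2) ‖x - y‖ := by
  rw [HH_inner', min_self]

theorem lam_nonneg (n : ℕ) : 0 ≤ n * log 2 := by
  have := Real.log_nonneg (by norm_num : (1 : ℝ) ≤ 2); positivity

include hκ in
theorem HH_norm_sq (n : ℕ) (x : E) : ‖HH hh n x‖ ^ 2 = n * log 2 := by
  rw [← real_inner_self_eq_norm_sq, HH_inner, sub_self, norm_zero, Gk_zero hκ]; ring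

include hκ in
theorem HH_dist_sq_le (n : ℕ) (x y : E) :
    ‖HH hh n x - HH hh n y‖ ^ 2 ≤ 2 * (C * ‖x - y‖ * exp (n * log 2)) := by
  rw [norm_sub_sq_real, HH_norm_sq hκ, HH_norm_sq hκ, HH_inner]
  have h1 := Gk_lip hκ (lam_nonneg n) 0 ‖x - y‖
  rw [Gk_zero hκ, zero_sub, abs_neg, abs_norm, abs_le] at h1
  linarith [h1.2]

include hκ in
theorem HH_continuous (n : ℕ) : Continuous (HH hh n) := by
  rw [continuous_iff_continuousAt]
  intro w
  rw [ContinuousAt, tendsto_iff_norm_sub_tendsto_zero]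
  have h1 : Tendsto (fun z : E => 2 * (C * ‖z - w‖ * exp (n * log 2))) (𝓝 w) (𝓝 0) := by
    have : Continuous fun z : E => 2 * (C * ‖z - w‖ * exp (n * log 2)) := by fun_prop
    have h := this.tendsto w
    simpa using h
  have h2 : Tendsto (fun z : E => ‖HH hh n z - HH hh n w‖ ^ 2) (𝓝 w) (𝓝 0) :=
    squeeze_zero (fun z => by positivity) (fun z => HH_dist_sq_le hκ hh n z w) h1
  have h3 := h2.sqrt
  simpa [Real.sqrt_sq] using h3

/-- the average of the field over the segment from `a` to `b` -/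
noncomputable def XX (n : ℕ) (a b : E) : Lp ℝ 2 P := ∫ t in (0 : ℝ)..1, HH hh n (pt a b t)

include hκ in
theorem HH_pt_continuous (n : ℕ) (a b : E) : Continuous fun t => HH hh n (pt a b t) :=
  (HH_continuous hκ hh n).comp (pt_continuous a b)

include hκ in
theorem inner_XX (n : ℕ) (D : Lp ℝ 2 P) (a b : E) :
    inner ℝ D (XX hh n a b) = ∫ t in (0 : ℝ)..1, inner ℝ D (HH hh n (pt a b t)) := by
  have := (innerSL ℝ D).intervalIntegral_comp_comm
    ((HH_pt_continuous hκ hh n a b).intervalIntegrable (μ := volume) 0 1)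
  simp only [innerSL_apply_apply] at this
  rw [XX, this]

include hκ in
theorem XX_split (n : ℕ) (u v : E) :
    XX hh n u v = (1 / 2 : ℝ) • (XX hh n u (mid u v) + XX hh n (mid u v) v) := by
  have hc := HH_pt_continuous hκ hh n u v
  have e : XX hh n u v = (∫ t in (0 : ℝ)..(1 / 2), HH hh n (pt u v t)) +
      ∫ t in (1 / 2 : ℝ)..1, HH hh n (pt u v t) := by
    rw [XX, intervalIntegral.integral_add_adjacent_intervals] <;>
    exact hc.intervalIntegrable _ _
  have e1 : XX hh n u (mid u v) = (2 : ℝ) • ∫ t in (0 : ℝ)..(1 / 2), HH hh n (pt u v t) := by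
    rw [XX]
    have := intervalIntegral.integral_comp_div (a := 0) (b := 1)
      (fun t => HH hh n (pt u v t)) (two_ne_zero (α := ℝ))
    simp only [zero_div] at this
    rw [← this]
    apply intervalIntegral.integral_congr
    intro t _
    simp only [pt_half_left]
  have e2 : XX hh n (mid u v) v = (2 : ℝ) • ∫ t in (1 / 2 : ℝ)..1, HH hh n (pt u v t) := by
    rw [XX]
    have := intervalIntegral.integral_comp_div_add (a := 0) (b := 1)
      (fun t => HH hh n (pt u v t)) (two_ne_zero (α := ℝ)) (1 / 2)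
    rw [show (0 : ℝ) / 2 + 1 / 2 = 1 / 2 by norm_num, show (1 : ℝ) / 2 + 1 / 2 = 1 by norm_num] at this
    rw [← this]
    apply intervalIntegral.integral_congr
    intro t _
    simp only [pt_half_right]
  rw [e, e1, e2, smul_add, smul_smul, smul_smul]
  norm_num

/-- the contribution of a refinement: polygons minus segment -/
noncomputable def DD (n : ℕ) (u v u' c c' v' : E) : Lp ℝ 2 P :=
  (1 / 2 : ℝ) • (XX hh n u' c + XX hh n c' v') - XX hh n u v

/-- the closed span of the field -/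
noncomputable def GG : Submodule ℝ (Lp ℝ 2 P) := AX hh.cgp

theorem HH_mem (n : ℕ) (x : E) : HH hh n x ∈ GG hh := HX_mem hh.cgp (n, x)

theorem GG_closed : IsClosed (GG hh : Set (Lp ℝ 2 P)) := AX_closed hh.cgp

include hκ in
theorem XX_mem (n : ℕ) (a b : E) : XX hh n a b ∈ GG hh := by
  rw [XX, intervalIntegral.integral_of_le (by norm_num)]
  have := prob01
  apply Convex.integral_mem (GG hh).convex (GG_closed hh)
  · exact Eventually.of_forall fun t => HH_mem hh n _
  · have := (HH_pt_continuous hκ hh n a b).intervalIntegrable (μ := volume) 0 1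
    rwa [intervalIntegrable_iff_integrableOn_Ioc_of_le (by norm_num)] at this

include hκ in
theorem DD_mem (n : ℕ) (u v u' c c' v' : E) : DD hh n u v u' c c' v' ∈ GG hh :=
  Submodule.sub_mem _ (Submodule.smul_mem _ _ (Submodule.add_mem _ (XX_mem hκ hh n _ _)
    (XX_mem hκ hh n _ _))) (XX_mem hκ hh n _ _)

include hκ in
theorem norm_XX_sub_HH_le {n : ℕ} {a b x : E} {B : ℝ} (hB : ∀ t ∈ Set.Icc (0 : ℝ) 1, ‖pt a b t - x‖ ≤ B) :
    ‖XX hh n a b - HH hh n x‖ ^ 2 ≤ 2 * (C * B * exp (n * log 2)) := by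
  have hB0 : 0 ≤ B := (norm_nonneg _).trans (hB 0 (by norm_num))
  have hC := hκ.C1
  have e : XX hh n a b - HH hh n x = ∫ t in (0 : ℝ)..1, (HH hh n (pt a b t) - HH hh n x) := by
    rw [intervalIntegral.integral_sub ((HH_pt_continuous hκ hh n a b).intervalIntegrable _ _)
      intervalIntegrable_const]
    simp [XX]
  have h1 : ‖XX hh n a b - HH hh n x‖ ≤ √(2 * (C * B * exp (n * log 2))) := by
    rw [e]
    have : ‖∫ t in (0 : ℝ)..1, (HH hh n (pt a b t) - HH hh n x)‖ ≤
        √(2 * (C * B * exp (n * log 2))) * |1 - 0| := by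
      apply intervalIntegral.norm_integral_le_of_norm_le_const
      intro t ht
      rw [Set.uIoc_of_le (by norm_num)] at ht
      apply Real.le_sqrt_of_sq_le
      refine (HH_dist_sq_le hκ hh n _ _).trans ?_
      have := hB t ⟨ht.1.le, ht.2⟩
      gcongr
    simpa using this
  calc ‖XX hh n a b - HH hh n x‖ ^ 2 ≤ √(2 * (C * B * exp (n * log 2))) ^ 2 := by gcongr
    _ = _ := Real.sq_sqrt (by positivity)

end Pool.Agent.H964.W
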