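import Pool.Agent.H964.SP.Branch

/-!
# Centered Gaussian processes: the Gaussian space
-/

set_option autoImplicit false

namespace Pool.Agent.H964.W

open MeasureTheory ProbabilityTheory Real Filter Topology
open Pool.Agent.Y980 Pool.Agent.H964
open scoped ENNReal NNReal

variable {Ω : Type*} [MeasurableSpace Ω] {P : Measure Ω} {ι : Type*} {X : ι → Ω → ℝ}

/-- centered Gaussian processes -/
structure CGP (P : Measure Ω) (X : ι → Ω → ℝ) : Prop where
  meas : ∀ i, Measurable (X i)
  gauss : IsGaussianProcess X P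
  mean : ∀ i, ∫ ω, X i ω ∂P = 0

section

variable (hX : CGP P X)
include hX

theorem CGP.prob : IsProbabilityMeasure P := hX.gauss.isProbabilityMeasure

theorem CGP.memLp (i : ι) : MemLp (X i) 2 P := (hX.gauss.hasGaussianLaw_eval i).memLp_two

end

/-- the variables as elements of `L²` -/
noncomputable def HX (hX : CGP P X) (i : ι) : Lp ℝ 2 P := (hX.memLp i).toLp (X i)

theorem HX_coe (hX : CGP P X) (i : ι) : (HX hX i : Ω → ℝ) =ᵐ[P] X i := (hX.memLp i).coeFn_toLp

theorem HX_inner (hX : CGP P X) (i j : ι) : inner ℝ (HX hX i) (HX hX j) = covariance (X i) (X j) P := by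
  have := hX.prob
  rw [covariance_eq_sub (hX.memLp i) (hX.memLp j), hX.mean i, hX.mean j, L2.inner_def]
  simp only [mul_zero, sub_zero]
  apply integral_congr_ae
  filter_upwards [HX_coe hX i, HX_coe hX j] with ω h2 h3
  rw [h2, h3]
  simp [mul_comm]

/-- the closed span -/
noncomputable def AX (hX : CGP P X) : Submodule ℝ (Lp ℝ 2 P) :=
  (Submodule.span ℝ (Set.range (HX hX))).topologicalClosure

section

variable (hX : CGP P X)

theorem HX_mem (i : ι) : HX hX i ∈ AX hX :=
  Submodule.le_topologicalClosure _ (Submodule.subset_span ⟨i, rfl⟩)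

theorem AX_closed : IsClosed (AX hX : Set (Lp ℝ 2 P)) := by
  unfold AX; exact Submodule.isClosed_topologicalClosure _

theorem spanX_rep {Y : Lp ℝ 2 P} (hY : Y ∈ Submodule.span ℝ (Set.range (HX hX))) :
    ∃ f : ι →₀ ℝ, (Y : Ω → ℝ) =ᵐ[P] lin X f := by
  rw [Finsupp.mem_span_range_iff_exists_finsupp] at hY
  obtain ⟨f, rfl⟩ := hY
  refine ⟨f, ?_⟩
  have h1 : ∀ s : Finset ι, ((∑ z ∈ s, f z • HX hX z : Lp ℝ 2 P) : Ω → ℝ) =ᵐ[P]
      fun ω => ∑ z ∈ s, f z * X z ω := by
    intro s
    classical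
    induction s using Finset.induction_on with
    | empty =>
      simp only [Finset.sum_empty]
      exact Lp.coeFn_zero _ _ _
    | insert a s ha ih =>
      rw [Finset.sum_insert ha]
      filter_upwards [Lp.coeFn_add (f a • HX hX a) (∑ z ∈ s, f z • HX hX z),
        Lp.coeFn_smul (f a) (HX hX a), ih, HX_coe hX a] with ω e1 e2 e3 e4
      rw [e1, Pi.add_apply, e2, e3, Pi.smul_apply, e4, Finset.sum_insert ha, smul_eq_mul]
  have h2 := h1 f.support
  filter_upwards [h2] with ω hω
  rw [Finsupp.sum, hω]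
  rfl

include hX in
theorem linX_mean (f : ι →₀ ℝ) : ∫ ω, lin X f ω ∂P = 0 := by
  have := hX.prob
  unfold lin Finsupp.sum
  rw [integral_finsetSum]
  · apply Finset.sum_eq_zero
    intro z _
    rw [integral_const_mul, hX.mean z, mul_zero]
  · intro z _
    exact ((hX.memLp z).integrable one_le_two).const_mul _

theorem law_spanX {Y : Lp ℝ 2 P} (hY : Y ∈ Submodule.span ℝ (Set.range (HX hX))) :
    P.map Y = gaussianReal 0 (‖Y‖ ^ 2).toNNReal := by
  have := hX.prob
  obtain ⟨f, hf⟩ := spanX_rep hX hY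
  have hg := (isGaussianProcess_lin hX.gauss).hasGaussianLaw_eval f
  have hmean := linX_mean hX f
  have e2 : ‖Y‖ ^ 2 = ∫ ω, (lin X f ω) ^ 2 ∂P := by
    rw [← real_inner_self_eq_norm_sq, L2.inner_def]
    apply integral_congr_ae
    filter_upwards [hf] with ω hω
    rw [hω]
    simp [sq]
  rw [Measure.map_congr hf, hg.map_eq_gaussianReal, hmean, e2, variance_eq_sub hg.memLp_two, hmean]
  simp

/-- the law of the elements of the Gaussian space -/
theorem law_AX {Y : Lp ℝ 2 P} (hY : Y ∈ AX hX) : P.map Y = gaussianReal 0 (‖Y‖ ^ 2).toNNReal := by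
  have hprob := hX.prob
  have hY' : Y ∈ closure (Submodule.span ℝ (Set.range (HX hX)) : Set (Lp ℝ 2 P)) := by
    rw [← Submodule.topologicalClosure_coe]; exact hY
  obtain ⟨y, hy, hlim⟩ := mem_closure_iff_seq_limit.1 hY'
  obtain ⟨φ, hφ, hae⟩ := (tendstoInMeasure_of_tendsto_Lp hlim).exists_seq_tendsto_ae
  have mY : ∀ Z : Lp ℝ 2 P, AEMeasurable Z P := fun Z => (Lp.aestronglyMeasurable Z).aemeasurable
  have hprobY : ∀ Z : Lp ℝ 2 P, IsProbabilityMeasure (P.map Z) := fun Z =>
    Measure.isProbabilityMeasure_map (mY Z)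
  have := hprobY Y
  apply Measure.ext_of_charFun
  ext t
  have hchar : ∀ Z : Lp ℝ 2 P, charFun (P.map Z) t = ∫ ω, Complex.exp (t * Z ω * Complex.I) ∂P := by
    intro Z
    rw [charFun_apply_real, integral_map (mY Z) (by fun_prop)]
  have hlim1 : Tendsto (fun n => charFun (P.map (y (φ n))) t) atTop (𝓝 (charFun (P.map Y) t)) := by
    simp only [hchar]
    apply tendsto_integral_of_dominated_convergence (fun _ => (1 : ℝ))
    · intro n
      have := mY (y (φ n))
      exact (Complex.measurable_exp.comp_aemeasurable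
        (((Complex.measurable_ofReal.comp_aemeasurable this).const_mul _).mul_const _)).aestronglyMeasurable
    · exact integrable_const _
    · intro n
      apply Eventually.of_forall
      intro ω
      rw [← Complex.ofReal_mul, Complex.norm_exp_ofReal_mul_I]
    · filter_upwards [hae] with ω hω
      have hc : Continuous fun x : ℝ => Complex.exp (t * x * Complex.I) := by fun_prop
      exact (hc.tendsto _).comp hω
  have hlim2 : Tendsto (fun n => charFun (P.map (y (φ n))) t) atTop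
      (𝓝 (charFun (gaussianReal 0 (‖Y‖ ^ 2).toNNReal) t)) := by
    have e : ∀ n, charFun (P.map (y (φ n))) t = Complex.exp (t * (0 : ℝ) * Complex.I -
        ((‖y (φ n)‖ ^ 2 : ℝ) : ℂ) * t ^ 2 / 2) := by
      intro n
      rw [law_spanX hX (hy _), charFun_gaussianReal]
      simp
    have e' : charFun (gaussianReal 0 (‖Y‖ ^ 2).toNNReal) t = Complex.exp (t * (0 : ℝ) * Complex.I -
        ((‖Y‖ ^ 2 : ℝ) : ℂ) * t ^ 2 / 2) := by
      rw [charFun_gaussianReal]
      simp
    simp only [e, e']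
    have hc : Continuous fun x : ℝ => Complex.exp (t * (0 : ℝ) * Complex.I - (x : ℂ) * t ^ 2 / 2) := by
      fun_prop
    exact (hc.tendsto _).comp ((hlim.comp hφ.tendsto_atTop).norm.pow 2)
  exact tendsto_nhds_unique hlim1 hlim2

theorem mean_AX {Y : Lp ℝ 2 P} (hY : Y ∈ AX hX) : ∫ ω, Y ω ∂P = 0 := by
  have e : ∫ ω, Y ω ∂P = ∫ x, x ∂(P.map Y) := by
    rw [integral_map (Lp.aestronglyMeasurable Y).aemeasurable (by fun_prop)]
  rw [e, law_AX hX hY, integral_id_gaussianReal]

theorem hasGaussianLaw_AX {n : ℕ} {Y : Fin n → Lp ℝ 2 P} (hY : ∀ i, Y i ∈ AX hX) :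
    HasGaussianLaw (fun ω i => Y i ω) P := by
  constructor
  apply isGaussian_of_map_eq_gaussianReal
  intro L
  have hm : Measurable fun ω => fun i => Y i ω :=
    measurable_pi_lambda _ fun i => (Lp.stronglyMeasurable (Y i)).measurable
  set Z : Lp ℝ 2 P := ∑ i, (L (Pi.single i 1)) • Y i with hZ
  have hZA : Z ∈ AX hX := Submodule.sum_mem _ fun i _ => Submodule.smul_mem _ _ (hY i)
  refine ⟨0, (‖Z‖ ^ 2).toNNReal, ?_⟩
  rw [Measure.map_map L.measurable hm, ← law_AX hX hZA]
  apply Measure.map_congr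
  filter_upwards [coe_sum_smul (fun i => L (Pi.single i 1)) Y] with ω hω
  rw [hZ, hω]
  simp only [Function.comp_apply]
  have e : (fun i => Y i ω) = ∑ i, (Y i ω) • (Pi.single i (1 : ℝ) : Fin n → ℝ) := by
    ext j
    simp [Finset.sum_apply, Pi.single_apply]
  rw [e, map_sum]
  apply Finset.sum_congr rfl
  intro i _
  rw [map_smul, smul_eq_mul, mul_comm]

theorem indep_AX {n : ℕ} {Y : Fin n → Lp ℝ 2 P} (hY : ∀ i, Y i ∈ AX hX)
    (ho : ∀ i j, i ≠ j → inner ℝ (Y i) (Y j) = 0) : iIndepFun (fun i ω => Y i ω) P := by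
  have hprob := hX.prob
  apply (hasGaussianLaw_AX hX hY).iIndepFun_of_covariance_eq_zero
  intro i j hij
  rw [covariance_eq_sub (Lp.memLp _) (Lp.memLp _), mean_AX hX (hY i), zero_mul, sub_zero]
  rw [← ho i j hij, L2.inner_def]
  apply integral_congr_ae
  apply Eventually.of_forall
  intro ω
  simp [mul_comm]

theorem lint_exp_AX {Y : Lp ℝ 2 P} (hY : Y ∈ AX hX) (c : ℝ) :
    ∫⁻ ω, ENNReal.ofReal (exp (c * Y ω)) ∂P = ENNReal.ofReal (exp (c ^ 2 * ‖Y‖ ^ 2 / 2)) := by
  have hlaw := law_AX hX hY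
  have hm := (Lp.aestronglyMeasurable Y).aemeasurable
  have hi : Integrable (fun ω => exp (c * Y ω)) P := by
    have h1 : Integrable (fun x => exp (c * x)) (P.map Y) := by
      rw [hlaw]; exact integrable_exp_mul_gaussianReal c
    exact (integrable_map_measure (by fun_prop) hm).1 h1
  rw [← ofReal_integral_eq_lintegral_ofReal hi (Eventually.of_forall fun _ => (exp_pos _).le)]
  have := mgf_gaussianReal hlaw c
  rw [mgf] at this
  rw [this, Real.coe_toNNReal _ (by positivity)]
  congr 2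
  ring

theorem lint_exp_ind_AX {Y : Lp ℝ 2 P} (hY : Y ∈ AX hX) (h0 : Y ≠ 0) (c σ : ℝ) (hσ : σ = 1 ∨ σ = -1) :
    ∫⁻ ω, ENNReal.ofReal (exp (c * Y ω)) * ind σ (Y ω) ∂P = ENNReal.ofReal (psi (σ * (c * ‖Y‖)) / 2) := by
  have hlaw := law_AX hX hY
  have hm := (Lp.aestronglyMeasurable Y).aemeasurable
  have hn : 0 < ‖Y‖ := norm_pos_iff.2 h0
  have e1 : ∫⁻ ω, ENNReal.ofReal (exp (c * Y ω)) * ind σ (Y ω) ∂P =
      ∫⁻ x, ENNReal.ofReal (exp (c * x)) * ind σ x ∂(P.map Y) := by
    rw [lintegral_map' _ hm]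
    apply AEMeasurable.mul
    · fun_prop
    · exact (ind_measurable σ).aemeasurable
  have e2 : gaussianReal 0 (‖Y‖ ^ 2).toNNReal = (gaussianReal 0 1).map (fun x => ‖Y‖ * x) := by
    rw [gaussianReal_map_const_mul, mul_zero, mul_one]
    congr 1
    ext
    rw [Real.coe_toNNReal _ (by positivity)]
    rfl
  rw [e1, hlaw, e2, lintegral_map _ (by fun_prop), ← half_psi σ (c * ‖Y‖) hσ]
  · apply lintegral_congr
    intro x
    rw [show c * (‖Y‖ * x) = c * ‖Y‖ * x by ring]
    congr 1
    by_cases hx : σ * x ≤ 0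
    · have h1 : σ * (‖Y‖ * x) ≤ 0 := by
        have : σ * (‖Y‖ * x) = ‖Y‖ * (σ * x) := by ring
        rw [this]
        exact mul_nonpos_of_nonneg_of_nonpos hn.le hx
      rw [ind_of_le h1, Set.indicator_of_mem (show x ∈ {x | σ * x ≤ 0} from hx)]
    · have h1 : ¬ σ * (‖Y‖ * x) ≤ 0 := by
        have : σ * (‖Y‖ * x) = ‖Y‖ * (σ * x) := by ring
        rw [this, not_le]
        exact mul_pos hn (not_le.1 hx)
      rw [ind_of_not_le h1, Set.indicator_of_notMem (show x ∉ {x | σ * x ≤ 0} from hx)]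
  · have := ind_measurable σ
    fun_prop

/-- the exponential moment of an element of the Gaussian space on a sign event -/
theorem branchX {k : ℕ} {G : ℕ → Lp ℝ 2 P} {sg : ℕ → ℝ} (hG : ∀ j < k, G j ∈ AX hX)
    (hne : ∀ j < k, G j ≠ 0) (ho : ∀ i < k, ∀ j < k, i ≠ j → inner ℝ (G i) (G j) = 0)
    (hsg : ∀ j < k, sg j = 1 ∨ sg j = -1) {H : Lp ℝ 2 P} (hH : H ∈ AX hX) (ξ : ℝ) :
    ∫⁻ ω, ENNReal.ofReal (exp (ξ * H ω)) * ∏ j ∈ Finset.range k, ind (sg j) (G j ω) ∂P ≤
      ENNReal.ofReal (exp (ξ ^ 2 * ‖H‖ ^ 2 / 2)) *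
        ∏ j ∈ Finset.range k, ENNReal.ofReal (psi (ξ * (sg j * inner ℝ H (G j)) / ‖G j‖) / 2) := by
  set β : ℕ → ℝ := fun j => inner ℝ H (G j) / ‖G j‖ ^ 2 with hβ
  set H' : Lp ℝ 2 P := H - ∑ j : Fin k, β j • G j with hH'
  have hH'A : H' ∈ AX hX := Submodule.sub_mem _ hH
    (Submodule.sum_mem _ fun j _ => Submodule.smul_mem _ _ (hG j j.2))
  have hpos : ∀ j < k, 0 < ‖G j‖ := fun j hj => norm_pos_iff.2 (hne j hj)
  have horth : ∀ j < k, inner ℝ H' (G j) = 0 := by
    intro j hj
    rw [hH', inner_sub_left, sum_inner, Finset.sum_eq_single (⟨j, hj⟩ : Fin k)]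
    · rw [real_inner_smul_left, real_inner_self_eq_norm_sq, hβ]
      have := hpos j hj
      field_simp
      ring
    · intro i _ hi
      rw [real_inner_smul_left, ho i i.2 j hj (fun h => hi (Fin.ext h)), mul_zero]
    · intro h; exact absurd (Finset.mem_univ _) h
  have hnorm : ‖H'‖ ≤ ‖H‖ := by
    have h1 : inner ℝ H' H = ‖H'‖ ^ 2 := by
      have h2 : inner ℝ H' H = inner ℝ H' (H' + ∑ j : Fin k, β j • G j) := by
        congr 1; rw [hH']; abel
      rw [h2, inner_add_right, inner_sum, real_inner_self_eq_norm_sq]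
      have : ∑ j : Fin k, inner ℝ H' (β j • G j) = 0 := by
        apply Finset.sum_eq_zero
        intro j _
        rw [real_inner_smul_right, horth j j.2, mul_zero]
      rw [this, add_zero]
    have h3 := real_inner_le_norm H' H
    rw [h1, sq] at h3
    rcases (norm_nonneg H').eq_or_lt with h | h
    · rw [← h]; exact norm_nonneg _
    · exact le_of_mul_le_mul_left h3 h
  -- the independent family
  set F : Fin (k + 1) → Lp ℝ 2 P := Fin.cons H' (fun j => G j) with hF
  have hFA : ∀ i, F i ∈ AX hX := by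
    intro i
    refine Fin.cases ?_ (fun j => ?_) i
    · exact hH'A
    · exact hG j j.2
  have hFo : ∀ i j, i ≠ j → inner ℝ (F i) (F j) = 0 := by
    intro i
    refine Fin.cases ?_ (fun i' => ?_) i
    · intro j
      refine Fin.cases ?_ (fun j' => ?_) j
      · intro h; exact absurd rfl h
      · intro _; exact horth j' j'.2
    · intro j
      refine Fin.cases ?_ (fun j' => ?_) j
      · intro _
        have := horth i' i'.2
        rw [real_inner_comm] at this
        exact this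
      · intro h
        exact ho i' i'.2 j' j'.2 (fun h2 => h (by rw [Fin.ext h2]))
  have hind := indep_AX hX hFA hFo
  set φ : Fin (k + 1) → ℝ → ℝ≥0∞ := Fin.cons (fun x => ENNReal.ofReal (exp (ξ * x)))
    (fun j x => ENNReal.ofReal (exp (ξ * β j * x)) * ind (sg j) x) with hφ
  have hφm : ∀ i, Measurable (φ i) := by
    intro i
    refine Fin.cases ?_ (fun j => ?_) i
    · simp only [hφ, Fin.cons_zero]; fun_prop
    · simp only [hφ, Fin.cons_succ]
      have := ind_measurable (sg j)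
      fun_prop
  have hind2 := hind.comp φ hφm
  have hprod := lintegral_prod_eq_prod_lintegral_of_indepFun Finset.univ
    (fun i => φ i ∘ fun ω => F i ω) hind2 (fun i => (hφm i).comp (Lp.stronglyMeasurable (F i)).measurable)
  have hpoint : ∀ᵐ ω ∂P, ENNReal.ofReal (exp (ξ * H ω)) * ∏ j ∈ Finset.range k, ind (sg j) (G j ω) =
      ∏ i : Fin (k + 1), (φ i ∘ fun ω => F i ω) ω := by
    have h2 : H = H' + ∑ j : Fin k, β j • G j := by rw [hH']; abel
    filter_upwards [Lp.coeFn_add H' (∑ j : Fin k, β j • G j),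
      coe_sum_smul (fun j : Fin k => β j) (fun j : Fin k => G j)] with ω e1 e2
    have e3 : H ω = H' ω + ∑ j : Fin k, β j * G j ω := by
      nth_rewrite 1 [h2]
      rw [e1, Pi.add_apply, e2]
    rw [Fin.prod_univ_succ]
    simp only [hφ, hF, Function.comp_apply, Fin.cons_zero, Fin.cons_succ]
    rw [Finset.prod_mul_distrib, ← ENNReal.ofReal_prod_of_nonneg (fun _ _ => (exp_pos _).le),
      ← Real.exp_sum, ← mul_assoc, ← ENNReal.ofReal_mul (exp_pos _).le, ← Real.exp_add, e3,
      ← Fin.prod_univ_eq_prod_range (fun j => ind (sg j) (G j ω)) k]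
    congr 3
    rw [mul_add, Finset.mul_sum]
    congr 1
    apply Finset.sum_congr rfl
    intro j _
    ring
  rw [lintegral_congr_ae hpoint, hprod, Fin.prod_univ_succ]
  simp only [hφ, hF, Function.comp_apply, Fin.cons_zero, Fin.cons_succ]
  rw [lint_exp_AX hX hH'A ξ, ← Fin.prod_univ_eq_prod_range
    (fun j => ENNReal.ofReal (psi (ξ * (sg j * inner ℝ H (G j)) / ‖G j‖) / 2)) k]
  apply mul_le_mul'
  · apply ENNReal.ofReal_le_ofReal
    gcongr
  · apply Finset.prod_le_prod'
    intro j _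
    rw [lint_exp_ind_AX hX (hG j j.2) (hne j j.2) _ _ (hsg j j.2)]
    apply le_of_eq
    congr 3
    have := hpos j j.2
    rw [hβ]
    field_simp

end

end Pool.Agent.H964.W
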