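import Pool.Agent.H964.WN.Fld

/-!
# Geometry of paths: anisotropic cells
-/

set_option autoImplicit false

namespace Pool.Agent.H964.W

section core

variable {E : Type*} [NormedAddCommGroup E]

theorem core2 {x : ℕ → E} {ε : ℝ} (hε : 0 < ε) {i j : ℕ} (hij : i < j)
    (hx : ∀ k, i ≤ k → k < j → ‖x (k + 1) - x k‖ ≤ ε) (hρ : 8 * ε ≤ ‖x i - x j‖) :
    (∃ k, i < k ∧ k < j ∧ ‖x k - x j‖ ≤ ‖x k - x i‖ ∧ ‖x k - x i‖ ≤ ‖x k - x j‖ + 2 * ε ∧
      ‖x k - x i‖ ≤ 3 / 4 * ‖x i - x j‖) ∨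
    (∃ k₁ k₂, i < k₁ ∧ k₁ ≤ k₂ ∧ k₂ < j ∧
      3 / 4 * ‖x i - x j‖ ≤ ‖x i - x k₁‖ ∧ ‖x i - x k₁‖ ≤ 3 / 4 * ‖x i - x j‖ + ε ∧
      3 / 4 * ‖x i - x j‖ - 2 * ε ≤ ‖x k₂ - x j‖ ∧ ‖x k₂ - x j‖ ≤ 3 / 4 * ‖x i - x j‖ + ε) := by
  set ρ := ‖x i - x j‖ with hρdef
  have hρ0 : 0 < ρ := by linarith
  have hex : ∃ k, i ≤ k ∧ ‖x k - x j‖ ≤ ‖x k - x i‖ := ⟨j, hij.le, by simp⟩
  classical
  obtain ⟨hk1, hk2⟩ := Nat.find_spec hex
  set k := Nat.find hex with hk
  have hkj : k ≤ j := Nat.find_min' hex ⟨hij.le, by simp⟩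
  have hki : i < k := by
    rcases hk1.lt_or_eq with h | h
    · exact h
    · exfalso
      rw [← h] at hk2
      simp only [sub_self, norm_zero] at hk2
      linarith
  obtain ⟨l, hkl⟩ : ∃ l, k = l + 1 := ⟨k - 1, by omega⟩
  have hl : ‖x l - x i‖ < ‖x l - x j‖ := by
    have := Nat.find_min hex (m := l) (by omega)
    push Not at this
    exact this (by omega)
  rw [hkl] at hk1 hk2 hkj hki
  clear_value k
  have hstep := hx l (by omega) (by omega)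
  set A := ‖x (l + 1) - x i‖ with hA
  set B := ‖x (l + 1) - x j‖ with hB
  have hAB : A < B + 2 * ε := by
    have e1 : A ≤ ‖x (l + 1) - x l‖ + ‖x l - x i‖ := by
      calc A = ‖(x (l + 1) - x l) + (x l - x i)‖ := by rw [hA]; congr 1; abel
        _ ≤ _ := norm_add_le _ _
    have e2 : ‖x l - x j‖ ≤ ‖x (l + 1) - x l‖ + B := by
      calc ‖x l - x j‖ = ‖(x (l + 1) - x j) - (x (l + 1) - x l)‖ := by congr 1; abel
        _ ≤ B + ‖x (l + 1) - x l‖ := norm_sub_le _ _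
        _ = _ := by ring
    linarith
  have hsum : ρ ≤ A + B := by
    calc ρ = ‖(x (l + 1) - x j) - (x (l + 1) - x i)‖ := by rw [hρdef]; congr 1; abel
      _ ≤ B + A := norm_sub_le _ _
      _ = _ := by ring
  have hlj : l + 1 < j := by
    rcases hkj.lt_or_eq with h | h
    · exact h
    · exfalso
      have e1 : A = ρ := by rw [hA, h, hρdef, norm_sub_rev]
      have e2 : B = 0 := by rw [hB, h]; simp
      linarith
  rcases le_or_gt A (3 / 4 * ρ) with hcase | hcase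
  · exact Or.inl ⟨l + 1, by omega, hlj, hk2, hAB.le, hcase⟩
  · have hex1 : ∃ k, i ≤ k ∧ 3 / 4 * ρ ≤ ‖x i - x k‖ :=
      ⟨l + 1, by omega, by rw [norm_sub_rev, ← hA]; exact hcase.le⟩
    obtain ⟨a1, a2⟩ := Nat.find_spec hex1
    set k₁ := Nat.find hex1 with hk₁
    have a3 : k₁ ≤ l + 1 := Nat.find_min' hex1 ⟨by omega, by rw [norm_sub_rev, ← hA]; exact hcase.le⟩
    have a4 : i < k₁ := by
      rcases a1.lt_or_eq with h | h
      · exact h
      · exfalso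
        rw [← h] at a2
        simp only [sub_self, norm_zero] at a2
        linarith
    obtain ⟨l₁, hl₁⟩ : ∃ l₁, k₁ = l₁ + 1 := ⟨k₁ - 1, by omega⟩
    have a5 : ‖x i - x l₁‖ < 3 / 4 * ρ := by
      have := Nat.find_min hex1 (m := l₁) (by omega)
      push Not at this
      exact this (by omega)
    have a6 : ‖x i - x k₁‖ ≤ 3 / 4 * ρ + ε := by
      have hs := hx l₁ (by omega) (by omega)
      rw [hl₁]
      calc ‖x i - x (l₁ + 1)‖ = ‖(x i - x l₁) - (x (l₁ + 1) - x l₁)‖ := by congr 1; abel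
        _ ≤ ‖x i - x l₁‖ + ‖x (l₁ + 1) - x l₁‖ := norm_sub_le _ _
        _ ≤ _ := by linarith
    have hB2 : 3 / 4 * ρ - 2 * ε ≤ ‖x (l + 1) - x j‖ := by rw [← hB]; linarith
    set S := (Finset.Icc (l + 1) j).filter fun k => 3 / 4 * ρ - 2 * ε ≤ ‖x k - x j‖ with hS
    have hSne : S.Nonempty := ⟨l + 1, by rw [hS, Finset.mem_filter, Finset.mem_Icc]; exact ⟨⟨le_rfl, hlj.le⟩, hB2⟩⟩
    set k₂ := S.max' hSne with hk₂
    have b0 := S.max'_mem hSne
    rw [← hk₂, hS, Finset.mem_filter, Finset.mem_Icc] at b0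
    obtain ⟨⟨b1, b2⟩, b3⟩ := b0
    have b4 : k₂ < j := by
      rcases b2.lt_or_eq with h | h
      · exact h
      · exfalso
        rw [h] at b3
        simp only [sub_self, norm_zero] at b3
        linarith
    have b5 : ‖x (k₂ + 1) - x j‖ < 3 / 4 * ρ - 2 * ε := by
      by_contra hcon
      push Not at hcon
      have : k₂ + 1 ∈ S := by
        rw [hS, Finset.mem_filter, Finset.mem_Icc]
        exact ⟨⟨by omega, by omega⟩, hcon⟩
      have := S.le_max' _ this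
      rw [← hk₂] at this
      omega
    have b6 : ‖x k₂ - x j‖ ≤ 3 / 4 * ρ + ε := by
      have hs := hx k₂ (by omega) b4
      calc ‖x k₂ - x j‖ = ‖(x (k₂ + 1) - x j) - (x (k₂ + 1) - x k₂)‖ := by congr 1; abel
        _ ≤ ‖x (k₂ + 1) - x j‖ + ‖x (k₂ + 1) - x k₂‖ := norm_sub_le _ _
        _ ≤ _ := by linarith
    exact Or.inr ⟨k₁, k₂, a4, by omega, b4, a2, a6, b3, b6⟩

end core

section perp

variable {E : Type*} [NormedAddCommGroup E] [InnerProductSpace ℝ E]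

/-- the perpendicular part -/
noncomputable def pp (e z : E) : E := z - (inner ℝ z e : ℝ) • e

theorem pp_sub (e a b : E) : pp e (a - b) = pp e a - pp e b := by
  unfold pp
  rw [inner_sub_left]
  module

variable {e : E} (he : ‖e‖ = 1)
include he

theorem inner_self_one : inner ℝ e e = (1 : ℝ) := by
  rw [real_inner_self_eq_norm_sq, he]; norm_num

theorem pp_self (c : ℝ) : pp e (c • e) = 0 := by
  unfold pp
  rw [real_inner_smul_left, inner_self_one he]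
  module

theorem inner_pp (z : E) : inner ℝ (pp e z) e = (0 : ℝ) := by
  unfold pp
  rw [inner_sub_left, real_inner_smul_left, inner_self_one he]
  ring

theorem inner_split (a b : E) :
    inner ℝ a b = inner ℝ a e * inner ℝ b e + inner ℝ (pp e a) (pp e b) := by
  have h1 : inner ℝ (pp e a) (pp e b) = inner ℝ (pp e a) b := by
    nth_rewrite 2 [pp]
    rw [inner_sub_right, real_inner_smul_right, inner_pp he]
    ring
  rw [h1, pp, inner_sub_left, real_inner_smul_left, real_inner_comm b e]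
  ring

theorem norm_sq_pp (z : E) : ‖z‖ ^ 2 = (inner ℝ z e) ^ 2 + ‖pp e z‖ ^ 2 := by
  rw [← real_inner_self_eq_norm_sq z, ← real_inner_self_eq_norm_sq (pp e z), inner_split he z z]
  ring

theorem abs_inner_le (z : E) : |(inner ℝ z e : ℝ)| ≤ ‖z‖ := by
  have := abs_real_inner_le_norm z e
  rwa [he, mul_one] at this

theorem norm_pp_le (z : E) : ‖pp e z‖ ≤ ‖z‖ := by
  have h := norm_sq_pp he z
  have : ‖pp e z‖ ^ 2 ≤ ‖z‖ ^ 2 := by rw [h]; linarith [sq_nonneg (inner ℝ z e : ℝ)]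
  exact le_of_sq_le_sq this (norm_nonneg _)

theorem norm_le_pp (z : E) : ‖z‖ ≤ |(inner ℝ z e : ℝ)| + ‖pp e z‖ := by
  have : z = (inner ℝ z e : ℝ) • e + pp e z := by unfold pp; abel
  calc ‖z‖ = ‖(inner ℝ z e : ℝ) • e + pp e z‖ := by rw [← this]
    _ ≤ ‖(inner ℝ z e : ℝ) • e‖ + ‖pp e z‖ := norm_add_le _ _
    _ = _ := by rw [norm_smul, he, mul_one, Real.norm_eq_abs]

theorem inner_sub_smul (z : E) (c : ℝ) : inner ℝ (z - c • e) e = inner ℝ z e - c := by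
  rw [inner_sub_left, real_inner_smul_left, inner_self_one he]; ring

theorem pp_sub_smul (z : E) (c : ℝ) : pp e (z - c • e) = pp e z := by
  rw [pp_sub, pp_self he, sub_zero]

omit he

/-- closeness to a grid point -/
def Cl (e : E) (η : ℝ) (M : ℕ) (δ : E) : Prop := |(inner ℝ δ e : ℝ)| ≤ η ^ 2 / 16 ∧ ‖pp e δ‖ ≤ η / (32 * M)

include he in
theorem Cl.norm_le {η : ℝ} (hη : 0 < η) (hη1 : η ≤ 1 / 100) {M : ℕ} (hM : 1 ≤ M) {δ : E} (h : Cl e η M δ) :
    ‖δ‖ ≤ η / 30 ∧ ‖pp e δ‖ ≤ η / 32 := by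
  have hM' : (1 : ℝ) ≤ M := by exact_mod_cast hM
  have h2 : η / (32 * M) ≤ η / 32 := by
    apply div_le_div_of_nonneg_left hη.le (by norm_num)
    linarith
  constructor
  · refine (norm_le_pp he _).trans ?_
    have h1 := h.1
    have h3 := h.2
    nlinarith
  · exact h.2.trans h2

include he in
/-- closeness relative to a child -/
theorem close_child {η : ℝ} (hη : 0 < η) (hη1 : η ≤ 1 / 100) {M : ℕ} (hM : 1 ≤ M) {δ w : E}
    (h : Cl e η M δ) (hw : 48 / 100 ≤ ‖w‖) (him : ‖pp e w‖ ≤ 3 * (M * η)) :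
    |(inner ℝ δ w : ℝ)| ≤ η ^ 2 * ‖w‖ ^ 2 ∧ ‖δ‖ ≤ η * ‖w‖ := by
  have hM' : (1 : ℝ) ≤ M := by exact_mod_cast hM
  have hM0 : (0 : ℝ) < M := by linarith
  constructor
  · rw [inner_split he]
    have b1 : |(inner ℝ δ e : ℝ) * inner ℝ w e| ≤ η ^ 2 / 16 * ‖w‖ := by
      rw [abs_mul]
      have := abs_inner_le he w
      have := h.1
      gcongr
    have b2 : |(inner ℝ (pp e δ) (pp e w) : ℝ)| ≤ η / (32 * M) * (3 * (M * η)) := by
      refine (abs_real_inner_le_norm _ _).trans ?_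
      have := h.2
      gcongr
    have b3 : η / (32 * M) * (3 * (M * η)) = 3 / 32 * η ^ 2 := by field_simp
    rw [b3] at b2
    refine (abs_add_le _ _).trans ?_
    have h5 : ‖w‖ / 16 + 3 / 32 ≤ ‖w‖ ^ 2 := by nlinarith
    calc |(inner ℝ δ e : ℝ) * inner ℝ w e| + |(inner ℝ (pp e δ) (pp e w) : ℝ)| ≤
        η ^ 2 / 16 * ‖w‖ + 3 / 32 * η ^ 2 := add_le_add b1 b2
      _ = η ^ 2 * (‖w‖ / 16 + 3 / 32) := by ring
      _ ≤ _ := by gcongr
  · have h1 := (h.norm_le he hη hη1 hM).1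
    nlinarith

omit [InnerProductSpace ℝ E] in
theorem sq_low {x t : ℝ} (ht0 : 0 ≤ t) (ht : t ≤ 1 / 2) (hx : 1 / 2 - t ≤ x) : 1 / 4 - t ≤ x ^ 2 := by
  nlinarith

theorem sq_low2 {x a η : ℝ} (hη : 0 < η) (ha : 0 ≤ a) (hx : 0 ≤ x) (h : (a - 33 / 16) * η ≤ x) :
    (a ^ 2 / 2 - 5) * η ^ 2 ≤ x ^ 2 := by
  rcases le_or_gt (33 / 16) a with h1 | h1
  · have h2 : ((a - 33 / 16) * η) ^ 2 ≤ x ^ 2 := by
      have : 0 ≤ (a - 33 / 16) * η := mul_nonneg (by linarith) hη.le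
      gcongr
    have h3 : a ^ 2 / 2 - 5 ≤ (a - 33 / 16) ^ 2 := by nlinarith [sq_nonneg (a - 33 / 8)]
    calc (a ^ 2 / 2 - 5) * η ^ 2 ≤ (a - 33 / 16) ^ 2 * η ^ 2 := by gcongr
      _ = ((a - 33 / 16) * η) ^ 2 := by ring
      _ ≤ _ := h2
  · have h4 : a ^ 2 ≤ (33 / 16) ^ 2 := by gcongr
    have h3 : a ^ 2 / 2 - 5 ≤ 0 := by norm_num at h4; linarith
    have : (a ^ 2 / 2 - 5) * η ^ 2 ≤ 0 := mul_nonpos_of_nonpos_of_nonneg h3 (by positivity)
    linarith [sq_nonneg x]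

/-- the conclusions for one child, in normalised coordinates -/
structure ChildOK (e : E) (η : ℝ) (M : ℕ) (w : E) : Prop where
  lo : 48 / 100 ≤ ‖w‖
  hi : ‖w‖ ≤ 4 / 5
  im : ‖pp e w‖ ≤ 3 * (M * η)
  gain : 1 + (M * η) ^ 2 / 2 - 58 * M * η ^ 2 ≤ 4 * ‖w‖ ^ 2

include he in
/-- a child in the first case -/
theorem child_case1 {η : ℝ} (hη : 0 < η) (hη1 : η ≤ 1 / 100) {M : ℕ} (hM : 1 ≤ M)
    (hMη : M * η ≤ 78 / 100) {w f : E} (hef : ‖w - f‖ ≤ η / 15)
    (hre : |(inner ℝ (w - f) e : ℝ)| ≤ η ^ 2 / 8)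
    (him : ‖pp e (w - f)‖ ≤ η / 16) (hf1 : 49 / 100 ≤ ‖f‖) (hf2 : ‖f‖ ≤ 76 / 100)
    (hfr : |(inner ℝ f e : ℝ) - 1 / 2| ≤ 38 / 5 * M * η ^ 2) (hfi : ‖pp e f‖ ≤ (M + 1) * η)
    (hfi2 : (M - 2) * η ≤ ‖pp e f‖) : ChildOK e η M w := by
  have hM' : (1 : ℝ) ≤ M := by exact_mod_cast hM
  have n1 : ‖f‖ ≤ ‖w‖ + ‖w - f‖ := by
    calc ‖f‖ = ‖w - (w - f)‖ := by congr 1; abel
      _ ≤ _ := norm_sub_le _ _
  have n2 : ‖w‖ ≤ ‖f‖ + ‖w - f‖ := by
    calc ‖w‖ = ‖f + (w - f)‖ := by congr 1; abel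
      _ ≤ _ := norm_add_le _ _
  have r1 : (inner ℝ w e : ℝ) = inner ℝ f e + inner ℝ (w - f) e := by rw [inner_sub_left]; ring
  have r2 : pp e w = pp e f + pp e (w - f) := by rw [pp_sub]; abel
  have i1 : ‖pp e w‖ ≤ ‖pp e f‖ + ‖pp e (w - f)‖ := by rw [r2]; exact norm_add_le _ _
  have i2 : ‖pp e f‖ ≤ ‖pp e w‖ + ‖pp e (w - f)‖ := by
    have : pp e f = pp e w - pp e (w - f) := by rw [r2]; abel
    rw [this]; exact norm_sub_le _ _
  have hMη0 : η ≤ M * η := by nlinarith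
  refine ⟨by linarith, by linarith, by nlinarith, ?_⟩
  have hMη2 : (M : ℝ) * η ^ 2 ≤ 78 / 100 * (1 / 100) := by
    calc (M : ℝ) * η ^ 2 = (M * η) * η := by ring
      _ ≤ 78 / 100 * (1 / 100) := by gcongr
  have hη2 : η ^ 2 ≤ M * η ^ 2 := by nlinarith [sq_nonneg η]
  have s1 : 1 / 4 - 39 / 5 * M * η ^ 2 ≤ (inner ℝ w e : ℝ) ^ 2 := by
    apply sq_low (by positivity) (by linarith)
    rw [abs_le] at hfr hre
    rw [r1]
    linarith [hfr.1, hre.1]
  have s2 := sq_low2 (x := ‖pp e w‖) (a := M) hη (by linarith) (norm_nonneg _) (by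
    have : (M - 33 / 16 : ℝ) * η = (M - 2) * η - η / 16 := by ring
    rw [this]; linarith)
  rw [norm_sq_pp he]
  have e1 : (M * η) ^ 2 = M ^ 2 * η ^ 2 := by ring
  have e2 : ((M : ℝ) ^ 2 / 2 - 5) * η ^ 2 = M ^ 2 * η ^ 2 / 2 - 5 * η ^ 2 := by ring
  rw [e1]
  rw [e2] at s2
  have h3 : 0 ≤ (M : ℝ) ^ 2 * η ^ 2 := by positivity
  have h4 : 0 ≤ η ^ 2 := by positivity
  linarith

include he in
/-- a child in the second case -/
theorem child_case2 {η : ℝ} (hη : 0 < η) (hη1 : η ≤ 1 / 100) {M : ℕ} (hM1 : 1 ≤ M * η)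
    (hM2 : M * η ≤ 1 + η) {w f : E} (hef : ‖w - f‖ ≤ η / 15)
    (hf1 : 749 / 1000 ≤ ‖f‖) (hf2 : ‖f‖ ≤ 76 / 100) : ChildOK e η M w := by
  have n1 : ‖f‖ ≤ ‖w‖ + ‖w - f‖ := by
    calc ‖f‖ = ‖w - (w - f)‖ := by congr 1; abel
      _ ≤ _ := norm_sub_le _ _
  have n2 : ‖w‖ ≤ ‖f‖ + ‖w - f‖ := by
    calc ‖w‖ = ‖f + (w - f)‖ := by congr 1; abel
      _ ≤ _ := norm_add_le _ _
  have i1 := norm_pp_le he w
  refine ⟨by linarith, by linarith, by linarith, ?_⟩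
  have h1 : (M * η) ^ 2 ≤ (101 / 100) ^ 2 := by gcongr; linarith
  have h2 : (748 / 1000 : ℝ) ^ 2 ≤ ‖w‖ ^ 2 := by gcongr; linarith
  have h3 : 0 ≤ 58 * (M : ℝ) * η ^ 2 := by positivity
  norm_num at h1 h2
  linarith

end perp

theorem round_mem {y a : ℝ} (ha : 0 < a) {N : ℕ} (hy : |y| ≤ a * (N - 1)) :
    round (y / a) ∈ Finset.Icc (-(N : ℤ)) N ∧ |y - a * round (y / a)| ≤ a / 2 := by
  have h1 : |y / a - round (y / a)| ≤ 1 / 2 := abs_sub_round _
  constructor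
  · have h2 : |y / a| ≤ N - 1 := by
      rw [abs_div, abs_of_pos ha, div_le_iff₀ ha]; linarith
    rw [abs_le] at h1 h2
    rw [Finset.mem_Icc]
    constructor
    · have : (-(N : ℝ)) ≤ (round (y / a) : ℝ) := by linarith [h1.2, h2.1]
      exact_mod_cast this
    · have : ((round (y / a) : ℤ) : ℝ) ≤ N := by linarith [h1.1, h2.2]
      exact_mod_cast this
  · have e : y - a * round (y / a) = a * (y / a - round (y / a)) := by field_simp
    rw [e, abs_mul, abs_of_pos ha]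
    calc a * |y / a - round (y / a)| ≤ a * (1 / 2) := by gcongr
      _ = a / 2 := by ring

section grid

variable {d : ℕ}

/-- the first direction -/
noncomputable def e₀ (i₀ : Fin d) : EuclideanSpace ℝ (Fin d) := EuclideanSpace.single i₀ 1

theorem norm_e₀ (i₀ : Fin d) : ‖e₀ i₀‖ = 1 := by unfold e₀; simp

theorem inner_e₀ (i₀ : Fin d) (z : EuclideanSpace ℝ (Fin d)) : inner ℝ z (e₀ i₀) = z i₀ := by
  unfold e₀
  rw [EuclideanSpace.inner_single_right]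
  simp

/-- boxes of indices -/
noncomputable def Bx (d N : ℕ) : Finset (Fin d → ℤ) := Fintype.piFinset fun _ => Finset.Icc (-(N : ℤ)) N

theorem card_Bx (d N : ℕ) : (Bx d N).card = (2 * N + 1) ^ d := by
  unfold Bx
  rw [Fintype.card_piFinset]
  simp
  congr 1
  omega

/-- grid points (normalised) -/
noncomputable def gq (i₀ : Fin d) (η : ℝ) (M : ℕ) (z₀ : EuclideanSpace ℝ (Fin d)) (n : Fin d → ℤ) :
    EuclideanSpace ℝ (Fin d) :=
  z₀ + WithLp.toLp 2 (fun i => if i = i₀ then η ^ 2 / 8 * (n i : ℝ) else η / (16 * d * M) * (n i : ℝ))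

theorem norm_le_sum (z : EuclideanSpace ℝ (Fin d)) : ‖z‖ ≤ ∑ i, |z i| := by
  have : z = ∑ i, EuclideanSpace.single i (z i) := by
    ext j
    simp [Finset.sum_apply, Finset.sum_ite_eq']
  calc ‖z‖ = ‖∑ i, EuclideanSpace.single i (z i)‖ := by rw [← this]
    _ ≤ ∑ i, ‖EuclideanSpace.single i (z i)‖ := norm_sum_le _ _
    _ = _ := by simp

theorem exists_gq (i₀ : Fin d) {η : ℝ} (hη : 0 < η) {M : ℕ} (hM : 1 ≤ M) {z₀ w : EuclideanSpace ℝ (Fin d)}
    (h1 : |(inner ℝ (w - z₀) (e₀ i₀) : ℝ)| ≤ 8 * (M * η) ^ 2) (h2 : ‖pp (e₀ i₀) (w - z₀)‖ ≤ 4 * (M * η)) :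
    ∃ n ∈ Bx d (65 * d * M ^ 2), Cl (e₀ i₀) η M (w - gq i₀ η M z₀ n) := by
  have hd : 0 < d := Fin.pos i₀
  have hd1 : (1 : ℝ) ≤ d := by exact_mod_cast hd
  have hM' : (1 : ℝ) ≤ M := by exact_mod_cast hM
  have hM0 : (0 : ℝ) < M := by linarith
  have hdM : (1 : ℝ) ≤ d * M ^ 2 := by
    have : (1 : ℝ) ≤ M ^ 2 := one_le_pow₀ hM'
    nlinarith
  have hN : (64 : ℝ) * (d * M ^ 2) ≤ ((65 * d * M ^ 2 : ℕ) : ℝ) - 1 := by
    push_cast
    linarith
  obtain ⟨q, hq⟩ : ∃ q, q = w - z₀ := ⟨_, rfl⟩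
  rw [← hq] at h1 h2
  have hpp : ∀ i, i ≠ i₀ → pp (e₀ i₀) q i = q i := by
    intro i hi
    simp [pp, e₀, hi]
  have hcoord : ∀ i, i ≠ i₀ → |q i| ≤ 4 * (M * η) := by
    intro i hi
    rw [← hpp i hi]
    refine le_trans ?_ h2
    rw [← Real.norm_eq_abs]
    exact PiLp.norm_apply_le _ i
  rw [inner_e₀] at h1
  let stp : Fin d → ℝ := fun i => if i = i₀ then η ^ 2 / 8 else η / (16 * d * M)
  have hround : ∀ i, round (q i / stp i) ∈ Finset.Icc (-((65 * d * M ^ 2 : ℕ) : ℤ)) ((65 * d * M ^ 2 : ℕ) : ℤ) ∧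
      |q i - stp i * round (q i / stp i)| ≤ stp i / 2 := by
    intro i
    by_cases hi : i = i₀
    · have e : stp i = η ^ 2 / 8 := if_pos hi
      apply round_mem (by rw [e]; positivity)
      rw [e, hi]
      calc |q i₀| ≤ 8 * (M * η) ^ 2 := h1
        _ = η ^ 2 / 8 * (64 * (1 * M ^ 2)) := by ring
        _ ≤ η ^ 2 / 8 * (64 * (d * M ^ 2)) := by gcongr
        _ ≤ _ := by gcongr
    · have e : stp i = η / (16 * d * M) := if_neg hi
      apply round_mem (by rw [e]; positivity)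
      rw [e]
      calc |q i| ≤ 4 * (M * η) := hcoord i hi
        _ = η / (16 * d * M) * (64 * (d * M ^ 2)) := by field_simp; ring
        _ ≤ _ := by gcongr
  refine ⟨fun i => round (q i / stp i), ?_, ?_⟩
  · unfold Bx
    rw [Fintype.mem_piFinset]
    intro i
    exact (hround i).1
  · have e0 : w - gq i₀ η M z₀ (fun i => round (q i / stp i)) =
        q - WithLp.toLp 2 (fun i => stp i * (round (q i / stp i) : ℝ)) := by
      unfold gq
      rw [hq, ← sub_sub]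
      congr 2
      funext i
      simp only [stp]
      split_ifs <;> rfl
    rw [e0]
    constructor
    · rw [inner_e₀]
      have := (hround i₀).2
      have e : stp i₀ = η ^ 2 / 8 := if_pos rfl
      simp only [PiLp.sub_apply]
      refine this.trans (le_of_eq ?_)
      rw [e]; ring
    · obtain ⟨p, hp⟩ : ∃ p, p = q - WithLp.toLp 2 (fun i => stp i * (round (q i / stp i) : ℝ)) := ⟨_, rfl⟩
      rw [← hp]
      have hb : ∀ i, |pp (e₀ i₀) p i| ≤ η / (32 * d * M) := by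
        intro i
        by_cases hi : i = i₀
        · rw [hi]
          have : pp (e₀ i₀) p i₀ = 0 := by
            unfold pp
            rw [inner_e₀]
            simp [e₀]
          rw [this, abs_zero]
          positivity
        · have e1 : pp (e₀ i₀) p i = p i := by simp [pp, e₀, hi]
          have e : stp i = η / (16 * d * M) := if_neg hi
          rw [e1, hp]
          refine (hround i).2.trans (le_of_eq ?_)
          rw [e]; field_simp; ring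
      calc ‖pp (e₀ i₀) p‖ ≤ ∑ i, |pp (e₀ i₀) p i| := norm_le_sum _
        _ ≤ ∑ _i : Fin d, η / (32 * d * M) := Finset.sum_le_sum fun i _ => hb i
        _ = η / (32 * M) := by
            rw [Finset.sum_const, Finset.card_univ, Fintype.card_fin, nsmul_eq_mul]
            field_simp

end grid

end Pool.Agent.H964.W
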