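import Pool.Agent.H964.WN.Geo

/-!
# Geometry of paths: existence of the children
-/

set_option autoImplicit false

namespace Pool.Agent.H964.W

variable {d : ℕ}

/-- the conclusions in normalised coordinates -/
structure NormOK (i₀ : Fin d) (y : ℕ → EuclideanSpace ℝ (Fin d)) (η : ℝ) (M : ℕ) (i j k₁ k₂ : ℕ)
    (a₁ a₂ a₃ a₄ : EuclideanSpace ℝ (Fin d)) : Prop where
  h1 : i < k₁
  h2 : k₁ ≤ k₂
  h3 : k₂ < j
  c1 : Cl (e₀ i₀) η M (y i - a₁)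
  c2 : Cl (e₀ i₀) η M (y k₁ - a₂)
  c3 : Cl (e₀ i₀) η M (y k₂ - a₃)
  c4 : Cl (e₀ i₀) η M (y j - a₄)
  e1 : ChildOK (e₀ i₀) η M (a₂ - a₁)
  e2 : ChildOK (e₀ i₀) η M (a₄ - a₃)
  d1 : ‖a₁‖ ≤ 2 * (M * η)
  d2 : ‖a₂ - (1 / 2 : ℝ) • e₀ i₀‖ ≤ 2 * (M * η)
  d3 : ‖a₃ - (1 / 2 : ℝ) • e₀ i₀‖ ≤ 2 * (M * η)
  d4 : ‖a₄ - e₀ i₀‖ ≤ 2 * (M * η)
  b1 : ‖a₁‖ ≤ 1
  b3 : ‖a₃‖ ≤ 2

/-- the bisector: real computation -/
theorem bisector {α α' w₁ S A B η M : ℝ} (hη : 0 < η) (hη1 : η ≤ 1 / 100) (hM : 1 ≤ M)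
    (hα : |α| ≤ η ^ 2) (hα' : |α' - 1| ≤ η ^ 2)
    (h3 : A ^ 2 - B ^ 2 = (α' - α) * (2 * w₁ - α - α') + S)
    (h4 : |S| ≤ 2 * η * (2 * (M * η) + 2 * η)) (hAB : B ≤ A) (hAB2 : A ≤ B + 2 * η ^ 2)
    (hB0 : 0 ≤ B) (hA1 : A ≤ 76 / 100) : |w₁ - 1 / 2| ≤ 33 / 5 * (M * η ^ 2) := by
  have hη20 : 0 < η ^ 2 := by positivity
  have h1 : 0 ≤ A ^ 2 - B ^ 2 := by
    have : B ^ 2 ≤ A ^ 2 := by gcongr
    linarith
  have h2 : A ^ 2 - B ^ 2 ≤ 304 / 100 * η ^ 2 := by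
    have e : A ^ 2 - B ^ 2 = (A - B) * (A + B) := by ring
    rw [e]
    calc (A - B) * (A + B) ≤ (2 * η ^ 2) * (152 / 100) := by
          apply mul_le_mul (by linarith) (by linarith) (by linarith) (by positivity)
      _ = _ := by ring
  have hη2 : η ^ 2 ≤ M * η ^ 2 := by nlinarith
  obtain ⟨X, hX⟩ : ∃ X, X = M * η ^ 2 := ⟨_, rfl⟩
  have e7 : 2 * η * (2 * (M * η) + 2 * η) = 4 * X + 4 * η ^ 2 := by rw [hX]; ring
  rw [e7] at h4
  rw [← hX] at hη2 ⊢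
  have h5 : |(α' - α) * (2 * w₁ - α - α')| ≤ 1104 / 100 * X := by
    have e : (α' - α) * (2 * w₁ - α - α') = (A ^ 2 - B ^ 2) - S := by
      rw [h3]; ring
    rw [e]
    have h6 : |A ^ 2 - B ^ 2| ≤ 304 / 100 * η ^ 2 := by rw [abs_of_nonneg h1]; exact h2
    refine (abs_sub _ _).trans ?_
    linarith
  have hα2 : η ^ 2 ≤ 1 / 10000 := by
    calc η ^ 2 ≤ (1 / 100) ^ 2 := by gcongr
      _ = _ := by norm_num
  have h8 : 9998 / 10000 ≤ α' - α := by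
    rw [abs_le] at hα hα'
    linarith [hα.2, hα'.1]
  have hXX : |2 * w₁ - α - α'| ≤ 111 / 10 * X := by
    rw [abs_mul, abs_of_pos (by linarith : 0 < α' - α)] at h5
    have h9 : 9998 / 10000 * |2 * w₁ - α - α'| ≤ (α' - α) * |2 * w₁ - α - α'| := by
      apply mul_le_mul_of_nonneg_right h8 (abs_nonneg _)
    have : 0 ≤ X := by linarith
    linarith
  rw [abs_le] at hα hα' hXX ⊢
  constructor <;> linarith [hα.1, hα.2, hα'.1, hα'.2, hXX.1, hXX.2]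

theorem class_exists {η b : ℝ} (hη : 0 < η) (hb : 0 ≤ b) {Mx : ℕ} (hMx : 1 ≤ Mx * η) (hb1 : b ≤ 1) :
    ∃ M : ℕ, 1 ≤ M ∧ M ≤ Mx ∧ b ≤ M * η ∧ (M - 1) * η ≤ b := by
  have hMx0 : 1 ≤ Mx := by
    by_contra hc
    have : Mx = 0 := by omega
    rw [this] at hMx
    norm_num at hMx
  refine ⟨max 1 ⌈b / η⌉₊, le_max_left _ _, ?_, ?_, ?_⟩
  · apply max_le hMx0
    rw [Nat.ceil_le, div_le_iff₀ hη]
    linarith
  · have h1 := Nat.le_ceil (b / η)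
    rw [div_le_iff₀ hη] at h1
    refine h1.trans ?_
    push_cast
    gcongr
    exact le_max_right _ _
  · rcases le_or_gt ⌈b / η⌉₊ 1 with h | h
    · rw [max_eq_left h]
      simpa using hb
    · rw [max_eq_right h.le]
      have h1 := Nat.ceil_lt_add_one (show 0 ≤ b / η by positivity)
      have h2 : (⌈b / η⌉₊ : ℝ) - 1 ≤ b / η := by linarith
      rwa [le_div_iff₀ hη] at h2

theorem children_norm (i₀ : Fin d) {y : ℕ → EuclideanSpace ℝ (Fin d)} {η : ℝ} (hη : 0 < η)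
    (hη1 : η ≤ 1 / 100) {i j : ℕ} (hij : i < j)
    (hstep : ∀ k, i ≤ k → k < j → ‖y (k + 1) - y k‖ ≤ η ^ 2)
    (hi : |(inner ℝ (y i) (e₀ i₀) : ℝ)| ≤ η ^ 2 ∧ ‖y i‖ ≤ η)
    (hj : |(inner ℝ (y j - e₀ i₀) (e₀ i₀) : ℝ)| ≤ η ^ 2 ∧ ‖y j - e₀ i₀‖ ≤ η)
    {Mx : ℕ} (hMx : 1 ≤ Mx * η) (hMx2 : Mx * η ≤ 1 + η) :
    ∃ M : ℕ, 1 ≤ M ∧ M ≤ Mx ∧ ∃ n₁ ∈ Bx d (65 * d * M ^ 2), ∃ n₂ ∈ Bx d (65 * d * M ^ 2),
      ∃ n₃ ∈ Bx d (65 * d * M ^ 2), ∃ n₄ ∈ Bx d (65 * d * M ^ 2), ∃ k₁ k₂,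
      NormOK i₀ y η M i j k₁ k₂ (gq i₀ η M 0 n₁) (gq i₀ η M ((1 / 2 : ℝ) • e₀ i₀) n₂)
        (gq i₀ η M ((1 / 2 : ℝ) • e₀ i₀) n₃) (gq i₀ η M (e₀ i₀) n₄) := by
  have he := norm_e₀ i₀
  obtain ⟨e, hee⟩ : ∃ e, e = e₀ i₀ := ⟨_, rfl⟩
  rw [← hee] at hi hj he ⊢
  have hei := inner_self_one he
  have hpe : pp e e = 0 := by
    have := pp_self he 1
    rwa [one_smul] at this
  have hη2 : η ^ 2 ≤ 1 / 100 * η := by nlinarith
  have hη3 : η ^ 2 ≤ 1 / 10000 := by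
    calc η ^ 2 ≤ (1 / 100) ^ 2 := by gcongr
      _ = _ := by norm_num
  have hη20 : 0 < η ^ 2 := by positivity
  have ni := hi.2
  have nj := hj.2
  have hip : ‖pp e (y i)‖ ≤ η := (norm_pp_le he _).trans ni
  have hjp : ‖pp e (y j)‖ ≤ η := by
    have h1 := (norm_pp_le he (y j - e)).trans nj
    rwa [pp_sub, hpe, sub_zero] at h1
  have hj1 : |(inner ℝ (y j) e : ℝ) - 1| ≤ η ^ 2 := by
    have := hj.1
    rwa [inner_sub_left, hei] at this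
  set ρ := ‖y i - y j‖ with hρ
  have hρ1 : 999 / 1000 ≤ ρ := by
    have h1 := abs_inner_le he (y i - y j)
    rw [← hρ, inner_sub_left] at h1
    have h2 : 999 / 1000 ≤ |(inner ℝ (y i) e : ℝ) - inner ℝ (y j) e| := by
      have a := (abs_le.1 hi.1)
      have b := (abs_le.1 hj1)
      rw [abs_sub_comm]
      refine le_trans ?_ (le_abs_self _)
      linarith [a.2, b.1]
    linarith
  have hρ2 : ρ ≤ 1001 / 1000 := by
    have h1 : ρ ^ 2 ≤ (1001 / 1000) ^ 2 := by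
      rw [hρ, norm_sq_pp he, inner_sub_left, pp_sub]
      have a := (abs_le.1 hi.1)
      have b := (abs_le.1 hj1)
      have h2 : ((inner ℝ (y i) e : ℝ) - inner ℝ (y j) e) ^ 2 ≤ (10002 / 10000) ^ 2 := by
        apply sq_le_sq'
        · linarith [a.1, b.2]
        · linarith [a.2, b.1]
      have h3 : ‖pp e (y i) - pp e (y j)‖ ^ 2 ≤ (2 * η) ^ 2 := by
        have : ‖pp e (y i) - pp e (y j)‖ ≤ 2 * η := (norm_sub_le _ _).trans (by linarith)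
        gcongr
      have h4 : (2 * η) ^ 2 = 4 * η ^ 2 := by ring
      rw [h4] at h3
      norm_num at h2 ⊢
      linarith
    exact le_of_sq_le_sq h1 (by norm_num)
  -- the approximations
  have diff : ∀ {M : ℕ}, 1 ≤ M → ∀ p q a b : EuclideanSpace ℝ (Fin d), Cl e η M (p - a) → Cl e η M (q - b) →
      ‖(b - a) - (q - p)‖ ≤ η / 15 ∧ |(inner ℝ ((b - a) - (q - p)) e : ℝ)| ≤ η ^ 2 / 8 ∧
      ‖pp e ((b - a) - (q - p))‖ ≤ η / 16 := by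
    intro M hM p q a b h1 h2
    have e1 : (b - a) - (q - p) = (p - a) - (q - b) := by abel
    have n1 := h1.norm_le he hη hη1 hM
    have n2 := h2.norm_le he hη hη1 hM
    rw [e1]
    refine ⟨(norm_sub_le _ _).trans (by linarith [n1.1, n2.1]), ?_, ?_⟩
    · rw [inner_sub_left]
      exact (abs_sub _ _).trans (by linarith [h1.1, h2.1])
    · rw [pp_sub]
      exact (norm_sub_le _ _).trans (by linarith [n1.2, n2.2])
  have hhalf : ‖(1 / 2 : ℝ) • e‖ = 1 / 2 := by rw [norm_smul, he]; norm_num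
  rcases core2 hη20 hij hstep (by rw [← hρ]; linarith) with
    ⟨k, g1, g2, g3, g4, g5⟩ | ⟨k₁, k₂, g1, g2, g3, g4, g5, g6, g7⟩
  · -- first case
    rw [← hρ] at g5
    obtain ⟨A, hA⟩ : ∃ A, A = ‖y k - y i‖ := ⟨_, rfl⟩
    obtain ⟨B, hB⟩ : ∃ B, B = ‖y k - y j‖ := ⟨_, rfl⟩
    rw [← hA, ← hB] at g3 g4
    rw [← hA] at g5
    have hB0 : 0 ≤ B := by rw [hB]; exact norm_nonneg _
    have hsum : ρ ≤ A + B := by
      calc ρ = ‖(y k - y j) - (y k - y i)‖ := by rw [hρ]; congr 1; abel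
        _ ≤ B + A := by rw [hA, hB]; exact norm_sub_le _ _
        _ = _ := by ring
    have hki : ‖pp e (y k)‖ ≤ ‖pp e (y k) - pp e (y i)‖ + ‖pp e (y i)‖ := by
      calc ‖pp e (y k)‖ = ‖(pp e (y k) - pp e (y i)) + pp e (y i)‖ := by congr 1; abel
        _ ≤ _ := norm_add_le _ _
    have hkj : ‖pp e (y k)‖ ≤ ‖pp e (y j) - pp e (y k)‖ + ‖pp e (y j)‖ := by
      calc ‖pp e (y k)‖ = ‖pp e (y j) - (pp e (y j) - pp e (y k))‖ := by congr 1; abel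
        _ ≤ ‖pp e (y j)‖ + ‖pp e (y j) - pp e (y k)‖ := norm_sub_le _ _
        _ = _ := by ring
    have hw2 : ‖pp e (y k)‖ ≤ 77 / 100 := by
      have h1 : ‖pp e (y k - y i)‖ ≤ A := by rw [hA]; exact norm_pp_le he _
      rw [pp_sub] at h1
      linarith
    obtain ⟨M, hM1, hM2, hM3, hM4⟩ := class_exists (b := ‖pp e (y k)‖) hη (norm_nonneg _) hMx (by linarith)
    have hM' : (1 : ℝ) ≤ M := by exact_mod_cast hM1
    have hMη : M * η ≤ 78 / 100 := by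
      have : (M : ℝ) * η = (M - 1) * η + η := by ring
      linarith
    have hMη0 : η ≤ M * η := by nlinarith
    have hMη2 : η ^ 2 ≤ M * η ^ 2 := by nlinarith
    have hX : M * η ^ 2 ≤ 1 / 100 * (M * η) := by nlinarith
    have hbis := bisector (α := inner ℝ (y i) e) (α' := inner ℝ (y j) e)
      (w₁ := inner ℝ (y k) e)
      (S := inner ℝ (pp e (y j) - pp e (y i)) ((2 : ℝ) • pp e (y k) - pp e (y i) - pp e (y j)))
      (A := A) (B := B) (M := M) hη hη1 hM' hi.1 hj1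
      (by
        rw [hA, hB, norm_sq_pp he, norm_sq_pp he (y k - y j), inner_sub_left, inner_sub_left, pp_sub, pp_sub,
          norm_sub_sq_real, norm_sub_sq_real]
        simp only [inner_sub_left, inner_sub_right, real_inner_smul_right, real_inner_self_eq_norm_sq]
        rw [real_inner_comm (pp e (y k)) (pp e (y i)), real_inner_comm (pp e (y k)) (pp e (y j)),
          real_inner_comm (pp e (y j)) (pp e (y i))]
        ring)
      (by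
        refine (abs_real_inner_le_norm _ _).trans ?_
        have a1 : ‖pp e (y j) - pp e (y i)‖ ≤ 2 * η := (norm_sub_le _ _).trans (by linarith)
        have a2 : ‖(2 : ℝ) • pp e (y k) - pp e (y i) - pp e (y j)‖ ≤ 2 * (M * η) + 2 * η := by
          refine (norm_sub_le _ _).trans ?_
          have a3 : ‖(2 : ℝ) • pp e (y k) - pp e (y i)‖ ≤ 2 * ‖pp e (y k)‖ + ‖pp e (y i)‖ := by
            refine (norm_sub_le _ _).trans ?_
            rw [norm_smul]; norm_num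
          linarith
        gcongr) g3 g4 hB0 (by linarith)
    have hsqM : M * η ^ 2 ≤ (M * η) ^ 2 := by
      calc (M : ℝ) * η ^ 2 = 1 * (M * η ^ 2) := by ring
        _ ≤ M * (M * η ^ 2) := by gcongr
        _ = _ := by ring
    obtain ⟨n₁, m1, c1⟩ := exists_gq i₀ hη hM1 (z₀ := 0) (w := y i)
      (by rw [sub_zero, ← hee]; linarith [hi.1]) (by rw [sub_zero, ← hee]; linarith)
    obtain ⟨n₂, m2, c2⟩ := exists_gq i₀ hη hM1 (z₀ := (1 / 2 : ℝ) • e) (w := y k)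
      (by rw [← hee, inner_sub_smul he]; linarith) (by rw [← hee, pp_sub_smul he]; linarith)
    obtain ⟨n₄, m4, c4⟩ := exists_gq i₀ hη hM1 (z₀ := e) (w := y j)
      (by rw [← hee]; linarith [hj.1])
      (by rw [← hee, pp_sub, hpe, sub_zero]; linarith)
    rw [← hee] at c1 c2 c4
    have d12 := diff hM1 (y i) (y k) _ _ c1 c2
    have d34 := diff hM1 (y k) (y j) _ _ c2 c4
    have q1 := (c1.norm_le he hη hη1 hM1).1
    have q2 := (c2.norm_le he hη hη1 hM1).1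
    have q4 := (c4.norm_le he hη hη1 hM1).1
    have hk2 : ‖y k - (1 / 2 : ℝ) • e‖ ≤ 108 / 100 * (M * η) := by
      refine (norm_le_pp he _).trans ?_
      rw [inner_sub_smul he, pp_sub_smul he]
      linarith
    refine ⟨M, hM1, hM2, n₁, m1, n₂, m2, n₂, m2, n₄, m4, k, k, g1, le_rfl, g2, ?_, ?_, ?_, ?_, ?_,
      ?_, ?_, ?_, ?_, ?_, ?_, ?_⟩
    · rw [← hee]; exact c1
    · rw [← hee]; exact c2
    · rw [← hee]; exact c2
    · rw [← hee]; exact c4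
    · rw [← hee]
      apply child_case1 he hη hη1 hM1 hMη d12.1 d12.2.1 d12.2.2
      · rw [← hA]; linarith
      · rw [← hA]; linarith
      · rw [inner_sub_left]
        have e1 : (inner ℝ (y k) e : ℝ) - inner ℝ (y i) e - 1 / 2 = (inner ℝ (y k) e - 1 / 2) - inner ℝ (y i) e := by ring
        rw [e1]
        refine (abs_sub _ _).trans ?_
        linarith [hi.1]
      · rw [pp_sub]
        refine (norm_sub_le _ _).trans ?_
        linarith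
      · rw [pp_sub]
        linarith
    · rw [← hee]
      apply child_case1 he hη hη1 hM1 hMη d34.1 d34.2.1 d34.2.2
      · rw [norm_sub_rev, ← hB]; linarith
      · rw [norm_sub_rev, ← hB]; linarith
      · rw [inner_sub_left]
        have e1 : (inner ℝ (y j) e : ℝ) - inner ℝ (y k) e - 1 / 2 = (inner ℝ (y j) e - 1) - (inner ℝ (y k) e - 1 / 2) := by ring
        rw [e1]
        refine (abs_sub _ _).trans ?_
        linarith
      · rw [pp_sub]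
        refine (norm_sub_le _ _).trans ?_
        linarith
      · rw [pp_sub]
        linarith
    · calc ‖gq i₀ η M 0 n₁‖ = ‖y i - (y i - gq i₀ η M 0 n₁)‖ := by congr 1; abel
        _ ≤ ‖y i‖ + ‖y i - gq i₀ η M 0 n₁‖ := norm_sub_le _ _
        _ ≤ _ := by linarith
    · rw [← hee]
      calc ‖gq i₀ η M ((1 / 2 : ℝ) • e) n₂ - (1 / 2 : ℝ) • e‖ =
          ‖(y k - (1 / 2 : ℝ) • e) - (y k - gq i₀ η M ((1 / 2 : ℝ) • e) n₂)‖ := by congr 1; abel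
        _ ≤ ‖y k - (1 / 2 : ℝ) • e‖ + ‖y k - gq i₀ η M ((1 / 2 : ℝ) • e) n₂‖ := norm_sub_le _ _
        _ ≤ _ := by linarith
    · rw [← hee]
      calc ‖gq i₀ η M ((1 / 2 : ℝ) • e) n₂ - (1 / 2 : ℝ) • e‖ =
          ‖(y k - (1 / 2 : ℝ) • e) - (y k - gq i₀ η M ((1 / 2 : ℝ) • e) n₂)‖ := by congr 1; abel
        _ ≤ ‖y k - (1 / 2 : ℝ) • e‖ + ‖y k - gq i₀ η M ((1 / 2 : ℝ) • e) n₂‖ := norm_sub_le _ _
        _ ≤ _ := by linarith
    · rw [← hee]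
      calc ‖gq i₀ η M e n₄ - e‖ = ‖(y j - e) - (y j - gq i₀ η M e n₄)‖ := by congr 1; abel
        _ ≤ ‖y j - e‖ + ‖y j - gq i₀ η M e n₄‖ := norm_sub_le _ _
        _ ≤ _ := by linarith
    · calc ‖gq i₀ η M 0 n₁‖ = ‖y i - (y i - gq i₀ η M 0 n₁)‖ := by congr 1; abel
        _ ≤ ‖y i‖ + ‖y i - gq i₀ η M 0 n₁‖ := norm_sub_le _ _
        _ ≤ _ := by linarith
    · calc ‖gq i₀ η M ((1 / 2 : ℝ) • e) n₂‖ =
          ‖(y k - (1 / 2 : ℝ) • e) - (y k - gq i₀ η M ((1 / 2 : ℝ) • e) n₂) + (1 / 2 : ℝ) • e‖ := by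
            congr 1; abel
        _ ≤ ‖(y k - (1 / 2 : ℝ) • e) - (y k - gq i₀ η M ((1 / 2 : ℝ) • e) n₂)‖ + ‖(1 / 2 : ℝ) • e‖ :=
            norm_add_le _ _
        _ ≤ ‖y k - (1 / 2 : ℝ) • e‖ + ‖y k - gq i₀ η M ((1 / 2 : ℝ) • e) n₂‖ + ‖(1 / 2 : ℝ) • e‖ := by
            gcongr; exact norm_sub_le _ _
        _ ≤ _ := by rw [hhalf]; linarith
  · -- second case
    rw [← hρ] at g4 g5 g6 g7
    have hMx0 : 1 ≤ Mx := by
      by_contra hc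
      have : Mx = 0 := by omega
      rw [this] at hMx
      norm_num at hMx
    have hsq : 1 ≤ (Mx * η) ^ 2 := one_le_pow₀ hMx
    have f1 : ‖y k₁ - y i‖ = ‖y i - y k₁‖ := norm_sub_rev _ _
    have hk1 : ‖y k₁ - (1 / 2 : ℝ) • e‖ ≤ 128 / 100 := by
      calc ‖y k₁ - (1 / 2 : ℝ) • e‖ = ‖(y k₁ - y i) + y i - (1 / 2 : ℝ) • e‖ := by congr 1; abel
        _ ≤ ‖(y k₁ - y i) + y i‖ + ‖(1 / 2 : ℝ) • e‖ := norm_sub_le _ _
        _ ≤ ‖y k₁ - y i‖ + ‖y i‖ + ‖(1 / 2 : ℝ) • e‖ := by gcongr; exact norm_add_le _ _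
        _ ≤ _ := by rw [hhalf, f1]; linarith
    have hk2 : ‖y k₂ - (1 / 2 : ℝ) • e‖ ≤ 128 / 100 := by
      calc ‖y k₂ - (1 / 2 : ℝ) • e‖ = ‖(y k₂ - y j) + (y j - e) + (1 / 2 : ℝ) • e‖ := by congr 1; module
        _ ≤ ‖(y k₂ - y j) + (y j - e)‖ + ‖(1 / 2 : ℝ) • e‖ := norm_add_le _ _
        _ ≤ ‖y k₂ - y j‖ + ‖y j - e‖ + ‖(1 / 2 : ℝ) • e‖ := by gcongr; exact norm_add_le _ _
        _ ≤ _ := by rw [hhalf]; linarith
    obtain ⟨n₁, m1, c1⟩ := exists_gq i₀ hη hMx0 (z₀ := 0) (w := y i)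
      (by rw [sub_zero, ← hee]; linarith [hi.1]) (by rw [sub_zero, ← hee]; linarith)
    obtain ⟨n₂, m2, c2⟩ := exists_gq i₀ hη hMx0 (z₀ := (1 / 2 : ℝ) • e) (w := y k₁)
      (by rw [← hee]; exact (abs_inner_le he _).trans (by linarith))
      (by rw [← hee]; exact (norm_pp_le he _).trans (by linarith))
    obtain ⟨n₃, m3, c3⟩ := exists_gq i₀ hη hMx0 (z₀ := (1 / 2 : ℝ) • e) (w := y k₂)
      (by rw [← hee]; exact (abs_inner_le he _).trans (by linarith))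
      (by rw [← hee]; exact (norm_pp_le he _).trans (by linarith))
    obtain ⟨n₄, m4, c4⟩ := exists_gq i₀ hη hMx0 (z₀ := e) (w := y j)
      (by rw [← hee]; exact (abs_inner_le he _).trans (by linarith))
      (by rw [← hee]; exact (norm_pp_le he _).trans (by linarith))
    rw [← hee] at c1 c2 c3 c4
    have d12 := diff hMx0 (y i) (y k₁) _ _ c1 c2
    have d34 := diff hMx0 (y k₂) (y j) _ _ c3 c4
    have q1 := (c1.norm_le he hη hη1 hMx0).1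
    have q2 := (c2.norm_le he hη hη1 hMx0).1
    have q3 := (c3.norm_le he hη hη1 hMx0).1
    have q4 := (c4.norm_le he hη hη1 hMx0).1
    refine ⟨Mx, hMx0, le_rfl, n₁, m1, n₂, m2, n₃, m3, n₄, m4, k₁, k₂, g1, g2, g3, ?_, ?_, ?_, ?_, ?_,
      ?_, ?_, ?_, ?_, ?_, ?_, ?_⟩
    · rw [← hee]; exact c1
    · rw [← hee]; exact c2
    · rw [← hee]; exact c3
    · rw [← hee]; exact c4
    · rw [← hee]
      apply child_case2 he hη hη1 hMx hMx2 d12.1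
      · rw [f1]; linarith
      · rw [f1]; linarith
    · rw [← hee]
      apply child_case2 he hη hη1 hMx hMx2 d34.1
      · rw [norm_sub_rev]; linarith
      · rw [norm_sub_rev]; linarith
    · calc ‖gq i₀ η Mx 0 n₁‖ = ‖y i - (y i - gq i₀ η Mx 0 n₁)‖ := by congr 1; abel
        _ ≤ ‖y i‖ + ‖y i - gq i₀ η Mx 0 n₁‖ := norm_sub_le _ _
        _ ≤ _ := by linarith
    · rw [← hee]
      calc ‖gq i₀ η Mx ((1 / 2 : ℝ) • e) n₂ - (1 / 2 : ℝ) • e‖ =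
          ‖(y k₁ - (1 / 2 : ℝ) • e) - (y k₁ - gq i₀ η Mx ((1 / 2 : ℝ) • e) n₂)‖ := by congr 1; abel
        _ ≤ ‖y k₁ - (1 / 2 : ℝ) • e‖ + ‖y k₁ - gq i₀ η Mx ((1 / 2 : ℝ) • e) n₂‖ := norm_sub_le _ _
        _ ≤ _ := by linarith
    · rw [← hee]
      calc ‖gq i₀ η Mx ((1 / 2 : ℝ) • e) n₃ - (1 / 2 : ℝ) • e‖ =
          ‖(y k₂ - (1 / 2 : ℝ) • e) - (y k₂ - gq i₀ η Mx ((1 / 2 : ℝ) • e) n₃)‖ := by congr 1; abel
        _ ≤ ‖y k₂ - (1 / 2 : ℝ) • e‖ + ‖y k₂ - gq i₀ η Mx ((1 / 2 : ℝ) • e) n₃‖ := norm_sub_le _ _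
        _ ≤ _ := by linarith
    · rw [← hee]
      calc ‖gq i₀ η Mx e n₄ - e‖ = ‖(y j - e) - (y j - gq i₀ η Mx e n₄)‖ := by congr 1; abel
        _ ≤ ‖y j - e‖ + ‖y j - gq i₀ η Mx e n₄‖ := norm_sub_le _ _
        _ ≤ _ := by linarith
    · calc ‖gq i₀ η Mx 0 n₁‖ = ‖y i - (y i - gq i₀ η Mx 0 n₁)‖ := by congr 1; abel
        _ ≤ ‖y i‖ + ‖y i - gq i₀ η Mx 0 n₁‖ := norm_sub_le _ _
        _ ≤ _ := by linarith
    · calc ‖gq i₀ η Mx ((1 / 2 : ℝ) • e) n₃‖ =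
          ‖(y k₂ - (1 / 2 : ℝ) • e) - (y k₂ - gq i₀ η Mx ((1 / 2 : ℝ) • e) n₃) + (1 / 2 : ℝ) • e‖ := by
            congr 1; abel
        _ ≤ ‖(y k₂ - (1 / 2 : ℝ) • e) - (y k₂ - gq i₀ η Mx ((1 / 2 : ℝ) • e) n₃)‖ + ‖(1 / 2 : ℝ) • e‖ :=
            norm_add_le _ _
        _ ≤ ‖y k₂ - (1 / 2 : ℝ) • e‖ + ‖y k₂ - gq i₀ η Mx ((1 / 2 : ℝ) • e) n₃‖ + ‖(1 / 2 : ℝ) • e‖ := by
            gcongr; exact norm_sub_le _ _
        _ ≤ _ := by rw [hhalf]; linarith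

end Pool.Agent.H964.W
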