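import Pool.Agent.H964.WN.Fld
import Pool.Agent.H964.SP.Pot
import Pool.Agent.H964.SP.Tent

/-!
# Layers of the field and their averages over segments
-/

set_option autoImplicit false

namespace Pool.Agent.H964.W

open MeasureTheory ProbabilityTheory Real Filter Topology

/-- the covariance of one layer -/
noncomputable def gj (κ : ℝ → ℝ) (j : ℕ) (ρ : ℝ) : ℝ := Gk κ (j * log 2) (((j + 1 : ℕ) : ℝ) * log 2) ρ

section kernel

variable {κ : ℝ → ℝ} {C ρ₀ : ℝ} (hκ : Ker κ C ρ₀)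
include hκ

theorem log2_pos : 0 < log 2 := Real.log_pos (by norm_num)

omit hκ in
theorem lay_le (j : ℕ) : (j : ℝ) * log 2 ≤ ((j + 1 : ℕ) : ℝ) * log 2 := by
  have : 0 < log 2 := Real.log_pos (by norm_num)
  push_cast
  linarith

theorem gj_nonneg (j : ℕ) (ρ : ℝ) : 0 ≤ gj κ j ρ := Gk_nonneg hκ (lay_le j) ρ

theorem gj_le (j : ℕ) (ρ : ℝ) : gj κ j ρ ≤ log 2 := by
  have := Gk_le hκ (lay_le j) ρ
  unfold gj
  refine this.trans (le_of_eq ?_)
  push_cast; ring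

omit hκ in
theorem exp_lay (j : ℕ) : exp (j * log 2) = 2 ^ j := by
  rw [Real.exp_nat_mul, Real.exp_log (by norm_num)]

theorem gj_far {j : ℕ} {ρ : ℝ} (h : ρ₀ / 2 ^ j ≤ ρ) : gj κ j ρ = 0 := by
  apply Gk_far hκ (lay_le j)
  rw [exp_lay]
  rwa [div_le_iff₀ (by positivity)] at h

theorem gj_near {j : ℕ} {ρ : ℝ} (h0 : 0 ≤ ρ) (h : ρ ≤ 1 / (4 * C * 2 ^ j)) : log 2 / 2 ≤ gj κ j ρ := by
  have hC := hκ.C1
  have h1 := Gk_near hκ (lay_le j) h0 (by
    rw [exp_lay]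
    have : C * ρ * 2 ^ (j + 1) = (4 * C * 2 ^ j) * ρ / 2 := by rw [pow_succ]; ring
    rw [this]
    rw [le_div_iff₀ (by positivity)] at h
    linarith)
  refine le_trans (le_of_eq ?_) h1
  push_cast; ring

theorem gj_continuous (j : ℕ) : Continuous (gj κ j) := by
  have hC := hκ.C1
  apply (LipschitzWith.of_dist_le_mul (K := ⟨C * exp (((j + 1 : ℕ) : ℝ) * log 2), by positivity⟩) _).continuous
  intro s t
  rw [Real.dist_eq, Real.dist_eq]
  refine (Gk_lip hκ (lay_le j) s t).trans (le_of_eq ?_)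
  change _ = C * exp (((j + 1 : ℕ) : ℝ) * log 2) * |s - t|
  ring

end kernel

section layers

variable {E : Type*} [NormedAddCommGroup E] [InnerProductSpace ℝ E]
variable {Ω : Type*} [MeasurableSpace Ω] {P : Measure Ω}
variable {κ : ℝ → ℝ} {C ρ₀ : ℝ} {h : ℕ → E → Ω → ℝ}
variable (hκ : Ker κ C ρ₀) (hh : WNF P κ h)

/-- one layer of the field -/
noncomputable def TT (j : ℕ) (x : E) : Lp ℝ 2 P := HH hh (j + 1) x - HH hh j x

theorem TT_mem (j : ℕ) (x : E) : TT hh j x ∈ GG hh := Submodule.sub_mem _ (HH_mem hh _ x) (HH_mem hh _ x)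

include hκ in
theorem inner_TT {n j : ℕ} (hn : j < n) (z x : E) : inner ℝ (HH hh n z) (TT hh j x) = gj κ j ‖z - x‖ := by
  rw [TT, inner_sub_right, HH_inner', HH_inner', min_eq_right (by omega : j + 1 ≤ n),
    min_eq_right hn.le, gj]
  have := Gk_add hκ 0 (j * log 2) (((j + 1 : ℕ) : ℝ) * log 2) ‖z - x‖
  linarith

theorem inner_TT_low {n j : ℕ} (hn : n ≤ j) (z x : E) : inner ℝ (HH hh n z) (TT hh j x) = 0 := by
  rw [TT, inner_sub_right, HH_inner', HH_inner', min_eq_left (by omega : n ≤ j + 1), min_eq_left hn,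
    sub_self]

include hκ in
theorem inner_TT_same (j : ℕ) (z x : E) : inner ℝ (TT hh j z) (TT hh j x) = gj κ j ‖z - x‖ := by
  nth_rewrite 1 [TT]
  rw [inner_sub_left, inner_TT hκ hh (by omega), inner_TT_low hh le_rfl, sub_zero]

include hκ in
theorem inner_TT_ne {i j : ℕ} (hij : i ≠ j) (z x : E) : inner ℝ (TT hh i z) (TT hh j x) = 0 := by
  rcases lt_or_gt_of_ne hij with h | h
  · nth_rewrite 1 [TT]
    rw [inner_sub_left, inner_TT_low hh (by omega), inner_TT_low hh h.le, sub_zero]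
  · nth_rewrite 1 [TT]
    rw [inner_sub_left, inner_TT hκ hh (by omega), inner_TT hκ hh h, sub_self]

/-- average of a layer over a segment -/
noncomputable def YY (j : ℕ) (a b : E) : Lp ℝ 2 P := XX hh (j + 1) a b - XX hh j a b

include hκ in
theorem YY_mem (j : ℕ) (a b : E) : YY hh j a b ∈ GG hh :=
  Submodule.sub_mem _ (XX_mem hκ hh _ a b) (XX_mem hκ hh _ a b)

include hκ in
theorem inner_YY (j : ℕ) (D : Lp ℝ 2 P) (a b : E) :
    inner ℝ D (YY hh j a b) = ∫ t in (0 : ℝ)..1, inner ℝ D (TT hh j (pt a b t)) := by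
  rw [YY, inner_sub_right, inner_XX hκ, inner_XX hκ, ← intervalIntegral.integral_sub]
  · simp only [TT, inner_sub_right]
  · exact (Continuous.inner continuous_const (HH_pt_continuous hκ hh (j + 1) a b)).intervalIntegrable _ _
  · exact (Continuous.inner continuous_const (HH_pt_continuous hκ hh j a b)).intervalIntegrable _ _

end layers

/-! ### potentials of segments in the plane -/

theorem pt_eq (a b : ℂ) (t : ℝ) : Pool.Agent.H964.pt a b t = pt a b t := by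
  unfold Pool.Agent.H964.pt pt
  rw [Complex.real_smul]

/-- the potential of a segment -/
noncomputable def Uj (κ : ℝ → ℝ) (j : ℕ) (a b z : ℂ) : ℝ := ∫ t in (0 : ℝ)..1, gj κ j ‖z - pt a b t‖

section pots

variable {κ : ℝ → ℝ} {C ρ₀ : ℝ} (hκ : Ker κ C ρ₀)
include hκ

theorem gj_pt_continuous (j : ℕ) (a b z : ℂ) : Continuous fun t : ℝ => gj κ j ‖z - pt a b t‖ :=
  (gj_continuous hκ j).comp (continuous_const.sub (pt_continuous a b)).norm

theorem Uj_nonneg (j : ℕ) (a b z : ℂ) : 0 ≤ Uj κ j a b z :=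
  intervalIntegral.integral_nonneg (by norm_num) fun _ _ => gj_nonneg hκ j _

theorem Uj_far {j : ℕ} {a b z : ℂ} (hfar : ∀ t ∈ Set.Icc (0 : ℝ) 1, ρ₀ / 2 ^ j ≤ ‖z - pt a b t‖) :
    Uj κ j a b z = 0 := by
  unfold Uj
  have : ∫ t in (0 : ℝ)..1, gj κ j ‖z - pt a b t‖ = ∫ t in (0 : ℝ)..1, (0 : ℝ) := by
    apply intervalIntegral.integral_congr
    intro t ht
    rw [Set.uIcc_of_le (by norm_num)] at ht
    exact gj_far hκ (hfar t ht)
  rw [this]; simp

theorem Uj_le (j : ℕ) {a b : ℂ} (h0 : 0 < ‖a - b‖) (z : ℂ) :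
    Uj κ j a b z ≤ log 2 * (4 * (ρ₀ / 2 ^ j) / ‖a - b‖) := by
  have hr := hκ.r1
  have h1 := int_bound (f := fun t => gj κ j ‖z - pt a b t‖) (K := log 2) (R := ρ₀ / 2 ^ j) (z := z)
    (a := a) (b := b) (log_nonneg (by norm_num)) (by positivity) h0
    (fun t _ => by
      rw [abs_of_nonneg (gj_nonneg hκ j _)]
      exact gj_le hκ j _)
    (fun t _ hfar => by
      rw [pt_eq] at hfar
      exact gj_far hκ hfar)
  exact (le_abs_self _).trans h1

theorem Uj_near {j : ℕ} {a b z : ℂ} (h0 : 0 < ‖a - b‖) {t₀ : ℝ} (ht₀ : t₀ ∈ Set.Icc (0 : ℝ) 1)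
    (hz : ‖z - pt a b t₀‖ ≤ 1 / (8 * C * 2 ^ j)) (hL : 1 / (4 * C * 2 ^ j) ≤ ‖a - b‖) :
    log 2 / (16 * C * 2 ^ j * ‖a - b‖) ≤ Uj κ j a b z := by
  have hC := hκ.C1
  have hlog : 0 < log 2 := Real.log_pos (by norm_num)
  have hD : 0 < 8 * C * 2 ^ j := by positivity
  unfold Uj
  obtain ⟨w, hw⟩ : ∃ w, w = 1 / (8 * C * 2 ^ j) / ‖a - b‖ := ⟨_, rfl⟩
  have hw0 : 0 < w := by rw [hw]; positivity
  have hw1 : w ≤ 1 / 2 := by
    rw [hw, div_le_iff₀ h0]
    have e : 1 / (4 * C * 2 ^ j) = 2 * (1 / (8 * C * 2 ^ j)) := by field_simp; ring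
    rw [e] at hL
    linarith
  have hcont := gj_pt_continuous hκ j a b z
  have hnn : ∀ t : ℝ, 0 ≤ gj κ j ‖z - pt a b t‖ := fun t => gj_nonneg hκ j _
  have hval : ∀ t : ℝ, |t - t₀| ≤ w → log 2 / 2 ≤ gj κ j ‖z - pt a b t‖ := by
    intro t htt
    apply gj_near hκ (norm_nonneg _)
    have h1 : ‖pt a b t₀ - pt a b t‖ ≤ 1 / (8 * C * 2 ^ j) := by
      rw [norm_pt_sub, abs_sub_comm]
      calc |t - t₀| * ‖a - b‖ ≤ w * ‖a - b‖ := by gcongr
        _ = _ := by rw [hw]; field_simp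
    have h2 : ‖z - pt a b t‖ ≤ ‖z - pt a b t₀‖ + ‖pt a b t₀ - pt a b t‖ := by
      calc ‖z - pt a b t‖ = ‖(z - pt a b t₀) + (pt a b t₀ - pt a b t)‖ := by ring_nf
        _ ≤ _ := norm_add_le _ _
    have e : 1 / (4 * C * 2 ^ j) = 1 / (8 * C * 2 ^ j) + 1 / (8 * C * 2 ^ j) := by field_simp; ring
    rw [e]
    linarith
  obtain ⟨c, hc0, hc1, hct⟩ : ∃ c : ℝ, 0 ≤ c ∧ c + w ≤ 1 ∧ ∀ t ∈ Set.Icc c (c + w), |t - t₀| ≤ w := by
    rcases le_total t₀ (1 / 2) with h1 | h1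
    · exact ⟨t₀, ht₀.1, by linarith, fun t ht => by rw [abs_le]; constructor <;> linarith [ht.1, ht.2]⟩
    · exact ⟨t₀ - w, by linarith, by linarith [ht₀.2], fun t ht => by
        rw [abs_le]; constructor <;> linarith [ht.1, ht.2]⟩
  have h1 : ∫ t in (0 : ℝ)..1, gj κ j ‖z - pt a b t‖ =
      (∫ t in (0 : ℝ)..c, gj κ j ‖z - pt a b t‖) +
      (∫ t in c..(c + w), gj κ j ‖z - pt a b t‖) +
      ∫ t in (c + w)..1, gj κ j ‖z - pt a b t‖ := by
    rw [intervalIntegral.integral_add_adjacent_intervals (hcont.intervalIntegrable _ _)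
      (hcont.intervalIntegrable _ _), intervalIntegral.integral_add_adjacent_intervals
      (hcont.intervalIntegrable _ _) (hcont.intervalIntegrable _ _)]
  have h2 : 0 ≤ ∫ t in (0 : ℝ)..c, gj κ j ‖z - pt a b t‖ :=
    intervalIntegral.integral_nonneg hc0 fun t _ => hnn t
  have h3 : 0 ≤ ∫ t in (c + w)..1, gj κ j ‖z - pt a b t‖ :=
    intervalIntegral.integral_nonneg hc1 fun t _ => hnn t
  have h4 : ∫ t in c..(c + w), (log 2 / 2 : ℝ) ≤ ∫ t in c..(c + w), gj κ j ‖z - pt a b t‖ := by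
    apply intervalIntegral.integral_mono_on (by linarith) intervalIntegrable_const
      (hcont.intervalIntegrable _ _)
    intro t ht
    exact hval t (hct t ht)
  have h5 : ∫ t in c..(c + w), (log 2 / 2 : ℝ) = log 2 / (16 * C * 2 ^ j * ‖a - b‖) := by
    rw [intervalIntegral.integral_const, smul_eq_mul, hw]
    field_simp
    ring
  rw [h5] at h4
  rw [h1]; linarith

end pots

end Pool.Agent.H964.W
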