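import Pool.Agent.H964.WN.Fld
import Pool.Agent.H964.SL.Pot2

/-!
# The interaction of two segments
-/

set_option autoImplicit false

namespace Pool.Agent.H964.W

open MeasureTheory ProbabilityTheory Real Filter Topology

/-! ### a real integral -/

/-- antiderivative of `log (x ^ 2 + y ^ 2) / 2` in `x` -/
noncomputable def FF (x y : ℝ) : ℝ := 1 / 2 * (x * log (x ^ 2 + y ^ 2)) - x + y * arctan (x / y)

theorem FF_dx {x y : ℝ} (hy : 0 < y) : HasDerivAt (fun x => FF x y) (1 / 2 * log (x ^ 2 + y ^ 2)) x := by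
  have h0 : 0 < x ^ 2 + y ^ 2 := by positivity
  have h1 : HasDerivAt (fun x : ℝ => x ^ 2 + y ^ 2) (2 * x) x := by
    have := ((hasDerivAt_id x).pow 2).add_const (y ^ 2)
    simpa using this
  have h2 : HasDerivAt (fun x : ℝ => log (x ^ 2 + y ^ 2)) (2 * x / (x ^ 2 + y ^ 2)) x := h1.log h0.ne'
  have h3 : HasDerivAt (fun x : ℝ => 1 / 2 * (x * log (x ^ 2 + y ^ 2)))
      (1 / 2 * (1 * log (x ^ 2 + y ^ 2) + x * (2 * x / (x ^ 2 + y ^ 2)))) x :=
    ((hasDerivAt_id x).mul h2).const_mul (1 / 2)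
  have h4 : HasDerivAt (fun x : ℝ => y * arctan (x / y)) (y * (1 / (1 + (x / y) ^ 2) * (1 / y))) x := by
    exact (((hasDerivAt_id x).div_const y).arctan).const_mul y
  have h5 := (h3.sub (hasDerivAt_id x)).add h4
  refine h5.congr_deriv ?_
  have e : 1 + (x / y) ^ 2 = (x ^ 2 + y ^ 2) / y ^ 2 := by field_simp; ring
  rw [e]
  field_simp
  ring

theorem FF_dy {x y : ℝ} (hy : 0 < y) : HasDerivAt (fun y => FF x y) (arctan (x / y)) y := by
  have h0 : 0 < x ^ 2 + y ^ 2 := by positivity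
  have h1 : HasDerivAt (fun y : ℝ => x ^ 2 + y ^ 2) (2 * y) y := by
    have := ((hasDerivAt_id y).pow 2).const_add (x ^ 2)
    simpa using this
  have h2 : HasDerivAt (fun y : ℝ => log (x ^ 2 + y ^ 2)) (2 * y / (x ^ 2 + y ^ 2)) y := h1.log h0.ne'
  have h3 : HasDerivAt (fun y : ℝ => 1 / 2 * (x * log (x ^ 2 + y ^ 2)) - x)
      (1 / 2 * (x * (2 * y / (x ^ 2 + y ^ 2)))) y :=
    ((h2.const_mul x).const_mul (1 / 2)).sub_const x
  have h6 : HasDerivAt (fun y : ℝ => x / y) (-x / y ^ 2) y := by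
    have := (hasDerivAt_inv hy.ne').const_mul x
    simp only [← div_eq_mul_inv] at this
    refine this.congr_deriv ?_
    field_simp
  have h4 : HasDerivAt (fun y : ℝ => y * arctan (x / y))
      (1 * arctan (x / y) + y * (1 / (1 + (x / y) ^ 2) * (-x / y ^ 2))) y :=
    (hasDerivAt_id y).mul h6.arctan
  have h5 := h3.add h4
  refine h5.congr_deriv ?_
  have e : 1 + (x / y) ^ 2 = (x ^ 2 + y ^ 2) / y ^ 2 := by field_simp; ring
  rw [e]
  field_simp
  ring

theorem FF_lip (x : ℝ) {a b : ℝ} (ha : 0 < a) (hb : 0 < b) : |FF x b - FF x a| ≤ π / 2 * |b - a| := by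
  have := Convex.norm_image_sub_le_of_norm_hasDerivWithin_le (s := Set.Ioi (0 : ℝ)) (C := π / 2)
    (f := fun y => FF x y) (f' := fun y => arctan (x / y)) (x := a) (y := b)
    (fun y hy => (FF_dy hy).hasDerivWithinAt) (fun y _ => by
      rw [Real.norm_eq_abs, abs_le]
      exact ⟨(Real.neg_pi_div_two_lt_arctan _).le, (Real.arctan_lt_pi_div_two _).le⟩)
    (convex_Ioi 0) ha hb
  simpa [Real.norm_eq_abs] using this

theorem log_cont {s r y : ℝ} (hy : 0 < y) : Continuous fun τ : ℝ => 1 / 2 * log ((s - τ * r) ^ 2 + y ^ 2) := by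
  apply Continuous.mul continuous_const
  apply Continuous.log (by fun_prop)
  intro τ
  positivity

theorem int_log {s r y : ℝ} (hr : 0 < r) (hy : 0 < y) :
    ∫ τ in (0 : ℝ)..1, 1 / 2 * log ((s - τ * r) ^ 2 + y ^ 2) = r⁻¹ * (FF s y - FF (s - r) y) := by
  have hd : ∀ τ : ℝ, HasDerivAt (fun τ => -r⁻¹ * FF (s - τ * r) y)
      (1 / 2 * log ((s - τ * r) ^ 2 + y ^ 2)) τ := by
    intro τ
    have h1 : HasDerivAt (fun τ : ℝ => s - τ * r) (-r) τ := by
      have := ((hasDerivAt_id τ).mul_const r).const_sub s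
      simpa using this
    have h2 := ((FF_dx (x := s - τ * r) hy).comp τ h1).const_mul (-r⁻¹)
    refine h2.congr_deriv ?_
    field_simp
  rw [intervalIntegral.integral_eq_sub_of_hasDerivAt (fun τ _ => hd τ)
    ((log_cont hy).intervalIntegrable _ _)]
  simp only [one_mul, zero_mul, sub_zero]
  ring

theorem int_log_diff {s r a b : ℝ} (hr : 0 < r) (ha : 0 < a) (hb : 0 < b) :
    ∫ τ in (0 : ℝ)..1, |1 / 2 * log ((s - τ * r) ^ 2 + a ^ 2) - 1 / 2 * log ((s - τ * r) ^ 2 + b ^ 2)| ≤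
      π / r * |a - b| := by
  have key : ∀ a b : ℝ, 0 < a → a ≤ b → ∫ τ in (0 : ℝ)..1, |1 / 2 * log ((s - τ * r) ^ 2 + a ^ 2) -
      1 / 2 * log ((s - τ * r) ^ 2 + b ^ 2)| ≤ π / r * (b - a) := by
    intro a b ha hab
    have hb : 0 < b := by linarith
    have e1 : ∫ τ in (0 : ℝ)..1, |1 / 2 * log ((s - τ * r) ^ 2 + a ^ 2) -
        1 / 2 * log ((s - τ * r) ^ 2 + b ^ 2)| =
        ∫ τ in (0 : ℝ)..1, (1 / 2 * log ((s - τ * r) ^ 2 + b ^ 2) - 1 / 2 * log ((s - τ * r) ^ 2 + a ^ 2)) := by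
      apply intervalIntegral.integral_congr
      intro τ _
      simp only
      rw [abs_sub_comm, abs_of_nonneg]
      have h1 : log ((s - τ * r) ^ 2 + a ^ 2) ≤ log ((s - τ * r) ^ 2 + b ^ 2) := by
        apply Real.log_le_log (by positivity)
        gcongr
      linarith
    rw [e1, intervalIntegral.integral_sub ((log_cont hb).intervalIntegrable _ _)
      ((log_cont ha).intervalIntegrable _ _), int_log hr hb, int_log hr ha]
    have h1 := FF_lip s ha hb
    have h2 := FF_lip (s - r) ha hb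
    rw [abs_of_nonneg (by linarith : 0 ≤ b - a)] at h1 h2
    rw [abs_le] at h1 h2
    have h3 : r⁻¹ * (FF s b - FF (s - r) b) - r⁻¹ * (FF s a - FF (s - r) a) =
        r⁻¹ * ((FF s b - FF s a) - (FF (s - r) b - FF (s - r) a)) := by ring
    rw [h3]
    have h4 : 0 < r⁻¹ := by positivity
    calc r⁻¹ * ((FF s b - FF s a) - (FF (s - r) b - FF (s - r) a)) ≤ r⁻¹ * (π * (b - a)) := by
          apply mul_le_mul_of_nonneg_left _ h4.le
          linarith [h1.2, h2.1]
      _ = _ := by ring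
  rcases le_total a b with h | h
  · rw [abs_sub_comm a b, abs_of_nonneg (by linarith : 0 ≤ b - a)]
    exact key a b ha h
  · rw [abs_of_nonneg (by linarith : 0 ≤ a - b)]
    have := key b a hb h
    refine le_trans (le_of_eq ?_) this
    apply intervalIntegral.integral_congr
    intro τ _
    simp only
    rw [abs_sub_comm]

/-! ### potentials -/

variable {κ : ℝ → ℝ} {C ρ₀ : ℝ} (hκ : Ker κ C ρ₀)

include hκ in
theorem Gk_continuous {a b : ℝ} (hab : a ≤ b) : Continuous (Gk κ a b) := by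
  have hC := hκ.C1
  apply (LipschitzWith.of_dist_le_mul (K := ⟨C * exp b, by positivity⟩) _).continuous
  intro s t
  rw [Real.dist_eq, Real.dist_eq]
  refine (Gk_lip hκ hab s t).trans (le_of_eq ?_)
  change _ = C * exp b * |s - t|
  ring

include hκ in
theorem Phi_lip {Λ s r : ℝ} (hΛ : 0 ≤ Λ) (hr : 0 < r) {A B : ℝ} (hA : 0 ≤ A) (hB : 0 ≤ B) :
    |(∫ τ in (0 : ℝ)..1, Gk κ 0 Λ √((s - τ * r) ^ 2 + A ^ 2)) -
      ∫ τ in (0 : ℝ)..1, Gk κ 0 Λ √((s - τ * r) ^ 2 + B ^ 2)| ≤ π / r * |A - B| := by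
  have hcont : ∀ A : ℝ, Continuous fun τ : ℝ => Gk κ 0 Λ √((s - τ * r) ^ 2 + A ^ 2) := fun A =>
    (Gk_continuous hκ hΛ).comp (by fun_prop)
  have key : ∀ A B : ℝ, 0 < A → 0 < B →
      |(∫ τ in (0 : ℝ)..1, Gk κ 0 Λ √((s - τ * r) ^ 2 + A ^ 2)) -
      ∫ τ in (0 : ℝ)..1, Gk κ 0 Λ √((s - τ * r) ^ 2 + B ^ 2)| ≤ π / r * |A - B| := by
    intro A B hA hB
    rw [← intervalIntegral.integral_sub ((hcont A).intervalIntegrable _ _)
      ((hcont B).intervalIntegrable _ _)]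
    calc _ ≤ ∫ τ in (0 : ℝ)..1, |Gk κ 0 Λ √((s - τ * r) ^ 2 + A ^ 2) -
          Gk κ 0 Λ √((s - τ * r) ^ 2 + B ^ 2)| :=
          intervalIntegral.abs_integral_le_integral_abs (by norm_num)
      _ ≤ ∫ τ in (0 : ℝ)..1, |1 / 2 * log ((s - τ * r) ^ 2 + A ^ 2) -
          1 / 2 * log ((s - τ * r) ^ 2 + B ^ 2)| := by
          apply intervalIntegral.integral_mono_on (by norm_num)
            (((hcont A).sub (hcont B)).abs.intervalIntegrable _ _)
            (((log_cont hA).sub (log_cont hB)).abs.intervalIntegrable _ _)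
          intro τ _
          have h1 : 0 < (s - τ * r) ^ 2 + A ^ 2 := by positivity
          have h2 : 0 < (s - τ * r) ^ 2 + B ^ 2 := by positivity
          have := Gk_log hκ 0 Λ (Real.sqrt_pos.2 h1) (Real.sqrt_pos.2 h2)
          rw [Real.log_sqrt h1.le, Real.log_sqrt h2.le] at this
          refine this.trans (le_of_eq ?_)
          congr 1
          simp only [Pi.sub_apply]
          ring
      _ ≤ _ := int_log_diff hr hA hB
  -- limit
  have hlim : ∀ A : ℝ, 0 ≤ A → Tendsto (fun t : ℝ => ∫ τ in (0 : ℝ)..1, Gk κ 0 Λ √((s - τ * r) ^ 2 + (A + t) ^ 2))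
      (𝓝 0) (𝓝 (∫ τ in (0 : ℝ)..1, Gk κ 0 Λ √((s - τ * r) ^ 2 + A ^ 2))) := by
    intro A _
    have hc : Continuous fun t : ℝ => ∫ τ in (0 : ℝ)..1, Gk κ 0 Λ √((s - τ * r) ^ 2 + (A + t) ^ 2) := by
      apply intervalIntegral.continuous_parametric_intervalIntegral_of_continuous'
      exact (Gk_continuous hκ hΛ).comp (by fun_prop)
    have := hc.tendsto 0
    simpa using this
  have hl := ((hlim A hA).sub (hlim B hB)).abs.mono_left (nhdsWithin_le_nhds (s := Set.Ioi 0))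
  apply le_of_tendsto hl
  filter_upwards [self_mem_nhdsWithin] with t ht
  have ht' : 0 < t := ht
  have := key (A + t) (B + t) (by linarith) (by linarith)
  rwa [show A + t - (B + t) = A - B by ring] at this

variable {E : Type*} [NormedAddCommGroup E] [InnerProductSpace ℝ E]

/-- the potential of the segment `[u, v]` -/
noncomputable def Fs (κ : ℝ → ℝ) (Λ : ℝ) (u v z : E) : ℝ := ∫ τ in (0 : ℝ)..1, Gk κ 0 Λ ‖z - pt u v τ‖

section

variable {Λ : ℝ} (hΛ : 0 ≤ Λ)
include hκ hΛ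

theorem G_pt_continuous (u v z : E) : Continuous fun τ : ℝ => Gk κ 0 Λ ‖z - pt u v τ‖ :=
  (Gk_continuous hκ hΛ).comp (continuous_const.sub (pt_continuous u v)).norm

theorem Fs_lip (u v z z' : E) : |Fs κ Λ u v z - Fs κ Λ u v z'| ≤ C * ‖z - z'‖ * exp Λ := by
  have hC := hκ.C1
  unfold Fs
  rw [← intervalIntegral.integral_sub ((G_pt_continuous hκ hΛ u v z).intervalIntegrable _ _)
    ((G_pt_continuous hκ hΛ u v z').intervalIntegrable _ _)]
  have : ‖∫ τ in (0 : ℝ)..1, (Gk κ 0 Λ ‖z - pt u v τ‖ - Gk κ 0 Λ ‖z' - pt u v τ‖)‖ ≤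
      C * ‖z - z'‖ * exp Λ * |1 - 0| := by
    apply intervalIntegral.norm_integral_le_of_norm_le_const
    intro τ _
    rw [Real.norm_eq_abs]
    refine (Gk_lip hκ hΛ _ _).trans ?_
    have : |‖z - pt u v τ‖ - ‖z' - pt u v τ‖| ≤ ‖z - z'‖ := by
      refine (abs_norm_sub_norm_le _ _).trans (le_of_eq ?_)
      congr 1; abel
    gcongr
  simpa using this

theorem Fs_continuous (u v : E) : Continuous (Fs κ Λ u v) := by
  have hC := hκ.C1
  apply (LipschitzWith.of_dist_le_mul (K := ⟨C * exp Λ, by positivity⟩) _).continuous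
  intro s t
  rw [Real.dist_eq, dist_eq_norm]
  refine (Fs_lip hκ hΛ u v s t).trans (le_of_eq ?_)
  change _ = C * exp Λ * ‖s - t‖
  ring

variable {u v e : E} (he : ‖e‖ = 1) {r : ℝ} (hr : 0 < r) (huv : v - u = r • e)
include he hr huv

theorem Fs_perp (z : E) {δ : E} (hδ : inner ℝ δ e = 0) :
    |Fs κ Λ u v (z + δ) - Fs κ Λ u v z| ≤ π * ‖δ‖ / r := by
  obtain ⟨s, hs⟩ : ∃ s : ℝ, s = inner ℝ (z - u) e := ⟨_, rfl⟩
  obtain ⟨p, hp⟩ : ∃ p : E, p = (z - u) - s • e := ⟨_, rfl⟩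
  have hee : inner ℝ e e = 1 := by rw [real_inner_self_eq_norm_sq, he]; norm_num
  have hpe : inner ℝ p e = 0 := by
    rw [hp, inner_sub_left, real_inner_smul_left, hee, ← hs]; ring
  have hdec : ∀ (q : E) (τ : ℝ), inner ℝ q e = 0 → ‖(s - τ * r) • e + q‖ = √((s - τ * r) ^ 2 + ‖q‖ ^ 2) := by
    intro q τ hq
    rw [← Real.sqrt_sq (norm_nonneg ((s - τ * r) • e + q))]
    congr 1
    rw [norm_add_sq_real, norm_smul, he, real_inner_smul_left, real_inner_comm, hq]
    simp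
  have h1 : ∀ τ : ℝ, z - pt u v τ = (s - τ * r) • e + p := by
    intro τ
    unfold pt
    rw [huv, hp]
    module
  have h2 : ∀ τ : ℝ, z + δ - pt u v τ = (s - τ * r) • e + (p + δ) := by
    intro τ
    unfold pt
    rw [huv, hp]
    module
  have hpδ : inner ℝ (p + δ) e = 0 := by rw [inner_add_left, hpe, hδ, add_zero]
  have e1 : Fs κ Λ u v z = ∫ τ in (0 : ℝ)..1, Gk κ 0 Λ √((s - τ * r) ^ 2 + ‖p‖ ^ 2) := by
    unfold Fs
    apply intervalIntegral.integral_congr
    intro τ _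
    simp only
    rw [h1, hdec p τ hpe]
  have e2 : Fs κ Λ u v (z + δ) = ∫ τ in (0 : ℝ)..1, Gk κ 0 Λ √((s - τ * r) ^ 2 + ‖p + δ‖ ^ 2) := by
    unfold Fs
    apply intervalIntegral.integral_congr
    intro τ _
    simp only
    rw [h2, hdec (p + δ) τ hpδ]
  rw [e1, e2]
  refine (Phi_lip hκ hΛ hr (norm_nonneg _) (norm_nonneg _)).trans ?_
  have h3 : |‖p + δ‖ - ‖p‖| ≤ ‖δ‖ := by
    refine (abs_norm_sub_norm_le _ _).trans (le_of_eq ?_)
    congr 1; abel
  calc π / r * |‖p + δ‖ - ‖p‖| ≤ π / r * ‖δ‖ := by gcongr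
    _ = _ := by ring

end

/-! ### displacements along the segment -/

/-- the function `|p|^(-1/2)` -/
noncomputable def wq (p : E) : ℝ := (√‖p‖)⁻¹

omit [InnerProductSpace ℝ E] in
theorem wq_nonneg (p : E) : 0 ≤ wq p := by unfold wq; positivity

omit [InnerProductSpace ℝ E] in
theorem wq_comm (p q : E) : wq (p - q) = wq (q - p) := by
  unfold wq; rw [norm_sub_rev]

omit [InnerProductSpace ℝ E] in
include hκ in
theorem G_hold' {Λ : ℝ} {p p' : E} (hp : p ≠ 0) (hp' : p' ≠ 0) :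
    |Gk κ 0 Λ ‖p‖ - Gk κ 0 Λ ‖p'‖| ≤ √‖p - p'‖ * (wq p + wq p') := by
  refine (Gk_hold hκ 0 Λ (norm_pos_iff.2 hp) (norm_pos_iff.2 hp')).trans ?_
  unfold wq
  have : √|‖p‖ - ‖p'‖| ≤ √‖p - p'‖ := Real.sqrt_le_sqrt (abs_norm_sub_norm_le _ _)
  gcongr

/-- the parameter of the projection to a line -/
noncomputable def prm (a b z : E) : ℝ := inner ℝ (z - a) (b - a) / ‖b - a‖ ^ 2

theorem pt_low {a b : E} (hab : a ≠ b) (z : E) (t : ℝ) :
    ‖a - b‖ * |t - prm a b z| ≤ ‖z - pt a b t‖ := by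
  have hw : 0 < ‖b - a‖ := norm_pos_iff.2 (sub_ne_zero.2 hab.symm)
  have h1 : inner ℝ (z - pt a b t) (b - a) = (prm a b z - t) * ‖b - a‖ ^ 2 := by
    unfold prm pt
    rw [show z - (a + t • (b - a)) = (z - a) - t • (b - a) by abel, inner_sub_left,
      real_inner_smul_left, real_inner_self_eq_norm_sq]
    field_simp
  have h2 := abs_real_inner_le_norm (z - pt a b t) (b - a)
  rw [h1, abs_mul, abs_of_nonneg (by positivity : 0 ≤ ‖b - a‖ ^ 2), abs_sub_comm] at h2
  rw [norm_sub_rev a b]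
  have h3 : (‖b - a‖ * |t - prm a b z|) * ‖b - a‖ ≤ ‖z - pt a b t‖ * ‖b - a‖ := by
    calc _ = |t - prm a b z| * ‖b - a‖ ^ 2 := by ring
      _ ≤ _ := h2
  exact le_of_mul_le_mul_right h3 hw

theorem wq_pt {a b : E} (hab : a ≠ b) (z : E) {t : ℝ} (ht : t ≠ prm a b z) :
    z ≠ pt a b t ∧ wq (z - pt a b t) ≤ (√‖a - b‖)⁻¹ * |t - prm a b z| ^ (-(1 / 2 : ℝ)) := by
  have hpos : 0 < ‖a - b‖ := norm_pos_iff.2 (sub_ne_zero.2 hab)
  have h1 : 0 < |t - prm a b z| := abs_pos.2 (sub_ne_zero.2 ht)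
  have h2 := pt_low hab z t
  have h3 : 0 < ‖a - b‖ * |t - prm a b z| := mul_pos hpos h1
  constructor
  · intro he
    rw [← he, sub_self, norm_zero] at h2
    linarith
  · unfold wq
    rw [Real.rpow_neg h1.le, ← Real.sqrt_eq_rpow, ← mul_inv, ← Real.sqrt_mul hpos.le]
    apply inv_anti₀ (Real.sqrt_pos.2 h3)
    exact Real.sqrt_le_sqrt h2

/-- majorant for a segment, in terms of the distance from one end -/
theorem seg_major {a b z : E} (hz : z ≠ a) : ∃ μ : ℝ → ℝ, IntervalIntegrable μ volume 0 1 ∧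
    (∀ᵐ σ : ℝ, σ ∈ Set.Icc (0 : ℝ) 1 → z ≠ pt a b σ ∧ wq (z - pt a b σ) ≤ μ σ) ∧
    ∫ σ in (0 : ℝ)..1, μ σ ≤ 6 * wq (z - a) := by
  have hza : 0 < ‖z - a‖ := norm_pos_iff.2 (sub_ne_zero.2 hz)
  rcases le_or_gt (2 * ‖a - b‖) ‖z - a‖ with h | h
  · refine ⟨fun _ => 2 * wq (z - a), intervalIntegrable_const, Eventually.of_forall ?_, ?_⟩
    · intro σ hσ
      have h1 : ‖z - a‖ / 4 ≤ ‖z - pt a b σ‖ := by
        have e : z - a = (z - pt a b σ) + σ • (b - a) := by unfold pt; abel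
        have h2 : ‖z - a‖ ≤ ‖z - pt a b σ‖ + ‖σ • (b - a)‖ := by
          nth_rewrite 1 [e]; exact norm_add_le _ _
        rw [norm_smul, norm_of_nonneg hσ.1, norm_sub_rev b a] at h2
        have h3 : σ * ‖a - b‖ ≤ 1 * ‖a - b‖ := by gcongr; exact hσ.2
        linarith
      constructor
      · intro he
        rw [← he, sub_self, norm_zero] at h1
        linarith
      · unfold wq
        have h4 : √(‖z - a‖ / 4) ≤ √‖z - pt a b σ‖ := Real.sqrt_le_sqrt h1
        have h5 : √(‖z - a‖ / 4) = √‖z - a‖ / 2 := by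
          rw [Real.sqrt_div (norm_nonneg _), show (4 : ℝ) = 2 ^ 2 by norm_num, Real.sqrt_sq (by norm_num)]
        rw [h5] at h4
        have h6 : 0 < √‖z - a‖ := Real.sqrt_pos.2 hza
        calc (√‖z - pt a b σ‖)⁻¹ ≤ (√‖z - a‖ / 2)⁻¹ := inv_anti₀ (by positivity) h4
          _ = _ := by field_simp
    · have := wq_nonneg (z - a)
      simp
      linarith
  · have hab : a ≠ b := by
      intro he
      rw [he, sub_self, norm_zero, mul_zero] at h
      exact absurd h (not_lt.2 (norm_nonneg _))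
    have hpos : 0 < ‖a - b‖ := norm_pos_iff.2 (sub_ne_zero.2 hab)
    obtain ⟨i1, i2⟩ := half_int (prm a b z)
    refine ⟨fun σ => (√‖a - b‖)⁻¹ * |σ - prm a b z| ^ (-(1 / 2 : ℝ)), i1.const_mul _, ?_, ?_⟩
    · have hne : ∀ᵐ σ : ℝ, σ ≠ prm a b z := by rw [ae_iff]; simp
      filter_upwards [hne] with σ hσ _
      exact wq_pt hab z hσ
    · rw [intervalIntegral.integral_const_mul]
      have h1 : (√‖a - b‖)⁻¹ ≤ 3 / 2 * wq (z - a) := by
        unfold wq
        have h2 : √‖z - a‖ ≤ 3 / 2 * √‖a - b‖ := by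
          rw [show (3 / 2 : ℝ) * √‖a - b‖ = √((3 / 2) ^ 2 * ‖a - b‖) by
            rw [Real.sqrt_mul (by positivity), Real.sqrt_sq (by norm_num)]]
          apply Real.sqrt_le_sqrt
          linarith
        have h3 : 0 < √‖z - a‖ := Real.sqrt_pos.2 hza
        have h4 : 0 < √‖a - b‖ := Real.sqrt_pos.2 hpos
        rw [← div_eq_mul_inv, le_div_iff₀ h3, inv_mul_le_iff₀ h4]
        linarith
      have h0 := wq_nonneg (z - a)
      calc (√‖a - b‖)⁻¹ * ∫ σ in (0 : ℝ)..1, |σ - prm a b z| ^ (-(1 / 2 : ℝ)) ≤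
          (3 / 2 * wq (z - a)) * 4 := by
            apply mul_le_mul h1 i2 _ (by positivity)
            apply intervalIntegral.integral_nonneg (by norm_num)
            intro t _; positivity
        _ = _ := by ring

include hκ in
theorem Fs_par {Λ : ℝ} (hΛ : 0 ≤ Λ) {u v e : E} (he : ‖e‖ = 1) {r : ℝ} (hr : 0 < r)
    (huv : v - u = r • e) {z : E} (hzu : z ≠ u) (hzv : z ≠ v) (x : ℝ) :
    |Fs κ Λ u v (z + x • e) - Fs κ Λ u v z| ≤ 6 * |x| * (√r)⁻¹ * (wq (z - u) + wq (z - v)) := by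
  set g : ℝ → ℝ := fun τ => Gk κ 0 Λ ‖z - pt u v τ‖ with hg
  have hgc : Continuous g := G_pt_continuous hκ hΛ u v z
  have hgi : ∀ a b : ℝ, IntervalIntegrable g volume a b := fun a b => hgc.intervalIntegrable a b
  obtain ⟨lam, hlam⟩ : ∃ lam, lam = x / r := ⟨_, rfl⟩
  have hxr : x = lam * r := by rw [hlam]; field_simp
  set k : ℝ → ℝ := fun τ => g τ - g (τ + 1) with hk
  have hkc : Continuous k := hgc.sub (hgc.comp (by fun_prop))
  have e1 : Fs κ Λ u v (z + x • e) - Fs κ Λ u v z = lam * ∫ σ in (0 : ℝ)..1, k (-lam * σ) := by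
    have e2 : Fs κ Λ u v (z + x • e) = ∫ τ in (-lam)..(1 - lam), g τ := by
      unfold Fs
      have := intervalIntegral.integral_comp_sub_right (a := 0) (b := 1) g lam
      rw [zero_sub] at this
      rw [← this]
      apply intervalIntegral.integral_congr
      intro τ _
      simp only [hg]
      congr 2
      unfold pt
      rw [huv, hxr]; module
    have e3 : ∫ τ in (-lam)..(1 - lam), g τ =
        (∫ τ in (-lam)..0, g τ) + (∫ τ in (0 : ℝ)..1, g τ) + ∫ τ in (1 : ℝ)..(1 - lam), g τ := by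
      rw [intervalIntegral.integral_add_adjacent_intervals (hgi _ _) (hgi _ _),
        intervalIntegral.integral_add_adjacent_intervals (hgi _ _) (hgi _ _)]
    have e4 : ∫ τ in (1 : ℝ)..(1 - lam), g τ = ∫ τ in (0 : ℝ)..(-lam), g (τ + 1) := by
      rw [intervalIntegral.integral_comp_add_right]
      congr 1 <;> ring
    have e5 := intervalIntegral.smul_integral_comp_mul_left (a := 0) (b := 1) k (-lam)
    rw [mul_zero, mul_one, smul_eq_mul] at e5
    have e6 : ∫ τ in (0 : ℝ)..(-lam), k τ = (∫ τ in (0 : ℝ)..(-lam), g τ) -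
        ∫ τ in (0 : ℝ)..(-lam), g (τ + 1) := by
      apply intervalIntegral.integral_sub (hgi _ _)
      exact (hgc.comp (by fun_prop)).intervalIntegrable _ _
    have e7 : ∫ τ in (-lam)..0, g τ = -∫ τ in (0 : ℝ)..(-lam), g τ :=
      intervalIntegral.integral_symm _ _
    have e8 : Fs κ Λ u v z = ∫ τ in (0 : ℝ)..1, g τ := rfl
    rw [e2, e3, e4, e8, e7]
    linarith
  obtain ⟨μ, m1, m2, m3⟩ := seg_major (b := u - x • e) hzu
  obtain ⟨ν, n1, n2, n3⟩ := seg_major (b := v - x • e) hzv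
  have hbound : |∫ σ in (0 : ℝ)..1, k (-lam * σ)| ≤ √r * (6 * wq (z - u) + 6 * wq (z - v)) := by
    calc |∫ σ in (0 : ℝ)..1, k (-lam * σ)| ≤ ∫ σ in (0 : ℝ)..1, |k (-lam * σ)| :=
          intervalIntegral.abs_integral_le_integral_abs (by norm_num)
      _ ≤ ∫ σ in (0 : ℝ)..1, √r * (μ σ + ν σ) := by
          apply intervalIntegral.integral_mono_ae_restrict (by norm_num)
            ((hkc.comp (by fun_prop)).abs.intervalIntegrable _ _) ((m1.add n1).const_mul _)
          rw [EventuallyLE, ae_restrict_iff' measurableSet_Icc]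
          filter_upwards [m2, n2] with σ a1 a2 hσ
          obtain ⟨b1, b2⟩ := a1 hσ
          obtain ⟨b3, b4⟩ := a2 hσ
          have p1 : pt u v (-lam * σ) = pt u (u - x • e) σ := by
            unfold pt; rw [huv, hxr]; module
          have p2 : pt u v (-lam * σ + 1) = pt v (v - x • e) σ := by
            have : v = u + r • e := by rw [← huv]; abel
            unfold pt; rw [huv, hxr, this]; module
          show |k (-lam * σ)| ≤ _
          simp only [hk, hg]
          rw [p1, p2]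
          have h1 := G_hold' hκ (Λ := Λ) (sub_ne_zero.2 b1) (sub_ne_zero.2 b3)
          have h2 : ‖z - pt u (u - x • e) σ - (z - pt v (v - x • e) σ)‖ = r := by
            have : z - pt u (u - x • e) σ - (z - pt v (v - x • e) σ) = v - u := by unfold pt; module
            rw [this, huv, norm_smul, he, norm_of_nonneg hr.le, mul_one]
          rw [h2] at h1
          refine h1.trans ?_
          gcongr
      _ = √r * ((∫ σ in (0 : ℝ)..1, μ σ) + ∫ σ in (0 : ℝ)..1, ν σ) := by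
          rw [intervalIntegral.integral_const_mul, intervalIntegral.integral_add m1 n1]
      _ ≤ _ := by gcongr
  have hsr : 0 < √r := Real.sqrt_pos.2 hr
  have hsq : √r * √r = r := Real.mul_self_sqrt hr.le
  rw [e1, abs_mul]
  calc |lam| * |∫ σ in (0 : ℝ)..1, k (-lam * σ)| ≤
      |lam| * (√r * (6 * wq (z - u) + 6 * wq (z - v))) := by gcongr
    _ = _ := by
        have h5 : |x| = |lam| * r := by rw [hxr, abs_mul, abs_of_pos hr]
        have h6 : r * (√r)⁻¹ = √r := by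
          nth_rewrite 1 [← hsq]
          field_simp
        rw [h5]
        calc |lam| * (√r * (6 * wq (z - u) + 6 * wq (z - v))) =
            6 * |lam| * √r * (wq (z - u) + wq (z - v)) := by ring
          _ = 6 * |lam| * (r * (√r)⁻¹) * (wq (z - u) + wq (z - v)) := by rw [h6]
          _ = _ := by ring

include hκ in
theorem Fs_seg {Λ : ℝ} (hΛ : 0 ≤ Λ) {u v e : E} (he : ‖e‖ = 1) {r : ℝ} (hr : 0 < r)
    (huv : v - u = r • e) {a b a' b' : E} (hab : a ≠ b) {d : ℝ} (h1 : ‖a - a'‖ ≤ d)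
    (h2 : ‖b - b'‖ ≤ d) :
    |∫ t in (0 : ℝ)..1, (Fs κ Λ u v (pt a b t) - Fs κ Λ u v (pt a' b' t))| ≤
      d * (48 * (√r)⁻¹ * (√‖a - b‖)⁻¹ + π / r) := by
  have hd0 : 0 ≤ d := (norm_nonneg _).trans h1
  obtain ⟨i1, i2⟩ := half_int (prm a b u)
  obtain ⟨j1, j2⟩ := half_int (prm a b v)
  set cu := prm a b u with hcu
  set cv := prm a b v with hcv
  have hee : inner ℝ e e = 1 := by rw [real_inner_self_eq_norm_sq, he]; norm_num
  have hc : Continuous fun t : ℝ => Fs κ Λ u v (pt a b t) - Fs κ Λ u v (pt a' b' t) :=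
    ((Fs_continuous hκ hΛ u v).comp (pt_continuous a b)).sub
      ((Fs_continuous hκ hΛ u v).comp (pt_continuous a' b'))
  have hlen : 0 ≤ (√‖a - b‖)⁻¹ := by positivity
  have hpoint : ∀ t : ℝ, t ∈ Set.Icc (0 : ℝ) 1 → t ≠ cu → t ≠ cv →
      |Fs κ Λ u v (pt a b t) - Fs κ Λ u v (pt a' b' t)| ≤
      6 * d * (√r)⁻¹ * ((√‖a - b‖)⁻¹ * |t - cu| ^ (-(1 / 2 : ℝ)) + (√‖a - b‖)⁻¹ * |t - cv| ^ (-(1 / 2 : ℝ))) +
        π * d / r := by
    intro t ht htu htv
    obtain ⟨a1, a2⟩ := wq_pt hab u htu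
    obtain ⟨a3, a4⟩ := wq_pt hab v htv
    rw [wq_comm] at a2 a4
    obtain ⟨z, hz⟩ : ∃ z, z = pt a b t := ⟨_, rfl⟩
    rw [← hz] at a1 a2 a3 a4 ⊢
    obtain ⟨δ, hδ⟩ : ∃ δ, δ = pt a' b' t - z := ⟨_, rfl⟩
    obtain ⟨x, hx⟩ : ∃ x : ℝ, x = inner ℝ δ e := ⟨_, rfl⟩
    obtain ⟨y, hy⟩ : ∃ y : E, y = δ - x • e := ⟨_, rfl⟩
    have hδn : ‖δ‖ ≤ d := by
      rw [hδ, hz, norm_sub_rev]
      exact norm_pt_sub_pt_le ht h1 h2
    have hxd : |x| ≤ d := by
      rw [hx]
      refine (abs_real_inner_le_norm δ e).trans ?_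
      rw [he, mul_one]; exact hδn
    have hye : inner ℝ y e = 0 := by
      rw [hy, inner_sub_left, real_inner_smul_left, hee, ← hx]; ring
    have hyd : ‖y‖ ≤ d := by
      have h3 : ‖δ‖ ^ 2 = x ^ 2 + ‖y‖ ^ 2 := by
        have h4 : δ = x • e + y := by rw [hy]; abel
        rw [h4, norm_add_sq_real, norm_smul, he, real_inner_smul_left, real_inner_comm, hye]
        simp
      have h5 : ‖y‖ ^ 2 ≤ ‖δ‖ ^ 2 := by rw [h3]; linarith [sq_nonneg x]
      exact (le_of_sq_le_sq h5 (norm_nonneg _)).trans hδn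
    have hz' : pt a' b' t = z + x • e + y := by
      rw [hy]
      have : pt a' b' t = z + δ := by rw [hδ]; abel
      rw [this]; abel
    rw [hz']
    have b1 := Fs_par hκ hΛ he hr huv a1.symm a3.symm x
    have b2 := Fs_perp hκ hΛ he hr huv (z + x • e) hye
    have h6 : |Fs κ Λ u v z - Fs κ Λ u v (z + x • e + y)| ≤
        |Fs κ Λ u v (z + x • e) - Fs κ Λ u v z| +
        |Fs κ Λ u v (z + x • e + y) - Fs κ Λ u v (z + x • e)| := by
      rw [abs_sub_comm]
      calc |Fs κ Λ u v (z + x • e + y) - Fs κ Λ u v z| =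
          |(Fs κ Λ u v (z + x • e) - Fs κ Λ u v z) +
          (Fs κ Λ u v (z + x • e + y) - Fs κ Λ u v (z + x • e))| := by congr 1; ring
        _ ≤ _ := abs_add_le _ _
    refine h6.trans (add_le_add (b1.trans ?_) (b2.trans ?_))
    · have := wq_nonneg (z - u)
      have := wq_nonneg (z - v)
      gcongr
    · gcongr
  calc |∫ t in (0 : ℝ)..1, (Fs κ Λ u v (pt a b t) - Fs κ Λ u v (pt a' b' t))|
      ≤ ∫ t in (0 : ℝ)..1, |Fs κ Λ u v (pt a b t) - Fs κ Λ u v (pt a' b' t)| :=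
        intervalIntegral.abs_integral_le_integral_abs (by norm_num)
    _ ≤ ∫ t in (0 : ℝ)..1, (6 * d * (√r)⁻¹ * ((√‖a - b‖)⁻¹ * |t - cu| ^ (-(1 / 2 : ℝ)) +
          (√‖a - b‖)⁻¹ * |t - cv| ^ (-(1 / 2 : ℝ))) + π * d / r) := by
        apply intervalIntegral.integral_mono_ae_restrict (by norm_num)
          (hc.abs.intervalIntegrable _ _)
          ((((i1.const_mul _).add (j1.const_mul _)).const_mul _).add intervalIntegrable_const)
        rw [EventuallyLE, ae_restrict_iff' measurableSet_Icc]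
        have n1 : ∀ᵐ t : ℝ, t ≠ cu := by rw [ae_iff]; simp
        have n2 : ∀ᵐ t : ℝ, t ≠ cv := by rw [ae_iff]; simp
        filter_upwards [n1, n2] with t b1 b2 ht
        exact hpoint t ht b1 b2
    _ = 6 * d * (√r)⁻¹ * ((√‖a - b‖)⁻¹ * (∫ t in (0 : ℝ)..1, |t - cu| ^ (-(1 / 2 : ℝ))) +
          (√‖a - b‖)⁻¹ * ∫ t in (0 : ℝ)..1, |t - cv| ^ (-(1 / 2 : ℝ))) + π * d / r := by
        rw [intervalIntegral.integral_add
            (((i1.const_mul _).add (j1.const_mul _)).const_mul _) intervalIntegrable_const,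
          intervalIntegral.integral_const_mul,
          intervalIntegral.integral_add (i1.const_mul _) (j1.const_mul _),
          intervalIntegral.integral_const_mul, intervalIntegral.integral_const_mul]
        simp
    _ ≤ 6 * d * (√r)⁻¹ * ((√‖a - b‖)⁻¹ * 4 + (√‖a - b‖)⁻¹ * 4) + π * d / r := by gcongr
    _ = _ := by ring

end Pool.Agent.H964.W
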