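import Pool.Agent.H964.WN.Exp

/-!
# The expectation of the potential: recursion (anisotropic cells)
-/

set_option autoImplicit false

namespace Pool.Agent.H964.W

open MeasureTheory ProbabilityTheory Real Filter Topology

variable {d : ℕ} {Ω : Type*} [MeasurableSpace Ω] {P : Measure Ω}
variable {κ : ℝ → ℝ} {C ρ₀ : ℝ} {h : ℕ → EuclideanSpace ℝ (Fin d) → Ω → ℝ}
variable (hκ : Ker κ C ρ₀) (hh : WNF P κ h) (i₀ : Fin d)

/-- the potential as a random variable -/
noncomputable def PsiO (N K : ℕ) (ε ξ p η : ℝ) (Mx n : ℕ) (u v : EuclideanSpace ℝ (Fin d)) (ω : Ω) : ℝ :=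
  Psi i₀ K ε ξ p η Mx (fun a b => XX hh N a b ω) (fun z => h N z ω) n u v

theorem XX_aemeas (N : ℕ) (a b : EuclideanSpace ℝ (Fin d)) : AEMeasurable (XX hh N a b : Ω → ℝ) P :=
  (Lp.aestronglyMeasurable (XX hh N a b)).aemeasurable

theorem leaf_aemeas (N K : ℕ) (ε ξ p : ℝ) (u v : EuclideanSpace ℝ (Fin d)) :
    AEMeasurable (fun ω => leaf K ε ξ p (fun a b => XX hh N a b ω) (fun z => h N z ω) u v) P := by
  unfold leaf
  apply Finset.aemeasurable_fun_sum
  intro n _
  have m2 : AEMeasurable (XX hh N u v : Ω → ℝ) P := XX_aemeas hh N u v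
  have m3 : AEMeasurable (h N (lp ε n)) P := (hh.cgp.meas (N, lp ε n)).aemeasurable
  apply AEMeasurable.mul
  · exact Real.measurable_exp.comp_aemeasurable (m2.const_mul _)
  · exact ((Real.measurable_exp.comp_aemeasurable (m3.const_mul _)).const_mul _).pow_const _

theorem dd_aemeas (N : ℕ) (u v u' c c' v' : EuclideanSpace ℝ (Fin d)) :
    AEMeasurable (fun ω => dd (fun a b => XX hh N a b ω) u v u' c c' v') P := by
  unfold dd
  exact (((XX_aemeas hh N u' c).add (XX_aemeas hh N c' v')).div_const 2).sub (XX_aemeas hh N u v)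

theorem PsiO_aemeas (N K : ℕ) (ε ξ p η : ℝ) (Mx : ℕ) : ∀ (n : ℕ) (u v : EuclideanSpace ℝ (Fin d)),
    AEMeasurable (PsiO hh i₀ N K ε ξ p η Mx n u v) P := by
  intro n
  induction n with
  | zero => intro u v; exact leaf_aemeas hh N K ε ξ p u v
  | succ n ih =>
    intro u v
    unfold PsiO
    simp only [Psi_succ]
    split_ifs
    · exact leaf_aemeas hh N K ε ξ p u v
    · apply Finset.aemeasurable_fun_sum
      intro M _
      apply Finset.aemeasurable_fun_sum
      intro ι _
      unfold refS refT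
      split_ifs
      · exact ((Real.measurable_exp.comp_aemeasurable ((dd_aemeas hh N _ _ _ _ _ _).const_mul _)).const_mul
          _).mul ((ih _ _).add (ih _ _))
      · exact aemeasurable_const

theorem coe_add_DD (N : ℕ) (D : Lp ℝ 2 P) (u v u' c c' v' : EuclideanSpace ℝ (Fin d)) :
    ∀ᵐ ω ∂P, (D + DD hh N u v u' c c' v') ω = D ω + dd (fun a b => XX hh N a b ω) u v u' c c' v' := by
  unfold DD dd
  filter_upwards [Lp.coeFn_add D ((1 / 2 : ℝ) • (XX hh N u' c + XX hh N c' v') - XX hh N u v),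
    Lp.coeFn_sub ((1 / 2 : ℝ) • (XX hh N u' c + XX hh N c' v')) (XX hh N u v),
    Lp.coeFn_smul (1 / 2 : ℝ) (XX hh N u' c + XX hh N c' v'),
    Lp.coeFn_add (XX hh N u' c) (XX hh N c' v')] with ω a1 a2 a3 a4
  rw [a1, Pi.add_apply, a2, Pi.sub_apply, a3, Pi.smul_apply, a4, Pi.add_apply]
  simp only [smul_eq_mul]
  ring

/-- data for the recursion -/
structure Par (d : ℕ) (ξ p η b : ℝ) (K Mx : ℕ) : Prop where
  η0 : 0 < η
  η1 : η ≤ 1 / 100
  p1 : 1 < p
  pη : p * η ^ 2 = 1
  pξ : p ^ 2 * ξ ^ 2 * η ≤ 1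
  bb : b = bd d
  bp : b ≤ p / 2
  M1 : 1 ≤ Mx * η
  M2 : Mx * η ≤ 1 + η
  K1 : 1 ≤ K
  K2 : 2 / η ≤ K

/-- the factor of one child -/
noncomputable def EM (b : ℝ) (M : ℕ) : ℝ := 2 ^ (-b) * exp (16988 * M - M ^ 2 / 24)

theorem EM_nonneg (b : ℝ) (M : ℕ) : 0 ≤ EM b M := by unfold EM; positivity

include hκ in
theorem claim2 {N : ℕ} {ε : ℝ} (hε : 0 < ε) (hεN : ε * exp (N * log 2) = 1) {ξ p η b : ℝ} {K Mx : ℕ}
    (hp : Par d ξ p η b K Mx) :
    ∀ (n : ℕ) {D : Lp ℝ 2 P} {u v : EuclideanSpace ℝ (Fin d)}, 0 < ‖u - v‖ → D ∈ GG hh →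
    Past2 hh N 2000 D ‖u - v‖ → η ^ 2 * ‖u - v‖ * (4 / 5) ^ n < ε →
    ∫⁻ ω, ENNReal.ofReal (exp (-(p * ξ) * D ω) * PsiO hh i₀ N K ε ξ p η Mx n u v ω) ∂P ≤
      ENNReal.ofReal (exp (p ^ 2 * ξ ^ 2 * ‖D‖ ^ 2) *
        (B0 d C N K ε ξ p η * (‖u - v‖ / (ε / η ^ 2)) ^ (b - p))) := by
  obtain ⟨η0, η1, p1, pη, pξ, hb, bp, M1, M2, K1, K2⟩ := hp
  have hd : 0 < d := Fin.pos i₀
  have b0 : 0 ≤ b := by rw [hb]; exact bd_nonneg d
  have hB0 : 0 ≤ B0 d C N K ε ξ p η := by unfold B0; positivity
  have hleaf : ∀ {D : Lp ℝ 2 P} {u v : EuclideanSpace ℝ (Fin d)}, 0 < ‖u - v‖ →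
      D ∈ GG hh → η ^ 2 * ‖u - v‖ < ε →
      ∫⁻ ω, ENNReal.ofReal (exp (-(p * ξ) * D ω) *
        leaf K ε ξ p (fun a b => XX hh N a b ω) (fun z => h N z ω) u v) ∂P ≤
      ENNReal.ofReal (exp (p ^ 2 * ξ ^ 2 * ‖D‖ ^ 2) *
        (B0 d C N K ε ξ p η * (‖u - v‖ / (ε / η ^ 2)) ^ (b - p))) := by
    intro D u v hr hD hlt
    refine (exp_leaf hκ hh hd hε hεN K1 η0 hD hlt).trans ?_
    apply ENNReal.ofReal_le_ofReal
    apply mul_le_mul_of_nonneg_left _ (by positivity)
    have h1 : 1 ≤ (‖u - v‖ / (ε / η ^ 2)) ^ (b - p) := by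
      apply Real.one_le_rpow_of_pos_of_le_one_of_nonpos (by positivity)
      · rw [div_le_one (by positivity), le_div_iff₀ (by positivity)]; linarith
      · linarith
    exact le_mul_of_one_le_right hB0 h1
  intro n
  induction n with
  | zero =>
    intro D u v hr hD hpast hf
    rw [pow_zero, mul_one] at hf
    exact hleaf hr hD hf
  | succ n ih =>
    intro D u v hr hD hpast hf
    unfold PsiO
    simp only [Psi_succ]
    split_ifs with hlt
    · exact hleaf hr hD hlt
    · have mD : AEMeasurable (fun ω => exp (-(p * ξ) * D ω)) P :=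
        Real.measurable_exp.comp_aemeasurable ((Lp.aestronglyMeasurable D).aemeasurable.const_mul _)
      set T : ℝ := exp (p ^ 2 * ξ ^ 2 * ‖D‖ ^ 2) *
        (B0 d C N K ε ξ p η * (‖u - v‖ / (ε / η ^ 2)) ^ (b - p)) with hT
      have hT0 : 0 ≤ T := by positivity
      -- one child
      have child : ∀ {M : ℕ} {u' c c' v' a₁ a₂ : EuclideanSpace ℝ (Fin d)}, Valid η M u v u' c c' v' →
          ((a₁ = u' ∧ a₂ = c) ∨ (a₁ = c' ∧ a₂ = v')) →
          ∫⁻ ω, ENNReal.ofReal (exp (-(p * ξ) * D ω) * (2 ^ (-p) *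
            exp (-(p * ξ) * dd (fun a b => XX hh N a b ω) u v u' c c' v') *
            PsiO hh i₀ N K ε ξ p η Mx n a₁ a₂ ω)) ∂P ≤
          ENNReal.ofReal (EM b M * T) := by
        intro M u' c c' v' a₁ a₂ hval ha
        obtain ⟨d1, d2, d3, d4, l1, l2, L1, L2, g1, g2, b1, b3⟩ := hval
        have hnorm := norm_add_DD2 hκ hh hr l1 l2 hpast d1 d2 d3 d4
        have hla : ‖u - v‖ / 4 ≤ ‖a₁ - a₂‖ := by
          rcases ha with ⟨rfl, rfl⟩ | ⟨rfl, rfl⟩
          · exact l1
          · exact l2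
        have hLa : ‖a₁ - a₂‖ ≤ 4 / 5 * ‖u - v‖ := by
          rcases ha with ⟨rfl, rfl⟩ | ⟨rfl, rfl⟩
          · exact L1
          · exact L2
        have hga : (1 + (M * η) ^ 2 / 2 - 58 * M * η ^ 2) * ‖u - v‖ ^ 2 ≤ 4 * ‖a₁ - a₂‖ ^ 2 := by
          rcases ha with ⟨rfl, rfl⟩ | ⟨rfl, rfl⟩
          · exact g1
          · exact g2
        have hra : 0 < ‖a₁ - a₂‖ := by linarith
        have hpa := Past2_add hκ hh hr l1 l2 hpast hra hLa
        have hfa : η ^ 2 * ‖a₁ - a₂‖ * (4 / 5) ^ n < ε := by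
          refine lt_of_le_of_lt ?_ hf
          rw [pow_succ]
          calc η ^ 2 * ‖a₁ - a₂‖ * (4 / 5) ^ n = (η ^ 2 * (4 / 5 : ℝ) ^ n) * ‖a₁ - a₂‖ := by ring
            _ ≤ (η ^ 2 * (4 / 5 : ℝ) ^ n) * (4 / 5 * ‖u - v‖) := by gcongr
            _ = _ := by ring
        have hI := ih hra (Submodule.add_mem _ hD (DD_mem hκ hh N u v u' c c' v')) hpa hfa
        have e1 : ∫⁻ ω, ENNReal.ofReal (exp (-(p * ξ) * D ω) * (2 ^ (-p) *
            exp (-(p * ξ) * dd (fun a b => XX hh N a b ω) u v u' c c' v') *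
            PsiO hh i₀ N K ε ξ p η Mx n a₁ a₂ ω)) ∂P =
            ENNReal.ofReal (2 ^ (-p)) * ∫⁻ ω, ENNReal.ofReal
              (exp (-(p * ξ) * (D + DD hh N u v u' c c' v') ω) *
                PsiO hh i₀ N K ε ξ p η Mx n a₁ a₂ ω) ∂P := by
          rw [← lintegral_const_mul' _ _ ENNReal.ofReal_ne_top]
          apply lintegral_congr_ae
          filter_upwards [coe_add_DD hh N D u v u' c c' v'] with ω hω
          rw [← ENNReal.ofReal_mul (by positivity), hω, mul_add, Real.exp_add]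
          congr 1
          ring
        rw [e1]
        calc _ ≤ ENNReal.ofReal (2 ^ (-p)) * ENNReal.ofReal
              (exp (p ^ 2 * ξ ^ 2 * ‖D + DD hh N u v u' c c' v'‖ ^ 2) *
              (B0 d C N K ε ξ p η * (‖a₁ - a₂‖ / (ε / η ^ 2)) ^ (b - p))) := by gcongr
          _ = ENNReal.ofReal (2 ^ (-p) * (exp (p ^ 2 * ξ ^ 2 * ‖D + DD hh N u v u' c c' v'‖ ^ 2) *
              (B0 d C N K ε ξ p η * (‖a₁ - a₂‖ / (ε / η ^ 2)) ^ (b - p)))) :=
            (ENNReal.ofReal_mul (by positivity)).symm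
          _ ≤ _ := by
            apply ENNReal.ofReal_le_ofReal
            obtain ⟨y, hy⟩ : ∃ y, y = 2 * ‖a₁ - a₂‖ / ‖u - v‖ := ⟨_, rfl⟩
            have hyr : y * ‖u - v‖ = 2 * ‖a₁ - a₂‖ := by rw [hy]; field_simp
            have hy0 : 1 / 2 ≤ y := by
              rw [hy, le_div_iff₀ hr]; linarith
            have hy1 : y ≤ 8 / 5 := by
              rw [hy, div_le_iff₀ hr]; linarith
            have hyg : 1 + (M * η) ^ 2 / 2 - 58 * M * η ^ 2 ≤ y ^ 2 := by
              have h1 : 4 * ‖a₁ - a₂‖ ^ 2 = y ^ 2 * ‖u - v‖ ^ 2 := by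
                rw [← mul_pow, hyr]; ring
              rw [h1] at hga
              exact le_of_mul_le_mul_right hga (by positivity)
            have hstep := step_real2 (by linarith) pη b0 bp hy0 hy1 hyg
            have e2 : (‖a₁ - a₂‖ / (ε / η ^ 2)) ^ (b - p) =
                (y / 2) ^ (b - p) * (‖u - v‖ / (ε / η ^ 2)) ^ (b - p) := by
              rw [← Real.mul_rpow (by linarith) (by positivity)]
              congr 1
              rw [hy]
              field_simp
            have e3 : exp (p ^ 2 * ξ ^ 2 * ‖D + DD hh N u v u' c c' v'‖ ^ 2) ≤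
                exp (p ^ 2 * ξ ^ 2 * ‖D‖ ^ 2) * exp (16872 * M) := by
              rw [← Real.exp_add]
              apply Real.exp_le_exp.2
              have h1 : p ^ 2 * ξ ^ 2 * ‖D + DD hh N u v u' c c' v'‖ ^ 2 ≤
                  p ^ 2 * ξ ^ 2 * (‖D‖ ^ 2 + 8436 * (2 * (M * η))) := by gcongr
              have h2 : p ^ 2 * ξ ^ 2 * (‖D‖ ^ 2 + 8436 * (2 * (M * η))) =
                  p ^ 2 * ξ ^ 2 * ‖D‖ ^ 2 + 16872 * M * (p ^ 2 * ξ ^ 2 * η) := by ring
              have h3 : 16872 * (M : ℝ) * (p ^ 2 * ξ ^ 2 * η) ≤ 16872 * M * 1 := by gcongr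
              rw [h2] at h1
              linarith
            have e4 : EM b M = (2 ^ (-b) * exp (116 * M - M ^ 2 / 24)) * exp (16872 * M) := by
              rw [EM, mul_assoc, ← Real.exp_add]
              congr 2
              ring
            rw [e2]
            calc 2 ^ (-p) * (exp (p ^ 2 * ξ ^ 2 * ‖D + DD hh N u v u' c c' v'‖ ^ 2) *
                  (B0 d C N K ε ξ p η * ((y / 2) ^ (b - p) * (‖u - v‖ / (ε / η ^ 2)) ^ (b - p)))) ≤
                2 ^ (-p) * ((exp (p ^ 2 * ξ ^ 2 * ‖D‖ ^ 2) * exp (16872 * M)) *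
                  (B0 d C N K ε ξ p η * ((y / 2) ^ (b - p) * (‖u - v‖ / (ε / η ^ 2)) ^ (b - p)))) := by
                  have : 0 ≤ (y / 2) ^ (b - p) := Real.rpow_nonneg (by linarith) _
                  gcongr
              _ = (2 ^ (-p) * (y / 2) ^ (b - p)) * exp (16872 * M) * T := by rw [hT]; ring
              _ ≤ (2 ^ (-b) * exp (116 * M - M ^ 2 / 24)) * exp (16872 * M) * T := by gcongr
              _ = _ := by rw [e4]
      -- one refinement
      have one : ∀ (M : ℕ) (u' c c' v' : EuclideanSpace ℝ (Fin d)), ∫⁻ ω, ENNReal.ofReal (exp (-(p * ξ) * D ω) *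
          refT ξ p η M (fun a b => XX hh N a b ω)
            (Psi i₀ K ε ξ p η Mx (fun a b => XX hh N a b ω) (fun z => h N z ω) n) u v u' c c' v') ∂P ≤
          ENNReal.ofReal (2 * EM b M * T) := by
        intro M u' c c' v'
        have hEM := EM_nonneg b M
        unfold refT
        split_ifs with hval
        · have c1 := child hval (Or.inl ⟨rfl, rfl⟩)
          have c2 := child hval (Or.inr ⟨rfl, rfl⟩)
          have m1 : AEMeasurable (fun ω => ENNReal.ofReal (exp (-(p * ξ) * D ω) * (2 ^ (-p) *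
            exp (-(p * ξ) * dd (fun a b => XX hh N a b ω) u v u' c c' v') *
            PsiO hh i₀ N K ε ξ p η Mx n u' c ω))) P := by
            apply AEMeasurable.ennreal_ofReal
            exact mD.mul (((Real.measurable_exp.comp_aemeasurable
              ((dd_aemeas hh N _ _ _ _ _ _).const_mul _)).const_mul _).mul
              (PsiO_aemeas hh i₀ N K ε ξ p η Mx n u' c))
          calc _ = ∫⁻ ω, (ENNReal.ofReal (exp (-(p * ξ) * D ω) * (2 ^ (-p) *
                exp (-(p * ξ) * dd (fun a b => XX hh N a b ω) u v u' c c' v') *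
                PsiO hh i₀ N K ε ξ p η Mx n u' c ω)) + ENNReal.ofReal (exp (-(p * ξ) * D ω) * (2 ^ (-p) *
                exp (-(p * ξ) * dd (fun a b => XX hh N a b ω) u v u' c c' v') *
                PsiO hh i₀ N K ε ξ p η Mx n c' v' ω))) ∂P := by
                apply lintegral_congr
                intro ω
                have n1 : 0 ≤ PsiO hh i₀ N K ε ξ p η Mx n u' c ω := Psi_nonneg hε _ _ _
                have n2 : 0 ≤ PsiO hh i₀ N K ε ξ p η Mx n c' v' ω := Psi_nonneg hε _ _ _
                rw [← ENNReal.ofReal_add (by positivity) (by positivity)]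
                congr 1
                unfold PsiO
                ring
            _ = _ := lintegral_add_left' m1 _
            _ ≤ ENNReal.ofReal (EM b M * T) + ENNReal.ofReal (EM b M * T) := add_le_add c1 c2
            _ = _ := by
                rw [← ENNReal.ofReal_add (by positivity) (by positivity)]
                congr 1
                ring
        · simp
      have mref : ∀ (M : ℕ) (ι : I4 d), AEMeasurable (fun ω => ENNReal.ofReal (exp (-(p * ξ) * D ω) *
          refS i₀ ξ p η (fun a b => XX hh N a b ω)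
            (Psi i₀ K ε ξ p η Mx (fun a b => XX hh N a b ω) (fun z => h N z ω) n) u v M ι)) P := by
        intro M ι
        apply AEMeasurable.ennreal_ofReal
        apply mD.mul
        unfold refS refT
        split_ifs
        · exact ((Real.measurable_exp.comp_aemeasurable
            ((dd_aemeas hh N _ _ _ _ _ _).const_mul _)).const_mul _).mul
            ((PsiO_aemeas hh i₀ N K ε ξ p η Mx n _ _).add (PsiO_aemeas hh i₀ N K ε ξ p η Mx n _ _))
        · exact aemeasurable_const
      have hnn : ∀ (ω : Ω) (M : ℕ) (ι : I4 d), 0 ≤ exp (-(p * ξ) * D ω) *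
          refS i₀ ξ p η (fun a b => XX hh N a b ω)
            (Psi i₀ K ε ξ p η Mx (fun a b => XX hh N a b ω) (fun z => h N z ω) n) u v M ι := by
        intro ω M ι
        exact mul_nonneg (exp_pos _).le (refT_nonneg (Psi_nonneg hε n) _ _ _ _ _ _)
      calc _ = ∑ M ∈ Finset.Icc 1 Mx, ∑ ι ∈ II d (65 * d * M ^ 2), ∫⁻ ω, ENNReal.ofReal (exp (-(p * ξ) * D ω) *
          refS i₀ ξ p η (fun a b => XX hh N a b ω)
            (Psi i₀ K ε ξ p η Mx (fun a b => XX hh N a b ω) (fun z => h N z ω) n) u v M ι) ∂P := by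
            have s1 : ∀ M ∈ Finset.Icc 1 Mx, ∑ ι ∈ II d (65 * d * M ^ 2), ∫⁻ ω,
                ENNReal.ofReal (exp (-(p * ξ) * D ω) *
                refS i₀ ξ p η (fun a b => XX hh N a b ω)
                (Psi i₀ K ε ξ p η Mx (fun a b => XX hh N a b ω) (fun z => h N z ω) n) u v M ι) ∂P =
                ∫⁻ ω, ∑ ι ∈ II d (65 * d * M ^ 2), ENNReal.ofReal (exp (-(p * ξ) * D ω) *
                refS i₀ ξ p η (fun a b => XX hh N a b ω)
                (Psi i₀ K ε ξ p η Mx (fun a b => XX hh N a b ω) (fun z => h N z ω) n) u v M ι) ∂P := by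
              intro M _
              rw [lintegral_finsetSum' _ (fun ι _ => mref M ι)]
            rw [Finset.sum_congr rfl s1, ← lintegral_finsetSum' _
              (fun M _ => Finset.aemeasurable_fun_sum _ (fun ι _ => mref M ι))]
            apply lintegral_congr
            intro ω
            rw [Finset.mul_sum, ENNReal.ofReal_sum_of_nonneg]
            · apply Finset.sum_congr rfl
              intro M _
              rw [Finset.mul_sum, ENNReal.ofReal_sum_of_nonneg (fun ι _ => hnn ω M ι)]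
            · intro M _
              rw [Finset.mul_sum]
              exact Finset.sum_nonneg (fun ι _ => hnn ω M ι)
        _ ≤ ∑ M ∈ Finset.Icc 1 Mx, ∑ ι ∈ II d (65 * d * M ^ 2), ENNReal.ofReal (2 * EM b M * T) :=
            Finset.sum_le_sum fun M _ => Finset.sum_le_sum fun ι _ => one _ _ _ _ _
        _ = ENNReal.ofReal ((∑ M ∈ Finset.Icc 1 Mx, (130 * d * (M : ℝ) ^ 2 + 1) ^ (4 * d) * (2 * EM b M)) * T) := by
            rw [Finset.sum_mul, ENNReal.ofReal_sum_of_nonneg]
            · apply Finset.sum_congr rfl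
              intro M _
              have hEM := EM_nonneg b M
              rw [Finset.sum_const, card_II, nsmul_eq_mul]
              rw [show (((2 * (65 * d * M ^ 2) + 1) ^ (4 * d) : ℕ) : ENNReal) =
                ENNReal.ofReal ((130 * d * (M : ℝ) ^ 2 + 1) ^ (4 * d)) by
                rw [← ENNReal.ofReal_natCast]; push_cast; ring_nf,
                ← ENNReal.ofReal_mul (by positivity)]
              congr 1
              ring
            · intro M _
              have hEM := EM_nonneg b M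
              positivity
        _ ≤ ENNReal.ofReal T := by
            apply ENNReal.ofReal_le_ofReal
            have hs := sum_classes hd Mx
            rw [← hb] at hs
            calc _ ≤ 1 * T := by
                  apply mul_le_mul_of_nonneg_right _ hT0
                  exact hs
              _ = T := one_mul _

end Pool.Agent.H964.W
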