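import Pool.Agent.H964.WN.Rec

/-!
# The root of the tree and the lower bound for discrete paths
-/

set_option autoImplicit false

namespace Pool.Agent.H964.W

open MeasureTheory ProbabilityTheory Real Filter Topology

variable {d : ℕ} {Ω : Type*} [MeasurableSpace Ω] {P : Measure Ω}
variable {κ : ℝ → ℝ} {C ρ₀ : ℝ} {h : ℕ → EuclideanSpace ℝ (Fin d) → Ω → ℝ}
variable (hκ : Ker κ C ρ₀) (hh : WNF P κ h) (i₀ : Fin d)

/-- the potential of the root -/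
noncomputable def FR (N K : ℕ) (ε ξ p η : ℝ) (Mx n : ℕ) (ω : Ω) : ℝ :=
  exp (-(p * ξ) * XX hh N 0 (e₀ i₀) ω) * PsiO hh i₀ N K ε ξ p η Mx n 0 (e₀ i₀) ω

/-- the constant of the root -/
noncomputable def CR (d : ℕ) (C ρ₀ : ℝ) (K : ℕ) (ξ p η b : ℝ) : ℝ :=
  exp (p ^ 2 * ξ ^ 2 * (8 * √ρ₀)) * ((8 * d * K + 2) ^ d *
    exp (2 * p ^ 2 * ξ ^ 2 * (2 * (C * (1 / η ^ 2 + 2 * d * K)))) * (η ^ 2) ^ (b - p))

theorem CR_nonneg (d : ℕ) (C ρ₀ : ℝ) (K : ℕ) (ξ p η b : ℝ) : 0 ≤ CR d C ρ₀ K ξ p η b := by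
  unfold CR; positivity

include hκ in
theorem prob_root {N : ℕ} {ε : ℝ} (hε : 0 < ε) (hεN : ε * exp (N * log 2) = 1) {ξ p η b : ℝ} {K Mx : ℕ}
    (hp : Par d ξ p η b K Mx) {n : ℕ} (hn : η ^ 2 * (4 / 5) ^ n < ε) :
    P {ω | ε ^ (-(b + 2 * ξ ^ 2)) ≤ FR hh i₀ N K ε ξ p η Mx n ω} ≤
      ENNReal.ofReal (CR d C ρ₀ K ξ p η b * ε) := by
  have hn0 : ‖(0 : EuclideanSpace ℝ (Fin d)) - e₀ i₀‖ = 1 := by rw [zero_sub, norm_neg, norm_e₀]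
  have hη0 := hp.η0
  have h1 := claim2 hκ hh i₀ hε hεN hp n (D := XX hh N 0 (e₀ i₀)) (u := 0) (v := e₀ i₀)
    (by rw [hn0]; norm_num) (XX_mem hκ hh N _ _) (root_past2 hκ hh (by rw [hn0]; norm_num))
    (by rw [hn0, mul_one]; exact hn)
  rw [hn0] at h1
  have hXn := root_norm hκ hh (n := N) hn0
  have hε2 : exp (2 * ξ ^ 2 * (N * log 2)) = ε ^ (-(2 * ξ ^ 2)) := by
    have e1 : exp (N * log 2) = ε⁻¹ := by field_simp; linarith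
    rw [Real.rpow_neg hε.le, ← Real.inv_rpow hε.le, ← e1, ← Real.exp_mul]
    congr 1; ring
  have e2 : B0 d C N K ε ξ p η * (1 / (ε / η ^ 2)) ^ (b - p) =
      ((8 * d * K + 2) ^ d *
        exp (2 * p ^ 2 * ξ ^ 2 * (2 * (C * (1 / η ^ 2 + 2 * d * K)))) * (η ^ 2) ^ (b - p)) *
        ε ^ (1 - b - 2 * ξ ^ 2) := by
    unfold B0
    rw [Real.exp_add, hε2, one_div_div, Real.div_rpow (by positivity) hε.le]
    have e3 : ε ^ (1 - b - 2 * ξ ^ 2) = ε ^ (1 - p) * ε ^ (-(2 * ξ ^ 2)) / ε ^ (b - p) := by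
      rw [← Real.rpow_add hε, ← Real.rpow_sub hε]; congr 1; ring
    rw [e3]
    ring
  have h2 : ∫⁻ ω, ENNReal.ofReal (FR hh i₀ N K ε ξ p η Mx n ω) ∂P ≤
      ENNReal.ofReal (CR d C ρ₀ K ξ p η b * ε ^ (1 - b - 2 * ξ ^ 2)) := by
    refine h1.trans ?_
    apply ENNReal.ofReal_le_ofReal
    rw [e2]
    unfold CR
    have h3 : exp (p ^ 2 * ξ ^ 2 * ‖XX hh N 0 (e₀ i₀)‖ ^ 2) ≤ exp (p ^ 2 * ξ ^ 2 * (8 * √ρ₀)) := by
      apply Real.exp_le_exp.2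
      gcongr
    calc _ ≤ exp (p ^ 2 * ξ ^ 2 * (8 * √ρ₀)) * (((8 * d * K + 2) ^ d *
        exp (2 * p ^ 2 * ξ ^ 2 * (2 * (C * (1 / η ^ 2 + 2 * d * K)))) * (η ^ 2) ^ (b - p)) *
        ε ^ (1 - b - 2 * ξ ^ 2)) := by gcongr
      _ = _ := by ring
  have hm : AEMeasurable (fun ω => ENNReal.ofReal (FR hh i₀ N K ε ξ p η Mx n ω)) P := by
    apply AEMeasurable.ennreal_ofReal
    exact (Real.measurable_exp.comp_aemeasurable ((XX_aemeas hh N _ _).const_mul _)).mul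
      (PsiO_aemeas hh i₀ N K ε ξ p η Mx n _ _)
  have hmk := mul_meas_ge_le_lintegral₀ hm (ENNReal.ofReal (ε ^ (-(b + 2 * ξ ^ 2))))
  have hpos : 0 < ε ^ (-(b + 2 * ξ ^ 2)) := by positivity
  have hpos' : ENNReal.ofReal (ε ^ (-(b + 2 * ξ ^ 2))) ≠ 0 := by
    simpa using hpos
  have hsub : P {ω | ε ^ (-(b + 2 * ξ ^ 2)) ≤ FR hh i₀ N K ε ξ p η Mx n ω} ≤
      P {ω | ENNReal.ofReal (ε ^ (-(b + 2 * ξ ^ 2))) ≤ ENNReal.ofReal (FR hh i₀ N K ε ξ p η Mx n ω)} :=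
    measure_mono fun ω hω => ENNReal.ofReal_le_ofReal hω
  refine hsub.trans ?_
  have h5 : P {ω | ENNReal.ofReal (ε ^ (-(b + 2 * ξ ^ 2))) ≤ ENNReal.ofReal (FR hh i₀ N K ε ξ p η Mx n ω)} ≤
      ENNReal.ofReal (CR d C ρ₀ K ξ p η b * ε ^ (1 - b - 2 * ξ ^ 2)) /
        ENNReal.ofReal (ε ^ (-(b + 2 * ξ ^ 2))) := by
    rw [ENNReal.le_div_iff_mul_le (Or.inl hpos') (Or.inl ENNReal.ofReal_ne_top), mul_comm]
    exact hmk.trans h2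
  refine h5.trans ?_
  rw [← ENNReal.ofReal_div_of_pos hpos]
  apply ENNReal.ofReal_le_ofReal
  apply le_of_eq
  rw [mul_div_assoc, ← Real.rpow_sub hε]
  rw [show 1 - b - 2 * ξ ^ 2 - -(b + 2 * ξ ^ 2) = 1 by ring, Real.rpow_one]

theorem good_root {N : ℕ} {ε : ℝ} (hε : 0 < ε) {ξ p η b : ℝ} {K Mx : ℕ}
    (hp : Par d ξ p η b K Mx) {n : ℕ} (hn : η ^ 2 * (4 / 5) ^ n < ε) (hε1 : ε ≤ η ^ 2) {ω : Ω}
    (hω : FR hh i₀ N K ε ξ p η Mx n ω < ε ^ (-(b + 2 * ξ ^ 2)))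
    {m : ℕ → Fin d → ℤ} {J : ℕ} (hstep : ∀ k < J, ‖lp ε (m (k + 1)) - lp ε (m k)‖ ≤ ε)
    (h0 : ‖lp ε (m 0)‖ ≤ ε) (h1 : ‖lp ε (m J) - e₀ i₀‖ ≤ ε) :
    0 < J ∧ (∑ k ∈ Finset.range J, ε * exp (ξ * h N (lp ε (m k)) ω)) ^ (1 - p) < ε ^ (-(b + 2 * ξ ^ 2)) := by
  obtain ⟨η0, η1, p1, pη, pξ, hb, bp, M1, M2, K1, K2⟩ := hp
  have hn0 : ‖(0 : EuclideanSpace ℝ (Fin d)) - e₀ i₀‖ = 1 := by rw [zero_sub, norm_neg, norm_e₀]
  have hη2 : η ^ 2 ≤ 1 / 10000 := by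
    calc η ^ 2 ≤ (1 / 100) ^ 2 := by gcongr
      _ = _ := by norm_num
  have hη3 : η ^ 2 ≤ η := by nlinarith
  have hJ : 0 < J := by
    rcases Nat.eq_zero_or_pos J with h3 | h3
    · exfalso
      rw [h3] at h1
      have : ‖e₀ i₀‖ ≤ ‖lp ε (m 0)‖ + ‖lp ε (m 0) - e₀ i₀‖ := by
        calc ‖e₀ i₀‖ = ‖lp ε (m 0) - (lp ε (m 0) - e₀ i₀)‖ := by congr 1; abel
          _ ≤ _ := norm_sub_le _ _
      rw [norm_e₀] at this
      linarith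
    · exact h3
  refine ⟨hJ, ?_⟩
  have hnode : Node (fun k => lp ε (m k)) ε η 0 J 0 (e₀ i₀) := by
    refine ⟨hJ, fun k _ hk => hstep k hk, ?_, ?_⟩
    · simp only [sub_zero, norm_e₀]
      constructor
      · refine (abs_inner_le (norm_e₀ i₀) _).trans ?_
        linarith
      · linarith
    · simp only [sub_zero, norm_e₀]
      constructor
      · refine (abs_inner_le (norm_e₀ i₀) _).trans ?_
        linarith
      · linarith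
  have hc1 := claim1 i₀ (X := fun a b => XX hh N a b ω) (H := fun z => h N z ω) (ξ := ξ)
    hε η0 η1 p1 M1 M2 K2 n (by rw [hn0]; norm_num) hnode (by rw [hn0, mul_one]; exact hn)
  set S := SS ε ξ (fun z => h N z ω) (fun k => lp ε (m k)) 0 J with hS
  have hSe : S = ∑ k ∈ Finset.range J, ε * exp (ξ * h N (lp ε (m k)) ω) := by
    rw [hS, SS, Finset.range_eq_Ico]
  have hSpos : 0 < S := by
    rw [hS, SS]
    apply Finset.sum_pos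
    · intro k _; positivity
    · exact ⟨0, Finset.mem_Ico.2 ⟨le_rfl, hJ⟩⟩
  have hlow := one_le_of_claim p1 hSpos (Psi_nonneg hε n 0 (e₀ i₀)) hc1
  rw [← hSe]
  refine lt_of_le_of_lt (hlow.trans (le_of_eq ?_)) hω
  rw [FR, PsiO]
  congr 2
  ring

end Pool.Agent.H964.W
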