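import Pool.Agent.H964.WN.Lay

/-!
# The test functionals of the nodes
-/

set_option autoImplicit false

namespace Pool.Agent.H964.W

open MeasureTheory ProbabilityTheory Real Filter Topology

/-- the node is in the disc of radius `3 / 2`, with a margin -/
def RG (s : ℝ) (u v : ℂ) : Prop := ∀ t ∈ Set.Icc (0 : ℝ) 1, ‖pt u v t‖ + 4 * s * ‖u - v‖ ≤ 3 / 2

/-- the region of a node -/
def Rg (s : ℝ) (u v z : ℂ) : Prop := ∃ t ∈ Set.Icc (0 : ℝ) 1, ‖z - pt u v t‖ ≤ 2 * s * ‖u - v‖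

theorem RG_len {s : ℝ} {u v : ℂ} (hs : 0 ≤ s) (hR : RG s u v) : ‖u - v‖ ≤ 3 := by
  have h0 := hR 0 ⟨le_rfl, zero_le_one⟩
  have h1 := hR 1 ⟨zero_le_one, le_rfl⟩
  rw [pt_zero] at h0
  rw [pt_one] at h1
  have := norm_sub_le u v
  have h3 : 0 ≤ s * ‖u - v‖ := by positivity
  linarith

theorem child_pt' {s : ℝ} (hs : 0 ≤ s) {D : ℕ} (hD : 0 < D) (u v : ℂ) (τ : ℝ) {i : ℕ} (hi : i < 2 * D)
    {t : ℝ} (ht : t ∈ Set.Icc (0 : ℝ) 1) :
    ∃ x ∈ Set.Icc (0 : ℝ) 1, ∃ y ∈ Set.Icc (0 : ℝ) s,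
      pt (PP s D u v τ i) (PP s D u v τ (i + 1)) t = fr u v x (τ * y) := by
  rw [← pt_eq]
  exact child_pt hs hD u v τ hi ht

theorem child_mid' {s : ℝ} {D₂ : ℕ} (hD : 0 < D₂) (u v : ℂ) (τ : ℝ) {i : ℕ} (hi1 : D₂ ≤ i)
    (hi2 : i < 2 * D₂) {t : ℝ} (ht : t ∈ Set.Icc (0 : ℝ) 1) :
    ∃ t₀ ∈ Set.Icc (0 : ℝ) 1,
      pt (PP s (2 * D₂) u v τ i) (PP s (2 * D₂) u v τ (i + 1)) t = pt (aa s u v τ) (cc s u v τ) t₀ := by
  obtain ⟨t₀, ht₀, e⟩ := child_mid (s := s) hD u v τ hi1 hi2 ht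
  rw [pt_eq, pt_eq] at e
  exact ⟨t₀, ht₀, e⟩

theorem pt_aa_cc' {s : ℝ} (u v : ℂ) (τ t : ℝ) :
    pt (aa s u v τ) (cc s u v τ) t = fr u v (1 / 4 + t / 4) (τ * (s / 2 + t * (s / 2))) := by
  rw [← pt_eq]; exact pt_aa_cc u v τ t

theorem fr_base' {u v : ℂ} {s x y : ℝ} (hy : |y| ≤ s) : ‖fr u v x y - pt u v x‖ ≤ s * ‖u - v‖ := by
  rw [← pt_eq]; exact fr_base hy

theorem fr_in {s : ℝ} {u v : ℂ} (hR : RG s u v) {x y : ℝ} (hx : x ∈ Set.Icc (0 : ℝ) 1)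
    (hy : |y| ≤ s) : ‖fr u v x y‖ + 3 * s * ‖u - v‖ ≤ 3 / 2 := by
  have h1 := hR x hx
  have h2 := fr_base' (u := u) (v := v) (x := x) hy
  have h3 : ‖fr u v x y‖ ≤ ‖fr u v x y - pt u v x‖ + ‖pt u v x‖ := by
    calc ‖fr u v x y‖ = ‖(fr u v x y - pt u v x) + pt u v x‖ := by ring_nf
      _ ≤ _ := norm_add_le _ _
  linarith

theorem tau_abs {τ : ℝ} (hτ : τ = 1 ∨ τ = -1) : |τ| = 1 := by
  rcases hτ with rfl | rfl <;> simp

theorem test_len {s : ℝ} (u v : ℂ) {τ : ℝ} (hτ : τ = 1 ∨ τ = -1) :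
    1 / 4 * ‖u - v‖ ≤ ‖aa s u v τ - cc s u v τ‖ := by
  rw [norm_aa_cc u v hτ]
  have := lam2_ge s
  nlinarith [norm_nonneg (u - v)]

/-- the layer of a node -/
noncomputable def jn (ρ₀ s : ℝ) (u v : ℂ) : ℕ := sInf {j : ℕ | (1 / 2 : ℝ) ^ j < s * ‖u - v‖ / (8 * ρ₀)}

section node

variable {κ : ℝ → ℝ} {C ρ₀ : ℝ} (hκ : Ker κ C ρ₀)
variable {s : ℝ} {u v : ℂ} (hs : 0 < s) (hs1 : s ≤ 1 / 16) (hL : 0 < ‖u - v‖)

include hκ hs hL in
theorem jn_lt : (1 / 2 : ℝ) ^ (jn ρ₀ s u v) < s * ‖u - v‖ / (8 * ρ₀) := by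
  have hr := hκ.r1
  have hx : 0 < s * ‖u - v‖ / (8 * ρ₀) := by positivity
  have hne : {j : ℕ | (1 / 2 : ℝ) ^ j < s * ‖u - v‖ / (8 * ρ₀)}.Nonempty := by
    obtain ⟨j, hj⟩ := exists_pow_lt_of_lt_one hx (by norm_num : (1 / 2 : ℝ) < 1)
    exact ⟨j, hj⟩
  exact Nat.sInf_mem hne

include hκ hs hs1 hL in
theorem jn_ge (hlen : ‖u - v‖ ≤ 3) : s * ‖u - v‖ / (16 * ρ₀) ≤ (1 / 2 : ℝ) ^ (jn ρ₀ s u v) := by
  have hr := hκ.r1
  obtain ⟨j, hj⟩ : ∃ j, j = jn ρ₀ s u v := ⟨_, rfl⟩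
  rw [← hj]
  rcases Nat.eq_zero_or_pos j with h0 | h0
  · rw [h0, pow_zero, div_le_one (by positivity)]
    have : s * ‖u - v‖ ≤ 1 / 16 * 3 := by gcongr
    linarith
  · have h1 : ¬ (j - 1) ∈ {j : ℕ | (1 / 2 : ℝ) ^ j < s * ‖u - v‖ / (8 * ρ₀)} := by
      apply Nat.notMem_of_lt_sInf
      change j - 1 < jn ρ₀ s u v
      omega
    have h2 : s * ‖u - v‖ / (8 * ρ₀) ≤ (1 / 2 : ℝ) ^ (j - 1) := not_lt.1 h1
    have h3 : (1 / 2 : ℝ) ^ (j - 1) = 2 * (1 / 2) ^ j := by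
      obtain ⟨i, rfl⟩ : ∃ i, j = i + 1 := ⟨j - 1, by omega⟩
      rw [Nat.add_sub_cancel, pow_succ]; ring
    rw [h3] at h2
    have h4 : s * ‖u - v‖ / (16 * ρ₀) = s * ‖u - v‖ / (8 * ρ₀) / 2 := by field_simp; norm_num
    rw [h4]; linarith

include hκ hs hL in
theorem rad_lt : ρ₀ / 2 ^ (jn ρ₀ s u v) < s * ‖u - v‖ / 8 := by
  have hr := hκ.r1
  have h := jn_lt hκ hs hL
  have e : ρ₀ / 2 ^ (jn ρ₀ s u v) = ρ₀ * (1 / 2) ^ (jn ρ₀ s u v) := by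
    rw [one_div, inv_pow]; rfl
  rw [e]
  calc ρ₀ * (1 / 2) ^ (jn ρ₀ s u v) < ρ₀ * (s * ‖u - v‖ / (8 * ρ₀)) := by gcongr
    _ = _ := by field_simp

include hκ hs hs1 hL in
theorem inv_ge (hlen : ‖u - v‖ ≤ 3) : s * ‖u - v‖ / (16 * ρ₀) ≤ 1 / 2 ^ (jn ρ₀ s u v) := by
  have := jn_ge hκ hs hs1 hL hlen
  rwa [one_div, inv_pow, ← one_div] at this

/-- the potential of the test functional -/
noncomputable def VV (κ : ℝ → ℝ) (ρ₀ s : ℝ) (u v z : ℂ) : ℝ :=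
  Uj κ (jn ρ₀ s u v) (aa s u v 1) (cc s u v 1) z - Uj κ (jn ρ₀ s u v) (aa s u v (-1)) (cc s u v (-1)) z

include hs hL in
/-- distances from the tests, for points in the region of a child -/
theorem child_far {D : ℕ} (hD : 0 < D) (hD64 : lam2 s / D ≤ 1 / 64) {τ : ℝ} (hτ : τ = 1 ∨ τ = -1)
    {i : ℕ} (hi : i < 2 * D) {z : ℂ} (hz : Rg s (PP s D u v τ i) (PP s D u v τ (i + 1)) z) {t' : ℝ}
    (ht' : t' ∈ Set.Icc (0 : ℝ) 1) :
    15 / 32 * (s * ‖u - v‖) ≤ ‖z - pt (aa s u v (-τ)) (cc s u v (-τ)) t'‖ := by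
  obtain ⟨t, ht, hzt⟩ := hz
  obtain ⟨x, hx, y, hy, e⟩ := child_pt' hs.le hD u v τ hi ht
  rw [e, child_norm hD u v hτ] at hzt
  rw [pt_aa_cc']
  have h1 : s / 2 * ‖u - v‖ ≤ ‖fr u v x (τ * y) - fr u v (1 / 4 + t' / 4) (-τ * (s / 2 + t' * (s / 2)))‖ := by
    rw [norm_fr_sub]
    apply mul_le_mul_of_nonneg_right _ hL.le
    refine le_trans ?_ (norm_mk_le_abs _ _)
    have e2 : τ * y - -τ * (s / 2 + t' * (s / 2)) = τ * (y + (s / 2 + t' * (s / 2))) := by ring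
    rw [e2, abs_mul, tau_abs hτ, one_mul]
    have h2 : 0 ≤ t' * (s / 2) := mul_nonneg ht'.1 (by positivity)
    rw [abs_of_nonneg (by have := hy.1; positivity)]
    linarith [hy.1]
  have h3 : ‖fr u v x (τ * y) - fr u v (1 / 4 + t' / 4) (-τ * (s / 2 + t' * (s / 2)))‖ ≤
      ‖z - fr u v x (τ * y)‖ + ‖z - fr u v (1 / 4 + t' / 4) (-τ * (s / 2 + t' * (s / 2)))‖ := by
    have h5 := norm_sub_le (z - fr u v (1 / 4 + t' / 4) (-τ * (s / 2 + t' * (s / 2))))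
      (z - fr u v x (τ * y))
    have h6 : (z - fr u v (1 / 4 + t' / 4) (-τ * (s / 2 + t' * (s / 2)))) - (z - fr u v x (τ * y)) =
        fr u v x (τ * y) - fr u v (1 / 4 + t' / 4) (-τ * (s / 2 + t' * (s / 2))) := by ring
    rw [h6] at h5
    linarith
  have h4 : 2 * s * (lam2 s / D * ‖u - v‖) ≤ 1 / 32 * (s * ‖u - v‖) := by
    calc 2 * s * (lam2 s / D * ‖u - v‖) ≤ 2 * s * (1 / 64 * ‖u - v‖) := by gcongr
      _ = _ := by ring
  linarith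

include hs hL in
theorem child_Rg {D : ℕ} (hD : 0 < D) (hD64 : lam2 s / D ≤ 1 / 64) {τ : ℝ} (hτ : τ = 1 ∨ τ = -1)
    {i : ℕ} (hi : i < 2 * D) {z : ℂ} (hz : Rg s (PP s D u v τ i) (PP s D u v τ (i + 1)) z) :
    Rg s u v z := by
  obtain ⟨t, ht, hzt⟩ := hz
  obtain ⟨x, hx, y, hy, e⟩ := child_pt' hs.le hD u v τ hi ht
  rw [e, child_norm hD u v hτ] at hzt
  refine ⟨x, hx, ?_⟩
  have h1 : ‖fr u v x (τ * y) - pt u v x‖ ≤ s * ‖u - v‖ := by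
    apply fr_base'
    rw [abs_mul, tau_abs hτ, one_mul, abs_of_nonneg hy.1]
    exact hy.2
  have h4 : 2 * s * (lam2 s / D * ‖u - v‖) ≤ 1 / 32 * (s * ‖u - v‖) := by
    calc 2 * s * (lam2 s / D * ‖u - v‖) ≤ 2 * s * (1 / 64 * ‖u - v‖) := by gcongr
      _ = _ := by ring
  have h3 : 0 ≤ s * ‖u - v‖ := by positivity
  calc ‖z - pt u v x‖ = ‖(z - fr u v x (τ * y)) + (fr u v x (τ * y) - pt u v x)‖ := by ring_nf
    _ ≤ ‖z - fr u v x (τ * y)‖ + ‖fr u v x (τ * y) - pt u v x‖ := norm_add_le _ _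
    _ ≤ _ := by linarith

include hs hL in
theorem child_RG (hR : RG s u v) {D : ℕ} (hD : 0 < D) (hD64 : lam2 s / D ≤ 1 / 64) {τ : ℝ}
    (hτ : τ = 1 ∨ τ = -1) {i : ℕ} (hi : i < 2 * D) : RG s (PP s D u v τ i) (PP s D u v τ (i + 1)) := by
  intro t ht
  obtain ⟨x, hx, y, hy, e⟩ := child_pt' hs.le hD u v τ hi ht
  rw [e, child_norm hD u v hτ]
  have h1 := fr_in hR hx (y := τ * y) (by
    rw [abs_mul, tau_abs hτ, one_mul, abs_of_nonneg hy.1]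
    exact hy.2)
  have h4 : 4 * s * (lam2 s / D * ‖u - v‖) ≤ 1 / 16 * (s * ‖u - v‖) := by
    calc 4 * s * (lam2 s / D * ‖u - v‖) ≤ 4 * s * (1 / 64 * ‖u - v‖) := by gcongr
      _ = _ := by ring
  have h3 : 0 ≤ s * ‖u - v‖ := by positivity
  linarith

include hκ hs hs1 hL in
/-- lower bound of the potential of a test segment -/
theorem Uj_test (hlen : ‖u - v‖ ≤ 3) {τ : ℝ} (hτ : τ = 1 ∨ τ = -1) {z : ℂ} {t₀ : ℝ}
    (ht₀ : t₀ ∈ Set.Icc (0 : ℝ) 1)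
    (hz : ‖z - pt (aa s u v τ) (cc s u v τ) t₀‖ ≤ s * ‖u - v‖ / (128 * (C * ρ₀))) :
    s / (144 * (C * ρ₀)) ≤ Uj κ (jn ρ₀ s u v) (aa s u v τ) (cc s u v τ) z := by
  have hC := hκ.C1
  have hr := hκ.r1
  obtain ⟨j, hj⟩ : ∃ j, j = jn ρ₀ s u v := ⟨_, rfl⟩
  have h1 := inv_ge hκ hs hs1 hL hlen
  have h2 := rad_lt hκ hs hL
  have htl := test_len (s := s) u v hτ
  rw [← hj] at h1 h2 ⊢
  have h2j : (0 : ℝ) < 2 ^ j := by positivity
  have h5 : 0 < ‖aa s u v τ - cc s u v τ‖ := by linarith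
  have h6 := Uj_near hκ (j := j) (a := aa s u v τ) (b := cc s u v τ) (z := z) h5 ht₀ (by
    refine hz.trans ?_
    have e : 1 / (8 * C * 2 ^ j) = 1 / 2 ^ j / (8 * C) := by field_simp
    rw [e, le_div_iff₀ (by positivity)]
    refine le_trans (le_of_eq ?_) h1
    field_simp
    norm_num) (by
    have e : 1 / (4 * C * 2 ^ j) = ρ₀ / 2 ^ j / (4 * (C * ρ₀)) := by field_simp
    rw [e]
    have h7 : 1 ≤ C * ρ₀ := by nlinarith
    calc ρ₀ / 2 ^ j / (4 * (C * ρ₀)) ≤ s * ‖u - v‖ / 8 / (4 * 1) := by gcongr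
      _ ≤ 1 / 4 * ‖u - v‖ := by nlinarith
      _ ≤ _ := htl)
  refine le_trans ?_ h6
  have hl : (0.69 : ℝ) ≤ log 2 := by have := Real.log_two_gt_d9; norm_num; linarith
  have h7 : ‖aa s u v τ - cc s u v τ‖ ≤ 3 / 8 * ‖u - v‖ := by
    rw [norm_aa_cc u v hτ]
    have := lam2_le hs.le (by linarith)
    nlinarith
  have e1 : log 2 / (16 * C * 2 ^ j * ‖aa s u v τ - cc s u v τ‖) =
      log 2 * (1 / 2 ^ j) / (16 * C * ‖aa s u v τ - cc s u v τ‖) := by field_simp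
  rw [e1]
  calc s / (144 * (C * ρ₀)) ≤ 0.69 * (s * ‖u - v‖ / (16 * ρ₀)) / (16 * C * (3 / 8 * ‖u - v‖)) := by
        have e2 : 0.69 * (s * ‖u - v‖ / (16 * ρ₀)) / (16 * C * (3 / 8 * ‖u - v‖)) =
            0.69 / 96 * (s / (C * ρ₀)) := by field_simp; norm_num
        have e3 : s / (144 * (C * ρ₀)) = 1 / 144 * (s / (C * ρ₀)) := by field_simp
        rw [e2, e3]
        have : 0 ≤ s / (C * ρ₀) := by positivity
        nlinarith
    _ ≤ log 2 * (1 / 2 ^ j) / (16 * C * ‖aa s u v τ - cc s u v τ‖) := by gcongr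

include hκ hs hs1 hL in
/-- the potential of the test functional, at points in the region of a child -/
theorem child_pot (hlen : ‖u - v‖ ≤ 3) {D₂ : ℕ} (hD : 0 < D₂) (hD64 : lam2 s / (2 * D₂ : ℕ) ≤ 1 / 64)
    (hDC : lam2 s / (2 * D₂ : ℕ) ≤ 1 / (256 * (C * ρ₀))) {τ : ℝ}
    (hτ : τ = 1 ∨ τ = -1) {i : ℕ} (hi : i < 2 * (2 * D₂)) {z : ℂ}
    (hz : Rg s (PP s (2 * D₂) u v τ i) (PP s (2 * D₂) u v τ (i + 1)) z) :
    0 ≤ τ * VV κ ρ₀ s u v z ∧ (D₂ ≤ i → i < 2 * D₂ → s / (144 * (C * ρ₀)) ≤ τ * VV κ ρ₀ s u v z) := by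
  have hC := hκ.C1
  have hr := hκ.r1
  have hD' : 0 < 2 * D₂ := by omega
  have h2 := rad_lt hκ hs hL
  have hτ' : -τ = 1 ∨ -τ = -1 := by
    rcases hτ with rfl | rfl
    · right; rfl
    · left; ring
  have hzero : Uj κ (jn ρ₀ s u v) (aa s u v (-τ)) (cc s u v (-τ)) z = 0 := by
    apply Uj_far hκ
    intro t ht
    have := child_far hs hL hD' hD64 hτ hi hz ht
    have h0 : 0 < s * ‖u - v‖ := by positivity
    linarith
  have e : τ * VV κ ρ₀ s u v z = Uj κ (jn ρ₀ s u v) (aa s u v τ) (cc s u v τ) z := by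
    unfold VV
    rcases hτ with rfl | rfl
    · rw [hzero]; ring
    · rw [neg_neg] at hzero
      rw [hzero]; ring
  rw [e]
  refine ⟨Uj_nonneg hκ _ _ _ _, ?_⟩
  intro hi1 hi2
  obtain ⟨t, ht, hzt⟩ := hz
  obtain ⟨t₀, ht₀, et⟩ := child_mid' (s := s) hD u v τ hi1 hi2 ht
  rw [et, child_norm hD' u v hτ] at hzt
  apply Uj_test hκ hs hs1 hL hlen hτ ht₀
  refine hzt.trans ?_
  calc 2 * s * (lam2 s / (2 * D₂ : ℕ) * ‖u - v‖) ≤ 2 * s * (1 / (256 * (C * ρ₀)) * ‖u - v‖) := by gcongr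
    _ = _ := by field_simp; norm_num

include hκ hs hs1 hL in
/-- the potential is positive somewhere -/
theorem VV_pos (hlen : ‖u - v‖ ≤ 3) : 0 < VV κ ρ₀ s u v (cc s u v 1) := by
  have hC := hκ.C1
  have hr := hκ.r1
  have h2 := rad_lt hκ hs hL
  have hzero : Uj κ (jn ρ₀ s u v) (aa s u v (-1)) (cc s u v (-1)) (cc s u v 1) = 0 := by
    apply Uj_far hκ
    intro t ht
    rw [pt_aa_cc']
    have h1 : s * ‖u - v‖ ≤ ‖cc s u v 1 - fr u v (1 / 4 + t / 4) (-1 * (s / 2 + t * (s / 2)))‖ := by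
      unfold cc
      rw [norm_fr_sub]
      apply mul_le_mul_of_nonneg_right _ hL.le
      refine le_trans ?_ (norm_mk_le_abs _ _)
      have h2 : 0 ≤ t * (s / 2) := mul_nonneg ht.1 (by positivity)
      rw [abs_of_nonneg (by linarith)]
      linarith
    have h0 : 0 < s * ‖u - v‖ := by positivity
    linarith
  have h3 := Uj_test hκ hs hs1 hL hlen (τ := 1) (Or.inl rfl) (z := cc s u v 1) (t₀ := 1)
    ⟨zero_le_one, le_rfl⟩ (by
      rw [pt_one, sub_self, norm_zero]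
      positivity)
  unfold VV
  rw [hzero, sub_zero]
  refine lt_of_lt_of_le ?_ h3
  positivity

section field

variable {Ω : Type*} [MeasurableSpace Ω] {P : Measure Ω} {h : ℕ → ℂ → Ω → ℝ} (hh : WNF P κ h)

/-- difference of the field on the two sides of a node -/
noncomputable def Dl (ρ₀ s : ℝ) (u v : ℂ) : Lp ℝ 2 P :=
  YY hh (jn ρ₀ s u v) (aa s u v 1) (cc s u v 1) - YY hh (jn ρ₀ s u v) (aa s u v (-1)) (cc s u v (-1))

include hκ in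
theorem Dl_mem : Dl hh ρ₀ s u v ∈ GG hh := Submodule.sub_mem _ (YY_mem hκ hh _ _ _) (YY_mem hκ hh _ _ _)

include hκ in
theorem inner_HH_Dl {n : ℕ} (hn : jn ρ₀ s u v < n) (z : ℂ) :
    inner ℝ (HH hh n z) (Dl hh ρ₀ s u v) = VV κ ρ₀ s u v z := by
  unfold Dl VV Uj
  rw [inner_sub_right, inner_YY hκ, inner_YY hκ]
  simp only [inner_TT hκ hh hn]

include hκ in
theorem inner_TT_Dl (z : ℂ) : inner ℝ (TT hh (jn ρ₀ s u v) z) (Dl hh ρ₀ s u v) = VV κ ρ₀ s u v z := by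
  unfold Dl VV Uj
  rw [inner_sub_right, inner_YY hκ, inner_YY hκ]
  simp only [inner_TT_same hκ hh]

include hκ in
theorem inner_TT_Dl_ne {i : ℕ} (hi : i ≠ jn ρ₀ s u v) (z : ℂ) :
    inner ℝ (TT hh i z) (Dl hh ρ₀ s u v) = 0 := by
  unfold Dl
  rw [inner_sub_right, inner_YY hκ, inner_YY hκ]
  simp only [inner_TT_ne hκ hh hi]
  simp

include hκ hs hs1 hL in
theorem Dl_ne (hlen : ‖u - v‖ ≤ 3) : Dl hh ρ₀ s u v ≠ 0 := by
  intro h0
  have h1 := inner_TT_Dl hκ hh (s := s) (u := u) (v := v) (ρ₀ := ρ₀) (cc s u v 1)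
  rw [h0, inner_zero_right] at h1
  have := VV_pos hκ hs hs1 hL hlen
  linarith

include hκ in
/-- a functional orthogonal to the layer of the node is orthogonal to the test functional -/
theorem inner_Dl_zero {X : Lp ℝ 2 P} (hX : ∀ x, inner ℝ X (TT hh (jn ρ₀ s u v) x) = 0) :
    inner ℝ X (Dl hh ρ₀ s u v) = 0 := by
  unfold Dl
  rw [inner_sub_right, inner_YY hκ, inner_YY hκ]
  simp only [hX]
  simp

include hκ hs hs1 hL in
theorem Dl_norm : ‖Dl hh ρ₀ s u v‖ ^ 2 ≤ 3 * s := by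
  have hC := hκ.C1
  have hr := hκ.r1
  obtain ⟨j, hj⟩ : ∃ j, j = jn ρ₀ s u v := ⟨_, rfl⟩
  have h2 := rad_lt hκ hs hL
  rw [← hj] at h2
  have hU : ∀ τ : ℝ, (τ = 1 ∨ τ = -1) → ∀ z, 0 ≤ Uj κ j (aa s u v τ) (cc s u v τ) z ∧
      Uj κ j (aa s u v τ) (cc s u v τ) z ≤ 1.4 * s := by
    intro τ hτ z
    have htl := test_len (s := s) u v hτ
    refine ⟨Uj_nonneg hκ _ _ _ _, (Uj_le hκ j (by linarith) z).trans ?_⟩
    have hl : log 2 ≤ 0.7 := by have := Real.log_two_lt_d9; norm_num; linarith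
    calc log 2 * (4 * (ρ₀ / 2 ^ j) / ‖aa s u v τ - cc s u v τ‖) ≤
        0.7 * (4 * (s * ‖u - v‖ / 8) / (1 / 4 * ‖u - v‖)) := by gcongr
      _ = _ := by field_simp; norm_num
  have hI : ∀ τ : ℝ, (τ = 1 ∨ τ = -1) → ∀ a b : ℂ,
      0 ≤ inner ℝ (YY hh j (aa s u v τ) (cc s u v τ)) (YY hh j a b) ∧
      inner ℝ (YY hh j (aa s u v τ) (cc s u v τ)) (YY hh j a b) ≤ 1.4 * s := by
    intro τ hτ a b
    have e : ∀ x, inner ℝ (YY hh j (aa s u v τ) (cc s u v τ)) (TT hh j x) =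
        Uj κ j (aa s u v τ) (cc s u v τ) x := by
      intro x
      rw [real_inner_comm, inner_YY hκ]
      unfold Uj
      simp only [inner_TT_same hκ hh]
    rw [inner_YY hκ]
    simp only [e]
    have hcont : Continuous fun t => Uj κ j (aa s u v τ) (cc s u v τ) (pt a b t) := by
      have : Continuous fun t => inner ℝ (YY hh j (aa s u v τ) (cc s u v τ)) (TT hh j (pt a b t)) := by
        apply Continuous.inner continuous_const
        exact (HH_pt_continuous hκ hh (j + 1) a b).sub (HH_pt_continuous hκ hh j a b)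
      simpa only [e] using this
    constructor
    · exact intervalIntegral.integral_nonneg (by norm_num) fun t _ => (hU τ hτ _).1
    · have : ∫ t in (0 : ℝ)..1, Uj κ j (aa s u v τ) (cc s u v τ) (pt a b t) ≤
          ∫ t in (0 : ℝ)..1, 1.4 * s := by
        apply intervalIntegral.integral_mono_on (by norm_num) (hcont.intervalIntegrable _ _)
          intervalIntegrable_const
        intro t _
        exact (hU τ hτ _).2
      simpa using this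
  rw [← real_inner_self_eq_norm_sq, Dl, ← hj, inner_sub_left, inner_sub_right, inner_sub_right]
  have a1 := (hI 1 (Or.inl rfl) (aa s u v 1) (cc s u v 1)).2
  have a2 := (hI 1 (Or.inl rfl) (aa s u v (-1)) (cc s u v (-1))).1
  have a3 := (hI (-1) (Or.inr rfl) (aa s u v (-1)) (cc s u v (-1))).2
  have a4 := (hI (-1) (Or.inr rfl) (aa s u v 1) (cc s u v 1)).1
  linarith

end field

end node

end Pool.Agent.H964.W
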