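import Pool.Agent.H964.WN.Test
import Pool.Agent.H964.WN.Conn

/-!
# The cost of the random tree of segments
-/

set_option autoImplicit false

namespace Pool.Agent.H964.W

open MeasureTheory ProbabilityTheory Real Filter Topology
open scoped ENNReal NNReal

theorem psi_anti {a b : ℝ} (h : a ≤ b) : psi b ≤ psi a := by
  unfold psi
  apply integral_mono (psi_int b) (psi_int a)
  intro x
  simp only
  apply Real.exp_le_exp.2
  have := abs_nonneg x
  nlinarith

/-- the weight of a child -/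
noncomputable def wg (wm wn : ℝ) (m : Bool) : ℝ := if m then wm else wn

theorem sum_wg (wm wn : ℝ) (D₂ : ℕ) :
    ∑ i ∈ Finset.range (2 * (2 * D₂)), wg wm wn (decide (D₂ ≤ i ∧ i < 2 * D₂)) =
      D₂ * (wm + 3 * wn) := by
  have h1 : ∀ i : ℕ, wg wm wn (decide (D₂ ≤ i ∧ i < 2 * D₂)) =
      wn + (if i ∈ Finset.Ico D₂ (2 * D₂) then (wm - wn) else 0) := by
    intro i
    unfold wg
    by_cases hi : D₂ ≤ i ∧ i < 2 * D₂
    · rw [if_pos (by simpa using hi), if_pos (by rw [Finset.mem_Ico]; exact hi)]; ring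
    · rw [if_neg (by simpa using hi), if_neg (by rw [Finset.mem_Ico]; exact hi)]; ring
  rw [Finset.sum_congr rfl fun i _ => h1 i, Finset.sum_add_distrib, Finset.sum_const,
    Finset.card_range, ← Finset.sum_filter, Finset.sum_const]
  have h2 : (Finset.range (2 * (2 * D₂))).filter (fun i => i ∈ Finset.Ico D₂ (2 * D₂)) =
      Finset.Ico D₂ (2 * D₂) := by
    ext i
    simp only [Finset.mem_filter, Finset.mem_range, Finset.mem_Ico]
    omega
  rw [h2, Nat.card_Ico]
  have h3 : 2 * D₂ - D₂ = D₂ := by omega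
  rw [h3, nsmul_eq_mul, nsmul_eq_mul]
  push_cast
  ring

variable {Ω : Type*} [MeasurableSpace Ω] {P : Measure Ω} {h : ℕ → ℂ → Ω → ℝ}
variable {κ : ℝ → ℝ} {C ρ₀ : ℝ}

/-- the cost of a leaf -/
noncomputable def lfc (h : ℕ → ℂ → Ω → ℝ) (ξ : ℝ) (n : ℕ) (u v : ℂ) (ω : Ω) : ℝ≥0∞ :=
  liminf (fun N => RS ξ (fun z => h n z ω) u v N) atTop

theorem RS_measurable (hh : WNF P κ h) (ξ : ℝ) (n : ℕ) (u v : ℂ) (N : ℕ) :
    Measurable fun ω => RS ξ (fun z => h n z ω) u v N := by
  unfold RS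
  apply Finset.measurable_sum
  intro i _
  have := hh.cgp.meas (n, pt u v ((i : ℝ) / (N + 1 : ℕ)))
  simp only at this
  fun_prop

theorem lfc_measurable (hh : WNF P κ h) (ξ : ℝ) (n : ℕ) (u v : ℂ) : Measurable (lfc h ξ n u v) := by
  unfold lfc
  exact Measurable.liminf fun N => RS_measurable hh ξ n u v N

variable (hh : WNF P κ h)

/-- the cost of a node -/
noncomputable def LL (ρ₀ ξ s : ℝ) (n D : ℕ) : ℕ → ℂ → ℂ → Ω → ℝ≥0∞
  | 0, u, v, ω => lfc h ξ n u v ω
  | m + 1, u, v, ω =>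
    ind 1 (Dl hh ρ₀ s u v ω) * ∑ i ∈ Finset.range (2 * D),
      LL ρ₀ ξ s n D m (PP s D u v 1 i) (PP s D u v 1 (i + 1)) ω +
    ind (-1) (Dl hh ρ₀ s u v ω) * ∑ i ∈ Finset.range (2 * D),
      LL ρ₀ ξ s n D m (PP s D u v (-1) i) (PP s D u v (-1) (i + 1)) ω

theorem ind_meas (σ : ℝ) (g : Lp ℝ 2 P) : Measurable fun ω => ind σ (g ω) :=
  (ind_measurable σ).comp (Lp.stronglyMeasurable g).measurable

theorem LL_measurable (ρ₀ ξ s : ℝ) (n D m : ℕ) :
    ∀ (u v : ℂ), Measurable (LL hh ρ₀ ξ s n D m u v) := by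
  induction m with
  | zero =>
    intro u v
    exact lfc_measurable hh ξ n u v
  | succ m ih =>
    intro u v
    have h1 := ind_meas 1 (Dl hh ρ₀ s u v)
    have h2 := ind_meas (-1) (Dl hh ρ₀ s u v)
    have h3 : ∀ τ : ℝ, Measurable fun ω => ∑ i ∈ Finset.range (2 * D),
        LL hh ρ₀ ξ s n D m (PP s D u v τ i) (PP s D u v τ (i + 1)) ω := by
      intro τ
      apply Finset.measurable_sum
      intro i _
      exact ih _ _
    change Measurable fun ω => LL hh ρ₀ ξ s n D (m + 1) u v ω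
    simp only [LL]
    exact (h1.mul (h3 1)).add (h2.mul (h3 (-1)))

/-- the invariants of a node of the tree -/
structure NI (C ρ₀ s : ℝ) (n k : ℕ) (G : ℕ → Lp ℝ 2 P) (sg : ℕ → ℝ)
    (md : ℕ → Bool) (u v : ℂ) : Prop where
  mem : ∀ j < k, G j ∈ GG hh
  ne : ∀ j < k, G j ≠ 0
  orth : ∀ i < k, ∀ j < k, i ≠ j → inner ℝ (G i) (G j) = 0
  sgn : ∀ j < k, sg j = 1 ∨ sg j = -1
  hi : ∀ j < k, ‖G j‖ ^ 2 ≤ 3 * s
  low : ∀ j < k, ∀ m ≥ jn ρ₀ s u v, ∀ x, inner ℝ (G j) (TT hh m x) = 0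
  pot : ∀ j < k, ∀ z, Rg s u v z → 0 ≤ sg j * inner ℝ (HH hh n z) (G j) ∧
    (md j = true → s / (144 * (C * ρ₀)) ≤ sg j * inner ℝ (HH hh n z) (G j))
  reg : RG s u v
  pos : 0 < ‖u - v‖

section steps

variable (hκ : Ker κ C ρ₀) {s b : ℝ} {n k : ℕ} {G : ℕ → Lp ℝ 2 P} {sg : ℕ → ℝ} {md : ℕ → Bool} {u v : ℂ}

theorem NI.zero (hR : RG s u v) (hpos : 0 < ‖u - v‖) : NI hh C ρ₀ s n 0 G sg md u v :=
  ⟨fun _ h => absurd h (by omega), fun _ h => absurd h (by omega),
    fun _ h => absurd h (by omega), fun _ h => absurd h (by omega), fun _ h => absurd h (by omega),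
    fun _ h => absurd h (by omega), fun _ h => absurd h (by omega), hR, hpos⟩

variable (hs : 0 < s) (hs1 : s ≤ 1 / 16)

include hκ hs hs1 in
/-- the layers of the children are finer -/
theorem jn_child (hL : 0 < ‖u - v‖) (hlen : ‖u - v‖ ≤ 3) {D : ℕ} (hD : 0 < D)
    (hD64 : lam2 s / D ≤ 1 / 64) {τ : ℝ} (hτ : τ = 1 ∨ τ = -1) (i : ℕ) :
    jn ρ₀ s u v < jn ρ₀ s (PP s D u v τ i) (PP s D u v τ (i + 1)) := by
  have hr := hκ.r1
  have h1 := jn_ge hκ hs hs1 hL hlen
  have hcn := child_norm (s := s) hD u v hτ i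
  have hl := lam2_pos s
  have h2 := jn_lt hκ (s := s) (u := PP s D u v τ i) (v := PP s D u v τ (i + 1)) hs (by
    rw [hcn]; positivity)
  rw [hcn] at h2
  have h3 : (1 / 2 : ℝ) ^ (jn ρ₀ s (PP s D u v τ i) (PP s D u v τ (i + 1))) < (1 / 2) ^ (jn ρ₀ s u v) := by
    refine lt_of_lt_of_le h2 (le_trans ?_ h1)
    calc s * (lam2 s / D * ‖u - v‖) / (8 * ρ₀) ≤ s * (1 / 64 * ‖u - v‖) / (8 * ρ₀) := by gcongr
      _ ≤ s * ‖u - v‖ / (16 * ρ₀) := by
          have e : s * (1 / 64 * ‖u - v‖) / (8 * ρ₀) = s * ‖u - v‖ / (16 * ρ₀) / 32 := by field_simp; norm_num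
          rw [e]
          have : 0 ≤ s * ‖u - v‖ / (16 * ρ₀) := by positivity
          linarith
  exact (pow_lt_pow_iff_right_of_lt_one₀ (by norm_num) (by norm_num)).1 h3

include hκ hs hs1 in
theorem NI.step (hI : NI hh C ρ₀ s n k G sg md u v) {D₂ : ℕ} (hD : 0 < D₂)
    (hb1 : lam2 s / (2 * D₂ : ℕ) ≤ 1 / 64) (hb2 : lam2 s / (2 * D₂ : ℕ) ≤ 1 / (256 * (C * ρ₀)))
    {τ : ℝ} (hτ : τ = 1 ∨ τ = -1) {i : ℕ} (hi : i < 2 * (2 * D₂))
    (hn : 16 * ρ₀ * (1 / 2) ^ n < s * ‖u - v‖) :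
    NI hh C ρ₀ s n (k + 1) (Function.update G k (Dl hh ρ₀ s u v)) (Function.update sg k τ)
      (Function.update md k (decide (D₂ ≤ i ∧ i < 2 * D₂))) (PP s (2 * D₂) u v τ i)
      (PP s (2 * D₂) u v τ (i + 1)) := by
  have hD' : 0 < 2 * D₂ := by omega
  have hr := hκ.r1
  have hL := hI.pos
  have hR := hI.reg
  have hlen := RG_len hs.le hR
  have hcn := child_norm (s := s) hD' u v hτ i
  have hjn : jn ρ₀ s u v < n := by
    have h1 := jn_ge hκ hs hs1 hL hlen
    have h2 : (1 / 2 : ℝ) ^ n < (1 / 2) ^ (jn ρ₀ s u v) := by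
      refine lt_of_lt_of_le ?_ h1
      rw [lt_div_iff₀ (by positivity)]
      linarith
    exact (pow_lt_pow_iff_right_of_lt_one₀ (by norm_num) (by norm_num)).1 h2
  have hjc := jn_child hκ hs hs1 hL hlen hD' hb1 hτ i
  have hzero : ∀ j < k, inner ℝ (G j) (Dl hh ρ₀ s u v) = 0 := by
    intro j hj
    apply inner_Dl_zero hκ hh
    intro x
    exact hI.low j hj _ le_rfl x
  refine ⟨?_, ?_, ?_, ?_, ?_, ?_, ?_, ?_, ?_⟩
  · intro j hj
    rcases eq_or_ne j k with rfl | hjk
    · rw [Function.update_self]; exact Dl_mem hκ hh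
    · rw [Function.update_of_ne hjk]; exact hI.mem j (by omega)
  · intro j hj
    rcases eq_or_ne j k with rfl | hjk
    · rw [Function.update_self]; exact Dl_ne hκ hs hs1 hL hh hlen
    · rw [Function.update_of_ne hjk]; exact hI.ne j (by omega)
  · intro i' hi' j hj hij
    rcases eq_or_ne i' k with rfl | hik
    · rw [Function.update_self, Function.update_of_ne hij.symm, real_inner_comm]
      exact hzero j (by omega)
    · rw [Function.update_of_ne hik]
      rcases eq_or_ne j k with rfl | hjk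
      · rw [Function.update_self]
        exact hzero i' (by omega)
      · rw [Function.update_of_ne hjk]
        exact hI.orth i' (by omega) j (by omega) hij
  · intro j hj
    rcases eq_or_ne j k with rfl | hjk
    · rw [Function.update_self]; exact hτ
    · rw [Function.update_of_ne hjk]; exact hI.sgn j (by omega)
  · intro j hj
    rcases eq_or_ne j k with rfl | hjk
    · rw [Function.update_self]; exact Dl_norm hκ hs hs1 hL hh
    · rw [Function.update_of_ne hjk]; exact hI.hi j (by omega)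
  · intro j hj m hm x
    rcases eq_or_ne j k with rfl | hjk
    · rw [Function.update_self, real_inner_comm]
      exact inner_TT_Dl_ne hκ hh (by omega) x
    · rw [Function.update_of_ne hjk]
      exact hI.low j (by omega) m (by omega) x
  · intro j hj z hz
    have hz' := child_Rg hs hL hD' hb1 hτ hi hz
    rcases eq_or_ne j k with rfl | hjk
    · rw [Function.update_self, Function.update_self, Function.update_self, inner_HH_Dl hκ hh hjn]
      have h1 := child_pot hκ hs hs1 hL hlen hD hb1 hb2 hτ hi hz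
      refine ⟨h1.1, ?_⟩
      intro h3
      rw [decide_eq_true_iff] at h3
      exact h1.2 h3.1 h3.2
    · rw [Function.update_of_ne hjk, Function.update_of_ne hjk, Function.update_of_ne hjk]
      exact hI.pot j (by omega) z hz'
  · exact child_RG hs hL hR hD' hb1 hτ hi
  · rw [hcn]
    have := lam2_pos s
    positivity

include hκ hs in
/-- the weights bound the branching factors -/
theorem NI.weight (hI : NI hh C ρ₀ s n k G sg md u v) {ξ : ℝ} (hξ : 0 ≤ ξ) (hθ : ξ * √s ≤ 1)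
    {j : ℕ} (hj : j < k) {z : ℂ} (hz : Rg s u v z) :
    psi (ξ * (sg j * inner ℝ (HH hh n z) (G j)) / ‖G j‖) ≤
      wg (1 - ξ * √s / (288 * (C * ρ₀)) * (1 - psi 1)) 1 (md j) := by
  have hC := hκ.C1
  have hr := hκ.r1
  have hpot := hI.pot j hj z hz
  have hsq : √s * √s = s := Real.mul_self_sqrt hs.le
  have hsp : 0 < √s := Real.sqrt_pos.2 hs
  have hhi := hI.hi j hj
  have hn2 : ‖G j‖ ≤ 2 * √s := by
    apply le_of_sq_le_sq _ (by positivity)
    calc ‖G j‖ ^ 2 ≤ 3 * s := hhi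
      _ ≤ 4 * (√s * √s) := by rw [hsq]; linarith
      _ = _ := by ring
  have hnp : 0 < ‖G j‖ := norm_pos_iff.2 (hI.ne j hj)
  have hCr : 1 ≤ C * ρ₀ := by nlinarith
  unfold wg
  by_cases hm : md j = true
  · rw [if_pos hm]
    have h1 := hpot.2 hm
    have h3 : ξ * √s / (288 * (C * ρ₀)) ≤ ξ * (sg j * inner ℝ (HH hh n z) (G j)) / ‖G j‖ := by
      rw [le_div_iff₀ hnp]
      calc ξ * √s / (288 * (C * ρ₀)) * ‖G j‖ ≤ ξ * √s / (288 * (C * ρ₀)) * (2 * √s) := by gcongr
        _ = ξ * (√s * √s / (144 * (C * ρ₀))) := by field_simp; ring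
        _ = ξ * (s / (144 * (C * ρ₀))) := by rw [hsq]
        _ ≤ _ := by gcongr
    have h4 : 0 ≤ ξ * √s / (288 * (C * ρ₀)) := by positivity
    refine (psi_anti h3).trans (psi_le_of_nonneg h4 ?_)
    rw [div_le_one (by positivity)]
    linarith
  · rw [if_neg hm]
    have h3 : 0 ≤ ξ * (sg j * inner ℝ (HH hh n z) (G j)) / ‖G j‖ := by
      have := hpot.1
      positivity
    refine (psi_anti h3).trans ?_
    have := psi_le_of_nonneg (a := 0) le_rfl zero_le_one
    linarith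

end steps

section expect

variable (hκ : Ker κ C ρ₀) {s b ξ : ℝ} {n : ℕ}

include hκ in
/-- the expectation of the cost of a leaf -/
theorem lfc_exp {k : ℕ} {G : ℕ → Lp ℝ 2 P} {sg : ℕ → ℝ} {md : ℕ → Bool} {u v : ℂ}
    (hs : 0 < s) (hI : NI hh C ρ₀ s n k G sg md u v) {wm wn : ℝ}
    (hw : ∀ j < k, ∀ z, Rg s u v z → psi (ξ * (sg j * inner ℝ (HH hh n z) (G j)) / ‖G j‖) ≤
      wg wm wn (md j)) (hwm : 0 ≤ wm) (hwn : 0 ≤ wn) :
    ∫⁻ ω, (∏ j ∈ Finset.range k, ind (sg j) (G j ω)) * lfc h ξ n u v ω ∂P ≤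
      ENNReal.ofReal ((∏ j ∈ Finset.range k, (wg wm wn (md j) / 2)) * ‖u - v‖ *
        exp (ξ ^ 2 * (n * log 2) / 2)) := by
  have hwg : ∀ m, 0 ≤ wg wm wn m := by
    intro m; unfold wg; split_ifs <;> assumption
  have hpm : Measurable fun ω => ∏ j ∈ Finset.range k, ind (sg j) (G j ω) :=
    Finset.measurable_prod _ fun j _ => ind_meas (sg j) (G j)
  have key : ∀ N : ℕ, ∫⁻ ω, (∏ j ∈ Finset.range k, ind (sg j) (G j ω)) *
      RS ξ (fun z => h n z ω) u v N ∂P ≤
      ENNReal.ofReal ((∏ j ∈ Finset.range k, (wg wm wn (md j) / 2)) * ‖u - v‖ *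
        exp (ξ ^ 2 * (n * log 2) / 2)) := by
    intro N
    obtain ⟨M, hMdef⟩ : ∃ M : ℕ, M = N + 1 := ⟨_, rfl⟩
    have hM : (0 : ℝ) < M := by rw [hMdef]; positivity
    unfold RS
    rw [← hMdef]
    have hone : ∀ i ∈ Finset.range M, ∫⁻ ω, (∏ j ∈ Finset.range k, ind (sg j) (G j ω)) *
        ENNReal.ofReal (‖u - v‖ / M * exp (ξ * h n (pt u v ((i : ℝ) / M)) ω)) ∂P ≤
        ENNReal.ofReal (‖u - v‖ / M * ((∏ j ∈ Finset.range k, (wg wm wn (md j) / 2)) *
          exp (ξ ^ 2 * (n * log 2) / 2))) := by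
      intro i hi
      rw [Finset.mem_range] at hi
      obtain ⟨z, hz⟩ : ∃ z, z = pt u v ((i : ℝ) / M) := ⟨_, rfl⟩
      rw [← hz]
      have ht : (i / M : ℝ) ∈ Set.Icc (0 : ℝ) 1 := by
        constructor
        · positivity
        · rw [div_le_one hM]; exact_mod_cast hi.le
      have hzR : Rg s u v z := ⟨_, ht, by rw [hz, sub_self, norm_zero]; positivity⟩
      have hbr := branchX hh.cgp (k := k) (G := G) (sg := sg) hI.mem hI.ne hI.orth hI.sgn
        (HH_mem hh n z) ξ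
      have e1 : ∫⁻ ω, (∏ j ∈ Finset.range k, ind (sg j) (G j ω)) *
          ENNReal.ofReal (‖u - v‖ / M * exp (ξ * h n z ω)) ∂P =
          ENNReal.ofReal (‖u - v‖ / M) * ∫⁻ ω, ENNReal.ofReal (exp (ξ * HH hh n z ω)) *
            ∏ j ∈ Finset.range k, ind (sg j) (G j ω) ∂P := by
        rw [← lintegral_const_mul' _ _ ENNReal.ofReal_ne_top]
        apply lintegral_congr_ae
        filter_upwards [HH_coe hh n z] with ω hω
        rw [hω, ENNReal.ofReal_mul (by positivity)]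
        ring
      rw [e1, ENNReal.ofReal_mul (by positivity)]
      gcongr
      refine hbr.trans ?_
      rw [HH_norm_sq hκ hh, ENNReal.ofReal_mul (Finset.prod_nonneg fun j _ => by
        have := hwg (md j); positivity), mul_comm, ENNReal.ofReal_prod_of_nonneg (fun j _ => by
        have := hwg (md j); positivity)]
      gcongr with j hj
      exact hw j (Finset.mem_range.1 hj) z hzR
    have hmeas : ∀ i ∈ Finset.range M, Measurable fun ω =>
        (∏ j ∈ Finset.range k, ind (sg j) (G j ω)) *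
        ENNReal.ofReal (‖u - v‖ / M * exp (ξ * h n (pt u v ((i : ℝ) / M)) ω)) := by
      intro i _
      apply hpm.mul
      have := hh.cgp.meas (n, pt u v ((i : ℝ) / M))
      simp only at this
      fun_prop
    calc ∫⁻ ω, (∏ j ∈ Finset.range k, ind (sg j) (G j ω)) *
          ∑ i ∈ Finset.range M, ENNReal.ofReal (‖u - v‖ / M * exp (ξ * h n (pt u v ((i : ℝ) / M)) ω)) ∂P =
        ∫⁻ ω, ∑ i ∈ Finset.range M, (∏ j ∈ Finset.range k, ind (sg j) (G j ω)) *
        ENNReal.ofReal (‖u - v‖ / M * exp (ξ * h n (pt u v ((i : ℝ) / M)) ω)) ∂P := by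
          apply lintegral_congr
          intro ω
          rw [Finset.mul_sum]
      _ = ∑ i ∈ Finset.range M, ∫⁻ ω, (∏ j ∈ Finset.range k, ind (sg j) (G j ω)) *
        ENNReal.ofReal (‖u - v‖ / M * exp (ξ * h n (pt u v ((i : ℝ) / M)) ω)) ∂P :=
          lintegral_finsetSum _ hmeas
      _ ≤ ∑ i ∈ Finset.range M, ENNReal.ofReal (‖u - v‖ / M *
          ((∏ j ∈ Finset.range k, (wg wm wn (md j) / 2)) * exp (ξ ^ 2 * (n * log 2) / 2))) :=
          Finset.sum_le_sum hone
      _ = _ := by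
          rw [Finset.sum_const, Finset.card_range, nsmul_eq_mul, ← ENNReal.ofReal_natCast,
            ← ENNReal.ofReal_mul (by positivity)]
          congr 1
          field_simp
  have hmul : ∀ ω, (∏ j ∈ Finset.range k, ind (sg j) (G j ω)) * lfc h ξ n u v ω ≤
      liminf (fun N => (∏ j ∈ Finset.range k, ind (sg j) (G j ω)) *
        RS ξ (fun z => h n z ω) u v N) atTop := by
    intro ω
    have h01 : (∏ j ∈ Finset.range k, ind (sg j) (G j ω)) = 0 ∨
        (∏ j ∈ Finset.range k, ind (sg j) (G j ω)) = 1 := by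
      by_cases hc : ∀ j ∈ Finset.range k, ind (sg j) (G j ω) = 1
      · right
        exact Finset.prod_eq_one hc
      · left
        push Not at hc
        obtain ⟨j, hj, hne⟩ := hc
        apply Finset.prod_eq_zero hj
        by_cases h2 : sg j * G j ω ≤ 0
        · exact absurd (ind_of_le h2) hne
        · exact ind_of_not_le h2
    rcases h01 with h0 | h1
    · rw [h0, zero_mul]; exact zero_le
    · rw [h1, one_mul]
      simp only [one_mul]
      exact le_rfl
  calc ∫⁻ ω, (∏ j ∈ Finset.range k, ind (sg j) (G j ω)) * lfc h ξ n u v ω ∂P ≤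
      ∫⁻ ω, liminf (fun N => (∏ j ∈ Finset.range k, ind (sg j) (G j ω)) *
        RS ξ (fun z => h n z ω) u v N) atTop ∂P := lintegral_mono hmul
    _ ≤ liminf (fun N => ∫⁻ ω, (∏ j ∈ Finset.range k, ind (sg j) (G j ω)) *
        RS ξ (fun z => h n z ω) u v N ∂P) atTop :=
        lintegral_liminf_le fun N => hpm.mul (RS_measurable hh ξ n u v N)
    _ ≤ liminf (fun _ : ℕ => ENNReal.ofReal ((∏ j ∈ Finset.range k, (wg wm wn (md j) / 2)) * ‖u - v‖ *
        exp (ξ ^ 2 * (n * log 2) / 2))) atTop :=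
        liminf_le_liminf (Eventually.of_forall key)
    _ = _ := liminf_const _

include hκ in
/-- the expectation of the cost of a node -/
theorem LL_exp (hs : 0 < s) (hs1 : s ≤ 1 / 16) {D₂ : ℕ} (hD : 0 < D₂)
    (hb : b = lam2 s / (2 * D₂ : ℕ)) (hb1 : b ≤ 1 / 64) (hb2 : b ≤ 1 / (256 * (C * ρ₀))) (hξ : 0 ≤ ξ)
    (hθ : ξ * √s ≤ 1) {wm wn : ℝ} (hwm : wm = 1 - ξ * √s / (288 * (C * ρ₀)) * (1 - psi 1))
    (hwn : wn = 1) (m : ℕ) :
    ∀ (k : ℕ) (G : ℕ → Lp ℝ 2 P) (sg : ℕ → ℝ) (md : ℕ → Bool) (u v : ℂ),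
      NI hh C ρ₀ s n k G sg md u v → 16 * ρ₀ * (1 / 2) ^ n < s * (b ^ m * ‖u - v‖) →
      ∫⁻ ω, (∏ j ∈ Finset.range k, ind (sg j) (G j ω)) * LL hh ρ₀ ξ s n (2 * D₂) m u v ω ∂P ≤
      ENNReal.ofReal ((∏ j ∈ Finset.range k, (wg wm wn (md j) / 2)) *
        (b * (D₂ * (wm + 3 * wn))) ^ m * ‖u - v‖ * exp (ξ ^ 2 * (n * log 2) / 2)) := by
  have hC := hκ.C1
  have hr := hκ.r1
  have hb0 : 0 ≤ b := by rw [hb]; have := lam2_pos s; positivity
  have hCr : 1 ≤ C * ρ₀ := by nlinarith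
  have hwm0 : 0 ≤ wm := by
    have h1 : 0 < psi 1 := psi_pos 1
    have h2 := psi_one_lt
    have h3 : 0 ≤ ξ * √s / (288 * (C * ρ₀)) := by positivity
    have h4 : ξ * √s / (288 * (C * ρ₀)) ≤ 1 := by
      rw [div_le_one (by positivity)]; linarith
    rw [hwm]
    nlinarith
  have hwn0 : 0 ≤ wn := by rw [hwn]; norm_num
  have hwg : ∀ m, 0 ≤ wg wm wn m := by
    intro m; unfold wg; split_ifs <;> assumption
  induction m with
  | zero =>
    intro k G sg md u v hI hf
    have := lfc_exp (ξ := ξ) hh hκ hs hI (wm := wm) (wn := wn) (fun j hj z hz => by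
      rw [hwm, hwn]
      exact hI.weight hh hκ hs hξ hθ hj hz) hwm0 hwn0
    simpa only [LL, pow_zero, mul_one] using this
  | succ m ih =>
    intro k G sg md u v hI hf
    have hD' : 0 < 2 * D₂ := by omega
    have hL := hI.pos
    obtain ⟨g, hg⟩ : ∃ g, g = Dl hh ρ₀ s u v := ⟨_, rfl⟩
    obtain ⟨W, hW⟩ : ∃ W, W = ∏ j ∈ Finset.range k, (wg wm wn (md j) / 2) := ⟨_, rfl⟩
    obtain ⟨q, hq⟩ : ∃ q, q = b * (D₂ * (wm + 3 * wn)) := ⟨_, rfl⟩
    obtain ⟨E0, hE0⟩ : ∃ E0, E0 = exp (ξ ^ 2 * (n * log 2) / 2) := ⟨_, rfl⟩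
    rw [← hq, ← hE0] at ih
    rw [← hq, ← hE0, ← hW]
    have hE00 : 0 < E0 := by rw [hE0]; exact exp_pos _
    have hW0 : 0 ≤ W := by rw [hW]; exact Finset.prod_nonneg fun j _ => by have := hwg (md j); positivity
    have hq0 : 0 ≤ q := by rw [hq]; positivity
    have hpm : Measurable fun ω => ∏ j ∈ Finset.range k, ind (sg j) (G j ω) :=
      Finset.measurable_prod _ fun j _ => ind_meas (sg j) (G j)
    have hone : ∀ τ : ℝ, (τ = 1 ∨ τ = -1) → ∀ i ∈ Finset.range (2 * (2 * D₂)),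
        ∫⁻ ω, (∏ j ∈ Finset.range k, ind (sg j) (G j ω)) * (ind τ (g ω) *
          LL hh ρ₀ ξ s n (2 * D₂) m (PP s (2 * D₂) u v τ i) (PP s (2 * D₂) u v τ (i + 1)) ω) ∂P ≤
        ENNReal.ofReal (W * q ^ m * b * ‖u - v‖ * E0 / 2 *
          wg wm wn (decide (D₂ ≤ i ∧ i < 2 * D₂))) := by
      intro τ hτ i hi
      rw [Finset.mem_range] at hi
      have hcn := child_norm (s := s) hD' u v hτ i
      rw [← hb] at hcn
      have hf2 : 16 * ρ₀ * (1 / 2) ^ n < s * (b ^ m * (b * ‖u - v‖)) := by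
        calc _ < _ := hf
          _ = _ := by rw [pow_succ]; ring
      have hf3 : 16 * ρ₀ * (1 / 2) ^ n < s * ‖u - v‖ := by
        refine lt_of_lt_of_le hf2 ?_
        have h1 : b ^ m ≤ 1 := pow_le_one₀ hb0 (by linarith)
        have h2 : b ≤ 1 := by linarith
        calc s * (b ^ m * (b * ‖u - v‖)) ≤ s * (1 * (1 * ‖u - v‖)) := by gcongr
          _ = _ := by ring
      have hst := hI.step hh hκ hs hs1 hD (by rw [← hb]; exact hb1) (by rw [← hb]; exact hb2) hτ hi hf3
      have := ih (k + 1) _ _ _ _ _ hst (by rw [hcn]; exact hf2)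
      rw [hcn] at this
      have e1 : ∀ ω, (∏ j ∈ Finset.range (k + 1), ind (Function.update sg k τ j)
          (Function.update G k (Dl hh ρ₀ s u v) j ω)) =
          (∏ j ∈ Finset.range k, ind (sg j) (G j ω)) * ind τ (g ω) := by
        intro ω
        rw [Finset.prod_range_succ, Function.update_self, Function.update_self, hg]
        congr 1
        apply Finset.prod_congr rfl
        intro j hj
        rw [Finset.mem_range] at hj
        rw [Function.update_of_ne (by omega), Function.update_of_ne (by omega)]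
      have e2 : ∏ j ∈ Finset.range (k + 1), (wg wm wn (Function.update md k
          (decide (D₂ ≤ i ∧ i < 2 * D₂)) j) / 2) =
          W * (wg wm wn (decide (D₂ ≤ i ∧ i < 2 * D₂)) / 2) := by
        rw [Finset.prod_range_succ, Function.update_self, hW]
        congr 1
        apply Finset.prod_congr rfl
        intro j hj
        rw [Finset.mem_range] at hj
        rw [Function.update_of_ne (by omega)]
      rw [e2] at this
      calc _ = ∫⁻ ω, (∏ j ∈ Finset.range (k + 1), ind (Function.update sg k τ j)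
              (Function.update G k (Dl hh ρ₀ s u v) j ω)) *
              LL hh ρ₀ ξ s n (2 * D₂) m (PP s (2 * D₂) u v τ i) (PP s (2 * D₂) u v τ (i + 1)) ω ∂P := by
            apply lintegral_congr
            intro ω
            rw [e1 ω]
            ring
        _ ≤ _ := this
        _ = _ := by congr 1; ring
    have hsum : ∀ τ : ℝ, (τ = 1 ∨ τ = -1) →
        ∫⁻ ω, (∏ j ∈ Finset.range k, ind (sg j) (G j ω)) * (ind τ (g ω) *
          ∑ i ∈ Finset.range (2 * (2 * D₂)), LL hh ρ₀ ξ s n (2 * D₂) m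
          (PP s (2 * D₂) u v τ i) (PP s (2 * D₂) u v τ (i + 1)) ω) ∂P ≤
        ENNReal.ofReal (W * q ^ (m + 1) * ‖u - v‖ * E0 / 2) := by
      intro τ hτ
      calc _ = ∫⁻ ω, ∑ i ∈ Finset.range (2 * (2 * D₂)),
            (∏ j ∈ Finset.range k, ind (sg j) (G j ω)) * (ind τ (g ω) *
            LL hh ρ₀ ξ s n (2 * D₂) m
            (PP s (2 * D₂) u v τ i) (PP s (2 * D₂) u v τ (i + 1)) ω) ∂P := by
              apply lintegral_congr
              intro ω
              rw [Finset.mul_sum, Finset.mul_sum]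
        _ = ∑ i ∈ Finset.range (2 * (2 * D₂)), ∫⁻ ω,
            (∏ j ∈ Finset.range k, ind (sg j) (G j ω)) * (ind τ (g ω) *
            LL hh ρ₀ ξ s n (2 * D₂) m
            (PP s (2 * D₂) u v τ i) (PP s (2 * D₂) u v τ (i + 1)) ω) ∂P := by
              apply lintegral_finsetSum
              intro i _
              exact hpm.mul ((ind_meas τ g).mul (LL_measurable hh _ _ _ _ _ _ _ _))
        _ ≤ ∑ i ∈ Finset.range (2 * (2 * D₂)), ENNReal.ofReal (W * q ^ m * b * ‖u - v‖ * E0 / 2 *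
            wg wm wn (decide (D₂ ≤ i ∧ i < 2 * D₂))) := Finset.sum_le_sum (hone τ hτ)
        _ = _ := by
              rw [← ENNReal.ofReal_sum_of_nonneg, ← Finset.mul_sum, sum_wg]
              · congr 1
                rw [pow_succ, hq]
                ring
              · intro i _
                have := hwg (decide (D₂ ≤ i ∧ i < 2 * D₂))
                positivity
    have hm1 : Measurable fun ω => (∏ j ∈ Finset.range k, ind (sg j) (G j ω)) * (ind 1 (g ω) *
          ∑ i ∈ Finset.range (2 * (2 * D₂)), LL hh ρ₀ ξ s n (2 * D₂) m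
          (PP s (2 * D₂) u v 1 i) (PP s (2 * D₂) u v 1 (i + 1)) ω) := by
      apply hpm.mul ((ind_meas 1 g).mul _)
      apply Finset.measurable_sum
      intro i _
      exact LL_measurable hh _ _ _ _ _ _ _ _
    calc ∫⁻ ω, (∏ j ∈ Finset.range k, ind (sg j) (G j ω)) *
          LL hh ρ₀ ξ s n (2 * D₂) (m + 1) u v ω ∂P =
        ∫⁻ ω, ((∏ j ∈ Finset.range k, ind (sg j) (G j ω)) * (ind 1 (g ω) *
          ∑ i ∈ Finset.range (2 * (2 * D₂)), LL hh ρ₀ ξ s n (2 * D₂) m
          (PP s (2 * D₂) u v 1 i) (PP s (2 * D₂) u v 1 (i + 1)) ω) +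
        (∏ j ∈ Finset.range k, ind (sg j) (G j ω)) * (ind (-1) (g ω) *
          ∑ i ∈ Finset.range (2 * (2 * D₂)), LL hh ρ₀ ξ s n (2 * D₂) m
          (PP s (2 * D₂) u v (-1) i) (PP s (2 * D₂) u v (-1) (i + 1)) ω)) ∂P := by
          apply lintegral_congr
          intro ω
          rw [← mul_add]
          simp only [LL, hg]
      _ ≤ ENNReal.ofReal (W * q ^ (m + 1) * ‖u - v‖ * E0 / 2) +
          ENNReal.ofReal (W * q ^ (m + 1) * ‖u - v‖ * E0 / 2) := by
          rw [lintegral_add_left hm1]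
          exact add_le_add (hsum 1 (Or.inl rfl)) (hsum (-1) (Or.inr rfl))
      _ = _ := by
          rw [← ENNReal.ofReal_add (by positivity) (by positivity)]
          congr 1
          ring

end expect

end Pool.Agent.H964.W
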