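import Pool.Agent.H964.WN.Tree

/-!
# The upper bound in the plane
-/

set_option autoImplicit false

namespace Pool.Agent.H964.W

open MeasureTheory ProbabilityTheory Real Filter Topology
open scoped ENNReal NNReal

section chain

variable {E : Type*} [NormedAddCommGroup E] [NormedSpace ℝ E]

theorem DE_chain (ξ : ℝ) {g : E → ℝ} (hg : Continuous g) (U : Set E) (p : ℕ → E) (n : ℕ) :
    DE ξ g U (p 0) (p (n + 1)) ≤ ∑ i ∈ Finset.range (n + 1), DE ξ g U (p i) (p (i + 1)) := by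
  induction n with
  | zero => simp
  | succ n ih =>
    rw [Finset.sum_range_succ]
    exact (DE_triangle ξ hg U _ (p (n + 1)) _).trans (by gcongr)

end chain

variable {Ω : Type*} [MeasurableSpace Ω] {P : Measure Ω} {h : ℕ → ℂ → Ω → ℝ}
variable {κ : ℝ → ℝ} {C ρ₀ : ℝ}

theorem ind_or (x : ℝ) : ind 1 x = 1 ∨ ind (-1) x = 1 := by
  rcases le_total x 0 with hx | hx
  · left; exact ind_of_le (by linarith)
  · right; exact ind_of_le (by linarith)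

/-- the distance is at most the cost of the tree -/
theorem DE_LL (hh : WNF P κ h) (ρ₀ : ℝ) {ξ s : ℝ} (hs : 0 < s) {D : ℕ} (hD : 0 < D)
    (hD64 : lam2 s / D ≤ 1 / 64) {n : ℕ} {ω : Ω} (hc : Continuous fun z => h n z ω) {U : Set ℂ}
    (hU : ∀ z : ℂ, ‖z‖ ≤ 3 / 2 → z ∈ U) (m : ℕ) :
    ∀ (u v : ℂ), RG s u v → 0 < ‖u - v‖ →
      DE ξ (fun z => h n z ω) U u v ≤ LL hh ρ₀ ξ s n D m u v ω := by
  induction m with
  | zero =>
    intro u v hR hL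
    simp only [LL]
    unfold lfc
    apply DE_segment ξ hc U
    intro t ht
    apply hU
    have := hR t ht
    have h3 : 0 ≤ 4 * s * ‖u - v‖ := by positivity
    linarith
  | succ m ih =>
    intro u v hR hL
    have key : ∀ τ : ℝ, (τ = 1 ∨ τ = -1) → DE ξ (fun z => h n z ω) U u v ≤
        ∑ i ∈ Finset.range (2 * D),
        LL hh ρ₀ ξ s n D m (PP s D u v τ i) (PP s D u v τ (i + 1)) ω := by
      intro τ hτ
      have hch := DE_chain ξ hc U (fun i : ℕ => PP s D u v τ i) (2 * D - 1)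
      rw [show 2 * D - 1 + 1 = 2 * D by omega] at hch
      rw [PP_zero, PP_end s hD] at hch
      refine hch.trans ?_
      apply Finset.sum_le_sum
      intro i hi
      rw [Finset.mem_range] at hi
      apply ih
      · exact child_RG hs hL hR hD hD64 hτ hi
      · rw [child_norm hD u v hτ]
        have := lam2_pos s
        positivity
    simp only [LL]
    rcases ind_or (Dl hh ρ₀ s u v ω) with h1 | h1
    · rw [h1, one_mul]
      exact (key 1 (Or.inl rfl)).trans le_self_add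
    · rw [h1, one_mul]
      exact (key (-1) (Or.inr rfl)).trans le_add_self

/-! ### constants -/

/-- the constant `1 - ψ(1)` -/
noncomputable def kap : ℝ := 1 - psi 1

theorem kap_pos : 0 < kap := by unfold kap; have := psi_one_lt; linarith

theorem kap_le : kap ≤ 1 := by unfold kap; have := psi_pos 1; linarith

/-- the branching number -/
noncomputable def Dn (C ρ₀ : ℝ) : ℕ := ⌈96 * (C * ρ₀)⌉₊

/-- the logarithm of the inverse of the ratio of the lengths -/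
noncomputable def tT (C ρ₀ : ℝ) : ℝ := log (4 * Dn C ρ₀)

/-- the constant `a` -/
noncomputable def aU (C ρ₀ : ℝ) : ℝ := kap / (4608 * (C * ρ₀))

/-- the threshold for `ξ` -/
noncomputable def xiU (C ρ₀ : ℝ) : ℝ := min (1 / 64) (aU C ρ₀ ^ 2 / tT C ρ₀ ^ 3)

/-- the constant of the upper bound -/
noncomputable def cU (C ρ₀ : ℝ) : ℝ := aU C ρ₀ ^ (4 / 3 : ℝ) / (4 * tT C ρ₀)

section consts

variable (hκ : Ker κ C ρ₀)
include hκ

theorem Cr_ge : 1 ≤ C * ρ₀ := by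
  have hC := hκ.C1
  have hr := hκ.r1
  nlinarith

omit hκ in
theorem Dn_ge : 96 * (C * ρ₀) ≤ Dn C ρ₀ := Nat.le_ceil _

theorem Dn_ge' : (96 : ℝ) ≤ Dn C ρ₀ := by
  have h1 := Dn_ge (C := C) (ρ₀ := ρ₀)
  have h2 := Cr_ge hκ
  linarith

theorem Dn_pos : 0 < Dn C ρ₀ := by
  have h := Dn_ge' hκ
  by_contra hc
  have : Dn C ρ₀ = 0 := by omega
  rw [this] at h
  norm_num at h

theorem tT_ge : 1 ≤ tT C ρ₀ := by
  unfold tT
  have := Dn_ge' hκ
  rw [Real.le_log_iff_exp_le (by positivity)]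
  have := Real.exp_one_lt_d9
  linarith

theorem aU_pos : 0 < aU C ρ₀ := by
  have := kap_pos
  have := Cr_ge hκ
  unfold aU; positivity

theorem aU_le : aU C ρ₀ ≤ 1 := by
  have := kap_le
  have := Cr_ge hκ
  unfold aU
  rw [div_le_one (by positivity)]
  linarith

theorem xiU_pos : 0 < xiU C ρ₀ := by
  have := aU_pos hκ
  have := tT_ge hκ
  unfold xiU
  apply lt_min (by norm_num)
  positivity

theorem cU_pos : 0 < cU C ρ₀ := by
  have := aU_pos hκ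
  have := tT_ge hκ
  unfold cU
  positivity

end consts

theorem lam2_sq_le {σ : ℝ} : lam2 (σ ^ 2) ≤ 1 / 2 * (1 + 2 * σ ^ 4) := by
  unfold lam2
  rw [Real.sqrt_le_left (by positivity)]
  nlinarith [sq_nonneg (σ ^ 4), sq_nonneg (σ ^ 2)]

theorem q_aux {x : ℝ} (_ : 0 ≤ x) : 1 / 2 * (1 + 2 * x) / 2 * (4 * (1 - 4 * x)) ≤ -(2 * x) + 1 := by
  nlinarith [sq_nonneg x]

/-- the choice of the slope of the tents -/
theorem sigma_exists (hκ : Ker κ C ρ₀) {ξ : ℝ} (hξ : 0 < ξ) (hξ1 : ξ < xiU C ρ₀) :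
    ∃ σ : ℝ, 0 < σ ∧ σ ≤ 1 / 4 ∧ aU C ρ₀ * ξ = σ ^ 3 ∧ ξ * σ ≤ 1 ∧ ξ ^ 2 ≤ σ ^ 4 / tT C ρ₀ ∧
      cU C ρ₀ * ξ ^ (4 / 3 : ℝ) = σ ^ 4 / tT C ρ₀ / 4 := by
  have ha0 := aU_pos hκ
  have ha1 := aU_le hκ
  have hT := tT_ge hκ
  obtain ⟨a, ha⟩ : ∃ a, a = aU C ρ₀ := ⟨_, rfl⟩
  obtain ⟨T, hTdef⟩ : ∃ T, T = tT C ρ₀ := ⟨_, rfl⟩
  have hx1 : ξ < 1 / 64 := lt_of_lt_of_le hξ1 (min_le_left _ _)
  have hx2 : ξ < aU C ρ₀ ^ 2 / tT C ρ₀ ^ 3 := lt_of_lt_of_le hξ1 (min_le_right _ _)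
  have hcU : cU C ρ₀ = aU C ρ₀ ^ (4 / 3 : ℝ) / (4 * tT C ρ₀) := rfl
  rw [hcU]
  rw [← ha] at ha0 ha1 hx2
  rw [← hTdef] at hT hx2
  rw [← ha, ← hTdef]
  obtain ⟨σ, hσ⟩ : ∃ σ, σ = (a * ξ) ^ (1 / 3 : ℝ) := ⟨_, rfl⟩
  have hσ0 : 0 < σ := by rw [hσ]; positivity
  have hσ3 : a * ξ = σ ^ 3 := by
    rw [hσ, ← Real.rpow_natCast, ← Real.rpow_mul (by positivity)]; norm_num
  have hσ1 : σ ≤ 1 / 4 := by
    by_contra hc
    push Not at hc
    have h1 : (1 / 4 : ℝ) ^ 3 < σ ^ 3 := by gcongr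
    have h2 : a * ξ ≤ 1 * (1 / 64) := by gcongr
    rw [← hσ3] at h1
    norm_num at h1 h2
    linarith
  have hσa : σ ≤ a / T := by
    by_contra hc
    push Not at hc
    have h1 : (a / T) ^ 3 < σ ^ 3 := by gcongr
    have h2 : a * ξ ≤ a * (a ^ 2 / T ^ 3) := by gcongr
    rw [← hσ3] at h1
    have h3 : (a / T) ^ 3 = a * (a ^ 2 / T ^ 3) := by field_simp
    linarith
  refine ⟨σ, hσ0, hσ1, hσ3, ?_, ?_, ?_⟩
  · nlinarith
  · have h1 : ξ = σ ^ 3 / a := by rw [← hσ3]; field_simp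
    rw [h1, le_div_iff₀ (by positivity)]
    have h2 : σ * T ≤ a := by
      rwa [le_div_iff₀ (by positivity)] at hσa
    have h3 : (σ * T) ^ 2 ≤ a ^ 2 := by gcongr
    have h4 : σ ^ 2 * T ≤ a ^ 2 := by
      calc σ ^ 2 * T ≤ σ ^ 2 * (T * T) := by gcongr; nlinarith
        _ = (σ * T) ^ 2 := by ring
        _ ≤ _ := h3
    calc (σ ^ 3 / a) ^ 2 * T = σ ^ 4 * (σ ^ 2 * T / a ^ 2) := by field_simp
      _ ≤ σ ^ 4 * 1 := by
          gcongr
          rw [div_le_one (by positivity)]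
          exact h4
      _ = _ := by ring
  · have h1 : σ ^ 4 = a ^ (4 / 3 : ℝ) * ξ ^ (4 / 3 : ℝ) := by
      rw [hσ, ← Real.rpow_natCast, ← Real.rpow_mul (by positivity), ← Real.mul_rpow (by positivity) (by positivity)]
      norm_num
    rw [h1]
    field_simp

/-- eventually -/
theorem ev_exp {c : ℝ} (hc : 0 < c) (K : ℝ) {δ : ℝ} (hδ : 0 < δ) :
    ∀ᶠ n : ℕ in atTop, K * exp (-(c * (n * log 2))) < δ := by
  have hl : 0 < log 2 := Real.log_pos (by norm_num)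
  have h1 : Tendsto (fun n : ℕ => c * ((n : ℝ) * log 2)) atTop atTop := by
    apply Tendsto.const_mul_atTop hc
    exact tendsto_natCast_atTop_atTop.atTop_mul_const hl
  have h2 : Tendsto (fun n : ℕ => K * exp (-(c * ((n : ℝ) * log 2)))) atTop (𝓝 (K * 0)) :=
    (Real.tendsto_exp_neg_atTop_nhds_zero.comp h1).const_mul K
  rw [mul_zero] at h2
  exact h2.eventually (gt_mem_nhds hδ)

theorem upper_plane (hκ : Ker κ C ρ₀) (hh : WNF P κ h) {ξ : ℝ} (hξ : 0 < ξ) (hξ1 : ξ < xiU C ρ₀)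
    (hc : ∀ n, ∀ᵐ ω ∂P, Continuous fun z => h n z ω) :
    ∀ᶠ n : ℕ in atTop, P {ω | ¬ ∃ γ : ℝ → ℂ, PwC1 γ ∧ γ 0 = 0 ∧ γ 1 = 1 ∧
      (∀ t ∈ Set.Icc (0 : ℝ) 1, ‖γ t‖ ≤ 3 / 2) ∧
      len ξ (fun z => h n z ω) γ < (2 : ℝ) ^ (-(cU C ρ₀ * ξ ^ (4 / 3 : ℝ) * n))} ≤
      ENNReal.ofReal (1 / 4) := by
  have hr := hκ.r1
  have hCr := Cr_ge hκ
  obtain ⟨σ, hσ, hσ1, hσξ, hξσ, hξ2, hcU⟩ := sigma_exists hκ hξ hξ1
  have hT := tT_ge hκ
  rw [hcU]
  obtain ⟨T, hTdef⟩ : ∃ T, T = tT C ρ₀ := ⟨_, rfl⟩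
  rw [← hTdef] at hξ2 hT ⊢
  have hT0 : 0 < T := by linarith
  obtain ⟨β, hβ⟩ : ∃ β, β = σ ^ 4 / T := ⟨_, rfl⟩
  rw [← hβ] at hξ2 ⊢
  have hβ0 : 0 < β := by rw [hβ]; positivity
  have hx : σ ^ 4 ≤ 1 / 256 := by
    calc σ ^ 4 ≤ (1 / 4) ^ 4 := by gcongr
      _ = _ := by norm_num
  obtain ⟨Dm, hDm⟩ : ∃ Dm, Dm = Dn C ρ₀ := ⟨_, rfl⟩
  have hD := Dn_pos hκ
  have hD1 := Dn_ge' hκ
  have hD2 := Dn_ge (C := C) (ρ₀ := ρ₀)
  have hTD : T = log (4 * Dm) := by rw [hTdef, hDm]; rfl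
  rw [← hDm] at hD hD1 hD2
  have hDr : (0 : ℝ) < Dm := by exact_mod_cast hD
  have hκp := kap_pos
  obtain ⟨s, hs⟩ : ∃ s, s = σ ^ 2 := ⟨_, rfl⟩
  have hs0 : 0 < s := by rw [hs]; positivity
  have hs1 : s ≤ 1 / 16 := by
    calc s ≤ (1 / 4) ^ 2 := by rw [hs]; gcongr
      _ = _ := by norm_num
  have hsq : √s = σ := by rw [hs, Real.sqrt_sq hσ.le]
  obtain ⟨b, hb⟩ : ∃ b, b = lam2 s / (2 * Dm : ℕ) := ⟨_, rfl⟩
  have hl2 : lam2 s ≤ 3 / 4 := lam2_le hs0.le (by linarith)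
  have hl1 := lam2_ge s
  have hb' : b * (2 * Dm) = lam2 s := by
    rw [hb]; push_cast; field_simp
  have hbD : b ≤ 3 / 8 / Dm := by
    rw [le_div_iff₀ hDr]; linarith
  have hbD' : 1 / (4 * Dm) ≤ b := by
    rw [div_le_iff₀ (by positivity)]
    linarith
  have hb0 : 0 < b := lt_of_lt_of_le (by positivity) hbD'
  have hb1 : b ≤ 1 / (256 * (C * ρ₀)) := by
    refine hbD.trans ?_
    calc 3 / 8 / (Dm : ℝ) ≤ 3 / 8 / (96 * (C * ρ₀)) := by gcongr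
      _ = _ := by field_simp; norm_num
  have hb64 : b ≤ 1 / 64 := by
    refine hb1.trans ?_
    gcongr
    linarith
  obtain ⟨wm, hwm⟩ : ∃ wm, wm = 1 - ξ * √s / (288 * (C * ρ₀)) * (1 - psi 1) := ⟨_, rfl⟩
  have hwm' : wm = 1 - 16 * σ ^ 4 := by
    have h1 : wm = 1 - 16 * (aU C ρ₀ * ξ) * σ := by
      rw [hwm, hsq, aU, kap]
      field_simp
      ring
    rw [h1, hσξ]; ring
  obtain ⟨q, hq⟩ : ∃ q, q = b * (Dm * (wm + 3 * 1)) := ⟨_, rfl⟩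
  have hwm0 : 0 ≤ wm := by rw [hwm']; linarith
  have hq0 : 0 ≤ q := by rw [hq]; positivity
  have hqle : q ≤ exp (-(2 * σ ^ 4)) := by
    have e1 : q = lam2 s / 2 * (wm + 3) := by rw [hq, ← hb']; ring
    have e2 : lam2 s ≤ 1 / 2 * (1 + 2 * σ ^ 4) := by rw [hs]; exact lam2_sq_le
    have e3 : wm + 3 ≤ 4 * (1 - 4 * σ ^ 4) := by rw [hwm']; linarith
    calc q = lam2 s / 2 * (wm + 3) := e1
      _ ≤ 1 / 2 * (1 + 2 * σ ^ 4) / 2 * (4 * (1 - 4 * σ ^ 4)) := by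
          apply mul_le_mul (by linarith) e3 (by positivity) (by positivity)
      _ ≤ -(2 * σ ^ 4) + 1 := q_aux (by positivity)
      _ ≤ _ := Real.add_one_le_exp _
  have hlog2 : 0 < log 2 := Real.log_pos (by norm_num)
  filter_upwards [ev_exp (c := 1 / 2) (by norm_num) (16 * ρ₀) hs0,
    ev_exp (c := β / 4) (by positivity) 3 (by norm_num : (0 : ℝ) < 1 / 4)] with n v1 v2
  obtain ⟨Λ, hΛ⟩ : ∃ Λ, Λ = n * log 2 := ⟨_, rfl⟩
  rw [← hΛ] at v1 v2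
  have hΛ0 : 0 ≤ Λ := by rw [hΛ]; positivity
  -- number of levels
  obtain ⟨m, hm⟩ : ∃ m : ℕ, m = ⌊Λ / (2 * T)⌋₊ := ⟨_, rfl⟩
  have hm1 : (m : ℝ) ≤ Λ / (2 * T) := by rw [hm]; exact Nat.floor_le (by positivity)
  have hm2 : Λ / (2 * T) < m + 1 := by rw [hm]; exact Nat.lt_floor_add_one _
  have hbn : exp (-(1 / 2 * Λ)) ≤ b ^ m := by
    have e1 : (1 / (4 * Dm) : ℝ) = exp (-T) := by
      rw [hTD, Real.exp_neg, Real.exp_log (by positivity), one_div]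
    calc exp (-(1 / 2 * Λ)) ≤ exp (-T) ^ m := by
          rw [← Real.exp_nat_mul]
          apply Real.exp_le_exp.2
          have : (m : ℝ) * T ≤ Λ / (2 * T) * T := by gcongr
          have e : Λ / (2 * T) * T = Λ / 2 := by field_simp
          rw [e] at this
          linarith
      _ = (1 / (4 * Dm)) ^ m := by rw [e1]
      _ ≤ b ^ m := by gcongr
  have hqn : q ^ m ≤ 3 * exp (-(β * Λ)) := by
    calc q ^ m ≤ exp (-(2 * σ ^ 4)) ^ m := by gcongr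
      _ = exp (-(2 * σ ^ 4 * m)) := by rw [← Real.exp_nat_mul]; congr 1; ring
      _ ≤ exp (1 + -(β * Λ)) := by
          apply Real.exp_le_exp.2
          have e1 : 2 * σ ^ 4 * (Λ / (2 * T)) ≤ 2 * σ ^ 4 * (m + 1) := by gcongr
          have e2 : 2 * σ ^ 4 * (Λ / (2 * T)) = β * Λ := by rw [hβ]; field_simp
          rw [e2] at e1
          linarith
      _ = exp 1 * exp (-(β * Λ)) := Real.exp_add _ _
      _ ≤ _ := by
          have := Real.exp_one_lt_d9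
          gcongr
          linarith
  have huv : 0 < ‖(0 : ℂ) - 1‖ := by simp
  have huv' : ‖(0 : ℂ) - 1‖ = 1 := by simp
  have hfuel : 16 * ρ₀ * (1 / 2) ^ n < s * (b ^ m * ‖(0 : ℂ) - 1‖) := by
    have e1 : (1 / 2 : ℝ) ^ n = exp (-(1 / 2 * Λ)) * exp (-(1 / 2 * Λ)) := by
      rw [← Real.exp_add]
      have : -(1 / 2 * Λ) + -(1 / 2 * Λ) = -Λ := by ring
      rw [this, hΛ, Real.exp_neg, Real.exp_nat_mul, Real.exp_log (by norm_num), one_div, inv_pow]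
    rw [huv', mul_one]
    have hep := exp_pos (-(1 / 2 * Λ))
    calc 16 * ρ₀ * (1 / 2) ^ n = (16 * ρ₀ * exp (-(1 / 2 * Λ))) * exp (-(1 / 2 * Λ)) := by
          rw [e1]; ring
      _ < s * exp (-(1 / 2 * Λ)) := by gcongr
      _ ≤ _ := by gcongr
  have hRG : RG s 0 1 := by
    intro t ht
    have e1 : ‖pt (0 : ℂ) 1 t‖ ≤ 1 := norm_pt_le (by simp) (by simp) ht
    rw [huv']
    linarith
  have hI : NI hh C ρ₀ s n 0 (fun _ => 0) (fun _ => 0) (fun _ => false) 0 1 :=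
    NI.zero hh hRG huv
  have hexp := LL_exp (ξ := ξ) hh hκ hs0 hs1 hD hb hb64 hb1 hξ.le (by rw [hsq]; exact hξσ) hwm rfl m 0
    _ _ _ _ _ hI hfuel
  simp only [Finset.range_zero, Finset.prod_empty, one_mul] at hexp
  rw [← hq, huv', mul_one, ← hΛ] at hexp
  have hexp2 : ∫⁻ ω, LL hh ρ₀ ξ s n (2 * Dm) m 0 1 ω ∂P ≤
      ENNReal.ofReal (3 * exp (-(1 / 2 * (β * Λ)))) := by
    refine hexp.trans (ENNReal.ofReal_le_ofReal ?_)
    have e1 : exp (ξ ^ 2 * Λ / 2) ≤ exp (β * Λ / 2) := by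
      apply Real.exp_le_exp.2
      have : ξ ^ 2 * Λ ≤ β * Λ := by gcongr
      linarith
    calc q ^ m * exp (ξ ^ 2 * Λ / 2) ≤ 3 * exp (-(β * Λ)) * exp (β * Λ / 2) := by gcongr
      _ = 3 * (exp (-(β * Λ)) * exp (β * Λ / 2)) := by ring
      _ = _ := by rw [← Real.exp_add]; congr 2; ring
  obtain ⟨t', ht'⟩ : ∃ t', t' = exp (-(β / 4 * Λ)) := ⟨_, rfl⟩
  have ht'0 : 0 < t' := by rw [ht']; exact exp_pos _
  have PL : P {ω | ENNReal.ofReal t' ≤ LL hh ρ₀ ξ s n (2 * Dm) m 0 1 ω} ≤ ENNReal.ofReal (1 / 4) := by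
    refine (meas_ge_le_lintegral_div (LL_measurable hh _ _ _ _ _ _ _ _).aemeasurable
      (by simpa using ht'0) ENNReal.ofReal_ne_top).trans ?_
    refine (ENNReal.div_le_div_right hexp2 _).trans ?_
    rw [← ENNReal.ofReal_div_of_pos ht'0]
    apply ENNReal.ofReal_le_ofReal
    rw [ht', div_le_iff₀ (exp_pos _)]
    have e1 : exp (-(1 / 2 * (β * Λ))) = exp (-(β / 4 * Λ)) * exp (-(β / 4 * Λ)) := by
      rw [← Real.exp_add]; congr 1; ring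
    rw [e1, ← mul_assoc]
    gcongr
  have e2 : t' = (2 : ℝ) ^ (-(β / 4 * n)) := by
    rw [ht', hΛ, Real.rpow_def_of_pos (by norm_num)]
    congr 1; ring
  have hsub : {ω | ¬ ∃ γ : ℝ → ℂ, PwC1 γ ∧ γ 0 = 0 ∧ γ 1 = 1 ∧
      (∀ t ∈ Set.Icc (0 : ℝ) 1, ‖γ t‖ ≤ 3 / 2) ∧
      len ξ (fun z => h n z ω) γ < (2 : ℝ) ^ (-(β / 4 * n))} ⊆
      {ω | ENNReal.ofReal t' ≤ LL hh ρ₀ ξ s n (2 * Dm) m 0 1 ω} ∪
        {ω | ¬ Continuous fun z => h n z ω} := by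
    intro ω hω
    by_contra hcon
    rw [Set.mem_union, not_or] at hcon
    obtain ⟨w2, w3⟩ := hcon
    have w3' : Continuous fun z => h n z ω := by
      by_contra h3
      exact w3 h3
    apply hω
    have hDE := DE_LL hh ρ₀ (ξ := ξ) hs0 (by omega : 0 < 2 * Dm) (by rw [← hb]; exact hb64) w3'
      (U := {z : ℂ | ‖z‖ ≤ 3 / 2}) (fun z hz => hz) m 0 1 hRG huv
    have w2' : LL hh ρ₀ ξ s n (2 * Dm) m 0 1 ω < ENNReal.ofReal t' := not_le.1 w2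
    have hlt := lt_of_le_of_lt hDE w2'
    rw [DE, iInf_lt_iff] at hlt
    obtain ⟨⟨γ, g1, g2, g3, g4⟩, g5⟩ := hlt
    refine ⟨γ, g1, g2, g3, g4, ?_⟩
    rw [← e2]
    exact (ENNReal.ofReal_lt_ofReal_iff ht'0).1 g5
  refine (measure_mono hsub).trans ?_
  refine (measure_union_le _ _).trans ?_
  rw [show P {ω | ¬ Continuous fun z => h n z ω} = 0 from hc n, add_zero]
  exact PL

end Pool.Agent.H964.W
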